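import Pool.Agent.Lib.MP_72b52d_lc.CR.Meas

/-!
# MP_72b52d_lc : big sets of successors and positive trees
-/

namespace Pool.Agent.CR

variable {I : Type} [LinearOrder I]

theorem Ft.mono {k m : ℕ} {A B : Set W} (h : A ⊆ B) {n : ℕ} {s : W} (hA : Ft k m A n s) :
    Ft k m B n s := by
  induction n generalizing s with
  | zero => obtain ⟨a, ha, h'⟩ := hA; exact ⟨a, h ha, h'⟩
  | succ n ih =>
    obtain ⟨⟨a, ha, h'⟩, D, hD, hk, h2⟩ := hA
    exact ⟨⟨a, h ha, h'⟩, D, hD, hk, fun d hd => ih (h2 d hd)⟩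

theorem Ft.anti {k k' m : ℕ} (h : k' ≤ k) {A : Set W} {n : ℕ} {s : W} (hA : Ft k m A n s) :
    Ft k' m A n s := by
  induction n generalizing s with
  | zero => exact hA
  | succ n ih =>
    obtain ⟨h', D, hD, hk, h2⟩ := hA
    exact ⟨h', D, hD, h.trans hk, fun d hd => ih (h2 d hd)⟩

theorem Ft.down {k m : ℕ} {A : Set W} {n : ℕ} {s : W} (hA : Ft k m A (n + 1) s) :
    Ft k m A n s := by
  induction n generalizing s with
  | zero => exact hA.1
  | succ n ih =>
    obtain ⟨h', D, hD, hk, h2⟩ := hA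
    exact ⟨h', D, hD, hk, fun d hd => ih (h2 d hd)⟩

theorem Ft.le {k m : ℕ} {A : Set W} {n n' : ℕ} (h : n' ≤ n) {s : W} (hA : Ft k m A n s) :
    Ft k m A n' s := by
  induction n, h using Nat.le_induction with
  | base => exact hA
  | succ n _ ih => exact ih hA.down

/-- the infinite version of `Ft`: above `s` there is an infinite tree of initial segments of
elements of `A` in which every node has at least `k` immediate successors -/
def FtI (k m : ℕ) (A : Set W) (s : W) : Prop := ∀ n, Ft k m A n s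

theorem FtI.ext {k m : ℕ} {A : Set W} {s : W} (h : FtI k m A s) : ∃ a ∈ A, s <+: a := h 0

/-- every node of the fat tree has at least `k` successors in the fat tree -/
theorem FtI.succ {k m : ℕ} {A : Set W} {s : W} (h : FtI k m A s) :
    ∃ D : Finset ℕ, D ⊆ Finset.range (bs (m + s.length)) ∧ k ≤ D.card ∧
      ∀ d ∈ D, FtI k m A (s ++ [d]) := by
  classical
  let D := (Finset.range (bs (m + s.length))).filter (fun d => FtI k m A (s ++ [d]))
  refine ⟨D, Finset.filter_subset _ _, ?_, fun d hd => (Finset.mem_filter.1 hd).2⟩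
  -- for every `d` outside `D` there is a bound
  have hb : ∀ d, ∃ n, ¬ FtI k m A (s ++ [d]) → ¬ Ft k m A n (s ++ [d]) := by
    intro d
    by_cases hd : FtI k m A (s ++ [d])
    · exact ⟨0, fun h => absurd hd h⟩
    · obtain ⟨n, hn⟩ := not_forall.1 hd
      exact ⟨n, fun _ => hn⟩
  choose g hg using hb
  let N := (Finset.range (bs (m + s.length))).sup g
  obtain ⟨_, D', hD', hk, h2⟩ := h (N + 1)
  refine hk.trans (Finset.card_le_card fun d hd => ?_)
  have hd' := hD' hd
  refine Finset.mem_filter.2 ⟨hd', ?_⟩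
  by_contra hc
  exact hg d hc ((h2 d hd).le (Finset.le_sup (f := g) hd'))

theorem FtI_of_succ {k m : ℕ} {A : Set W} (S : Set W) (hA : ∀ s ∈ S, ∃ a ∈ A, s <+: a)
    (hS : ∀ s ∈ S, ∃ D : Finset ℕ, D ⊆ Finset.range (bs (m + s.length)) ∧ k ≤ D.card ∧
      ∀ d ∈ D, s ++ [d] ∈ S) {s : W} (hs : s ∈ S) : FtI k m A s := by
  intro n
  induction n generalizing s with
  | zero => exact hA s hs
  | succ n ih =>
    obtain ⟨D, h1, h2, h3⟩ := hS s hs
    exact ⟨hA s hs, D, h1, h2, fun d hd => ih (h3 d hd)⟩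

theorem big_iff {k : ℕ} {τ : Node} {A : Set W} : Big k τ A ↔ ∃ w, FtI k τ.flatten.length A w :=
  Iff.rfl

theorem Big.mono {k : ℕ} {τ : Node} {A B : Set W} (h : A ⊆ B) (hA : Big k τ A) : Big k τ B := by
  obtain ⟨w, hw⟩ := hA; exact ⟨w, fun n => (hw n).mono h⟩

theorem Big.anti {k k' : ℕ} (h : k' ≤ k) {τ : Node} {A : Set W} (hA : Big k τ A) : Big k' τ A := by
  obtain ⟨w, hw⟩ := hA; exact ⟨w, fun n => (hw n).anti h⟩

theorem Big.nonempty {k : ℕ} {τ : Node} {A : Set W} (hA : Big k τ A) : A.Nonempty := by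
  obtain ⟨w, hw⟩ := hA
  obtain ⟨a, ha, _⟩ := hw 0
  exact ⟨a, ha⟩

theorem Big.univ (k : ℕ) (τ : Node) : Big k τ Set.univ := by
  refine ⟨List.replicate k 0, ?_⟩
  refine FtI_of_succ {s | k ≤ s.length} (fun s _ => ⟨s, trivial, List.prefix_rfl⟩) ?_ (by simp)
  intro s hs
  refine ⟨Finset.range (bs (τ.flatten.length + s.length)), le_rfl, ?_, fun d _ => ?_⟩
  · simp only [Finset.card_range, bs]
    have : k ≤ s.length := hs
    omega
  · have : k ≤ s.length := hs
    simp only [Set.mem_ofPred_eq, List.length_append, List.length_cons, List.length_nil]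
    omega

theorem Ft.ms {ξ : I} {A : (I → Y) → Set W} (hA : ∀ w, MS ξ {z | w ∈ A z}) (k m n : ℕ) (s : W) :
    MS ξ {z | Ft k m (A z) n s} := by
  have h0 : ∀ s : W, MS ξ {z | ∃ a ∈ A z, s <+: a} := by
    intro s
    have : {z | ∃ a ∈ A z, s <+: a} = {z | ∃ a, a ∈ A z ∧ s <+: a} := rfl
    rw [this]
    exact MS.ex fun a => (hA a).and (MS.const _ _)
  induction n generalizing s with
  | zero => exact h0 s
  | succ n ih =>
    refine (h0 s).and (MS.ex fun D => (MS.const _ _).and ((MS.const _ _).and ?_))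
    exact MS.all fun d => MS.all fun _ => ih _

theorem Big.ms {ξ : I} {A : (I → Y) → Set W} (hA : ∀ w, MS ξ {z | w ∈ A z}) (k : ℕ) (τ : Node) :
    MS ξ {z | Big k τ (A z)} :=
  MS.ex fun w => MS.all fun n => Ft.ms hA _ _ _ _

theorem Pos.univ : Pos Set.univ where
  nil := trivial
  closed _ _ _ _ := trivial
  big σ _ k := ⟨σ, trivial, List.prefix_rfl, by simpa using Big.univ k σ⟩

theorem cutT_sub (T : Set Node) (σ : Node) : cutT T σ ⊆ T := fun _ h => h.1

theorem Pos.cut {T : Set Node} (hT : Pos T) (σ : Node) : Pos (cutT T σ) := by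
  by_cases hσ : σ ∈ T
  · refine ⟨⟨hT.nil, fun _ => Or.inl List.nil_prefix⟩, ?_, ?_⟩
    · rintro a b hab ⟨hb, hb'⟩
      refine ⟨hT.closed a b hab hb, fun _ => ?_⟩
      rcases hb' hσ with h | h
      · exact Or.inl (hab.trans h)
      · rcases List.prefix_or_prefix_of_prefix hab h with h | h
        · exact Or.inl h
        · exact Or.inr h
    · rintro a ⟨ha, ha'⟩ k
      -- first extend `a` to a node above `σ`
      have : ∃ b ∈ T, a <+: b ∧ σ <+: b := by
        rcases ha' hσ with h | h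
        · exact ⟨σ, hσ, h, List.prefix_rfl⟩
        · exact ⟨a, ha, List.prefix_rfl, h⟩
      obtain ⟨b, hb, hab, hσb⟩ := this
      obtain ⟨c, hc, hbc, hB⟩ := hT.big b hb k
      refine ⟨c, ⟨hc, fun _ => Or.inr (hσb.trans hbc)⟩, hab.trans hbc, hB.mono ?_⟩
      intro w hw
      exact ⟨hw, fun _ => Or.inr ((hσb.trans hbc).trans (List.prefix_append _ _))⟩
  · have : cutT T σ = T := by
      ext a; simp [cutT, hσ]
    rw [this]; exact hT

/-- every node of a positive tree has a proper extension in the tree -/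
theorem Pos.next {T : Set Node} (hT : Pos T) {σ : Node} (hσ : σ ∈ T) : ∃ w, σ ++ [w] ∈ T := by
  obtain ⟨τ, hτ, hp, hB⟩ := hT.big σ hσ 0
  obtain ⟨w, hw⟩ := hB.nonempty
  obtain ⟨l, rfl⟩ := hp
  cases l with
  | nil => exact ⟨w, by simpa using hw⟩
  | cons a l =>
    refine ⟨a, hT.closed _ _ ?_ hτ⟩
    exact ⟨l, by simp⟩

theorem Pos.branch' {T : Set Node} (hT : Pos T) {σ : Node} (hσ : σ ∈ T) :
    ∃ y : Y, (∀ n, pre y n ∈ T) ∧ pre y σ.length = σ := by
  classical
  -- the sequence of nodes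
  choose! f hf using fun (τ : Node) (h : τ ∈ T) => hT.next h
  let g : ℕ → Node := fun n => Nat.rec σ (fun _ τ => τ ++ [f τ]) n
  have g0 : g 0 = σ := rfl
  have gs : ∀ n, g (n + 1) = g n ++ [f (g n)] := fun n => rfl
  have gT : ∀ n, g n ∈ T := by
    intro n; induction n with
    | zero => exact hσ
    | succ n ih => rw [gs]; exact hf _ ih
  have gl : ∀ n, (g n).length = σ.length + n := by
    intro n; induction n with
    | zero => simp [g0]
    | succ n ih => rw [gs]; simp [ih]; omega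
  have gp : ∀ m n, m ≤ n → g m <+: g n := by
    intro m n h; induction n, h using Nat.le_induction with
    | base => exact List.prefix_rfl
    | succ n _ ih => rw [gs]; exact ih.trans (List.prefix_append _ _)
  let y : Y := fun i => (g (i + 1)).getD i []
  have hy : ∀ n, pre y (σ.length + n) = g n := by
    intro n
    rw [pre_eq_iff]
    refine ⟨gl n, fun i hi => ?_⟩
    have h1 : i < (g (i + 1)).length := by have := gl (i + 1); omega
    show (g (i + 1)).getD i [] = _
    rw [List.getD_eq_getElem _ _ h1]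
    rcases le_total n (i + 1) with h | h
    · exact ((gp _ _ h).getElem hi).symm
    · exact (gp _ _ h).getElem h1
  refine ⟨y, fun n => ?_, ?_⟩
  · exact hT.closed _ _ (pre_prefix y (by omega : n ≤ σ.length + n)) (by rw [hy]; exact gT n)
  · have := hy 0
    simpa [g0] using this

theorem Pos.branch {T : Set Node} (hT : Pos T) : ∃ y : Y, ∀ n, pre y n ∈ T := by
  obtain ⟨y, hy, _⟩ := hT.branch' hT.nil
  exact ⟨y, hy⟩

end Pool.Agent.CR
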