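import Pool.Agent.Lib.MP_72b52d_lc.CR.Defs2
import Pool.Agent.Lib.MP_72b52d_lc.CR.Ops

/-!
# MP_72b52d_lc, piece R4: the index set and the closing argument (helper87)
-/

namespace Pool.Agent.CR

open Cardinal

/-- a well order of successor cardinality -/
theorem exists_wo (κ : Cardinal.{0}) (hκ : ℵ₀ ≤ κ) : ∃ (J : Type) (_ : LinearOrder J)
    (_ : WellFoundedLT J), Nonempty J ∧ #J = Order.succ κ ∧ (∀ j : J, #(Set.Iio j) ≤ κ) ∧
      ∀ S : Set J, #S ≤ κ → ∃ y, ∀ x ∈ S, x < y := by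
  refine ⟨(Order.succ κ).ord.ToType, inferInstance, inferInstance, ?_, ?_, ?_, ?_⟩
  · rw [Ordinal.nonempty_toType_iff]
    intro h
    rw [Cardinal.ord_eq_zero] at h
    exact (Order.succ_ne_bot κ) h
  · exact mk_ord_toType _
  · intro j
    have := Cardinal.mk_Iio_lt j (by simp)
    rw [mk_ord_toType] at this
    exact Order.lt_succ_iff.1 this
  · intro S hS
    by_contra hcon
    push Not at hcon
    have hJ : #((Order.succ κ).ord.ToType) = Order.succ κ := mk_ord_toType _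
    have hIic : ∀ j : (Order.succ κ).ord.ToType, #(Set.Iic j) ≤ κ := by
      intro j
      have h1 : #(Set.Iio j) ≤ κ := by
        have := Cardinal.mk_Iio_lt j (by simp)
        rw [mk_ord_toType] at this
        exact Order.lt_succ_iff.1 this
      have h2 : Set.Iic j = Set.Iio j ∪ {j} := by
        ext x
        simp [le_iff_lt_or_eq]
      rw [h2]
      refine (mk_union_le _ _).trans ?_
      rw [mk_singleton]
      exact add_le_of_le hκ h1 (one_le_aleph0.trans hκ)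
    have hun : (Set.univ : Set (Order.succ κ).ord.ToType) = ⋃ x ∈ S, Set.Iic x := by
      ext y
      simp only [Set.mem_univ, Set.mem_iUnion, Set.mem_Iic, true_iff]
      obtain ⟨x, hx, hxy⟩ := hcon y
      exact ⟨x, hx, hxy⟩
    have h3 : #((Order.succ κ).ord.ToType) ≤ κ := by
      rw [← mk_univ, hun]
      refine (mk_biUnion_le _ _).trans ?_
      have h4 : (⨆ x : S, #(Set.Iic (x : (Order.succ κ).ord.ToType))) ≤ κ :=
        ciSup_le' fun x => hIic _
      exact (mul_le_mul' hS h4).trans (mul_eq_self hκ).le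
    rw [hJ] at h3
    exact absurd h3 (not_le.2 (Order.lt_succ κ))

theorem exists_index : ∃ (I : Type) (_ : LinearOrder I) (_ : WellFoundedLT I) (_ : OrderTop I)
    (_ : OrderBot I), (⊥ : I) < ⊤ ∧ BigIx I := by
  classical
  obtain ⟨J, hlo, hwf, hne, hcard, hsm, hreg⟩ := exists_wo continuum aleph0_le_continuum
  have hbot : Nonempty (OrderBot J) := by
    obtain ⟨m, -, hm⟩ := (IsWellFounded.wf (r := (· < · : J → J → Prop))).has_min Set.univ
      Set.univ_nonempty
    exact ⟨{ bot := m, bot_le := fun a => not_lt.1 (hm a trivial) }⟩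
  obtain ⟨hb⟩ := hbot
  refine ⟨WithTop J, inferInstance, inferInstance, inferInstance, inferInstance, ?_, ?_, ?_⟩
  · rw [← WithTop.coe_bot]
    exact WithTop.coe_lt_top _
  · intro α hα
    obtain ⟨j, rfl⟩ := WithTop.ne_top_iff_exists.1 hα.ne
    have h1 : Set.Iio (j : WithTop J) = (WithTop.some : J → WithTop J) '' Set.Iio j :=
      WithTop.image_coe_Iio.symm
    rw [h1]
    exact mk_image_le.trans (hsm j)
  · intro S hS hlt
    obtain ⟨y, hy⟩ := hreg ((WithTop.some : J → WithTop J) ⁻¹' S)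
      ((mk_preimage_of_injective _ _ WithTop.coe_injective).trans hS)
    refine ⟨(y : WithTop J), WithTop.coe_lt_top _, fun x hx => ?_⟩
    obtain ⟨j, rfl⟩ := WithTop.ne_top_iff_exists.1 (hlt x hx).ne
    exact WithTop.coe_lt_coe.2 (hy j hx)

variable {I : Type} [LinearOrder I]

/-- every countable set below `α` is bounded below `α` -/
def CB (α : I) : Prop := ∀ S : Set I, S.Countable → (∀ x ∈ S, x < α) → ∃ y < α, ∀ x ∈ S, x < y

theorem CB.level {α : I} (h : CB α) {ι : Type*} [Countable ι] {P : ι → I → Prop}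
    (hmono : ∀ i β β', β ≤ β' → P i β → P i β') (hP : ∀ i, ∃ β < α, P i β) :
    ∃ β < α, ∀ i, P i β := by
  choose b hb hb' using hP
  obtain ⟨y, hy, hy'⟩ := h (Set.range b) (Set.countable_range b) (by
    rintro _ ⟨i, rfl⟩
    exact hb i)
  exact ⟨y, hy, fun i => hmono i _ _ (hy' _ ⟨i, rfl⟩).le (hb' i)⟩

theorem ms_level {α : I} (h : CB α) {A : Set (I → Y)} (hA : MS α A) : ∃ β < α, MS β A := by
  have h0 : ∃ β, β < α := by
    obtain ⟨y, hy, -⟩ := h ∅ Set.countable_empty (by simp)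
    exact ⟨y, hy⟩
  refine MeasurableSpace.generateFrom_induction
    {A : Set (I → Y) | ∃ η < α, ∃ (n : ℕ) (w : W), A = {z | z η n = w}}
    (fun t _ => ∃ β < α, MS β t) ?_ ?_ ?_ ?_ A hA
  · rintro t ⟨η, hη, n, w, rfl⟩ _
    obtain ⟨y, hy, hy'⟩ := h {η} (Set.countable_singleton _) (by simpa using hη)
    exact ⟨y, hy, MS.coord (hy' η rfl) n w⟩
  · obtain ⟨β, hβ⟩ := h0
    exact ⟨β, hβ, MS.empty β⟩
  · rintro t _ ⟨β, hβ, ht⟩
    exact ⟨β, hβ, ht.compl⟩
  · intro s _ ih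
    obtain ⟨β, hβ, hs⟩ := h.level (P := fun n β => MS β (s n)) (fun i β β' hle hp => hp.mono hle) ih
    exact ⟨β, hβ, MS.iUnion hs⟩

theorem low_level {α : I} (h : CB α) {q : Cond I} (hq : Low α q) : ∃ β < α, Low β q := by
  obtain ⟨y, hy, hy'⟩ := h {ξ | ∃ z, q.C ξ z ≠ Set.univ} q.supp (by
    rintro ξ ⟨z, hz⟩
    by_contra hlt
    exact hz (hq ξ (not_lt.1 hlt) z))
  refine ⟨y, hy, fun ξ hξ z => ?_⟩
  by_contra hne
  exact absurd (hy' ξ ⟨z, hne⟩) (not_lt.2 hξ)

private theorem cl_mc_mono {α β : I} (h : α ≤ β) {U : ℕ → ℚ → ℚ → Set (I → Y)} (hU : MC α U) : MC β U :=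
  fun n a b => (hU n a b).mono h

private theorem cl_mr_mono {α β : I} (h : α ≤ β) {f : (I → Y) → ℝ} (hf : MR α f) : MR β f :=
  fun a => (hf a).mono h

theorem mc_level {α : I} (h : CB α) {U : ℕ → ℚ → ℚ → Set (I → Y)} (hU : MC α U) :
    ∃ β < α, MC β U := by
  obtain ⟨β, hβ, hs⟩ := h.level (P := fun (i : ℕ × ℚ × ℚ) β => MS β (U i.1 i.2.1 i.2.2))
    (fun i β β' hle hp => hp.mono hle) (fun i => ms_level h (hU _ _ _))
  exact ⟨β, hβ, fun n a b => hs (n, a, b)⟩

theorem mr_level {α : I} (h : CB α) {f : (I → Y) → ℝ} (hf : MR α f) : ∃ β < α, MR β f := by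
  obtain ⟨β, hβ, hs⟩ := h.level (P := fun (i : ℚ) β => MS β {z | f z < i})
    (fun i β β' hle hp => hp.mono hle) (fun i => ms_level h (hf i))
  exact ⟨β, hβ, hs⟩

/-! ### counting -/

theorem card_ms {β : I} (hβ : #(Set.Iio β) ≤ continuum) :
    #{A : Set (I → Y) // MS β A} ≤ continuum := by
  refine MeasurableSpace.cardinal_measurableSet_le_continuum (α := I → Y) ?_
  let g : (Set.Iio β × ℕ × W) → Set (I → Y) := fun t => {z | z t.1 t.2.1 = t.2.2}
  have hsub : {A : Set (I → Y) | ∃ η < β, ∃ (n : ℕ) (w : W), A = {z | z η n = w}} ⊆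
      Set.range g := by
    rintro A ⟨η, hη, n, w, rfl⟩
    exact ⟨(⟨η, hη⟩, n, w), rfl⟩
  refine (mk_le_mk_of_subset hsub).trans (mk_range_le.trans ?_)
  rw [mk_prod, mk_prod]
  simp only [lift_id, mk_eq_aleph0, aleph0_mul_aleph0]
  exact (mul_le_mul' hβ aleph0_le_continuum).trans (mul_eq_self aleph0_le_continuum).le

theorem card_fun {ι T : Type} [Countable ι] (hT : #T ≤ continuum) : #(ι → T) ≤ continuum := by
  rw [← power_def]
  calc #T ^ #ι ≤ continuum ^ #ι := power_le_power_right hT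
    _ ≤ continuum ^ ℵ₀ := power_le_power_left continuum_ne_zero (mk_le_aleph0)
    _ = continuum := continuum_power_aleph0

theorem card_mc {β : I} (hβ : #(Set.Iio β) ≤ continuum) :
    #{U : ℕ → ℚ → ℚ → Set (I → Y) // MC β U} ≤ continuum := by
  let g : {U : ℕ → ℚ → ℚ → Set (I → Y) // MC β U} → (ℕ × ℚ × ℚ → {A : Set (I → Y) // MS β A}) :=
    fun U i => ⟨U.1 i.1 i.2.1 i.2.2, U.2 _ _ _⟩
  have hg : Function.Injective g := by
    intro U U' h
    apply Subtype.ext
    funext n a b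
    exact congrArg Subtype.val (congrFun h (n, a, b))
  exact (mk_le_of_injective hg).trans (card_fun (card_ms hβ))

theorem card_low {β : I} (hβ : #(Set.Iio β) ≤ continuum) :
    #{q : Cond I // Low β q} ≤ continuum := by
  classical
  -- codes
  let T := (ℕ → Option (Set.Iio β)) × (ℕ × Node → {A : Set (I → Y) // MS β A})
  have hT : #T ≤ continuum := by
    have h1 : #(Option (Set.Iio β)) ≤ continuum := by
      rw [mk_option]
      exact add_le_of_le aleph0_le_continuum hβ (one_le_aleph0.trans aleph0_le_continuum)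
    have h2 : #T = #(ℕ → Option (Set.Iio β)) * #(ℕ × Node → {A : Set (I → Y) // MS β A}) := by
      simp [T]
    rw [h2]
    exact (mul_le_mul' (card_fun h1) (card_fun (card_ms hβ))).trans
      (mul_eq_self aleph0_le_continuum).le
  let dec : T → I → (I → Y) → Set Node := fun t ξ z =>
    {σ | ∀ n, (∃ h : ξ < β, t.1 n = some ⟨ξ, h⟩) → z ∈ (t.2 (n, σ)).1}
  have hdec : ∀ q : {q : Cond I // Low β q}, ∃ t : T, dec t = q.1.C := by
    rintro ⟨q, hq⟩
    have hsupp : ∀ ξ z, q.C ξ z ≠ Set.univ → ξ < β := by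
      intro ξ z hz
      by_contra hlt
      exact hz (hq ξ (not_lt.1 hlt) z)
    -- enumerate the support
    have hcount : {x : Set.Iio β | ∃ z, q.C x.1 z ≠ Set.univ}.Countable := by
      have := q.supp.preimage (f := (Subtype.val : Set.Iio β → I)) Subtype.val_injective
      exact this
    have hen : ∃ e : ℕ → Option (Set.Iio β), ∀ x : Set.Iio β, (∃ z, q.C x.1 z ≠ Set.univ) →
        ∃ n, e n = some x := by
      have := hcount.to_subtype
      rcases isEmpty_or_nonempty {x : Set.Iio β | ∃ z, q.C x.1 z ≠ Set.univ} with he | hne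
      · refine ⟨fun _ => none, fun x hx => ?_⟩
        exact (he.false ⟨x, hx⟩).elim
      · obtain ⟨f, hf⟩ := exists_surjective_nat {x : Set.Iio β | ∃ z, q.C x.1 z ≠ Set.univ}
        refine ⟨fun n => some (f n).1, fun x hx => ?_⟩
        obtain ⟨n, hn⟩ := hf ⟨x, hx⟩
        exact ⟨n, congrArg (fun t => some t.1) hn⟩
    obtain ⟨e, he⟩ := hen
    let g : ℕ × Node → {A : Set (I → Y) // MS β A} := fun t =>
      match e t.1 with
      | none => ⟨Set.univ, MS.univ β⟩
      | some x => ⟨{z | t.2 ∈ q.C x.1 z}, (q.meas x.1 t.2).mono (le_of_lt x.2)⟩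
    refine ⟨(e, g), ?_⟩
    funext ξ z
    ext σ
    have hg : ∀ n (x : Set.Iio β), e n = some x → ((g (n, σ)).1 = {z | σ ∈ q.C x.1 z}) := by
      intro n x hx
      simp only [g, hx]
    constructor
    · intro h
      by_contra hno
      have hne : q.C ξ z ≠ Set.univ := by
        intro hu
        rw [hu] at hno
        exact hno trivial
      have hξ := hsupp ξ z hne
      obtain ⟨n, hn⟩ := he ⟨ξ, hξ⟩ ⟨z, hne⟩
      have h1 := h n ⟨hξ, hn⟩
      rw [hg n ⟨ξ, hξ⟩ hn] at h1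
      exact hno h1
    · intro h n hn
      obtain ⟨hξ, hn⟩ := hn
      change z ∈ (g (n, σ)).1
      rw [hg n ⟨ξ, hξ⟩ hn]
      exact h
  choose c hc using hdec
  have hinj : Function.Injective c := by
    intro q q' h
    apply Subtype.ext
    apply Cond.ext
    rw [← hc q, ← hc q', h]
  exact (mk_le_of_injective hinj).trans hT

variable [OrderTop I]

theorem cb_top (hI : BigIx I) : CB (⊤ : I) := fun S hS hlt =>
  hI.reg S ((le_aleph0_iff_set_countable.2 hS).trans aleph0_le_continuum) hlt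

variable [WellFoundedLT I]

theorem closing (hI : BigIx I) (h0 : ∃ x : I, x < ⊤)
    (Φ : Cond I → (ℕ → ℚ → ℚ → Set (I → Y)) → Cond I × ((I → Y) → ℝ))
    (hΦ : ∀ q U, Low ⊤ q → MC ⊤ U → Low ⊤ (Φ q U).1 ∧ MR ⊤ (Φ q U).2) (p : Cond I)
    (hp : Low ⊤ p) : ∃ α < (⊤ : I), Low α p ∧
      ∀ q U, Low α q → MC α U → Low α (Φ q U).1 ∧ MR α (Φ q U).2 := by
  classical
  have hcb := cb_top hI
  -- levels of the values
  have hval : ∀ q U, Low ⊤ q → MC ⊤ U → ∃ γ < (⊤ : I), Low γ (Φ q U).1 ∧ MR γ (Φ q U).2 := by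
    intro q U hq hU
    obtain ⟨h1, h2⟩ := hΦ q U hq hU
    obtain ⟨γ1, hγ1, h1'⟩ := low_level hcb h1
    obtain ⟨γ2, hγ2, h2'⟩ := mr_level hcb h2
    exact ⟨max γ1 γ2, max_lt hγ1 hγ2, h1'.mono (le_max_left _ _), cl_mr_mono (le_max_right _ _) h2'⟩
  choose! γ hγ hγ1 hγ2 using hval
  have hstep : ∀ β : {x : I // x < ⊤}, ∃ y : {x : I // x < ⊤}, β.1 < y.1 ∧
      ∀ q U, Low β.1 q → MC β.1 U → Low y.1 (Φ q U).1 ∧ MR y.1 (Φ q U).2 := by
    rintro ⟨β, hβ⟩
    have hβc := hI.small β hβ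
    let g : ({q : Cond I // Low β q} × {U : ℕ → ℚ → ℚ → Set (I → Y) // MC β U}) → I :=
      fun t => γ t.1.1 t.2.1
    have hS : #(Set.range g ∪ {β} : Set I) ≤ continuum := by
      refine (mk_union_le _ _).trans ?_
      rw [mk_singleton]
      refine add_le_of_le aleph0_le_continuum (mk_range_le.trans ?_)
        (one_le_aleph0.trans aleph0_le_continuum)
      rw [mk_prod, lift_id, lift_id]
      exact (mul_le_mul' (card_low hβc) (card_mc hβc)).trans (mul_eq_self aleph0_le_continuum).le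
    obtain ⟨y, hy, hy'⟩ := hI.reg _ hS (by
      rintro x (⟨t, rfl⟩ | hx)
      · exact hγ _ _ (t.1.2.mono hβ.le) (cl_mc_mono hβ.le t.2.2)
      · rw [Set.mem_singleton_iff.1 hx]; exact hβ)
    refine ⟨⟨y, hy⟩, hy' β (Or.inr rfl), fun q U hq hU => ?_⟩
    have h1 : γ q U < y := hy' _ (Or.inl ⟨(⟨q, hq⟩, ⟨U, hU⟩), rfl⟩)
    exact ⟨(hγ1 q U (hq.mono hβ.le) (cl_mc_mono hβ.le hU)).mono h1.le,
      cl_mr_mono h1.le (hγ2 q U (hq.mono hβ.le) (cl_mc_mono hβ.le hU))⟩
  choose h hh1 hh2 using hstep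
  obtain ⟨b0, hb0, hpb⟩ := low_level hcb hp
  -- a chain of length `ω₁`
  obtain ⟨J, hlo, hwf, hne, hcard, hsm, hreg⟩ := exists_wo ℵ₀ le_rfl
  have hnext : ∀ (j : J) (f : (i : J) → i < j → {x : I // x < ⊤}), ∃ y : {x : I // x < ⊤},
      b0 ≤ y.1 ∧ ∀ i (hi : i < j), (h (f i hi)).1 < y.1 := by
    intro j f
    have hc : Countable (Set.Iio j) := by
      rw [← mk_le_aleph0_iff]
      exact hsm j
    obtain ⟨y, hy, hy'⟩ := hcb (Set.range (fun i : Set.Iio j => (h (f i.1 i.2)).1) ∪ {b0})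
      ((Set.countable_range _).union (Set.countable_singleton _)) (by
      rintro x (⟨t, rfl⟩ | hx)
      · exact (h _).2
      · rw [Set.mem_singleton_iff.1 hx]; exact hb0)
    exact ⟨⟨y, hy⟩, (hy' b0 (Or.inr rfl)).le, fun i hi => hy' _ (Or.inl ⟨⟨i, hi⟩, rfl⟩)⟩
  choose F hF1 hF2 using hnext
  let a : J → {x : I // x < ⊤} := fun j => (IsWellFounded.wf (r := (· < · : J → J → Prop))).fix F j
  have ha : ∀ j, a j = F j (fun i _ => a i) := fun j =>
    (IsWellFounded.wf (r := (· < · : J → J → Prop))).fix_eq F j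
  have ha0 : ∀ j, b0 ≤ (a j).1 := fun j => by rw [ha j]; exact hF1 _ _
  have ha1 : ∀ i j, i < j → (h (a i)).1 < (a j).1 := fun i j hij => by
    conv_rhs => rw [ha j]
    exact hF2 j (fun i _ => a i) i hij
  have hamono : ∀ i j, i < j → (a i).1 < (a j).1 := fun i j hij => (hh1 _).trans (ha1 i j hij)
  have hbound : ∃ y < (⊤ : I), ∀ j, (a j).1 ≤ y := by
    obtain ⟨y, hy, hy'⟩ := hI.reg (Set.range fun j => (a j).1) (mk_range_le.trans (by
      rw [hcard]
      exact Order.succ_le_of_lt aleph0_lt_continuum)) (by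
      rintro _ ⟨j, rfl⟩
      exact (a j).2)
    exact ⟨y, hy, fun j => (hy' _ ⟨j, rfl⟩).le⟩
  obtain ⟨y, hy, hy'⟩ := hbound
  obtain ⟨α, hα, hmin⟩ := (IsWellFounded.wf (r := (· < · : I → I → Prop))).has_min
    {x : I | ∀ j, (a j).1 ≤ x} ⟨y, hy'⟩
  have hlt : ∀ β < α, ∃ j, β < (a j).1 := by
    intro β hβ
    by_contra hno
    push Not at hno
    exact hmin β hno hβ
  have hnext' : ∀ i : J, ∃ j, i < j := by
    intro i
    obtain ⟨j, hj⟩ := hreg {i} (by rw [mk_singleton]; exact one_le_aleph0)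
    exact ⟨j, hj i rfl⟩
  have haα : ∀ j, (a j).1 < α := by
    intro j
    obtain ⟨j', hj'⟩ := hnext' j
    exact (hamono j j' hj').trans_le (hα j')
  have hhα : ∀ j, (h (a j)).1 ≤ α := by
    intro j
    obtain ⟨j', hj'⟩ := hnext' j
    exact (ha1 j j' hj').le.trans (hα j')
  have hcbα : CB α := by
    intro S hS hSα
    have hch : ∀ x : S, ∃ j, x.1 < (a j).1 := fun x => hlt x.1 (hSα x.1 x.2)
    choose js hjs using hch
    have := hS.to_subtype
    obtain ⟨j, hj⟩ := hreg (Set.range js) (le_aleph0_iff_set_countable.2 (Set.countable_range js))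
    refine ⟨(a j).1, haα j, fun x hx => ?_⟩
    exact (hjs ⟨x, hx⟩).trans (hamono _ _ (hj _ ⟨⟨x, hx⟩, rfl⟩))
  obtain ⟨j0⟩ := hne
  refine ⟨α, lt_of_le_of_lt (not_lt.1 fun h' => hmin y hy' h') hy,
    hpb.mono ((ha0 j0).trans (hα j0)), fun q U hq hU => ?_⟩
  obtain ⟨β1, hβ1, hq1⟩ := low_level hcbα hq
  obtain ⟨β2, hβ2, hU2⟩ := mc_level hcbα hU
  obtain ⟨j, hj⟩ := hlt (max β1 β2) (max_lt hβ1 hβ2)
  have h1 := hh2 (a j) q U (hq1.mono ((le_max_left _ _).trans hj.le))
    (cl_mc_mono ((le_max_right _ _).trans hj.le) hU2)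
  exact ⟨h1.1.mono (hhα j), cl_mr_mono (hhα j) h1.2⟩

end Pool.Agent.CR
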