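import Pool.Agent.Lib.MP_72b52d_lc.CR.Prune

/-!
# MP_72b52d_lc : Cohen generic reals from names of non-meagre sets, dense sets from codes
-/

namespace Pool.Agent.CR

variable {I : Type} [LinearOrder I]

theorem Op_open (U : ℕ → ℚ → ℚ → Set (I → Y)) (n : ℕ) (z : I → Y) : IsOpen (Op U n z) := by
  have : Op U n z = ⋃ a : ℚ, ⋃ b : ℚ, ⋃ _ : z ∈ U n a b, Set.Ioo (a : ℝ) b := by
    ext x
    simp only [Op, Set.mem_setOf_eq, Set.mem_iUnion, Set.mem_Ioo, exists_prop]
  rw [this]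
  exact isOpen_iUnion fun a => isOpen_iUnion fun b => isOpen_iUnion fun _ => isOpen_Ioo

/-- change the first digits -/
def modd (t : List ℕ) (x : ℕ → ℕ) (i : ℕ) : ℕ := if i < t.length then t.getD i 0 else x i

theorem modd_lt {t : List ℕ} (ht : t ∈ TrI 1) {x : ℕ → ℕ} (hx : ∀ i, x i < bs i) (i : ℕ) :
    modd t x i < bs i := by
  unfold modd
  split_ifs with h
  · exact ht i h
  · exact hx i

/-- the projection of a dense set to the conditions -/
def Proj (α : I) (D : Set (Cond I × List ℕ)) (t : List ℕ) : Set (Cond I × List ℕ) :=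
  {x | Low α x.1 ∧ x.2 ∈ TrI 0 ∧ ∃ t' ∈ TrI 1, t <+: t' ∧ (x.1, t') ∈ D}

/-- closure under projections -/
def SuitP (M : Set (Ob I)) : Prop := ∀ α D t, .o α ∈ M → .d D ∈ M → .d (Proj α D t) ∈ M

/-- the operations for `SuitP` -/
def ProjOp : List (Ob I) → Set (Ob I)
  | [.o α, .d D] => Set.range (fun t => .d (Proj α D t))
  | _ => ∅

theorem ProjOp_countable (l : List (Ob I)) : (ProjOp l).Countable := by
  unfold ProjOp
  split
  · exact Set.countable_range _
  · exact Set.countable_empty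

theorem SuitP.of_op {M : Set (Ob I)}
    (h : ∀ l : List (Ob I), (∀ x ∈ l, x ∈ M) → ProjOp l ⊆ M) : SuitP M :=
  fun α D t hα hD => h [.o α, .d D] (by simp [hα, hD]) ⟨t, rfl⟩

theorem Proj_dense {α : I} {D : Set (Cond I × List ℕ)} (hD : Dn α (TrI 1) D) {t : List ℕ}
    (ht : t ∈ TrI 1) : Dn α (TrI 0) (Proj α D t) := by
  refine ⟨fun q s h => ⟨h.1, h.2.1⟩, ?_, ?_⟩
  · rintro q s ⟨_, _, t', h3, h4, h5⟩ q' s' hq' hle _ hs'
    exact ⟨hq', hs', t', h3, h4, hD.opn _ _ h5 _ _ hq' hle List.prefix_rfl h3⟩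
  · intro q s hq hs
    obtain ⟨q', t', h1, h2, h3⟩ := hD.dns q t hq ht
    have h4 := hD.sub _ _ h3
    exact ⟨q', s, h1, List.prefix_rfl, h4.1, hs, t', h4.2, h2, h3⟩

/-- the digit strings which bring the pair `(z, t ++ ...)` into `D` -/
def Sec (M : Set (Ob I)) (D : Set (Cond I × List ℕ)) (t : List ℕ) (z : I → Y) : Set (List ℕ) :=
  {s | s ∈ TrI 1 ∧ t.length ≤ s.length ∧ ∃ r, .c r ∈ M ∧ z ∈ Bod r ∧
    (r, t ++ s.drop t.length) ∈ D}

theorem getD_app_drop {t s : List ℕ} (h : t.length ≤ s.length) {i : ℕ} (hi : i < s.length) :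
    (t ++ s.drop t.length).getD i 0 = if i < t.length then t.getD i 0 else s.getD i 0 := by
  split_ifs with h1
  · exact List.getD_append _ _ _ _ h1
  · rw [List.getD_append_right _ _ _ _ (not_lt.1 h1)]
    rw [List.getD_eq_getElem _ _ (by simp; omega), List.getD_eq_getElem _ _ hi,
      List.getElem_drop]
    congr 1
    omega

theorem length_app_drop {t s : List ℕ} (h : t.length ≤ s.length) :
    (t ++ s.drop t.length).length = s.length := by
  simp; omega

theorem TrI1_app_drop {t s : List ℕ} (ht : t ∈ TrI 1) (hs : s ∈ TrI 1)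
    (h : t.length ≤ s.length) : t ++ s.drop t.length ∈ TrI 1 := by
  intro i hi
  rw [length_app_drop h] at hi
  rw [getD_app_drop h hi]
  split_ifs with h1
  · exact ht i h1
  · exact hs i hi

variable [WellFoundedLT I] [OrderBot I]

omit [WellFoundedLT I] [OrderBot I] in
theorem Sec_dense {M : Set (Ob I)} (hP : SuitP M) {α : I} (hα : .o α ∈ M) (h1M : .c (one I) ∈ M)
    {D : Set (Cond I × List ℕ)} (hDM : .d D ∈ M) (hD : Dn α (TrI 1) D) {t : List ℕ}
    (ht : t ∈ TrI 1) {z : I → Y} (hg : Gen M 0 α z {[]}) :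
    ∀ s ∈ TrI 1, ∃ s' ∈ TrI 1, s <+: s' ∧ s' ∈ Sec M D t z := by
  intro s hs
  obtain ⟨s1, hs1, hss1, hl⟩ := extend_zero hs t.length
  have h1 := TrI1_app_drop ht hs1 hl
  obtain ⟨q, a1, _, a3, _, _, _, _, t', b1, b2, b3⟩ := hg (one I) h1M (low_one _)
    (fun ξ n => trivial) (Proj α D (t ++ s1.drop t.length)) (hP _ _ _ hα hDM) (Proj_dense hD h1)
  obtain ⟨w, rfl⟩ := b2
  have hlen : t.length ≤ (s1 ++ w).length := by
    rw [List.length_append]; omega
  have he : t ++ (s1 ++ w).drop t.length = t ++ s1.drop t.length ++ w := by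
    rw [List.drop_append_of_le_length hl, List.append_assoc]
  have hs' : s1 ++ w ∈ TrI 1 := by
    intro i hi
    by_cases hi1 : i < s1.length
    · rw [List.getD_append _ _ _ _ hi1]; exact hs1 i hi1
    · have := b1 i (by
        simp only [List.length_append, List.length_drop] at hi ⊢
        omega)
      rw [← he, getD_app_drop hlen hi, if_neg (by omega)] at this
      exact this
  exact ⟨s1 ++ w, hs', hss1.trans (List.prefix_append _ _), hs', hlen, q, a1, a3, by
    rw [he]; exact b3⟩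

theorem cohen {M : Set (Ob I)} (hM : Suit M) (hP : SuitP M) {α : I} (hα : .o α ∈ M) {q1 : Cond I}
    (hq1 : Low α q1) (hg : ∀ z ∈ Bod q1, Gen M 0 α z {[]}) :
    ∃ U : ℕ → ℚ → ℚ → Set (I → Y), MC α U ∧ (∀ n z, Dense (Op U n z)) ∧
      ∀ z ∈ Bod q1, ∀ y : ℝ, (∀ n, y ∈ Op U n z) → ∀ t ∈ TrI 1,
        Gen M 1 α z {s | s ∈ TrI 1 ∧ ∀ i < s.length, modd t (dgt y) i = s.getD i 0} := by
  classical
  obtain ⟨e, he⟩ := hM.enumd
  obtain ⟨c, hc, hc'⟩ := hM.enum
  have := Encodable.ofCountable (ℕ × List ℕ)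
  let B : ℕ × List ℕ → ℚ → ℚ → Set (I → Y) := fun x a b =>
    {z | (.d (e x.1) ∈ M ∧ Dn α (TrI 1) (e x.1) ∧ x.2 ∈ TrI 1) ∧ z ∈ Bod q1 →
      ∃ s ∈ Sec M (e x.1) x.2 z, ∀ y ∈ Set.Ioo (a : ℝ) b, ∀ i < s.length, dgt y i = s.getD i 0}
  have hB : ∀ x a b, MS α (B x a b) := by
    intro x a b
    by_cases hx : .d (e x.1) ∈ M ∧ Dn α (TrI 1) (e x.1) ∧ x.2 ∈ TrI 1
    · have h2 : B x a b = {z | z ∈ Bod q1 → ∃ s : List ℕ, ∃ k : ℕ, (s ∈ TrI 1 ∧
          x.2.length ≤ s.length ∧ (∀ y ∈ Set.Ioo (a : ℝ) b, ∀ i < s.length, dgt y i = s.getD i 0) ∧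
          (c k, x.2 ++ s.drop x.2.length) ∈ e x.1) ∧ z ∈ Bod (c k)} := by
        ext z
        constructor
        · intro h hz
          obtain ⟨s, ⟨h3, h4, r, h5, h6, h7⟩, h8⟩ := h ⟨hx, hz⟩
          obtain ⟨k, rfl⟩ := hc' r h5
          exact ⟨s, k, ⟨h3, h4, h8, h7⟩, h6⟩
        · rintro h ⟨_, hz⟩
          obtain ⟨s, k, ⟨h3, h4, h8, h7⟩, h6⟩ := h hz
          exact ⟨s, ⟨h3, h4, c k, hc k, h6, h7⟩, h8⟩
      rw [h2]
      refine (Bod_ms hq1).imp (MS.ex fun s => MS.ex fun k => ?_)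
      by_cases hk : (s ∈ TrI 1 ∧ x.2.length ≤ s.length ∧
          (∀ y ∈ Set.Ioo (a : ℝ) b, ∀ i < s.length, dgt y i = s.getD i 0) ∧
          (c k, x.2 ++ s.drop x.2.length) ∈ e x.1)
      · exact (MS.const _ _).and (Bod_ms (hx.2.1.sub _ _ hk.2.2.2).1)
      · have : {z : I → Y | (s ∈ TrI 1 ∧ x.2.length ≤ s.length ∧
            (∀ y ∈ Set.Ioo (a : ℝ) b, ∀ i < s.length, dgt y i = s.getD i 0) ∧
            (c k, x.2 ++ s.drop x.2.length) ∈ e x.1) ∧ z ∈ Bod (c k)} = ∅ := by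
          ext z
          simp only [Set.mem_setOf_eq, Set.mem_empty_iff_false, iff_false]
          exact fun h => hk h.1
        rw [this]; exact MS.empty _
    · have h2 : B x a b = Set.univ := by
        ext z
        simp only [Set.mem_univ, iff_true]
        exact fun h => absurd h.1 hx
      rw [h2]; exact MS.univ _
  let U : ℕ → ℚ → ℚ → Set (I → Y) := fun n => match (Encodable.decode n : Option (ℕ × List ℕ)) with
    | some x => B x
    | none => fun _ _ => Set.univ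
  refine ⟨U, ?_, ?_, ?_⟩
  · intro n a b
    show MS α ((match (Encodable.decode n : Option (ℕ × List ℕ)) with
      | some x => B x
      | none => fun _ _ => Set.univ) a b)
    cases (Encodable.decode n : Option (ℕ × List ℕ)) with
    | none => exact MS.univ _
    | some x => exact hB x a b
  · intro n z
    have key : ∀ W : ℚ → ℚ → Set (I → Y), (∀ a b, z ∈ W a b) →
        Dense {x : ℝ | ∃ a b : ℚ, z ∈ W a b ∧ (a : ℝ) < x ∧ x < b} := by
      intro W hW
      convert dense_univ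
      ext x
      simp only [Set.mem_setOf_eq, Set.mem_univ, iff_true]
      obtain ⟨a, ha⟩ := exists_rat_lt x
      obtain ⟨b, hb⟩ := exists_rat_gt x
      exact ⟨a, b, hW a b, ha, hb⟩
    show Dense {x : ℝ | ∃ a b : ℚ, z ∈ ((match (Encodable.decode n : Option (ℕ × List ℕ)) with
      | some x => B x
      | none => fun _ _ => Set.univ) a b) ∧ (a : ℝ) < x ∧ x < b}
    cases (Encodable.decode n : Option (ℕ × List ℕ)) with
    | none => exact key (fun _ _ => Set.univ) fun _ _ => trivial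
    | some x =>
      by_cases hx : (.d (e x.1) ∈ M ∧ Dn α (TrI 1) (e x.1) ∧ x.2 ∈ TrI 1) ∧ z ∈ Bod q1
      · have h2 := dense_code (Sec_dense hP hα hM.one hx.1.1 hx.1.2.1 hx.1.2.2 (hg z hx.2))
        refine h2.mono ?_
        rintro y ⟨a, b, ⟨s, h3, h4⟩, h5⟩
        exact ⟨a, b, fun _ => ⟨s, h3, h4⟩, h5⟩
      · exact key (B x) fun a b h => absurd h hx
  · intro z hz y hy t ht
    refine GenB.gen hM hα (dec α) (r := one I) fun D hDM hD => ?_
    obtain ⟨k, rfl⟩ := he D hDM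
    have h2 := hy (Encodable.encode (k, t))
    obtain ⟨a, b, h3, h4, h5⟩ := h2
    have h3 : z ∈ (match (Encodable.decode (Encodable.encode (k, t)) : Option (ℕ × List ℕ)) with
      | some x => B x
      | none => fun _ _ => Set.univ) a b := h3
    rw [Encodable.encodek] at h3
    obtain ⟨s, ⟨b1, b2, r, b3, b4, b5⟩, b6⟩ := h3 ⟨⟨hDM, hD, ht⟩, hz⟩
    refine ⟨r, b3, fun x _ ξ n => trivial, b4, t ++ s.drop t.length,
      ⟨TrI1_app_drop ht b1 b2, fun i hi => ?_⟩, b5⟩
    rw [length_app_drop b2] at hi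
    rw [getD_app_drop b2 hi, modd, b6 y ⟨h4, h5⟩ i hi]

/-! ### the dense sets given by codes -/

/-- the dense set given by a code -/
def DV [OrderTop I] (W : ℕ → ℚ → ℚ → Set (I → Y)) (n : ℕ) : Set (Cond I × List ℕ) :=
  {x | Low ⊤ x.1 ∧ x.2 ∈ TrI 2 ∧ ∀ z ∈ Bod x.1, ∀ y ∈ KD,
    (∀ i < x.2.length, y i = x.2.getD i 0) → ev y ∈ Op W n z}

theorem DV_dense [OrderTop I] {W : ℕ → ℚ → ℚ → Set (I → Y)} (hW : MC ⊤ W)
    (hd : ∀ n z, Kset ⊆ closure (Kset ∩ Op W n z)) (n : ℕ) : Dn ⊤ (TrI 2) (DV W n) := by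
  refine ⟨fun q s h => ⟨h.1, h.2.1⟩, ?_, ?_⟩
  · rintro q s ⟨_, _, h3⟩ q' s' hq' hle hs hs'
    refine ⟨hq', hs', fun z hz y hy hi => h3 z (hle hz) y hy fun i hi' => ?_⟩
    have hi' : i < s.length := hi'
    show y i = s.getD i 0
    rw [hi i (hi'.trans_le hs.length_le)]
    exact getD_prefix hs hi'
  · intro q u hq hu
    obtain ⟨q', h1, h2, ⟨u', a, b⟩, h3⟩ := dec_nat hq (ι := List ℕ × ℚ × ℚ)
      (fun x => {z | (x.1 ∈ TrI 2 ∧ u <+: x.1 ∧ ∀ y ∈ KD, (∀ i < x.1.length, y i = x.1.getD i 0) →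
        ev y ∈ Set.Ioo (x.2.1 : ℝ) x.2.2) ∧ z ∈ W n x.2.1 x.2.2})
      (fun x => (MS.const _ _).and (hW _ _ _)) (by
        intro z _
        obtain ⟨u1, a1, a2, a3⟩ := K_cyl hu (Op_open W n z) (hd n z)
        have hx : (fun i => if i < u1.length then u1.getD i 0 else 1) ∈ KD := by
          intro i
          by_cases hi : i < u1.length
          · simp only [hi, if_true]
            exact a1 i hi
          · simp only [hi, if_false]
            unfold bs
            omega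
        obtain ⟨a, b, b1, b2, b3⟩ := a3 _ hx (fun i hi => by simp [hi])
        obtain ⟨m, hm⟩ := ev_cont hx isOpen_Ioo (⟨b2, b3⟩ : _ ∈ Set.Ioo (a : ℝ) b)
        refine ⟨((List.range (max m u1.length)).map
          (fun i => if i < u1.length then u1.getD i 0 else 1), a, b), ⟨?_, ?_, ?_⟩, b1⟩
        · intro i hi
          rw [List.getD_eq_getElem _ _ hi]
          simpa using hx i
        · refine a2.trans ?_
          rw [List.prefix_iff_eq_take]
          apply List.ext_getElem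
          · simp
          · intro i hi1 hi2
            rw [List.getElem_take, List.getElem_map, List.getElem_range]
            simp [hi1]
        · intro y hy hi
          refine hm y hy fun i him => ?_
          have h4 : i < ((List.range (max m u1.length)).map
            (fun i => if i < u1.length then u1.getD i 0 else 1)).length := by
            simp; omega
          rw [hi i h4, List.getD_eq_getElem _ _ h4]
          simp)
    obtain ⟨z, hz⟩ := Bod_nonempty q'
    obtain ⟨⟨c1, c2, c3⟩, _⟩ := h3 hz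
    refine ⟨q', u', h1, c2, h2, c1, fun z hz y hy hi => ?_⟩
    have h5 := c3 y hy hi
    exact ⟨a, b, (h3 hz).2, h5.1, h5.2⟩

end Pool.Agent.CR
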