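import Mathlib

/-!
# MP_72b52d_lc : the forcing conditions (definitions)

`I` is a well-ordered set of coordinates.  Points are `z : I → Y`, `Y = ℕ → W`, `W = List ℕ`.
A condition is a family of trees `C ξ z` depending measurably on `z` restricted to the coordinates
below `ξ`.
-/

namespace Pool.Agent.CR

/-- words (finite sequences of digits) -/
abbrev W := List ℕ
/-- nodes: finite sequences of words -/
abbrev Node := List W
/-- infinite sequences of words -/
abbrev Y := ℕ → W

/-- the first `n` entries -/
def pre (y : Y) (n : ℕ) : Node := (List.range n).map y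

/-- the base at place `m` -/
def bs (m : ℕ) : ℕ := m + 8

/-- `Ft k m A n s`: above `s` there is a tree of height `n` of initial segments of elements of `A`
in which every node of length less than the height has at least `k` immediate successors. -/
def Ft (k m : ℕ) (A : Set W) : ℕ → W → Prop
  | 0, s => ∃ a ∈ A, s <+: a
  | n + 1, s => (∃ a ∈ A, s <+: a) ∧
      ∃ D : Finset ℕ, D ⊆ Finset.range (bs (m + s.length)) ∧ k ≤ D.card ∧
        ∀ d ∈ D, Ft k m A n (s ++ [d])

/-- the set `A` of successors of the node `τ` is `k`-big -/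
def Big (k : ℕ) (τ : Node) (A : Set W) : Prop := ∃ w, ∀ n, Ft k τ.flatten.length A n w

/-- positive trees -/
structure Pos (T : Set Node) : Prop where
  nil : [] ∈ T
  closed : ∀ σ τ : Node, σ <+: τ → τ ∈ T → σ ∈ T
  big : ∀ σ ∈ T, ∀ k, ∃ τ ∈ T, σ <+: τ ∧ Big k τ {w | τ ++ [w] ∈ T}

/-- the nodes of `T` comparable with `σ` (all of `T` if `σ ∉ T`) -/
def cutT (T : Set Node) (σ : Node) : Set Node := {τ | τ ∈ T ∧ (σ ∈ T → τ <+: σ ∨ σ <+: τ)}

/-- the sets which depend measurably on the coordinates below `ξ` (a sigma-algebra) -/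
@[reducible] def Flt {I : Type} [LinearOrder I] (ξ : I) : MeasurableSpace (I → Y) :=
  MeasurableSpace.generateFrom {A | ∃ η < ξ, ∃ (n : ℕ) (w : W), A = {z | z η n = w}}

/-- `A` depends measurably on the coordinates below `ξ` -/
def MS {I : Type} [LinearOrder I] (ξ : I) (A : Set (I → Y)) : Prop := @MeasurableSet _ (Flt ξ) A

/-- forcing conditions -/
@[ext] structure Cond (I : Type) [LinearOrder I] where
  C : I → (I → Y) → Set Node
  meas : ∀ ξ σ, MS ξ {z | σ ∈ C ξ z}
  pos : ∀ ξ z, Pos (C ξ z)
  supp : {ξ | ∃ z, C ξ z ≠ Set.univ}.Countable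

variable {I : Type} [LinearOrder I]

/-- the set of all points satisfying the condition -/
def Bod (p : Cond I) : Set (I → Y) := {z | ∀ ξ n, pre (z ξ) n ∈ p.C ξ z}

/-- the set of all points satisfying the condition below `α` -/
def BodB (p : Cond I) (α : I) : Set (I → Y) := {z | ∀ ξ < α, ∀ n, pre (z ξ) n ∈ p.C ξ z}

/-- the condition has only coordinates below `α` -/
def Low (α : I) (p : Cond I) : Prop := ∀ ξ, α ≤ ξ → ∀ z, p.C ξ z = Set.univ

instance : Preorder (Cond I) where
  le q p := Bod q ⊆ Bod p
  le_refl p := le_refl (Bod p)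
  le_trans p q r h1 h2 := le_trans (α := Set (I → Y)) h1 h2

theorem le_iff {p q : Cond I} : q ≤ p ↔ Bod q ⊆ Bod p := Iff.rfl

end Pool.Agent.CR
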