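import Pool.Agent.Lib.MP_72b52d_lc.CR.Defs

/-!
# MP_72b52d_lc : digits, the Cantor set `Kset`, codes of open sets (definitions)
-/

namespace Pool.Agent.CR

/-- the trees used for the Cohen reals: `0` the trivial tree, `1` all sequences of digits, `2` the
sequences of digits of points of the Cantor set -/
def TrI : Fin 3 → Set (List ℕ)
  | 0 => {[]}
  | 1 => {s | ∀ i < s.length, s.getD i 0 < bs i}
  | 2 => {s | ∀ i < s.length, 1 ≤ s.getD i 0 ∧ s.getD i 0 ≤ bs i - 2}

/-- the products of the bases -/
def Bp (i : ℕ) : ℕ := ∏ j ∈ Finset.range i, bs j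

/-- the real number with the digits `x` -/
noncomputable def ev (x : ℕ → ℕ) : ℝ := ∑' i, (x i : ℝ) / Bp (i + 1)

/-- the sequences of digits of the Cantor set -/
def KD : Set (ℕ → ℕ) := {x | ∀ i, 1 ≤ x i ∧ x i ≤ bs i - 2}

/-- the Cantor set -/
def Kset : Set ℝ := ev '' KD

/-- the digits of (the fractional part of) a real number -/
noncomputable def dgt (x : ℝ) (i : ℕ) : ℕ := ⌊Int.fract x * Bp (i + 1)⌋₊ % bs i

/-- the digits of a sum, with the carry computed from the next place only -/
def sm (x d : ℕ → ℕ) (i : ℕ) : ℕ :=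
  (x i + d i) % bs i + (if bs (i + 1) ≤ x (i + 1) + d (i + 1) then 1 else 0)

open Classical in
/-- the digits of the concatenation of the words of `y` (reduced modulo the bases) -/
noncomputable def td (y : Y) (i : ℕ) : ℕ :=
  if h : ∃ n, i < (pre y n).flatten.length then ((pre y (Nat.find h)).flatten.getD i 0) % bs i
  else 0

/-- the real number given by `y` -/
noncomputable def tt (y : Y) : ℝ := ev (td y)

variable {I : Type} [LinearOrder I]

/-- measurable real valued functions -/
def MR (α : I) (f : (I → Y) → ℝ) : Prop := ∀ a : ℚ, MS α {z | f z < a}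

/-- measurable codes of sequences of open sets -/
def MC (α : I) (U : ℕ → ℚ → ℚ → Set (I → Y)) : Prop := ∀ n a b, MS α (U n a b)

/-- the sequence of open sets given by a code at the point `z` -/
def Op (U : ℕ → ℚ → ℚ → Set (I → Y)) (n : ℕ) (z : I → Y) : Set ℝ :=
  {x | ∃ a b : ℚ, z ∈ U n a b ∧ (a : ℝ) < x ∧ x < b}

/-- the properties of the set of coordinates: every proper initial segment has size at most the
continuum, and every set of size at most the continuum is bounded below the top -/
structure BigIx (I : Type) [LinearOrder I] [OrderTop I] : Prop where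
  small : ∀ α : I, α < ⊤ → Cardinal.mk (Set.Iio α) ≤ Cardinal.continuum
  reg : ∀ S : Set I, Cardinal.mk S ≤ Cardinal.continuum → (∀ x ∈ S, x < ⊤) →
    ∃ y < (⊤ : I), ∀ x ∈ S, x < y

end Pool.Agent.CR
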