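import Pool.Agent.Lib.MP_72b52d_lc.CR.Defs

/-!
# MP_72b52d_lc : calculus of measurable sets of points
-/

namespace Pool.Agent.CR

variable {I : Type} [LinearOrder I]

theorem MS.dep {ξ : I} {A : Set (I → Y)} (hA : MS ξ A) {z z' : I → Y} (h : ∀ η < ξ, z η = z' η) :
    z ∈ A ↔ z' ∈ A := by
  refine MeasurableSpace.generateFrom_induction
    {A : Set (I → Y) | ∃ η < ξ, ∃ (n : ℕ) (w : W), A = {z | z η n = w}} (fun t _ => z ∈ t ↔ z' ∈ t)
    ?_ ?_ ?_ ?_ A hA
  · rintro t ⟨η, hη, n, w, rfl⟩ _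
    simp [h η hη]
  · simp
  · intro t _ ih; simp [ih]
  · intro s _ ih; simp [ih]

theorem MS.mono {ξ ξ' : I} (h : ξ ≤ ξ') {A : Set (I → Y)} (hA : MS ξ A) : MS ξ' A := by
  refine MeasurableSpace.generateFrom_mono ?_ A hA
  rintro t ⟨η, hη, n, w, rfl⟩
  exact ⟨η, lt_of_lt_of_le hη h, n, w, rfl⟩

theorem MS.compl {ξ : I} {A : Set (I → Y)} (hA : MS ξ A) : MS ξ Aᶜ := MeasurableSet.compl hA

theorem MS.empty (ξ : I) : MS ξ (∅ : Set (I → Y)) := @MeasurableSet.empty _ (Flt ξ)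

theorem MS.univ (ξ : I) : MS ξ (Set.univ : Set (I → Y)) := @MeasurableSet.univ _ (Flt ξ)

theorem MS.iUnion {ξ : I} {ι : Type*} [Countable ι] {A : ι → Set (I → Y)} (hA : ∀ i, MS ξ (A i)) :
    MS ξ (⋃ i, A i) := MeasurableSet.iUnion hA

theorem MS.iInter {ξ : I} {ι : Type*} [Countable ι] {A : ι → Set (I → Y)} (hA : ∀ i, MS ξ (A i)) :
    MS ξ (⋂ i, A i) := MeasurableSet.iInter hA

theorem MS.inter {ξ : I} {A B : Set (I → Y)} (hA : MS ξ A) (hB : MS ξ B) : MS ξ (A ∩ B) :=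
  MeasurableSet.inter hA hB

theorem MS.union {ξ : I} {A B : Set (I → Y)} (hA : MS ξ A) (hB : MS ξ B) : MS ξ (A ∪ B) :=
  MeasurableSet.union hA hB

theorem MS.diff {ξ : I} {A B : Set (I → Y)} (hA : MS ξ A) (hB : MS ξ B) : MS ξ (A \ B) :=
  MeasurableSet.diff hA hB

theorem MS.const (ξ : I) (p : Prop) : MS ξ ({_z : I → Y | p}) := by
  by_cases h : p
  · simpa [h] using MS.univ ξ
  · simpa [h] using MS.empty ξ

theorem MS.not {ξ : I} {p : (I → Y) → Prop} (h : MS ξ {z | p z}) : MS ξ {z | ¬ p z} := h.compl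

theorem MS.and {ξ : I} {p q : (I → Y) → Prop} (h : MS ξ {z | p z}) (h' : MS ξ {z | q z}) :
    MS ξ {z | p z ∧ q z} := h.inter h'

theorem MS.or {ξ : I} {p q : (I → Y) → Prop} (h : MS ξ {z | p z}) (h' : MS ξ {z | q z}) :
    MS ξ {z | p z ∨ q z} := h.union h'

theorem MS.imp {ξ : I} {p q : (I → Y) → Prop} (h : MS ξ {z | p z}) (h' : MS ξ {z | q z}) :
    MS ξ {z | p z → q z} := by
  have : {z : I → Y | p z → q z} = {z | ¬ p z ∨ q z} := by
    ext z; simp [imp_iff_not_or]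
  rw [this]; exact h.not.or h'

theorem MS.iff {ξ : I} {p q : (I → Y) → Prop} (h : MS ξ {z | p z}) (h' : MS ξ {z | q z}) :
    MS ξ {z | p z ↔ q z} := by
  have : {z : I → Y | p z ↔ q z} = {z | (p z → q z) ∧ (q z → p z)} := by
    ext z; simp [iff_def]
  rw [this]; exact (h.imp h').and (h'.imp h)

theorem MS.ex {ξ : I} {ι : Sort*} [Countable ι] {p : (I → Y) → ι → Prop}
    (h : ∀ i, MS ξ {z | p z i}) : MS ξ {z | ∃ i, p z i} := by
  have : {z : I → Y | ∃ i, p z i} = ⋃ i : PLift ι, {z | p z i.down} := by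
    ext z; simp [PLift.exists]
  rw [this]; exact MS.iUnion fun i => h i.down

theorem MS.all {ξ : I} {ι : Sort*} [Countable ι] {p : (I → Y) → ι → Prop}
    (h : ∀ i, MS ξ {z | p z i}) : MS ξ {z | ∀ i, p z i} := by
  have : {z : I → Y | ∀ i, p z i} = ⋂ i : PLift ι, {z | p z i.down} := by
    ext z; simp [PLift.forall]
  rw [this]; exact MS.iInter fun i => h i.down

theorem MS.coord {ξ η : I} (h : η < ξ) (n : ℕ) (w : W) : MS ξ {z : I → Y | z η n = w} :=
  MeasurableSpace.measurableSet_generateFrom ⟨η, h, n, w, rfl⟩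

@[simp] theorem pre_length (y : Y) (n : ℕ) : (pre y n).length = n := by simp [pre]

@[simp] theorem pre_zero (y : Y) : pre y 0 = [] := rfl

theorem pre_succ (y : Y) (n : ℕ) : pre y (n + 1) = pre y n ++ [y n] := by
  simp [pre, List.range_succ]

theorem pre_prefix (y : Y) {m n : ℕ} (h : m ≤ n) : pre y m <+: pre y n := by
  induction n, h using Nat.le_induction with
  | base => exact List.prefix_rfl
  | succ n _ ih => rw [pre_succ]; exact ih.trans (List.prefix_append _ _)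

theorem pre_getElem (y : Y) (n i : ℕ) (h : i < (pre y n).length) : (pre y n)[i] = y i := by
  simp [pre]

theorem pre_eq_iff (y : Y) (n : ℕ) (σ : Node) :
    pre y n = σ ↔ σ.length = n ∧ ∀ i (h : i < σ.length), y i = σ[i] := by
  constructor
  · rintro rfl
    refine ⟨by simp, fun i h => ?_⟩
    rw [pre_getElem]
  · rintro ⟨h, h'⟩
    apply List.ext_getElem (by simp [h])
    intro i h1 h2
    rw [pre_getElem, h' i h2]

theorem prefix_pre (y : Y) (n : ℕ) {σ : Node} (h : σ <+: pre y n) : σ = pre y σ.length := by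
  symm
  rw [pre_eq_iff]
  refine ⟨rfl, fun i hi => ?_⟩
  rw [h.getElem hi, pre_getElem]

theorem MS.pre {ξ η : I} (h : η < ξ) (n : ℕ) (σ : Node) :
    MS ξ {z : I → Y | pre (z η) n = σ} := by
  have : {z : I → Y | CR.pre (z η) n = σ} =
      {z | σ.length = n ∧ ∀ i : Fin σ.length, z η i = σ[i]} := by
    ext z
    simp only [Set.mem_ofPred_eq, pre_eq_iff]
    constructor
    · rintro ⟨a, b⟩; exact ⟨a, fun i => b i.1 i.2⟩
    · rintro ⟨a, b⟩; exact ⟨a, fun i h => b ⟨i, h⟩⟩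
  rw [this]
  exact (MS.const _ _).and (MS.all fun i => MS.coord h _ _)

/-- membership of an initial segment in a measurable tree -/
theorem MS.pre_mem {ξ η : I} (h : η < ξ) {T : (I → Y) → Set Node}
    (hT : ∀ σ, MS ξ {z | σ ∈ T z}) (n : ℕ) : MS ξ {z : I → Y | CR.pre (z η) n ∈ T z} := by
  have : {z : I → Y | CR.pre (z η) n ∈ T z} = {z | ∃ σ, CR.pre (z η) n = σ ∧ σ ∈ T z} := by
    ext z; simp
  rw [this]
  exact MS.ex fun σ => (MS.pre h n σ).and (hT σ)

/-- the value of a countably valued measurable function, in a measurable relation -/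
theorem MS.subst {ξ : I} {ι : Type*} [Countable ι] {g : (I → Y) → ι}
    (hg : ∀ i, MS ξ {z | g z = i}) {R : (I → Y) → ι → Prop} (hR : ∀ i, MS ξ {z | R z i}) :
    MS ξ {z | R z (g z)} := by
  have : {z : I → Y | R z (g z)} = {z | ∃ i, g z = i ∧ R z i} := by
    ext z; simp
  rw [this]
  exact MS.ex fun i => (hg i).and (hR i)

end Pool.Agent.CR
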