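import Pool.Agent.Lib.MP_72b52d_lc.CR.Defs2
import Pool.Agent.Lib.MP_72b52d_lc.CR.Meas

/-!
# MP_72b52d_lc, piece R3 : digits, the Cantor set, measurability (helper22)
-/

namespace Pool.Agent.CR

open Set Filter Topology

/-! ### the bases -/

private theorem dg_Bp_zero : Bp 0 = 1 := by simp [Bp]

private theorem dg_Bp_succ (i : ℕ) : Bp (i + 1) = Bp i * bs i := by
  unfold Bp
  rw [Finset.prod_range_succ]

private theorem dg_Bp_pos (i : ℕ) : 0 < Bp i := by
  unfold Bp
  exact Finset.prod_pos fun j _ => by unfold bs; omega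

private theorem dg_BpR_pos (i : ℕ) : (0 : ℝ) < Bp i := by exact_mod_cast dg_Bp_pos i

private theorem dg_pow_le (i : ℕ) : 8 ^ i ≤ Bp i := by
  induction i with
  | zero => simp [dg_Bp_zero]
  | succ i ih =>
    rw [dg_Bp_succ, pow_succ]
    exact Nat.mul_le_mul ih (by unfold bs; omega)

private theorem dg_Bp_mono {i j : ℕ} (h : i ≤ j) : Bp i ≤ Bp j := by
  induction j, h using Nat.le_induction with
  | base => exact le_rfl
  | succ j _ ih =>
    refine ih.trans ?_
    rw [dg_Bp_succ]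
    exact Nat.le_mul_of_pos_right _ (by unfold bs; omega)

private theorem dg_inv_anti {i j : ℕ} (h : i ≤ j) : (1 : ℝ) / Bp j ≤ 1 / Bp i :=
  one_div_le_one_div_of_le (dg_BpR_pos i) (by exact_mod_cast dg_Bp_mono h)

private theorem dg_inv_le (i : ℕ) : (1 : ℝ) / Bp i ≤ (1 / 8) ^ i := by
  rw [one_div_pow]
  exact one_div_le_one_div_of_le (by positivity) (by exact_mod_cast dg_pow_le i)

private theorem dg_inv_tendsto : Tendsto (fun i => (1 : ℝ) / Bp i) atTop (𝓝 0) := by
  refine squeeze_zero (fun i => by positivity) dg_inv_le ?_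
  exact tendsto_pow_atTop_nhds_zero_of_lt_one (by norm_num) (by norm_num)

private theorem dg_inv_small {ε : ℝ} (h : 0 < ε) (m : ℕ) : ∃ n, m ≤ n ∧ (1 : ℝ) / Bp n < ε := by
  have h1 := (dg_inv_tendsto.eventually (gt_mem_nhds h)).and (eventually_ge_atTop m)
  obtain ⟨n, hn, hn'⟩ := h1.exists
  exact ⟨n, hn', hn⟩

private theorem dg_term_le {x : ℕ → ℕ} {i : ℕ} (hx : x i ≤ bs i) :
    (x i : ℝ) / Bp (i + 1) ≤ 1 / Bp i := by
  rw [dg_Bp_succ]
  push_cast
  have h1 := dg_BpR_pos i
  have h2 : (0 : ℝ) < bs i := by unfold bs; positivity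
  have h3 : (x i : ℝ) ≤ bs i := by exact_mod_cast hx
  rw [div_le_div_iff₀ (by positivity) h1]
  nlinarith

private theorem dg_summable {x : ℕ → ℕ} (hx : ∀ i, x i ≤ bs i) :
    Summable (fun i => (x i : ℝ) / Bp (i + 1)) := by
  refine Summable.of_nonneg_of_le (fun i => by positivity)
    (fun i => (dg_term_le (hx i)).trans (dg_inv_le i)) ?_
  exact summable_geometric_of_lt_one (by norm_num) (by norm_num)

/-- numerators of the finite expansions -/
private def nm (x : ℕ → ℕ) : ℕ → ℕ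
  | 0 => 0
  | n + 1 => bs n * nm x n + x n

private theorem dg_nm_congr {x y : ℕ → ℕ} {n : ℕ} (h : ∀ i < n, x i = y i) : nm x n = nm y n := by
  induction n with
  | zero => rfl
  | succ n ih =>
    rw [nm, nm, ih (fun i hi => h i (by omega)), h n (by omega)]

private theorem dg_partial (x : ℕ → ℕ) (n : ℕ) :
    ∑ i ∈ Finset.range n, (x i : ℝ) / Bp (i + 1) = (nm x n : ℝ) / Bp n := by
  induction n with
  | zero => simp [nm]
  | succ n ih =>
    rw [Finset.sum_range_succ, ih, nm, dg_Bp_succ]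
    have h1 := dg_BpR_pos n
    have h2 : (0 : ℝ) < bs n := by unfold bs; positivity
    push_cast
    field_simp

private theorem dg_tendsto {x : ℕ → ℕ} (hx : ∀ i, x i ≤ bs i) :
    Tendsto (fun n => (nm x n : ℝ) / Bp n) atTop (𝓝 (ev x)) := by
  have h1 := (dg_summable hx).hasSum.tendsto_sum_nat
  simp only [dg_partial] at h1
  exact h1

private theorem dg_low_mono (x : ℕ → ℕ) {m n : ℕ} (h : m ≤ n) :
    (nm x m : ℝ) / Bp m ≤ (nm x n : ℝ) / Bp n := by
  rw [← dg_partial, ← dg_partial]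
  exact Finset.sum_le_sum_of_subset_of_nonneg (Finset.range_mono h)
    (fun i _ _ => by positivity)

private theorem dg_up_step {x : ℕ → ℕ} {n : ℕ} (hx : x n + 1 ≤ bs n) :
    ((nm x (n + 1) : ℝ) + 1) / Bp (n + 1) ≤ ((nm x n : ℝ) + 1) / Bp n := by
  rw [dg_Bp_succ, nm]
  have h1 := dg_BpR_pos n
  have h2 : (0 : ℝ) < bs n := by unfold bs; positivity
  have h3 : (x n : ℝ) + 1 ≤ bs n := by exact_mod_cast hx
  push_cast
  rw [div_le_div_iff₀ (by positivity) h1]
  nlinarith

private theorem dg_up_anti {x : ℕ → ℕ} (hx : ∀ i, x i < bs i) {m n : ℕ} (h : m ≤ n) :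
    ((nm x n : ℝ) + 1) / Bp n ≤ ((nm x m : ℝ) + 1) / Bp m := by
  induction n, h using Nat.le_induction with
  | base => exact le_rfl
  | succ n _ ih => exact (dg_up_step (hx n)).trans ih

private theorem dg_low {x : ℕ → ℕ} (hx : ∀ i, x i < bs i) (n : ℕ) :
    (nm x n : ℝ) / Bp n ≤ ev x :=
  ge_of_tendsto (dg_tendsto fun i => (hx i).le)
    (eventually_atTop.2 ⟨n, fun _ h => dg_low_mono x h⟩)

private theorem dg_up {x : ℕ → ℕ} (hx : ∀ i, x i < bs i) (n : ℕ) :
    ev x ≤ ((nm x n : ℝ) + 1) / Bp n := by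
  refine le_of_tendsto (dg_tendsto fun i => (hx i).le) (eventually_atTop.2 ⟨n, fun m h => ?_⟩)
  refine le_trans ?_ (dg_up_anti hx h)
  have := dg_BpR_pos m
  gcongr
  linarith

private theorem dg_KD_lt {x : ℕ → ℕ} (hx : x ∈ KD) (i : ℕ) : x i < bs i := by
  have := hx i
  unfold bs at *
  omega

private theorem dg_KD_low {x : ℕ → ℕ} (hx : x ∈ KD) (n : ℕ) :
    (nm x n : ℝ) / Bp n + 1 / Bp (n + 1) ≤ ev x := by
  refine le_trans ?_ (dg_low (dg_KD_lt hx) (n + 1))
  rw [nm, dg_Bp_succ]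
  have h1 := dg_BpR_pos n
  have h2 : (0 : ℝ) < bs n := by unfold bs; positivity
  have h3 : (1 : ℝ) ≤ x n := by exact_mod_cast (hx n).1
  push_cast
  rw [div_add_div _ _ h1.ne' (by positivity), div_le_div_iff₀ (by positivity) (by positivity)]
  nlinarith [mul_pos h1 h2, mul_pos (mul_pos h1 h2) h1]

private theorem dg_KD_up {x : ℕ → ℕ} (hx : x ∈ KD) (n : ℕ) :
    ev x ≤ ((nm x n : ℝ) + 1) / Bp n - 1 / Bp (n + 1) := by
  refine le_trans (dg_up (dg_KD_lt hx) (n + 1)) ?_
  rw [nm, dg_Bp_succ]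
  have h1 := dg_BpR_pos n
  have h2 : (0 : ℝ) < bs n := by unfold bs; positivity
  have h3 : (x n : ℝ) + 2 ≤ bs n := by
    have := (hx n).2
    have h4 : x n + 2 ≤ bs n := by unfold bs at *; omega
    exact_mod_cast h4
  push_cast
  rw [div_sub_div _ _ h1.ne' (by positivity), div_le_div_iff₀ (by positivity) (by positivity)]
  nlinarith [mul_pos h1 h2, mul_pos (mul_pos h1 h2) h1]

/-- points of the Cantor set which are close have the same first digits -/
private theorem dg_sep {x y : ℕ → ℕ} (hx : x ∈ KD) (hy : y ∈ KD) {n : ℕ}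
    (h : |ev x - ev y| < 1 / Bp (n + 1)) : ∀ i < n, x i = y i := by
  intro i
  induction i using Nat.strong_induction_on with
  | _ m ih =>
    intro hm
    have key : ∀ {x y : ℕ → ℕ}, x ∈ KD → y ∈ KD → |ev x - ev y| < 1 / Bp (n + 1) →
        (∀ i < m, x i = y i) → ¬ x m < y m := by
      intro x y hx hy h hxy hlt
      have h1 := dg_KD_up hx (m + 1)
      have h2 := dg_KD_low hy (m + 1)
      have h3 : (nm x (m + 1) : ℝ) + 1 ≤ nm y (m + 1) := by
        rw [nm, nm, dg_nm_congr hxy]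
        exact_mod_cast Nat.add_le_add_left hlt (bs m * nm y m)
      have h4 : ((nm x (m + 1) : ℝ) + 1) / Bp (m + 1) ≤ (nm y (m + 1) : ℝ) / Bp (m + 1) := by
        have := dg_BpR_pos (m + 1)
        gcongr
      have h5 : (1 : ℝ) / Bp (n + 1) ≤ 1 / Bp (m + 2) := dg_inv_anti (by omega)
      have h6 : (0 : ℝ) < 1 / Bp (n + 1) := by
        have := dg_BpR_pos (n + 1)
        positivity
      have h7 := (abs_lt.1 h).1
      linarith
    have h1 := key hx hy h (fun i hi => ih i hi (by omega))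
    have h2 := key hy hx (by rw [abs_sub_comm]; exact h) (fun i hi => (ih i hi (by omega)).symm)
    omega

private theorem dg_close {x y : ℕ → ℕ} (hx : ∀ i, x i < bs i) (hy : ∀ i, y i < bs i) {n : ℕ}
    (h : ∀ i < n, x i = y i) : |ev x - ev y| ≤ 1 / Bp n := by
  have h1 := dg_low hx n
  have h2 := dg_up hx n
  have h3 := dg_low hy n
  have h4 := dg_up hy n
  rw [dg_nm_congr h] at h1 h2
  rw [add_div] at h2 h4
  rw [abs_le]
  constructor <;> linarith

private theorem dg_one_mem : (fun _ => 1 : ℕ → ℕ) ∈ KD := by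
  intro i
  show 1 ≤ 1 ∧ 1 ≤ bs i - 2
  unfold bs
  omega

private theorem dg_KD_compact : IsCompact KD := by
  have h : KD = Set.pi Set.univ (fun i => Set.Icc 1 (bs i - 2)) := by
    ext x
    constructor
    · intro h i _
      exact h i
    · intro h i
      exact h i trivial
  rw [h]
  exact isCompact_univ_pi fun i => (Set.finite_Icc _ _).isCompact

private theorem dg_ev_continuousOn : ContinuousOn ev KD := by
  refine continuousOn_tsum (u := fun i => (1 / 8 : ℝ) ^ i) (fun i => ?_)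
    (summable_geometric_of_lt_one (by norm_num) (by norm_num)) (fun i x hx => ?_)
  · have h1 : Continuous (fun x : ℕ → ℕ => (x i : ℝ) / Bp (i + 1)) :=
      (continuous_of_discreteTopology (f := fun n : ℕ => (n : ℝ) / Bp (i + 1))).comp
        (continuous_apply i)
    exact h1.continuousOn
  · rw [Real.norm_of_nonneg (by positivity)]
    exact (dg_term_le (dg_KD_lt hx i).le).trans (dg_inv_le i)

theorem K_compact : IsCompact Kset := dg_KD_compact.image_of_continuousOn dg_ev_continuousOn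

theorem K_nonempty : Kset.Nonempty := ⟨_, _, dg_one_mem, rfl⟩

private theorem dg_ev_inj {x y : ℕ → ℕ} (hx : x ∈ KD) (hy : y ∈ KD) (h : ev x = ev y) : x = y := by
  funext i
  refine dg_sep hx hy (n := i + 1) ?_ i (by omega)
  rw [h, sub_self, abs_zero]
  have := dg_BpR_pos (i + 1 + 1)
  positivity

theorem K_perfect : Perfect Kset := by
  refine ⟨K_compact.isClosed, ?_⟩
  rintro _ ⟨x, hx, rfl⟩
  rw [accPt_iff_nhds]
  intro U hU
  obtain ⟨ε, hε, hεU⟩ := Metric.mem_nhds_iff.1 hU
  obtain ⟨n, -, hn⟩ := dg_inv_small hε 0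
  obtain ⟨c, hc1, hc2, hc3⟩ : ∃ c, 1 ≤ c ∧ c ≤ bs n - 2 ∧ c ≠ x n := by
    by_cases h : x n = 1
    · exact ⟨2, by omega, by unfold bs; omega, by omega⟩
    · exact ⟨1, by omega, by unfold bs; omega, by omega⟩
  have hy : Function.update x n c ∈ KD := by
    intro i
    by_cases hi : i = n
    · subst hi
      rw [Function.update_self]
      exact ⟨hc1, hc2⟩
    · rw [Function.update_of_ne hi]
      exact hx i
  refine ⟨ev (Function.update x n c), ⟨hεU ?_, _, hy, rfl⟩, ?_⟩
  · rw [Metric.mem_ball, Real.dist_eq]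
    refine lt_of_le_of_lt (dg_close (dg_KD_lt hy) (dg_KD_lt hx) (n := n) (fun i hi => ?_)) hn
    rw [Function.update_of_ne (by omega)]
  · intro h
    have h1 := congrFun (dg_ev_inj hy hx h) n
    rw [Function.update_self] at h1
    exact hc3 h1

theorem K_td : IsTotallyDisconnected Kset := by
  intro t ht hc
  have key : ∀ a ∈ t, ∀ b ∈ t, ¬ a < b := by
    intro a ha b hb hab
    have hsub := hc.Icc_subset ha hb
    obtain ⟨x, hx, rfl⟩ := ht ha
    obtain ⟨y, hy, rfl⟩ := ht hb
    have hne : x ≠ y := by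
      rintro rfl
      exact lt_irrefl _ hab
    obtain ⟨n, hn, hn'⟩ : ∃ n, (∀ i < n, x i = y i) ∧ x n ≠ y n := by
      classical
      have h1 : ∃ n, x n ≠ y n := Function.ne_iff.1 hne
      exact ⟨Nat.find h1, fun i hi => not_not.1 (Nat.find_min h1 hi), Nat.find_spec h1⟩
    have h0 := dg_BpR_pos (n + 1)
    have h0' := dg_BpR_pos (n + 2)
    have hp : (0 : ℝ) < 1 / Bp (n + 2) := by positivity
    have hlt : x n < y n := by
      by_contra h
      have h1 : y n < x n := by omega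
      have h2 := dg_KD_up hy (n + 1)
      have h3 := dg_KD_low hx (n + 1)
      have h4 : (nm y (n + 1) : ℝ) + 1 ≤ nm x (n + 1) := by
        rw [nm, nm, dg_nm_congr hn]
        exact_mod_cast Nat.add_le_add_left h1 (bs n * nm y n)
      have h5 : ((nm y (n + 1) : ℝ) + 1) / Bp (n + 1) ≤ (nm x (n + 1) : ℝ) / Bp (n + 1) := by
        gcongr
      linarith
    have h2 := dg_KD_up hx (n + 1)
    have h3 := dg_KD_low hy (n + 1)
    have h4 : (nm x (n + 1) : ℝ) + 1 ≤ nm y (n + 1) := by
      rw [nm, nm, dg_nm_congr hn]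
      exact_mod_cast Nat.add_le_add_left hlt (bs n * nm y n)
    have h5 : ((nm x (n + 1) : ℝ) + 1) / Bp (n + 1) ≤ (nm y (n + 1) : ℝ) / Bp (n + 1) := by
      gcongr
    have h6 : ((nm x (n + 1) : ℝ) + 1) / Bp (n + 1) ∈ Set.Icc (ev x) (ev y) := by
      constructor <;> linarith
    obtain ⟨z, hz, hz'⟩ := ht (hsub h6)
    have h7 := dg_KD_up hz (n + 1)
    have h8 := dg_KD_low hz (n + 1)
    rw [hz'] at h7 h8
    have h9 : ((nm x (n + 1) : ℝ) + 1) / Bp (n + 1) < ((nm z (n + 1) : ℝ) + 1) / Bp (n + 1) := by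
      linarith
    have h10 : (nm z (n + 1) : ℝ) / Bp (n + 1) < ((nm x (n + 1) : ℝ) + 1) / Bp (n + 1) := by
      linarith
    rw [div_lt_div_iff_of_pos_right h0] at h9 h10
    have h11 : nm x (n + 1) < nm z (n + 1) := by
      have : (nm x (n + 1) : ℝ) < nm z (n + 1) := by linarith
      exact_mod_cast this
    have h12 : nm z (n + 1) < nm x (n + 1) + 1 := by exact_mod_cast h10
    omega
  intro a ha b hb
  exact le_antisymm (not_lt.1 (key b hb a ha)) (not_lt.1 (key a ha b hb))

/-- continuity of `ev` on the sequences of digits of the Cantor set -/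
theorem ev_cont {x1 : ℕ → ℕ} (hx : x1 ∈ KD) {O : Set ℝ} (hO : IsOpen O) (h : ev x1 ∈ O) :
    ∃ n, ∀ x ∈ KD, (∀ i < n, x i = x1 i) → ev x ∈ O := by
  obtain ⟨ε, hε, hb⟩ := Metric.isOpen_iff.1 hO _ h
  obtain ⟨n, -, hn⟩ := dg_inv_small hε 0
  refine ⟨n, fun x hx' hi => hb ?_⟩
  rw [Metric.mem_ball, Real.dist_eq]
  exact (dg_close (dg_KD_lt hx') (dg_KD_lt hx) hi).trans_lt hn

/-- relatively dense open sets contain cylinders -/
theorem K_cyl {u : List ℕ} (hu : u ∈ TrI 2) {O : Set ℝ} (hO : IsOpen O)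
    (hd : Kset ⊆ closure (Kset ∩ O)) :
    ∃ u' ∈ TrI 2, u <+: u' ∧ ∀ x ∈ KD, (∀ i < u'.length, x i = u'.getD i 0) → ev x ∈ O := by
  have hx0 : (fun i => if i < u.length then u.getD i 0 else 1) ∈ KD := by
    intro i
    by_cases hi : i < u.length
    · simp only [hi, if_true]
      exact hu i hi
    · simp only [hi, if_false]
      unfold bs
      omega
  have h1 := hd ⟨_, hx0, rfl⟩
  have hpos : (0 : ℝ) < 1 / Bp (u.length + 1) := by
    have := dg_BpR_pos (u.length + 1)
    positivity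
  obtain ⟨_, ⟨⟨y, hy, rfl⟩, hyO⟩, hdist⟩ := Metric.mem_closure_iff.1 h1 _ hpos
  rw [Real.dist_eq] at hdist
  have h2 := dg_sep hx0 hy hdist
  obtain ⟨δ, hδ, hδO⟩ := Metric.isOpen_iff.1 hO _ hyO
  obtain ⟨m, hm, hm'⟩ := dg_inv_small hδ u.length
  have hlen : ((List.range m).map y).length = m := by simp
  have hget : ∀ i < m, ((List.range m).map y).getD i 0 = y i := by
    intro i hi
    rw [List.getD_eq_getElem _ _ (by simpa using hi)]
    simp
  refine ⟨(List.range m).map y, ?_, ?_, ?_⟩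
  · intro i hi
    rw [hlen] at hi
    rw [hget i hi]
    exact hy i
  · rw [List.prefix_iff_eq_take]
    apply List.ext_getElem
    · simp [hm]
    · intro i hi1 hi2
      rw [List.getElem_take, List.getElem_map, List.getElem_range, ← h2 i hi1]
      simp [hi1]
  · intro x hx hxi
    apply hδO
    rw [Metric.mem_ball, Real.dist_eq]
    refine lt_of_le_of_lt (dg_close (dg_KD_lt hx) (dg_KD_lt hy) (n := m) (fun i hi => ?_)) hm'
    rw [hxi i (by rw [hlen]; exact hi), hget i hi]

/-! ### sums, digits -/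

set_option linter.unusedVariables false in
theorem ev_add {x d : ℕ → ℕ} (hx : ∀ i, x i < bs i) (hd : ∀ i, d i < bs i)
    (hr : ∀ i, (x i + d i) % bs i ≠ bs i - 1) :
    ev x + ev d = (if bs 0 ≤ x 0 + d 0 then 1 else 0) + ev (sm x d) := by
  obtain ⟨r, hrd⟩ : ∃ r : ℕ → ℕ, ∀ i, r i = (x i + d i) % bs i := ⟨_, fun i => rfl⟩
  obtain ⟨c, hcd⟩ : ∃ c : ℕ → ℕ, ∀ i, c i = if bs i ≤ x i + d i then 1 else 0 :=
    ⟨_, fun i => rfl⟩
  have hbs : ∀ i, 0 < bs i := fun i => by unfold bs; omega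
  have hrlt : ∀ i, r i < bs i := fun i => by rw [hrd]; exact Nat.mod_lt _ (hbs i)
  have hc1 : ∀ i, c i ≤ 1 := fun i => by rw [hcd]; split_ifs <;> omega
  have heq : ∀ i, x i + d i = r i + bs i * c i := by
    intro i
    rw [hrd, hcd]
    have h1 := hx i
    have h2 := hd i
    split_ifs with h
    · rw [Nat.mod_eq_sub_mod h, Nat.mod_eq_of_lt (by omega)]
      omega
    · rw [Nat.mod_eq_of_lt (by omega)]
      omega
  have hsm : ∀ i, sm x d i = r i + c (i + 1) := by
    intro i
    rw [hrd, hcd]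
    rfl
  have hsr : Summable (fun i => (r i : ℝ) / Bp (i + 1)) := dg_summable fun i => (hrlt i).le
  have hsx : Summable (fun i => (x i : ℝ) / Bp (i + 1)) := dg_summable fun i => (hx i).le
  have hsd : Summable (fun i => (d i : ℝ) / Bp (i + 1)) := dg_summable fun i => (hd i).le
  have hsc' : Summable (fun i => (c (i + 1) : ℝ) / Bp (i + 1)) := by
    have h := dg_summable (x := fun i => c (i + 1))
      (fun i => (hc1 (i + 1)).trans (by have := hbs i; omega))
    exact h
  have hsc : Summable (fun i => (c i : ℝ) / Bp i) := (summable_nat_add_iff 1).1 hsc'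
  have h1 : ev x + ev d = ∑' i, ((r i : ℝ) / Bp (i + 1) + (c i : ℝ) / Bp i) := by
    unfold ev
    rw [← hsx.tsum_add hsd]
    refine tsum_congr fun i => ?_
    have h2 : ((x i : ℝ) + d i) = r i + bs i * c i := by exact_mod_cast heq i
    rw [← add_div, h2, dg_Bp_succ, add_div]
    have h3 := dg_BpR_pos i
    have h4 : (0 : ℝ) < bs i := by exact_mod_cast hbs i
    push_cast
    congr 1
    field_simp
  rw [h1, hsr.tsum_add hsc, hsc.tsum_eq_zero_add]
  have h5 : ev (sm x d) = (∑' i, (r i : ℝ) / Bp (i + 1)) + ∑' i, (c (i + 1) : ℝ) / Bp (i + 1) := by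
    unfold ev
    rw [← hsr.tsum_add hsc']
    refine tsum_congr fun i => ?_
    rw [hsm, ← add_div]
    push_cast
    rfl
  rw [h5, dg_Bp_zero, hcd 0]
  push_cast
  ring

theorem dgt_lt (x : ℝ) (i : ℕ) : dgt x i < bs i := by
  unfold dgt
  exact Nat.mod_lt _ (by unfold bs; omega)

private theorem dg_nm_dgt (x : ℝ) (n : ℕ) : nm (dgt x) n = ⌊Int.fract x * Bp n⌋₊ := by
  have h0 := Int.fract_nonneg x
  have h1 := Int.fract_lt_one x
  induction n with
  | zero =>
    rw [nm, dg_Bp_zero]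
    symm
    rw [Nat.floor_eq_zero]
    simpa using h1
  | succ n ih =>
    have hb : (0 : ℝ) < bs n := by unfold bs; positivity
    rw [nm, ih, dgt]
    have h2 : ⌊Int.fract x * Bp n⌋₊ = ⌊Int.fract x * Bp (n + 1)⌋₊ / bs n := by
      rw [← Nat.floor_div_natCast]
      congr 1
      rw [dg_Bp_succ]
      push_cast
      field_simp
    rw [h2]
    exact Nat.div_add_mod _ _

theorem ev_dgt (x : ℝ) : ev (dgt x) = Int.fract x := by
  refine tendsto_nhds_unique (dg_tendsto fun i => (dgt_lt x i).le) ?_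
  rw [Metric.tendsto_atTop]
  intro ε hε
  obtain ⟨N, -, hN⟩ := dg_inv_small hε 0
  refine ⟨N, fun n hn => ?_⟩
  rw [Real.dist_eq, dg_nm_dgt]
  have h0 := Int.fract_nonneg x
  have h1 := dg_BpR_pos n
  have h2 := Nat.floor_le (mul_nonneg h0 h1.le)
  have h3 := Nat.lt_floor_add_one (Int.fract x * Bp n)
  have h4 := dg_inv_anti hn
  have h5 : |(⌊Int.fract x * Bp n⌋₊ : ℝ) / Bp n - Int.fract x| ≤ 1 / Bp n := by
    rw [abs_le]
    constructor
    · rw [le_sub_iff_add_le, ← sub_eq_neg_add, sub_le_iff_le_add, ← add_div, le_div_iff₀ h1]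
      exact h3.le
    · have h6 : (⌊Int.fract x * Bp n⌋₊ : ℝ) / Bp n ≤ Int.fract x := by
        rw [div_le_iff₀ h1]
        exact h2
      have h7 : (0 : ℝ) ≤ 1 / Bp n := by positivity
      linarith
  linarith

theorem ev_sub {x x' : ℕ → ℕ} (hx : ∀ i, x i < bs i) (hx' : ∀ i, x' i < bs i) {m : ℕ}
    (h : ∀ i, m ≤ i → x i = x' i) :
    ev x' = ev x + ∑ i ∈ Finset.range m, ((x' i : ℝ) - x i) / Bp (i + 1) := by
  have h1 := (dg_summable fun i => (hx i).le).sum_add_tsum_nat_add m
  have h2 := (dg_summable fun i => (hx' i).le).sum_add_tsum_nat_add m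
  have h3 : ∑' i, (x (i + m) : ℝ) / Bp (i + m + 1) = ∑' i, (x' (i + m) : ℝ) / Bp (i + m + 1) :=
    tsum_congr fun i => by rw [h (i + m) (by omega)]
  unfold ev
  rw [← h1, ← h2, h3]
  simp only [sub_div, Finset.sum_sub_distrib]
  ring

theorem dense_code {D : Set (List ℕ)} (hD : ∀ s ∈ TrI 1, ∃ s' ∈ TrI 1, s <+: s' ∧ s' ∈ D) :
    Dense {x : ℝ | ∃ a b : ℚ, (∃ s ∈ D, ∀ y ∈ Set.Ioo (a : ℝ) b, ∀ i < s.length,
      dgt y i = s.getD i 0) ∧ (a : ℝ) < x ∧ x < b} := by
  rw [Metric.dense_iff]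
  intro x₀ ε hε
  obtain ⟨N, -, hN⟩ := dg_inv_small hε 0
  have hlen : ((List.range N).map (dgt x₀)).length = N := by simp
  have hget : ∀ i < N, ((List.range N).map (dgt x₀)).getD i 0 = dgt x₀ i := by
    intro i hi
    rw [List.getD_eq_getElem _ _ (by simpa using hi)]
    simp
  obtain ⟨s', hs', hpre, hsD⟩ := hD ((List.range N).map (dgt x₀)) (by
    intro i hi
    rw [hlen] at hi
    rw [hget i hi]
    exact dgt_lt _ _)
  have hL : N ≤ s'.length := by
    rw [← hlen]
    exact hpre.length_le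
  set L := s'.length with hLdef
  set w : ℕ → ℕ := fun i => s'.getD i 0 with hw
  have hwlt : ∀ i < L, w i < bs i := fun i hi => hs' i hi
  have hwx : ∀ i < N, w i = dgt x₀ i := by
    intro i hi
    rw [← hget i hi]
    show s'.getD i 0 = _
    rw [List.getD_eq_getElem _ _ (by omega), List.getD_eq_getElem _ _ (by rw [hlen]; exact hi)]
    exact (hpre.getElem _).symm
  have hnmlt : ∀ n ≤ L, nm w n + 1 ≤ Bp n := by
    intro n
    induction n with
    | zero => intro _; simp [nm, dg_Bp_zero]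
    | succ n ih =>
      intro hn
      have h1 := ih (by omega)
      have h2 := hwlt n (by omega)
      rw [nm, dg_Bp_succ]
      calc bs n * nm w n + w n + 1 ≤ bs n * nm w n + bs n := by omega
        _ = (nm w n + 1) * bs n := by ring
        _ ≤ Bp n * bs n := Nat.mul_le_mul_right _ h1
  have hup : ∀ m ≤ L, ((nm w L : ℝ) + 1) / Bp L ≤ ((nm w m : ℝ) + 1) / Bp m := by
    have h1 : ∀ n m, m ≤ n → n ≤ L → ((nm w n : ℝ) + 1) / Bp n ≤ ((nm w m : ℝ) + 1) / Bp m := by
      intro n m hmn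
      induction n, hmn using Nat.le_induction with
      | base => intro _; exact le_rfl
      | succ n _ ih => intro hn; exact (dg_up_step (hwlt n (by omega))).trans (ih (by omega))
    exact fun m hm => h1 L m hm le_rfl
  have h0 := dg_BpR_pos L
  have hLpos : (0 : ℝ) < 1 / Bp L := by positivity
  refine ⟨⌊x₀⌋ + ((nm w L : ℝ) + 1 / 2) / Bp L, ?_, ?_⟩
  · rw [Metric.mem_ball, Real.dist_eq]
    have h1 : x₀ = ⌊x₀⌋ + Int.fract x₀ := (Int.floor_add_fract x₀).symm
    have h2 : nm w N = nm (dgt x₀) N := dg_nm_congr hwx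
    have h3 := dg_low (dgt_lt x₀) N
    have h4 := dg_up (dgt_lt x₀) N
    rw [ev_dgt, ← h2] at h3 h4
    have h5 := dg_low_mono w hL
    have h6 := hup N hL
    have h7 : ((nm w L : ℝ) + 1 / 2) / Bp L = (nm w L : ℝ) / Bp L + (1 / 2) * (1 / Bp L) := by ring
    have h8 : ((nm w L : ℝ) + 1) / Bp L = (nm w L : ℝ) / Bp L + 1 / Bp L := by ring
    have h9 : ((nm w N : ℝ) + 1) / Bp N = (nm w N : ℝ) / Bp N + 1 / Bp N := by ring
    rw [h7]
    rw [h8, h9] at h6
    rw [h9] at h4
    rw [abs_lt]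
    constructor <;> linarith
  · refine ⟨⌊x₀⌋ + (nm w L : ℚ) / Bp L, ⌊x₀⌋ + ((nm w L : ℚ) + 1) / Bp L, ⟨s', hsD, ?_⟩, ?_, ?_⟩
    · intro y hy i hi
      push_cast at hy
      obtain ⟨hy1, hy2⟩ := hy
      set t := y - ⌊x₀⌋ with ht
      have ht1 : (nm w L : ℝ) / Bp L < t := by rw [ht]; linarith
      have ht2 : t < ((nm w L : ℝ) + 1) / Bp L := by rw [ht]; linarith
      have ht0 : 0 ≤ t := le_trans (by positivity) ht1.le
      have ht3 : t < 1 := by
        refine lt_of_lt_of_le ht2 ?_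
        rw [div_le_one h0]
        exact_mod_cast hnmlt L le_rfl
      have hfr : Int.fract y = t := by
        have h1 : y = t + ⌊x₀⌋ := by rw [ht]; ring
        rw [h1, Int.fract_add_intCast]
        exact Int.fract_eq_self.2 ⟨ht0, ht3⟩
      have h1 : (0 : ℝ) < Bp (i + 1) := dg_BpR_pos (i + 1)
      have h2 : ⌊Int.fract y * Bp (i + 1)⌋₊ = nm w (i + 1) := by
        rw [hfr, Nat.floor_eq_iff (by positivity)]
        constructor
        · rw [← div_le_iff₀ h1]
          exact (dg_low_mono w (show i + 1 ≤ L by omega)).trans ht1.le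
        · rw [← lt_div_iff₀ h1]
          exact lt_of_lt_of_le ht2 (hup (i + 1) (by omega))
      rw [dgt, h2, nm, Nat.mul_add_mod, Nat.mod_eq_of_lt (hwlt i hi)]
    · push_cast
      have : (nm w L : ℝ) / Bp L < ((nm w L : ℝ) + 1 / 2) / Bp L := by
        gcongr
        linarith
      linarith
    · push_cast
      have : ((nm w L : ℝ) + 1 / 2) / Bp L < ((nm w L : ℝ) + 1) / Bp L := by
        gcongr
        norm_num
      linarith

/-! ### measurability -/

variable {I : Type} [LinearOrder I] {α : I}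

theorem MR.measurable {f : (I → Y) → ℝ} (h : MR α f) : @Measurable _ _ (Flt α) _ f := by
  let _ : MeasurableSpace (I → Y) := Flt α
  refine measurable_of_Iio fun x => ?_
  have h1 : f ⁻¹' Set.Iio x = {z | ∃ q : ℚ, (q : ℝ) < x ∧ f z < q} := by
    ext z
    constructor
    · intro hz
      obtain ⟨q, hq1, hq2⟩ := exists_rat_btwn (show f z < x from hz)
      exact ⟨q, hq2, hq1⟩
    · rintro ⟨q, hq1, hq2⟩
      exact lt_trans hq2 hq1
  rw [h1]
  exact MS.ex fun q => (MS.const α _).and (h q)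

theorem MR.of_measurable {f : (I → Y) → ℝ} (h : @Measurable _ _ (Flt α) _ f) : MR α f :=
  fun a => h (measurableSet_Iio (a := (a : ℝ)))

theorem MR.add {f g : (I → Y) → ℝ} (hf : MR α f) (hg : MR α g) :
    MR α (fun z => f z + g z) := by
  let _ : MeasurableSpace (I → Y) := Flt α
  exact MR.of_measurable (Measurable.add hf.measurable hg.measurable)

theorem MR.const (c : ℝ) : MR α (fun _ : I → Y => c) := fun _ => MS.const α _

theorem MR.mono {β : I} (h : α ≤ β) {f : (I → Y) → ℝ} (hf : MR α f) : MR β f :=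
  fun a => (hf a).mono h

theorem MR.floor {f : (I → Y) → ℝ} (hf : MR α f) (k : ℤ) : MS α {z | ⌊f z⌋ = k} := by
  let _ : MeasurableSpace (I → Y) := Flt α
  exact (Int.measurable_floor.comp hf.measurable) (measurableSet_singleton k)

private theorem dg_dgt_measurable (i : ℕ) : Measurable (fun x : ℝ => CR.dgt x i) := by
  unfold CR.dgt
  exact (measurable_from_top (f := fun n : ℕ => n % bs i)).comp
    (Nat.measurable_floor.comp (measurable_fract.mul_const _))

theorem MR.dgt {f : (I → Y) → ℝ} (hf : MR α f) (i d : ℕ) : MS α {z | CR.dgt (f z) i = d} := by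
  let _ : MeasurableSpace (I → Y) := Flt α
  exact ((dg_dgt_measurable i).comp hf.measurable) (measurableSet_singleton d)

theorem MR.ev {g : (I → Y) → ℕ → ℕ} (hb : ∀ z i, g z i < bs i)
    (hg : ∀ i d, MS α {z | g z i = d}) : MR α (fun z => CR.ev (g z)) := by
  let _ : MeasurableSpace (I → Y) := Flt α
  refine MR.of_measurable ?_
  refine measurable_of_tendsto_metrizable
    (f := fun n z => ∑ i ∈ Finset.range n, (g z i : ℝ) / Bp (i + 1)) (fun n => ?_) ?_
  · refine Finset.measurable_sum _ fun i _ => ?_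
    have h1 : Measurable (fun z => g z i) := measurable_to_countable' fun d => hg i d
    exact (measurable_from_top (f := fun n : ℕ => (n : ℝ) / Bp (i + 1))).comp h1
  · rw [tendsto_pi_nhds]
    intro z
    exact (dg_summable fun i => (hb z i).le).hasSum.tendsto_sum_nat

theorem MR.op {f : (I → Y) → ℝ} (hf : MR α f) {U : ℕ → ℚ → ℚ → Set (I → Y)} (hU : MC α U)
    (n : ℕ) : MS α {z | f z ∈ Op U n z} := by
  have h1 : ∀ a : ℚ, MS α {z | (a : ℝ) < f z} := fun a =>
    (MR.measurable hf) (measurableSet_Ioi (a := (a : ℝ)))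
  exact MS.ex fun a => MS.ex fun b => (hU n a b).and ((h1 a).and (hf b))

theorem td_lt (y : Y) (i : ℕ) : td y i < bs i := by
  unfold td
  split_ifs
  · exact Nat.mod_lt _ (by unfold bs; omega)
  · unfold bs; omega

private theorem dg_getD_prefix {s t : List ℕ} (h : s <+: t) {i : ℕ} (hi : i < s.length) :
    t.getD i 0 = s.getD i 0 := by
  have h1 := h.length_le
  rw [List.getD_eq_getElem _ _ (by omega), List.getD_eq_getElem _ _ hi]
  exact (h.getElem _).symm

/-- the digits of the concatenation can be read off from every sufficiently long initial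
segment -/
theorem td_eq {y : Y} {n i : ℕ} (h : i < (pre y n).flatten.length) :
    td y i = ((pre y n).flatten.getD i 0) % bs i := by
  classical
  have h1 : ∃ n, i < (pre y n).flatten.length := ⟨n, h⟩
  unfold td
  rw [dif_pos h1]
  have h2 : Nat.find h1 ≤ n := Nat.find_min' h1 h
  have h3 : (pre y (Nat.find h1)).flatten <+: (pre y n).flatten := by
    obtain ⟨t, ht⟩ := pre_prefix y h2
    rw [← ht, List.flatten_append]
    exact List.prefix_append _ _
  rw [dg_getD_prefix h3 (Nat.find_spec h1)]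

theorem td_ms {ξ : I} (h : ξ < α) (i d : ℕ) : MS α {z : I → Y | td (z ξ) i = d} := by
  have h1 : {z : I → Y | td (z ξ) i = d} = {z | (∃ (n : ℕ) (σ : Node), pre (z ξ) n = σ ∧
      (i < σ.flatten.length ∧ (σ.flatten.getD i 0) % bs i = d)) ∨
      ((∀ n : ℕ, ∃ σ : Node, pre (z ξ) n = σ ∧ ¬ i < σ.flatten.length) ∧ d = 0)} := by
    ext z
    by_cases hz : ∃ n, i < (pre (z ξ) n).flatten.length
    · obtain ⟨n, hn⟩ := hz
      constructor
      · intro h2
        exact Or.inl ⟨n, _, rfl, hn, by rw [← td_eq hn]; exact h2⟩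
      · rintro (⟨m, σ, rfl, hm1, hm2⟩ | ⟨h2, -⟩)
        · show td (z ξ) i = d
          rw [td_eq hm1]
          exact hm2
        · obtain ⟨σ, rfl, h3⟩ := h2 n
          exact absurd hn h3
    · have h2 : td (z ξ) i = 0 := by
        unfold td
        rw [dif_neg hz]
      push Not at hz
      constructor
      · intro h3
        refine Or.inr ⟨fun n => ⟨_, rfl, not_lt.2 (hz n)⟩, ?_⟩
        rw [← h2]
        exact (show td (z ξ) i = d from h3).symm
      · rintro (⟨m, σ, rfl, hm1, hm2⟩ | ⟨-, h3⟩)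
        · exact absurd hm1 (not_lt.2 (hz m))
        · show td (z ξ) i = d
          rw [h2, h3]
  rw [h1]
  exact (MS.ex fun n => MS.ex fun σ => (MS.pre h n σ).and
      (MS.const α (i < σ.flatten.length ∧ (σ.flatten.getD i 0) % bs i = d))).or
    ((MS.all fun n => MS.ex fun σ => (MS.pre h n σ).and
      (MS.const α (¬ i < σ.flatten.length))).and (MS.const α (d = 0)))

theorem tt_ms {ξ : I} (h : ξ < α) : MR α (fun z : I → Y => tt (z ξ)) :=
  MR.ev (g := fun z => td (z ξ)) (fun z i => td_lt (z ξ) i) (fun i d => td_ms h i d)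

end Pool.Agent.CR
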