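import Pool.Agent.Lib.MP_72b52d_lc.CR.EvDefs
import Pool.Agent.Lib.MP_72b52d_lc.CR.KLim

/-!
# MP_72b52d_lc : sufficiently rich worlds
-/

namespace Pool.Agent.CR

variable {I : Type} [LinearOrder I] [OrderTop I]

theorem cn_inj {p q : PC I} (h : cn p = cn q) : p = q := by
  unfold cn at h
  simp only [Obj.ob.injEq, Ob.c.injEq] at h
  exact Subtype.ext h

theorem PC_le {p q : PC I} : p ≤ q ↔ Bod p.1 ⊆ Bod q.1 := Iff.rfl

theorem Ev.mono {C C' : Set (Obj I) → (I → Y) → Prop} (h : Ev C) (h' : ∀ M z, C M z → C' M z) :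
    Ev C' := by
  obtain ⟨Rel, hR⟩ := h
  exact ⟨Rel, fun M z hw => h' M z (hR M z hw)⟩

theorem Ev.all {ι : Type} [Countable ι] {C : ι → Set (Obj I) → (I → Y) → Prop}
    (h : ∀ i, Ev (C i)) : Ev (fun M z => ∀ i, C i M z) := by
  classical
  choose Rel hR using h
  have := Encodable.ofCountable (ι × ℕ)
  refine ⟨fun n => match (Encodable.decode n : Option (ι × ℕ)) with
    | some x => Rel x.1 x.2
    | none => fun _ _ => False, fun M z hw i => hR i M z ⟨hw.cnt, hw.ne, fun j l hl hx => ?_,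
      fun j l hl => ?_⟩⟩
  · have h1 := hw.el (Encodable.encode (i, j)) l hl
    simp only [Encodable.encodek] at h1
    exact h1 hx
  · have h1 := hw.gen (Encodable.encode (i, j)) l hl
    simp only [Encodable.encodek] at h1
    exact h1

theorem Ev.and {C C' : Set (Obj I) → (I → Y) → Prop} (h : Ev C) (h' : Ev C') :
    Ev (fun M z => C M z ∧ C' M z) := by
  have h1 := Ev.all (ι := Bool) (C := fun b => if b then C else C') (by
    intro b
    cases b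
    · simpa using h'
    · simpa using h)
  exact h1.mono fun M z hb => ⟨by simpa using hb true, by simpa using hb false⟩

theorem ev_cnt : Ev (fun (M : Set (Obj I)) _ => M.Countable) :=
  ⟨fun _ _ _ => False, fun _ _ hw => hw.cnt⟩

theorem ev_ne : Ev (fun (M : Set (Obj I)) z => (Gf M z).Nonempty) :=
  ⟨fun _ _ _ => False, fun _ _ hw => hw.ne⟩

/-- closure of `M` under a relation -/
theorem ev_rel (R : List (Obj I) → Obj I → Prop) : Ev (fun M (_ : I → Y) =>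
    ∀ l, (∀ x ∈ l, x ∈ M) → (∃ x, R l x) → ∃ x ∈ M, R l x) :=
  ⟨fun _ => R, fun _ _ hw l hl hx => hw.el 0 l hl hx⟩

/-- closure of `M` under a function -/
theorem ev_fun (F : List (Obj I) → Obj I) : Ev (fun M (_ : I → Y) =>
    ∀ l, (∀ x ∈ l, x ∈ M) → F l ∈ M) :=
  (ev_rel fun l x => x = F l).mono fun M z h l hl => by
    obtain ⟨x, hx, rfl⟩ := h l hl ⟨_, rfl⟩
    exact hx

theorem ev_gen (S : List (Obj I) → Set (PC I)) : Ev (fun M z => ∀ l, (∀ x ∈ l, x ∈ M) →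
    (∃ s ∈ Gf M z, s ∈ S l) ∨ ∃ p ∈ Gf M z, ∀ s ∈ S l, ∀ r ≤ p, ¬ r ≤ s) := by
  refine ⟨fun _ l x => ∃ s ∈ S l, x = cn s, fun M z hw l hl => ?_⟩
  rcases hw.gen 0 l hl with ⟨s, h1, s', h2, h3⟩ | ⟨p, h1, h2⟩
  · rw [← cn_inj h3] at h2
    exact Or.inl ⟨s, h1, h2⟩
  · exact Or.inr ⟨p, h1, fun s hs r hr => h2 s ⟨s, hs, rfl⟩ r hr⟩

theorem ev_dense (S : List (Obj I) → Set (PC I)) : Ev (fun M z => ∀ l, (∀ x ∈ l, x ∈ M) →
    (∀ p, ∃ q ≤ p, q ∈ S l) → ∃ s ∈ Gf M z, s ∈ S l) := by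
  refine (ev_gen S).mono fun M z h l hl hd => ?_
  rcases h l hl with h | ⟨p, _, h2⟩
  · exact h
  · obtain ⟨q, hq, hq'⟩ := hd p
    exact absurd le_rfl (h2 q hq' q hq)

section
variable [WellFoundedLT I] [OrderBot I]

/-- `G` decides measurable sets -/
theorem ev_ms (S : List (Obj I) → Set (I → Y)) : Ev (fun M z => ∀ l, (∀ x ∈ l, x ∈ M) →
    MS ⊤ (S l) → z ∈ S l → ∃ p ∈ Gf M z, Bod p.1 ⊆ S l) := by
  refine (ev_dense (fun l => {p : PC I | Bod p.1 ⊆ S l ∨ Disjoint (Bod p.1) (S l)})).mono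
    fun M z h l hl hm hz => ?_
  obtain ⟨s, h1, h2⟩ := h l hl (fun p => by
    obtain ⟨q, a1, a2, a3⟩ := dec ⊤ (S l) hm p.1 p.2
    exact ⟨⟨q, a1⟩, a2, a3⟩)
  rcases h2 with h2 | h2
  · exact ⟨s, h1, h2⟩
  · exact absurd hz (Set.disjoint_left.1 h2 h1.2)

theorem ev_dir : Ev (fun (M : Set (Obj I)) z => ∀ p ∈ Gf M z, ∀ q ∈ Gf M z, ∃ r ∈ Gf M z,
    r ≤ p ∧ r ≤ q) := by
  refine (ev_ms (fun l : List (Obj I) => match l with
    | [.ob (.c p), .ob (.c q)] => Bod p ∩ Bod q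
    | _ => ∅)).mono fun M z h p hp q hq => ?_
  obtain ⟨r, h1, h2⟩ := h [cn p, cn q] (by simp [hp.1, hq.1]) ((Bod_ms p.2).inter (Bod_ms q.2))
    ⟨hp.2, hq.2⟩
  exact ⟨r, h1, fun x hx => (h2 hx).1, fun x hx => (h2 hx).2⟩

/-- sets which are dense below an element of `G` are met by `G` -/
theorem ev_below (S : List (Obj I) → Set (PC I)) : Ev (fun M z => ∀ l, (∀ x ∈ l, x ∈ M) →
    ∀ p ∈ Gf M z, (∀ q ≤ p, ∃ r ≤ q, r ∈ S l) → ∃ s ∈ Gf M z, s ≤ p ∧ s ∈ S l) := by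
  refine ((ev_gen (fun l : List (Obj I) => match l with
    | .ob (.c p) :: l => {s : PC I | Bod s.1 ⊆ Bod p ∧ s ∈ S l}
    | _ => ∅)).and ev_dir).mono fun M z ⟨h, hdir⟩ l hl p hp hd => ?_
  rcases h (cn p :: l) (by
    intro x hx
    rcases List.mem_cons.1 hx with rfl | hx
    · exact hp.1
    · exact hl x hx) with ⟨s, h1, h2, h3⟩ | ⟨p', h1, h2⟩
  · exact ⟨s, h1, h2, h3⟩
  · obtain ⟨r, _, h4, h5⟩ := hdir p hp p' h1
    obtain ⟨r', h6, h7⟩ := hd r h4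
    exact absurd le_rfl (h2 r' ⟨h6.trans h4, h7⟩ r' (h6.trans h5))

/-! ### existence -/

/-- the dense set given by a set of conditions -/
def Dd (S : Set (PC I)) : Set (Cond I × List ℕ) :=
  {x | x.2 = [] ∧ ∃ h : Low ⊤ x.1, (∃ s ∈ S, (⟨x.1, h⟩ : PC I) ≤ s) ∨
    ∀ s ∈ S, ∀ r : PC I, r ≤ ⟨x.1, h⟩ → ¬ r ≤ s}

omit [WellFoundedLT I] [OrderBot I] in
theorem Dd_dense (S : Set (PC I)) : Dn ⊤ (TrI 0) (Dd S) := by
  refine ⟨fun q s h => ⟨h.2.1, h.1⟩, ?_, ?_⟩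
  · rintro q s ⟨h1, h2, h3⟩ q' s' hq' hle _ hs'
    refine ⟨hs', hq', ?_⟩
    rcases h3 with ⟨t, ht, h3⟩ | h3
    · exact Or.inl ⟨t, ht, fun x hx => h3 (hle hx)⟩
    · exact Or.inr fun t ht r hr => h3 t ht r fun x hx => hle (hr hx)
  · intro q s hq hs
    have hs : s = [] := hs
    subst hs
    by_cases h : ∃ t ∈ S, ∃ r : PC I, r ≤ ⟨q, hq⟩ ∧ r ≤ t
    · obtain ⟨t, ht, r, h1, h2⟩ := h
      exact ⟨r.1, [], h1, List.prefix_rfl, rfl, r.2, Or.inl ⟨t, ht, h2⟩⟩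
    · push Not at h
      exact ⟨q, [], le_rfl, List.prefix_rfl, rfl, hq, Or.inr fun t ht r hr => h t ht r hr⟩

/-- the first order part of an object -/
def unOb : Obj I → Ob I
  | .ob x => x
  | _ => .c (one I)

open Classical in
/-- the operations for a world -/
noncomputable def WOp (Rel : ℕ → List (Obj I) → Obj I → Prop) (l : List (Obj I)) : Set (Obj I) :=
  (Obj.ob '' SuitOp (l.map unOb)) ∪
  Set.range (fun i => if h : ∃ x, Rel i l x then h.choose else .ob (.c (one I))) ∪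
  Set.range (fun i => .ob (.d (Dd {s | Rel i l (cn s)}))) ∪
  Set.range (fun i => if h : ∃ s : PC I, Rel i l.tail (cn s) ∧ ∃ p, l.head? = some (cn p) ∧ p ≤ s
    then cn h.choose else .ob (.c (one I)))

omit [WellFoundedLT I] [OrderBot I] in
theorem WOp_countable (Rel : ℕ → List (Obj I) → Obj I → Prop) (l : List (Obj I)) :
    (WOp Rel l).Countable :=
  ((((SuitOp_countable _).image _).union (Set.countable_range _)).union
    (Set.countable_range _)).union (Set.countable_range _)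

theorem exists_world (Rel : ℕ → List (Obj I) → Obj I → Prop) (A : Set (Obj I)) (hA : A.Countable)
    (p0 : PC I) : ∃ M z, A ⊆ M ∧ p0 ∈ Gf M z ∧ World Rel M z := by
  classical
  obtain ⟨M, h1, h2, h3⟩ := hull (WOp Rel) (WOp_countable Rel)
    (A ∪ {cn p0, .ob (.o ⊤), .ob (.o ⊥)}) (hA.union (by simp))
  have hp0 : cn p0 ∈ M := h1 (Or.inr (by simp))
  have hot : Obj.ob (.o ⊤) ∈ M := h1 (Or.inr (by simp))
  have hob : Obj.ob (.o ⊥) ∈ M := h1 (Or.inr (by simp))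
  let M1 : Set (Ob I) := {x | Obj.ob x ∈ M}
  have hS : Suit M1 := by
    refine Suit.of_op (h2.preimage_of_injOn fun x _ y _ h => by simpa using h) fun l hl y hy => ?_
    refine h3 (l.map Obj.ob) (fun x hx => by
      obtain ⟨y, hy, rfl⟩ := List.mem_map.1 hx
      exact hl y hy) (Or.inl (Or.inl (Or.inl ⟨y, ?_, rfl⟩)))
    have : (l.map Obj.ob).map unOb = l := by
      rw [List.map_map]
      conv_rhs => rw [← List.map_id l]
      rfl
    rw [this]; exact hy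
  obtain ⟨c, hc⟩ := kl hS (α := ⊤) hot 0 ⊥ bot_le hob Set.univ (MS.univ _) (fun _ => {[]})
    (fun s => MS.const _ _) (fun _ => p0.1) (fun r => (MS.univ _).and (MS.const _ _))
    (fun z _ => ⟨hp0, p0.2, fun ξ hξ => absurd hξ not_lt_bot, Gen_bot hS z⟩)
  obtain ⟨z, hz⟩ := Bod_nonempty (res c ⊤)
  rw [Bod_res] at hz
  obtain ⟨hz1, hz2⟩ := hc z trivial (fun ξ _ hξ n => hz ξ hξ n)
  have hgen : Gen M1 0 ⊤ z {[]} := hz2.gen hS hot (dec ⊤)
  refine ⟨M, z, Set.subset_union_left.trans h1, ⟨hp0, hz1⟩, h2, ⟨p0, hp0, hz1⟩, ?_, ?_⟩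
  · intro i l hl hx
    refine ⟨hx.choose, h3 l hl (Or.inl (Or.inl (Or.inr ⟨i, ?_⟩))), hx.choose_spec⟩
    exact dif_pos hx
  · intro i l hl
    obtain ⟨q, a1, a2, a3, s, hs, a4⟩ := hgen p0.1 hp0 p0.2 hz1 (Dd {s | Rel i l (cn s)})
      (h3 l hl (Or.inl (Or.inr ⟨i, rfl⟩))) (Dd_dense _)
    obtain ⟨b1, b2, b3⟩ := a4
    rcases b3 with ⟨t, ht, ht'⟩ | b3
    · left
      have hex : ∃ s : PC I, Rel i (cn ⟨q, b2⟩ :: l).tail (cn s) ∧
          ∃ p, (cn ⟨q, b2⟩ :: l).head? = some (cn p) ∧ p ≤ s := ⟨t, ht, ⟨q, b2⟩, rfl, ht'⟩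
      obtain ⟨c1, p, c2, c3⟩ := hex.choose_spec
      have hp : p = ⟨q, b2⟩ := cn_inj (by simpa using c2.symm)
      subst hp
      refine ⟨hex.choose, ⟨h3 (cn ⟨q, b2⟩ :: l) ?_ (Or.inr ⟨i, ?_⟩), c3 a3⟩, c1⟩
      · intro x hx
        rcases List.mem_cons.1 hx with rfl | hx
        · exact a1
        · exact hl x hx
      · exact dif_pos hex
    · right
      exact ⟨⟨q, b2⟩, ⟨a1, a3⟩, fun s hs r hr => b3 s hs r hr⟩

/-- sufficiently rich worlds exist -/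
theorem Ev.exists {C : Set (Obj I) → (I → Y) → Prop} (h : Ev C) (A : Set (Obj I))
    (hA : A.Countable) (p0 : PC I) : ∃ M z, A ⊆ M ∧ p0 ∈ Gf M z ∧ C M z := by
  obtain ⟨Rel, hR⟩ := h
  obtain ⟨M, z, h1, h2, h3⟩ := exists_world Rel A hA p0
  exact ⟨M, z, h1, h2, hR M z h3⟩

end

end Pool.Agent.CR
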