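import Pool.Agent.Lib.MP_72b52d_lc.CR.Ev

/-!
# MP_72b52d_lc : reading of names, decision of measurable sets
-/

namespace Pool.Agent.CR

variable {I : Type} [LinearOrder I] [OrderTop I]

section
variable [WellFoundedLT I] [OrderBot I]

/-- reading: countably many dense questions are answered measurably -/
theorem readP {ι : Type} [Countable ι] (p : PC I) (D : ι → Set (PC I))
    (hD : ∀ i, ∀ q ≤ p, ∃ r ≤ q, r ∈ D i) :
    ∃ p' ≤ p, ∃ (s : ι → ℕ → PC I) (g : ι → (I → Y) → ℕ), (∀ i k, s i k ∈ D i) ∧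
      (∀ i k, MS ⊤ {z | g i z = k}) ∧ ∀ z ∈ Bod p'.1, ∀ i, z ∈ Bod (s i (g i z)).1 := by
  classical
  rcases isEmpty_or_nonempty ι with hι | hι
  · exact ⟨p, le_rfl, fun i => isEmptyElim i, fun i => isEmptyElim i, fun i => isEmptyElim i,
      fun i => isEmptyElim i, fun z _ i => isEmptyElim i⟩
  obtain ⟨e, he⟩ := exists_surjective_nat ι
  obtain ⟨q', h1, h2, S, h3, h4⟩ := cover p.2
    (fun n => {r : Cond I | ∃ h : Low ⊤ r, (⟨r, h⟩ : PC I) ∈ D (e n)}) (by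
    intro n q' hq' hl
    obtain ⟨r, a1, a2⟩ := hD (e n) ⟨q', hl⟩ hq'
    exact ⟨r.1, a1, r.2, r.2, a2⟩)
  have hne : ∀ n, (S n).Nonempty := by
    intro n
    obtain ⟨z, hz⟩ := Bod_nonempty q'
    obtain ⟨r, hr, _⟩ := h4 z hz n
    exact ⟨r, hr⟩
  choose f hf using fun n => (h3 n).1.exists_eq_range (hne n)
  have hfD : ∀ n k, ∃ h : Low ⊤ (f n k), (⟨f n k, h⟩ : PC I) ∈ D (e n) := by
    intro n k
    have : f n k ∈ S n := by rw [hf n]; exact ⟨k, rfl⟩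
    exact (h3 n).2 this
  choose nn hnn using he
  have hL : ∀ i k, Low ⊤ (f (nn i) k) := fun i k => (hfD (nn i) k).1
  let s : ι → ℕ → PC I := fun i k => ⟨f (nn i) k, hL i k⟩
  let g : ι → (I → Y) → ℕ := fun i z =>
    if h : ∃ k, z ∈ Bod (s i k).1 then Nat.find h else 0
  refine ⟨⟨q', h2⟩, h1, s, g, ?_, ?_, ?_⟩
  · intro i k
    have := (hfD (nn i) k).2
    rw [hnn i] at this
    exact this
  · intro i k
    have hm : ∀ j, MS ⊤ {z | z ∈ Bod (s i j).1} := fun j => Bod_ms (s i j).2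
    have : {z | g i z = k} = {z | (z ∈ Bod (s i k).1 ∧ ∀ j : Fin k, ¬ z ∈ Bod (s i j).1) ∨
        (k = 0 ∧ ∀ j, ¬ z ∈ Bod (s i j).1)} := by
      ext z
      simp only [Set.mem_ofPred_eq, g]
      by_cases h : ∃ k, z ∈ Bod (s i k).1
      · rw [dif_pos h, Nat.find_eq_iff]
        constructor
        · rintro ⟨a, b⟩
          exact Or.inl ⟨a, fun j => b j.1 j.2⟩
        · rintro (⟨a, b⟩ | ⟨_, b⟩)
          · exact ⟨a, fun j hj => b ⟨j, hj⟩⟩
          · obtain ⟨j, hj⟩ := h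
            exact absurd hj (b j)
      · rw [dif_neg h]
        constructor
        · intro h0
          exact Or.inr ⟨h0.symm, fun j hj => h ⟨j, hj⟩⟩
        · rintro (⟨a, _⟩ | ⟨a, _⟩)
          · exact absurd ⟨k, a⟩ h
          · exact a.symm
    rw [this]
    exact ((hm k).and (MS.all fun j : Fin k => (hm j.1).not)).or
      ((MS.const _ _).and (MS.all fun j => (hm j).not))
  · intro z hz i
    have h : ∃ k, z ∈ Bod (s i k).1 := by
      obtain ⟨r, hr, hr'⟩ := h4 z hz (nn i)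
      rw [hf (nn i)] at hr
      obtain ⟨k, rfl⟩ := hr
      exact ⟨k, hr'⟩
    have : g i z = Nat.find h := dif_pos h
    rw [this]
    exact Nat.find_spec h

theorem decP (p : PC I) {A : Set (I → Y)} (hA : MS ⊤ A) :
    ∃ q ≤ p, Bod q.1 ⊆ A ∨ Disjoint (Bod q.1) A := by
  obtain ⟨q, a1, a2, a3⟩ := dec ⊤ A hA p.1 p.2
  exact ⟨⟨q, a1⟩, a2, a3⟩

theorem dec_natP {ι : Type} [Countable ι] (p : PC I) (A : ι → Set (I → Y)) (hA : ∀ i, MS ⊤ (A i))
    (h : ∀ z ∈ Bod p.1, ∃ i, z ∈ A i) : ∃ q ≤ p, ∃ i, Bod q.1 ⊆ A i := by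
  obtain ⟨q, a1, a2, i, a3⟩ := dec_nat p.2 A hA h
  exact ⟨⟨q, a2⟩, a1, i, a3⟩

/-- the conditions which answer all questions -/
def Rd {ι : Type} (D : ι → Set (PC I)) (p : PC I) (s : ι → ℕ → PC I)
    (g : ι → (I → Y) → ℕ) : Prop :=
  (∀ i k, s i k ∈ D i) ∧ (∀ i k, MS ⊤ {z | g i z = k}) ∧
    ∀ z ∈ Bod p.1, ∀ i, z ∈ Bod (s i (g i z)).1

open Classical in
/-- a chosen answer -/
noncomputable def rdS {ι : Type} (D : ι → Set (PC I)) (p : PC I) :
    (ι → ℕ → PC I) × (ι → (I → Y) → ℕ) :=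
  if h : ∃ x : (ι → ℕ → PC I) × (ι → (I → Y) → ℕ), Rd D p x.1 x.2 then h.choose
  else (fun _ _ => p, fun _ _ => 0)

/-- reading in a world: `F l s g` is an object built from the parameters and the answers -/
theorem ev_read {ι : Type} [Countable ι] (D : List (Obj I) → ι → Set (PC I))
    (F : List (Obj I) → (ι → ℕ → PC I) → (ι → (I → Y) → ℕ) → Obj I) :
    Ev (fun M z => ∀ l, (∀ x ∈ l, x ∈ M) → ∀ p ∈ Gf M z, (∀ i, ∀ q ≤ p, ∃ r ≤ q, r ∈ D l i) →
      ∃ s g, F l s g ∈ M ∧ (∀ i k, s i k ∈ D l i) ∧ (∀ i k, MS ⊤ {z | g i z = k}) ∧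
        ∀ i, s i (g i z) ∈ Gf M z) := by
  classical
  have e1 := ev_below (I := I) (fun l => {p : PC I | ∃ x : (ι → ℕ → PC I) × (ι → (I → Y) → ℕ),
    Rd (D l) p x.1 x.2})
  have e2 := ev_fun (I := I) (fun l => match l with
    | .ob (.c p) :: l => if h : Low ⊤ p then
        F l (rdS (D l) ⟨p, h⟩).1 (rdS (D l) ⟨p, h⟩).2 else .ob (.c p)
    | _ => .ob (.c (one I)))
  have e3 := Ev.all (ι := ι × ℕ) (fun x => ev_fun (I := I) (fun l => match l with
    | .ob (.c p) :: l => if h : Low ⊤ p then cn ((rdS (D l) ⟨p, h⟩).1 x.1 x.2) else .ob (.c p)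
    | _ => .ob (.c (one I))))
  refine (e1.and (e2.and e3)).mono fun M z ⟨h1, h2, h3⟩ l hl p hp hd => ?_
  obtain ⟨p', a1, _, a3⟩ := h1 l hl p hp (fun q hq => by
    obtain ⟨r, b1, s, g, b2, b3, b4⟩ := readP q (D l) (fun i q' hq' => hd i q' (hq'.trans hq))
    exact ⟨r, b1, (s, g), b2, b3, b4⟩)
  have hl' : ∀ x ∈ cn p' :: l, x ∈ M := by
    intro x hx
    rcases List.mem_cons.1 hx with rfl | hx
    · exact a1.1
    · exact hl x hx
  have hx : Rd (D l) p' (rdS (D l) p').1 (rdS (D l) p').2 := by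
    have a3' : ∃ x : (ι → ℕ → PC I) × (ι → (I → Y) → ℕ), Rd (D l) p' x.1 x.2 := a3
    unfold rdS
    rw [dif_pos a3']
    exact a3'.choose_spec
  refine ⟨(rdS (D l) p').1, (rdS (D l) p').2, ?_, hx.1, hx.2.1, fun i => ⟨?_, hx.2.2 z a1.2 i⟩⟩
  · have := h2 (cn p' :: l) hl'
    simp only [cn] at this
    rw [dif_pos p'.2] at this
    exact this
  · have := h3 (i, (rdS (D l) p').2 i z) (cn p' :: l) hl'
    simp only [cn] at this
    rw [dif_pos p'.2] at this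
    exact this

end

end Pool.Agent.CR
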