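import Pool.Agent.Lib.MP_72b52d_lc.CR.EvReal
import Pool.Agent.Lib.MP_72b52d_lc.CR.Read
import Pool.Agent.Lib.MP_72b52d_lc.CR.Digits

/-!
# MP_72b52d_lc : codes of the closures of the sets of a sequence of the model
-/

namespace Pool.Agent.CR

variable {I : Type} [LinearOrder I] [OrderTop I]

private theorem ec_not_mem_self (x : V) : x ∉ x := ZFSet.mem_irrefl x

private theorem ec_nat_inj {m n : ℕ} (h : nat m = nat n) : m = n := by
  rcases lt_trichotomy m n with h1 | h1 | h1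
  · have h2 : nat m ∈ nat n := mem_nat.2 ⟨m, h1, rfl⟩
    rw [h] at h2
    exact absurd h2 (ec_not_mem_self _)
  · exact h1
  · have h2 : nat n ∈ nat m := mem_nat.2 ⟨n, h1, rfl⟩
    rw [h] at h2
    exact absurd h2 (ec_not_mem_self _)

theorem seqR_mem {F : ℕ → Set ℝ} {n : ℕ} {x : ℝ} :
    ZFSet.pair (nat n) (cut x) ∈ seqR F ↔ x ∈ F n := by
  rw [seqR, ZFSet.mem_range]
  constructor
  · rintro ⟨⟨⟨m, y⟩, hy⟩, h⟩
    obtain ⟨h1, h2⟩ := ZFSet.pair_injective h
    have h3 : m = n := ec_nat_inj h1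
    have h4 : y = x := cut_inj h2
    subst h3
    subst h4
    exact hy
  · intro hx
    exact ⟨⟨(n, x), hx⟩, rfl⟩

private theorem ec_seq_sub {M : Set (Obj I)} {z : I → Y} {F : ℕ → Set ℝ}
    (hF : seqR F ∈ NM M z) (n : ℕ) : F n ⊆ RN (NM M z) := by
  intro x hx
  have h1 := Mod_trans _ hF _ (seqR_mem.2 hx)
  have h2 : ({nat n, cut x} : V) ∈ ZFSet.pair (nat n) (cut x) := by
    rw [ZFSet.pair, ZFSet.mem_pair]
    exact Or.inr rfl
  have h3 := Mod_trans _ h1 _ h2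
  have h4 : cut x ∈ ({nat n, cut x} : V) := by
    rw [ZFSet.mem_pair]
    exact Or.inr rfl
  exact Mod_trans _ h3 _ h4

section
variable [WellFoundedLT I] [OrderBot I]

omit [WellFoundedLT I] [OrderBot I] in
theorem ev_seq_sub : Ev (fun (M : Set (Obj I)) z => ∀ F : ℕ → Set ℝ, seqR F ∈ NM M z →
    ∀ n, F n ⊆ RN (NM M z)) :=
  ev_cnt.mono fun _ _ _ _ hF n => ec_seq_sub hF n

/-- the name of an object -/
private def ec_un : List (Obj I) → Nm (PC I)
  | .nm τ :: _ => τ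
  | _ => Nm.emp

/-- the condition `r` knows an element of the `n`-th set in the interval -/
private def ec_A (σ : Nm (PC I)) (i : ℕ × ℚ × ℚ) (r : PC I) (f : (I → Y) → ℝ) : Prop :=
  MR ⊤ f ∧ Memf (opN (natN (PC I) i.1) (nmR f)) σ r ∧
    ∀ z ∈ Bod r.1, (i.2.1 : ℝ) < f z ∧ f z < i.2.2

/-- the condition `r` forces that the `n`-th set does not meet the interval -/
private def ec_B (σ : Nm (PC I)) (i : ℕ × ℚ × ℚ) (r : PC I) : Prop :=
  ∀ f, ∀ r' ≤ r, ¬ ec_A σ i r' f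

theorem ev_code : Ev (fun (M : Set (Obj I)) z => ∀ F : ℕ → Set ℝ, seqR F ∈ NM M z →
    ∃ W, Obj.cd W ∈ M ∧ MC ⊤ W ∧ ∀ n (a b : ℚ), z ∈ W n a b ↔
      Disjoint (Set.Ioo (a : ℝ) b) (F n)) := by
  refine ((ev_read (ι := ℕ × ℚ × ℚ)
      (fun l i => {r | (∃ f, ec_A (ec_un l) i r f) ∨ ec_B (ec_un l) i r})
      (fun l s g => Obj.cd fun n a b =>
        {z | ec_B (ec_un l) (n, a, b) (s (n, a, b) (g (n, a, b) z))})).and
    (ev_ne.and (ev_dir.and (ev_mem.and (ev_natN.and (ev_opN.and (ev_nmR.and (ev_RN.and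
    ((Ev.all fun i : ℚ × ℚ => ev_ms fun l : List (Obj I) => match l with
      | [.fn f] => {z | (i.1 : ℝ) < f z ∧ f z < i.2}
      | _ => ∅).and
    (Ev.all fun i : ℕ × ℚ × ℚ => ev_rel fun (l : List (Obj I)) x =>
      ∃ σ s f, l = [.nm σ, cn s] ∧ x = Obj.fn f ∧ ec_A σ i s f)))))))))).mono ?_
  rintro M z ⟨hread, ⟨p, hp⟩, hdir, hmem, hnat, hop, hnmR, hRN, hms, hrel⟩ F ⟨σ, hσ, hσF⟩
  obtain ⟨s, g, h1, h2, h3, h4⟩ := hread [.nm σ] (by
    intro x hx
    rw [List.mem_singleton] at hx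
    rw [hx]
    exact hσ) p hp (by
    intro i q _
    by_cases h : ec_B σ i q
    · exact ⟨q, le_rfl, Or.inr h⟩
    · unfold ec_B at h
      push Not at h
      obtain ⟨f, r, hr, h5⟩ := h
      exact ⟨r, hr, Or.inl ⟨f, h5⟩⟩)
  refine ⟨_, h1, ?_, ?_⟩
  · intro n a b
    have : {z | ec_B (ec_un [Obj.nm σ]) (n, a, b) (s (n, a, b) (g (n, a, b) z))} =
        {z | ∃ k, g (n, a, b) z = k ∧ ec_B (ec_un [Obj.nm σ]) (n, a, b) (s (n, a, b) k)} := by
      ext z
      constructor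
      · intro h
        exact ⟨_, rfl, h⟩
      · rintro ⟨k, rfl, h⟩
        exact h
    change MS ⊤ {z | ec_B (ec_un [Obj.nm σ]) (n, a, b) (s (n, a, b) (g (n, a, b) z))}
    rw [this]
    exact MS.ex fun k => (h3 (n, a, b) k).and (MS.const _ _)
  · intro n a b
    change ec_B σ (n, a, b) (s (n, a, b) (g (n, a, b) z)) ↔ _
    have hs := h4 (n, a, b)
    have hD := h2 (n, a, b) (g (n, a, b) z)
    generalize s (n, a, b) (g (n, a, b) z) = s0 at hs hD ⊢
    have hval : ∀ f, Obj.fn f ∈ M → MR ⊤ f → opN (natN (PC I) n) (nmR f) ∈ HM M ∧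
        val (HM M) (Gf M z) (opN (natN (PC I) n) (nmR f)) = ZFSet.pair (nat n) (cut (f z)) := by
      intro f hf1 hf2
      have h9 := hop _ (hnat n).1 _ (hnmR f hf1 hf2).1
      refine ⟨h9.1, ?_⟩
      rw [h9.2, (hnat n).2, (hnmR f hf1 hf2).2]
    constructor
    · intro hB
      rw [Set.disjoint_left]
      intro x hx hxF
      obtain ⟨f, hf1, hf2, hf3⟩ := hRN x (ec_seq_sub (M := M) (z := z) ⟨σ, hσ, hσF⟩ n hxF)
      obtain ⟨h5, h6⟩ := hval f hf1 hf2
      have h7 : val (HM M) (Gf M z) (opN (natN (PC I) n) (nmR f)) ∈ val (HM M) (Gf M z) σ := by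
        rw [h6, hσF, hf3]
        exact seqR_mem.2 hxF
      obtain ⟨q, hq, h8⟩ := (hmem _ h5 _ hσ).1 h7
      obtain ⟨q', hq', h9⟩ := hms (a, b) [.fn f] (by
        intro x hx
        rw [List.mem_singleton] at hx
        rw [hx]
        exact hf1) (by
        have h10 := MR.measurable hf2
        exact h10 (measurableSet_Ioo (a := (a : ℝ)) (b := (b : ℝ)))) (by
        change (a : ℝ) < f z ∧ f z < b
        rw [hf3]
        exact hx)
      obtain ⟨r1, hr1, a1, a2⟩ := hdir _ hs _ hq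
      obtain ⟨r2, hr2, a3, a4⟩ := hdir _ hr1 _ hq'
      exact hB f r2 (a3.trans a1) ⟨hf2, Memf_mono h8 (a3.trans a2), fun z hz => h9 (a4 hz)⟩
    · intro hdis
      rcases hD with ⟨f, hf⟩ | hD
      · exfalso
        obtain ⟨x, hx, σ', s', f', e1, rfl, h5⟩ := hrel (n, a, b) [.nm σ, cn s0] (by
          intro x hx
          simp only [List.mem_cons, List.not_mem_nil, or_false] at hx
          rcases hx with rfl | rfl
          · exact hσ
          · exact hs.1) ⟨Obj.fn f, σ, s0, f, rfl, rfl, hf⟩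
        simp only [List.cons.injEq, Obj.nm.injEq, and_true] at e1
        obtain ⟨e1, e2⟩ := e1
        have e2 := cn_inj e2
        subst e1
        subst e2
        obtain ⟨h6, h7⟩ := hval f' hx h5.1
        have h8 := (hmem _ h6 _ hσ).2 ⟨s0, hs, h5.2.1⟩
        rw [h7, hσF] at h8
        exact Set.disjoint_left.1 hdis (h5.2.2 z hs.2) (seqR_mem.1 h8)
      · exact hD

end

end Pool.Agent.CR
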