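import Pool.Agent.Lib.MP_72b52d_lc.CR.Fusion
import Pool.Agent.Lib.MP_72b52d_lc.CR.Defs2

/-!
# MP_72b52d_lc : countable closed sets of objects
-/

namespace Pool.Agent.CR

/-- closure of a countable set under countably branching operations -/
theorem hull {X : Type*} (Op : List X → Set X) (hOp : ∀ l, (Op l).Countable) (A : Set X)
    (hA : A.Countable) :
    ∃ M : Set X, A ⊆ M ∧ M.Countable ∧ ∀ l : List X, (∀ x ∈ l, x ∈ M) → Op l ⊆ M := by
  let f : Set X → Set X := fun B => B ∪ ⋃ l : {l : List X // ∀ x ∈ l, x ∈ B}, Op l.1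
  let B : ℕ → Set X := fun n => Nat.rec (motive := fun _ => Set X) A (fun _ B => f B) n
  have Bs : ∀ n, B (n + 1) = f (B n) := fun n => rfl
  have hsub : ∀ n, B n ⊆ B (n + 1) := fun n => by rw [Bs]; exact Set.subset_union_left
  have hmono : Monotone B := monotone_nat_of_le_succ hsub
  have hc : ∀ n, (B n).Countable := by
    intro n
    induction n with
    | zero => exact hA
    | succ n ih =>
      rw [Bs]
      refine ih.union ?_
      have : Countable {l : List X // ∀ x ∈ l, x ∈ B n} := by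
        have h1 : Countable {x : X // x ∈ B n} := ih.to_subtype
        have h2 : Function.Injective (fun l : {l : List X // ∀ x ∈ l, x ∈ B n} =>
            (l.1.attach.map (fun x => (⟨x.1, l.2 x.1 x.2⟩ : {x : X // x ∈ B n})))) := by
          rintro ⟨l, hl⟩ ⟨l', hl'⟩ h
          have := congrArg (List.map Subtype.val) h
          simp only [List.map_map] at this
          have e : ∀ (l : List X) (hl : ∀ x ∈ l, x ∈ B n), List.map (Subtype.val ∘
              fun x : {x // x ∈ l} => (⟨x.1, hl x.1 x.2⟩ : {x : X // x ∈ B n})) l.attach = l := by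
            intro l hl
            have : (Subtype.val ∘ fun x : {x // x ∈ l} => (⟨x.1, hl x.1 x.2⟩ : {x : X // x ∈ B n})) =
              Subtype.val := rfl
            rw [this]; exact List.attach_map_subtype_val l
          rw [e, e] at this
          exact Subtype.ext this
        exact h2.countable
      exact Set.countable_iUnion fun l => hOp l.1
  refine ⟨⋃ n, B n, Set.subset_iUnion B 0, Set.countable_iUnion hc, ?_⟩
  intro l hl
  have : ∃ n, ∀ x ∈ l, x ∈ B n := by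
    induction l with
    | nil => exact ⟨0, by simp⟩
    | cons a l ih =>
      obtain ⟨n, hn⟩ := ih fun x hx => hl x (List.mem_cons_of_mem _ hx)
      obtain ⟨m, hm⟩ := Set.mem_iUnion.1 (hl a List.mem_cons_self)
      refine ⟨max m n, fun x hx => ?_⟩
      rcases List.mem_cons.1 hx with rfl | hx
      · exact hmono (le_max_left _ _) hm
      · exact hmono (le_max_right _ _) (hn x hx)
  obtain ⟨n, hn⟩ := this
  refine Set.Subset.trans ?_ (Set.subset_iUnion B (n + 1))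
  rw [Bs]
  exact Set.Subset.trans (Set.subset_iUnion (fun l : {l : List X // ∀ x ∈ l, x ∈ B n} => Op l.1)
    ⟨l, hn⟩) Set.subset_union_right

/-- the objects: conditions, coordinates, sets of pairs (condition, finite sequence) -/
inductive Ob (I : Type) [LinearOrder I] : Type
  | c (p : Cond I) : Ob I
  | o (α : I) : Ob I
  | d (D : Set (Cond I × List ℕ)) : Ob I

variable {I : Type} [LinearOrder I]

/-- open dense sets of pairs -/
structure Dn (α : I) (Tr : Set (List ℕ)) (D : Set (Cond I × List ℕ)) : Prop where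
  sub : ∀ q s, (q, s) ∈ D → Low α q ∧ s ∈ Tr
  opn : ∀ q s, (q, s) ∈ D → ∀ q' s', Low α q' → q' ≤ q → s <+: s' → s' ∈ Tr → (q', s') ∈ D
  dns : ∀ q s, Low α q → s ∈ Tr → ∃ q' s', q' ≤ q ∧ s <+: s' ∧ (q', s') ∈ D

/-- the projection of a dense set below a condition -/
def Lift (i : Fin 3) (α β : I) (r : Cond I) (D : Set (Cond I × List ℕ)) :
    Set (Cond I × List ℕ) :=
  {x | Low β x.1 ∧ x.2 ∈ TrI i ∧ ((¬ ∃ t, Low β t ∧ t ≤ x.1 ∧ t ≤ res r β) ∨
    ∃ r', Low α r' ∧ r' ≤ r ∧ x.1 ≤ res r' β ∧ (r', x.2) ∈ D)}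

/-- the part of a dense set below a condition -/
def Upg (i : Fin 3) (α : I) (r : Cond I) (D : Set (Cond I × List ℕ)) :
    Set (Cond I × List ℕ) :=
  {x | Low α x.1 ∧ x.2 ∈ TrI i ∧ (Disjoint (Bod x.1) (Bod r) ∨ (x.1 ≤ r ∧ x ∈ D))}

/-- suitable countable sets of objects -/
structure Suit (M : Set (Ob I)) : Prop where
  cnt : M.Countable
  one : .c (one I) ∈ M
  supp : ∀ p, .c p ∈ M → ∀ ξ, (∃ z, p.C ξ z ≠ Set.univ) → .o ξ ∈ M
  res : ∀ p α, .c p ∈ M → .o α ∈ M → .c (res p α) ∈ M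
  sp : ∀ p α σ, .c p ∈ M → .o α ∈ M → .c (sp p α σ) ∈ M
  pred : ∀ α β, .o α ∈ M → β ⋖ α → .o β ∈ M
  btw : ∀ α β, .o α ∈ M → .o β ∈ M → (∃ ζ, α < ζ ∧ ζ < β) → ∃ ζ, .o ζ ∈ M ∧ α < ζ ∧ ζ < β
  lift : ∀ i α β r D, .o α ∈ M → .o β ∈ M → .c r ∈ M → .d D ∈ M → .d (Lift i α β r D) ∈ M
  upg : ∀ i α r D, .o α ∈ M → .c r ∈ M → .d D ∈ M → .d (Upg i α r D) ∈ M
  wit : ∀ α β r D q s, .o α ∈ M → .o β ∈ M → .c r ∈ M → .d D ∈ M → .c q ∈ M →
    (∃ r', Low α r' ∧ r' ≤ r ∧ q ≤ CR.res r' β ∧ (r', s) ∈ D) →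
    ∃ r', .c r' ∈ M ∧ Low α r' ∧ r' ≤ r ∧ q ≤ CR.res r' β ∧ (r', s) ∈ D

open Classical in
/-- the operations for suitable sets -/
noncomputable def SuitOp : List (Ob I) → Set (Ob I)
  | [] => {.c (one I)}
  | [.c p] => {x | ∃ ξ, (∃ z, p.C ξ z ≠ Set.univ) ∧ x = .o ξ}
  | [.c p, .o α] => {.c (res p α)} ∪ Set.range (fun σ => .c (sp p α σ))
  | [.o α] => {x | ∃ β, β ⋖ α ∧ x = .o β}
  | [.o α, .o β] => {x | ∃ h : (∃ ζ, α < ζ ∧ ζ < β), x = .o h.choose}
  | [.o α, .o β, .c r, .d D] => Set.range (fun i => .d (Lift i α β r D))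
  | [.o α, .c r, .d D] => Set.range (fun i => .d (Upg i α r D))
  | [.o α, .o β, .c r, .d D, .c q] => Set.range (fun s : List ℕ =>
      if h : (∃ r', Low α r' ∧ r' ≤ r ∧ q ≤ res r' β ∧ (r', s) ∈ D) then .c h.choose
      else .c q)
  | _ => ∅

theorem SuitOp_countable (l : List (Ob I)) : (SuitOp l).Countable := by
  unfold SuitOp
  split
  · exact Set.countable_singleton _
  · rename_i p
    refine (p.supp.image (fun ξ => (.o ξ : Ob I))).mono ?_
    rintro x ⟨ξ, h, rfl⟩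
    exact ⟨ξ, h, rfl⟩
  · exact (Set.countable_singleton _).union (Set.countable_range _)
  · rename_i α
    have : {x : Ob I | ∃ β, β ⋖ α ∧ x = .o β}.Subsingleton := by
      rintro x ⟨β, hβ, rfl⟩ y ⟨γ, hγ, rfl⟩
      rw [hβ.unique_left hγ]
    exact this.countable
  · rename_i α β
    have : {x : Ob I | ∃ h : (∃ ζ, α < ζ ∧ ζ < β), x = .o h.choose}.Subsingleton := by
      rintro x ⟨h, rfl⟩ y ⟨h', rfl⟩
      rfl
    exact this.countable
  · exact Set.countable_range _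
  · exact Set.countable_range _
  · exact Set.countable_range _
  · exact Set.countable_empty

theorem Suit.of_op {M : Set (Ob I)} (hc : M.Countable)
    (h : ∀ l : List (Ob I), (∀ x ∈ l, x ∈ M) → SuitOp l ⊆ M) : Suit M where
  cnt := hc
  one := h [] (by simp) (by simp [SuitOp])
  supp p hp ξ hξ := h [.c p] (by simp [hp]) ⟨ξ, hξ, rfl⟩
  res p α hp hα := h [.c p, .o α] (by simp [hp, hα]) (Or.inl rfl)
  sp p α σ hp hα := h [.c p, .o α] (by simp [hp, hα]) (Or.inr ⟨σ, rfl⟩)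
  pred α β hα hβ := h [.o α] (by simp [hα]) ⟨β, hβ, rfl⟩
  btw α β hα hβ hζ := ⟨hζ.choose, h [.o α, .o β] (by simp [hα, hβ]) ⟨hζ, rfl⟩,
    hζ.choose_spec.1, hζ.choose_spec.2⟩
  lift i α β r D hα hβ hr hD := h [.o α, .o β, .c r, .d D] (by simp [hα, hβ, hr, hD]) ⟨i, rfl⟩
  upg i α r D hα hr hD := h [.o α, .c r, .d D] (by simp [hα, hr, hD]) ⟨i, rfl⟩
  wit α β r D q s hα hβ hr hD hq hr' := by
    classical
    refine ⟨hr'.choose, h [.o α, .o β, .c r, .d D, .c q] (by simp [hα, hβ, hr, hD, hq])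
      ⟨s, ?_⟩, hr'.choose_spec⟩
    exact dif_pos hr'

/-- suitable sets exist, closed under further operations -/
theorem exists_suit (Op : List (Ob I) → Set (Ob I)) (hOp : ∀ l, (Op l).Countable)
    (A : Set (Ob I)) (hA : A.Countable) :
    ∃ M : Set (Ob I), A ⊆ M ∧ Suit M ∧ ∀ l : List (Ob I), (∀ x ∈ l, x ∈ M) → Op l ⊆ M := by
  obtain ⟨M, h1, h2, h3⟩ := hull (fun l => SuitOp l ∪ Op l)
    (fun l => (SuitOp_countable l).union (hOp l)) A hA
  exact ⟨M, h1, Suit.of_op h2 fun l hl => (Set.union_subset_iff.1 (h3 l hl)).1,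
    fun l hl => (Set.union_subset_iff.1 (h3 l hl)).2⟩

/-! ### enumerations -/

theorem Suit.enum {M : Set (Ob I)} (hM : Suit M) : ∃ e : ℕ → Cond I, (∀ n, .c (e n) ∈ M) ∧
    ∀ p, .c p ∈ M → ∃ n, e n = p := by
  have h1 : {p : Cond I | .c p ∈ M}.Countable := by
    refine hM.cnt.preimage_of_injOn ?_
    intro p _ q _ h
    simpa using h
  obtain ⟨e, he⟩ := h1.exists_eq_range ⟨CR.one I, hM.one⟩
  refine ⟨e, fun n => ?_, fun p hp => ?_⟩
  · have : e n ∈ {p : Cond I | .c p ∈ M} := by rw [he]; exact ⟨n, rfl⟩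
    exact this
  · have : p ∈ Set.range e := by rw [← he]; exact hp
    exact this

theorem Suit.enumd {M : Set (Ob I)} (hM : Suit M) : ∃ e : ℕ → Set (Cond I × List ℕ),
    ∀ D, .d D ∈ M → ∃ n, e n = D := by
  have h1 : (insert ∅ {D : Set (Cond I × List ℕ) | .d D ∈ M}).Countable := by
    refine (hM.cnt.preimage_of_injOn ?_).insert _
    intro p _ q _ h
    simpa using h
  obtain ⟨e, he⟩ := h1.exists_eq_range ⟨∅, Or.inl rfl⟩
  refine ⟨e, fun D hD => ?_⟩
  have : D ∈ Set.range e := by rw [← he]; exact Or.inr hD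
  exact this

/-! ### genericity -/

/-- the pair `(z, F)` meets all dense sets of `M` with conditions below `r` -/
def GenB (M : Set (Ob I)) (i : Fin 3) (α : I) (z : I → Y) (F : Set (List ℕ)) (r : Cond I) : Prop :=
  ∀ D, .d D ∈ M → Dn α (TrI i) D → ∃ q, .c q ∈ M ∧ q ≤ r ∧ z ∈ Bod q ∧ ∃ s ∈ F, (q, s) ∈ D

/-- the pair `(z, F)` is generic over `M` -/
def Gen (M : Set (Ob I)) (i : Fin 3) (α : I) (z : I → Y) (F : Set (List ℕ)) : Prop :=
  ∀ r, .c r ∈ M → Low α r → z ∈ Bod r → GenB M i α z F r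

/-- conditions with coordinates below `α` decide measurable sets -/
def Dec (α : I) : Prop := ∀ A, MS α A → ∀ q, Low α q →
  ∃ q', Low α q' ∧ q' ≤ q ∧ (Bod q' ⊆ A ∨ Disjoint (Bod q') A)

theorem Bod_dep {α : I} {p : Cond I} (hp : Low α p) {z z' : I → Y} (h : ∀ ξ < α, z ξ = z' ξ) :
    z ∈ Bod p ↔ z' ∈ Bod p := by
  rw [Bod_of_low hp]; exact BodB_dep h

theorem GenB.dep {M : Set (Ob I)} {i : Fin 3} {α : I} {z z' : I → Y} {F : Set (List ℕ)}
    {r : Cond I} (h : ∀ ξ < α, z ξ = z' ξ) (hg : GenB M i α z F r) : GenB M i α z' F r := by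
  intro D hD hd
  obtain ⟨q, h1, h2, h3, s, hs, h4⟩ := hg D hD hd
  exact ⟨q, h1, h2, (Bod_dep (hd.sub _ _ h4).1 h).1 h3, s, hs, h4⟩

theorem Gen.dep {M : Set (Ob I)} {i : Fin 3} {α : I} {z z' : I → Y} {F : Set (List ℕ)}
    (h : ∀ ξ < α, z ξ = z' ξ) (hg : Gen M i α z F) : Gen M i α z' F := by
  intro r h1 h2 h3
  exact (hg r h1 h2 ((Bod_dep h2 h).2 h3)).dep h

variable [WellFoundedLT I]

theorem Lift_dense {i : Fin 3} {α β : I} (h : β ≤ α) {r : Cond I} (hr : Low α r)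
    {D : Set (Cond I × List ℕ)} (hD : Dn α (TrI i) D) : Dn β (TrI i) (Lift i α β r D) := by
  refine ⟨fun q s hq => ⟨hq.1, hq.2.1⟩, ?_, ?_⟩
  · rintro q s ⟨h1, h2, h3⟩ q' s' hq' hle hs hs'
    refine ⟨hq', hs', ?_⟩
    rcases h3 with h3 | ⟨r', a1, a2, a3, a4⟩
    · left
      rintro ⟨t, b1, b2, b3⟩
      exact h3 ⟨t, b1, b2.trans hle, b3⟩
    · right
      exact ⟨r', a1, a2, hle.trans a3, hD.opn _ _ a4 _ _ a1 le_rfl hs hs'⟩
  · intro q s hq hs
    by_cases hc : ∃ t, Low β t ∧ t ≤ q ∧ t ≤ res r β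
    · obtain ⟨t, b1, b2, b3⟩ := hc
      obtain ⟨r', s', c1, c2, c3⟩ := hD.dns (glue t r β) s (low_glue (b1.mono h) hr) hs
      refine ⟨res r' β, s', ?_, c2, low_res _ _, (hD.sub _ _ c3).2, Or.inr
        ⟨r', (hD.sub _ _ c3).1, c1.trans (glue_le b3), le_rfl, c3⟩⟩
      have := res_mono c1 β
      rw [res_glue, res_eq_self b1] at this
      exact this.trans b2
    · exact ⟨q, s, le_rfl, List.prefix_rfl, hq, hs, Or.inl hc⟩

/-- the fundamental step: a dense set of the longer iteration is met by a condition of `M` which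
is compatible with the generic point -/
theorem step {M : Set (Ob I)} (hM : Suit M) {i : Fin 3} {α β : I} (h : β ≤ α)
    (hα : .o α ∈ M) (hβ : .o β ∈ M) {r : Cond I} (hrM : .c r ∈ M) (hr : Low α r)
    {D : Set (Cond I × List ℕ)} (hDM : .d D ∈ M) (hD : Dn α (TrI i) D) {z : I → Y}
    (hz : z ∈ BodB r β) {F : Set (List ℕ)} (hg : Gen M i β z F) :
    ∃ r', .c r' ∈ M ∧ Low α r' ∧ r' ≤ r ∧ z ∈ BodB r' β ∧ ∃ s ∈ F, (r', s) ∈ D := by
  obtain ⟨q, h1, h2, h3, s, hs, h4⟩ := hg (res r β) (hM.res _ _ hrM hβ) (low_res _ _)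
    (by rw [Bod_res]; exact hz) (Lift i α β r D) (hM.lift _ _ _ _ _ hα hβ hrM hDM)
    (Lift_dense h hr hD)
  obtain ⟨a1, a2, a3⟩ := h4
  rcases a3 with a3 | a3
  · exact absurd ⟨q, a1, le_rfl, h2⟩ a3
  · obtain ⟨r', b1, b2, b3, b4, b5⟩ := hM.wit _ _ _ _ _ _ hα hβ hrM hDM h1 a3
    refine ⟨r', b1, b2, b3, ?_, s, hs, b5⟩
    have := b4 h3
    rwa [Bod_res] at this

omit [WellFoundedLT I] in
theorem Upg_dense {i : Fin 3} {α : I} (hdec : Dec α) {r : Cond I} (hr : Low α r)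
    {D : Set (Cond I × List ℕ)} (hD : Dn α (TrI i) D) : Dn α (TrI i) (Upg i α r D) := by
  refine ⟨fun q s hq => ⟨hq.1, hq.2.1⟩, ?_, ?_⟩
  · rintro q s ⟨h1, h2, h3⟩ q' s' hq' hle hs hs'
    refine ⟨hq', hs', ?_⟩
    rcases h3 with h3 | ⟨h3, h4⟩
    · exact Or.inl (h3.mono_left hle)
    · exact Or.inr ⟨hle.trans h3, hD.opn _ _ h4 _ _ hq' hle hs hs'⟩
  · intro q s hq hs
    obtain ⟨q1, a1, a2, a3⟩ := hdec (Bod r) (Bod_ms hr) q hq
    rcases a3 with a3 | a3
    · obtain ⟨q2, s', b1, b2, b3⟩ := hD.dns q1 s a1 hs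
      exact ⟨q2, s', b1.trans a2, b2, (hD.sub _ _ b3).1, (hD.sub _ _ b3).2,
        Or.inr ⟨b1.trans a3, b3⟩⟩
    · exact ⟨q1, s, a2, List.prefix_rfl, a1, hs, Or.inl a3⟩

omit [WellFoundedLT I] in
theorem GenB.gen {M : Set (Ob I)} (hM : Suit M) {i : Fin 3} {α : I} (hα : .o α ∈ M)
    (hdec : Dec α) {z : I → Y} {F : Set (List ℕ)} {r : Cond I} (hg : GenB M i α z F r) :
    Gen M i α z F := by
  intro r' h1 h2 h3 D hD hd
  obtain ⟨q, a1, a2, a3, s, hs, a4⟩ := hg (Upg i α r' D) (hM.upg _ _ _ _ hα h1 hD)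
    (Upg_dense hdec h2 hd)
  rcases a4.2.2 with b | b
  · exact absurd h3 (Set.disjoint_left.1 b a3)
  · exact ⟨q, a1, b.1, a3, s, hs, b.2⟩

end Pool.Agent.CR
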