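import Pool.Agent.Lib.MP_72b52d_lc.CR.ZFC
import Pool.Agent.Lib.MP_72b52d_lc.CR.Model

/-!
# MP_72b52d_lc : objects, worlds, and properties of all sufficiently rich worlds (definitions)
-/

namespace Pool.Agent.CR

/-- the forcing notion -/
def PC (I : Type) [LinearOrder I] [OrderTop I] : Type := {q : Cond I // Low ⊤ q}

instance (I : Type) [LinearOrder I] [OrderTop I] : Preorder (PC I) :=
  inferInstanceAs (Preorder {q : Cond I // Low ⊤ q})

/-- objects: names, conditions and coordinates and dense sets, real valued functions, codes -/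
inductive Obj (I : Type) [LinearOrder I] [OrderTop I] : Type 1
  | nm (τ : Nm (PC I)) : Obj I
  | ob (x : Ob I) : Obj I
  | fn (f : (I → Y) → ℝ) : Obj I
  | cd (U : ℕ → ℚ → ℚ → Set (I → Y)) : Obj I

variable {I : Type} [LinearOrder I] [OrderTop I]

/-- the object given by a condition -/
def cn (p : PC I) : Obj I := .ob (.c p.1)

/-- the generic filter given by the point `z` -/
def Gf (M : Set (Obj I)) (z : I → Y) : Set (PC I) := {p | cn p ∈ M ∧ z ∈ Bod p.1}

/-- the conditions in `M` -/
def QM (M : Set (Obj I)) : Set (PC I) := {p | cn p ∈ M}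

/-- the names in `M` -/
def HM (M : Set (Obj I)) : Set (Nm (PC I)) := {τ | Obj.nm τ ∈ M}

/-- the model -/
noncomputable def NM (M : Set (Obj I)) (z : I → Y) : Set V := Mod (HM M) (Gf M z)

/-- `M` is closed under the relations `Rel` and `z` is generic for the sets given by them -/
structure World (Rel : ℕ → List (Obj I) → Obj I → Prop) (M : Set (Obj I)) (z : I → Y) : Prop where
  cnt : M.Countable
  ne : (Gf M z).Nonempty
  el : ∀ i l, (∀ x ∈ l, x ∈ M) → (∃ x, Rel i l x) → ∃ x ∈ M, Rel i l x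
  gen : ∀ i l, (∀ x ∈ l, x ∈ M) → (∃ s ∈ Gf M z, Rel i l (cn s)) ∨
    ∃ p ∈ Gf M z, ∀ s, Rel i l (cn s) → ∀ r ≤ p, ¬ r ≤ s

/-- `C` holds in all sufficiently rich worlds -/
def Ev (C : Set (Obj I) → (I → Y) → Prop) : Prop :=
  ∃ Rel : ℕ → List (Obj I) → Obj I → Prop, ∀ M z, World Rel M z → C M z

/-- the name of the real number `f z` -/
def nmR (f : (I → Y) → ℝ) : Nm (PC I) :=
  .mk {x : PC I × ℕ // ∀ z ∈ Bod x.1.1, rat x.2 < f z} (fun x => natN _ x.1.2) (fun x => x.1.1)

/-- the name of the ordered pair -/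
def opN (σ τ : Nm (PC I)) : Nm (PC I) := pairN (pairN σ σ) (pairN σ τ)

end Pool.Agent.CR
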