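import Pool.Agent.Lib.MP_72b52d_lc.CR.EvZFC
import Pool.Agent.Lib.MP_72b52d_lc.CR.Read
import Pool.Agent.Lib.MP_72b52d_lc.CR.Digits

/-!
# MP_72b52d_lc : the real numbers of rich worlds
-/

namespace Pool.Agent.CR

private theorem er_mem_of_lt {m n : ℕ} (h : m < n) : nat m ∈ nat n := by
  induction n with
  | zero => exact absurd h (Nat.not_lt_zero _)
  | succ n ih =>
    change nat m ∈ insert (nat n) (nat n)
    rw [ZFSet.mem_insert_iff]
    rcases Nat.lt_succ_iff_lt_or_eq.1 h with h | h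
    · exact Or.inr (ih h)
    · exact Or.inl (by rw [h])

private theorem er_nat_inj {m n : ℕ} (h : nat m = nat n) : m = n := by
  rcases lt_trichotomy m n with h1 | h1 | h1
  · have h2 := er_mem_of_lt h1
    rw [h] at h2
    exact absurd h2 (ZFSet.mem_irrefl _)
  · exact h1
  · have h2 := er_mem_of_lt h1
    rw [h] at h2
    exact absurd h2 (ZFSet.mem_irrefl _)

theorem nat_mem_cut {x : ℝ} {n : ℕ} : nat n ∈ cut x ↔ rat n < x := by
  rw [cut, ZFSet.mem_range]
  constructor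
  · rintro ⟨⟨m, hm⟩, h⟩
    have h1 : m = n := er_nat_inj h
    rw [← h1]
    exact hm
  · intro h
    exact ⟨⟨n, h⟩, rfl⟩

private theorem er_rat (q : ℚ) : ∃ n, rat n = q := by
  refine ⟨Nat.pair (Nat.pair q.num.toNat (-q.num).toNat) (q.den - 1), ?_⟩
  unfold rat
  simp only [Nat.unpair_pair]
  have h1 : ((q.den - 1 : ℕ) : ℝ) + 1 = q.den := by
    have : q.den - 1 + 1 = q.den := Nat.succ_pred_eq_of_pos q.den_pos
    exact_mod_cast this
  have h2 : ((q.num.toNat : ℕ) : ℝ) - ((-q.num).toNat : ℕ) = q.num := by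
    have : ((q.num.toNat : ℕ) : ℤ) - ((-q.num).toNat : ℕ) = q.num := by omega
    exact_mod_cast this
  rw [h1, h2]
  conv_rhs => rw [← Rat.num_div_den q]
  push_cast
  rfl

private theorem er_lt {x y : ℝ} (h : x < y) : ∃ n, x < rat n ∧ rat n < y := by
  obtain ⟨q, h1, h2⟩ := exists_rat_btwn h
  obtain ⟨n, hn⟩ := er_rat q
  exact ⟨n, by rw [hn]; exact h1, by rw [hn]; exact h2⟩

theorem cut_inj {x y : ℝ} (h : cut x = cut y) : x = y := by
  rcases lt_trichotomy x y with h1 | h1 | h1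
  · obtain ⟨n, h2, h3⟩ := er_lt h1
    have h4 := nat_mem_cut.2 h3
    rw [← h, nat_mem_cut] at h4
    exact absurd h2 (not_lt.2 h4.le)
  · exact h1
  · obtain ⟨n, h2, h3⟩ := er_lt h1
    have h4 := nat_mem_cut.2 h3
    rw [h, nat_mem_cut] at h4
    exact absurd h2 (not_lt.2 h4.le)

private theorem er_mem_cut {x : ℝ} {y : V} : y ∈ cut x ↔ ∃ n, rat n < x ∧ y = nat n := by
  rw [cut, ZFSet.mem_range]
  constructor
  · rintro ⟨⟨m, hm⟩, h⟩
    exact ⟨m, hm, h.symm⟩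
  · rintro ⟨n, h, rfl⟩
    exact ⟨⟨n, h⟩, rfl⟩

private theorem er_sup {x : ℝ} {n0 : ℕ} (h : rat n0 < x) {A : ℕ → Prop} [DecidablePred A]
    (hA : ∀ n, A n ↔ rat n < x) : (⨆ n, if A n then rat n else rat n0) = x := by
  apply ciSup_eq_of_forall_le_of_forall_lt_exists_gt
  · intro n
    split_ifs with h1
    · exact ((hA n).1 h1).le
    · exact h.le
  · intro w hw
    obtain ⟨n, h1, h2⟩ := er_lt hw
    refine ⟨n, ?_⟩
    rw [if_pos ((hA n).2 h2)]
    exact h1

variable {I : Type} [LinearOrder I] [OrderTop I]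

open Classical in
/-- the real valued function given by answers -/
private noncomputable def er_fn (n0 : ℕ) (A : ℕ → (I → Y) → Prop) (z : I → Y) : ℝ :=
  ⨆ n, if A n z then rat n else rat n0

private theorem er_fn_MR (n0 : ℕ) {A : ℕ → (I → Y) → Prop} (hA : ∀ n, MS ⊤ {z | A n z}) :
    MR ⊤ (er_fn n0 A) := by
  classical
  refine MR.of_measurable ?_
  unfold er_fn
  let _ : MeasurableSpace (I → Y) := Flt (⊤ : I)
  refine Measurable.iSup fun n => ?_
  exact Measurable.ite (hA n) measurable_const measurable_const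

section
variable [WellFoundedLT I] [OrderBot I]

theorem ev_nmR : Ev (fun (M : Set (Obj I)) z => ∀ f, Obj.fn f ∈ M → MR ⊤ f →
    nmR f ∈ HM M ∧ val (HM M) (Gf M z) (nmR f) = cut (f z)) := by
  refine ((ev_fun fun (l : List (Obj I)) => match l with
      | [.fn f] => .nm (nmR f)
      | _ => .nm Nm.emp).and
    ((Ev.all fun n : ℕ => ev_ms fun (l : List (Obj I)) => match l with
      | [.fn f] => {z | rat n < f z}
      | _ => ∅).and ev_natN)).mono ?_
  rintro M z ⟨h1, h2, h3⟩ f hf hm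
  have h4 : nmR f ∈ HM M := h1 [.fn f] (by simp [hf])
  refine ⟨h4, ?_⟩
  apply ZFSet.ext
  intro x
  rw [mem_val, er_mem_cut]
  constructor
  · rintro ⟨⟨⟨p, n⟩, hb⟩, hb1, hb2, rfl⟩
    exact ⟨n, hb z hb2.2, (h3 n).2⟩
  · rintro ⟨n, hn, rfl⟩
    obtain ⟨p, hp1, hp2⟩ := h2 n [.fn f] (by simp [hf])
      ((MR.measurable hm) (measurableSet_Ioi (a := rat n))) hn
    exact ⟨⟨(p, n), fun z' hz' => hp2 hz'⟩, (h3 n).1, hp1, (h3 n).2.symm⟩

theorem ev_RN_of : Ev (fun (M : Set (Obj I)) z => ∀ f, Obj.fn f ∈ M → MR ⊤ f →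
    f z ∈ RN (NM M z)) := by
  refine ev_nmR.mono fun M z h f hf hm => ?_
  obtain ⟨h1, h2⟩ := h f hf hm
  exact ⟨nmR f, h1, h2⟩

theorem ev_RN : Ev (fun (M : Set (Obj I)) z => ∀ x ∈ RN (NM M z), ∃ f, Obj.fn f ∈ M ∧
    MR ⊤ f ∧ f z = x) := by
  classical
  refine ((Ev.all fun n0 : ℕ => ev_read (ι := ℕ) (fun (l : List (Obj I)) n => match l with
      | [.nm τ] => {r | Memf (natN (PC I) n) τ r ∨ ∀ r' ≤ r, ¬ Memf (natN (PC I) n) τ r'}
      | _ => ∅) (fun l s g => match l with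
      | [.nm τ] => .fn (er_fn n0 fun n z => Memf (natN (PC I) n) τ (s n (g n z)))
      | _ => .nm Nm.emp)).and (ev_mem.and (ev_dir.and (ev_natN.and ev_ne)))).mono ?_
  rintro M z ⟨h1, h2, h3, h4, h5⟩ x hx
  obtain ⟨τ, hτ, hv⟩ := hx
  obtain ⟨n0, _, hn0⟩ := er_lt (sub_one_lt x)
  obtain ⟨p, hp⟩ := h5
  obtain ⟨s, g, a1, a2, a3, a4⟩ := h1 n0 [.nm τ] (fun y hy => by
    rw [List.mem_singleton] at hy
    rw [hy]
    exact hτ) p hp (by
    intro n q _
    by_cases h : ∃ r ≤ q, Memf (natN (PC I) n) τ r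
    · obtain ⟨r, hr, hr'⟩ := h
      exact ⟨r, hr, Or.inl hr'⟩
    · push Not at h
      exact ⟨q, le_rfl, Or.inr h⟩)
  refine ⟨_, a1, er_fn_MR n0 fun n => ?_, ?_⟩
  · exact MS.subst (R := fun _ k => Memf (natN (PC I) n) τ (s n k)) (a3 n) fun k => MS.const _ _
  · refine er_sup hn0 fun n => ?_
    rw [← nat_mem_cut, ← hv, ← (h4 n).2, h2 _ (h4 n).1 _ hτ]
    constructor
    · intro h
      exact ⟨_, a4 n, h⟩
    · rintro ⟨p', hp', h⟩
      rcases a2 n (g n z) with h6 | h6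
      · exact h6
      · obtain ⟨r, _, hr1, hr2⟩ := h3 _ (a4 n) p' hp'
        exact absurd (Memf_mono h hr2) (h6 r hr1)

/-- every ground model real is in the model -/
theorem ev_const (x : ℝ) : Ev (fun (M : Set (Obj I)) z => x ∈ RN (NM M z)) := by
  refine ((ev_fun fun (_ : List (Obj I)) => Obj.fn fun _ => x).and ev_RN_of).mono ?_
  rintro M z ⟨h1, h2⟩
  exact h2 _ (h1 [] (by simp)) (MR.const x)

end

end Pool.Agent.CR
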