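import Pool.Agent.Lib.MP_72b52d_lc.CR.EvReal
import Pool.Agent.Lib.MP_72b52d_lc.CR.Digits

/-!
# MP_72b52d_lc : sets and sequences of sets of real numbers in rich worlds, the Cantor set
-/

open Topology

namespace Pool.Agent.CR

variable {I : Type} [LinearOrder I] [OrderTop I]

/-- the name of a set of reals -/
private def es_set (B : (I → Y) → Set ℝ) : Nm (PC I) :=
  .mk {x : PC I × ((I → Y) → ℝ) // MR ⊤ x.2 ∧ ∀ z ∈ Bod x.1.1, x.2 z ∈ B z}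
    (fun x => nmR x.1.2) (fun x => x.1.1)

/-- the name of a sequence of sets of reals -/
private def es_seq (B : ℕ → (I → Y) → Set ℝ) : Nm (PC I) :=
  .mk {x : PC I × ℕ × ((I → Y) → ℝ) // MR ⊤ x.2.2 ∧ ∀ z ∈ Bod x.1.1, x.2.2 z ∈ B x.2.1 z}
    (fun x => opN (natN (PC I) x.1.2.1) (nmR x.1.2.2)) (fun x => x.1.1)

private theorem es_mem_setR {A : Set ℝ} {x : V} : x ∈ setR A ↔ ∃ y ∈ A, x = cut y := by
  rw [setR, ZFSet.mem_range]
  constructor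
  · rintro ⟨y, rfl⟩
    exact ⟨y.1, y.2, rfl⟩
  · rintro ⟨y, hy, rfl⟩
    exact ⟨⟨y, hy⟩, rfl⟩

private theorem es_mem_seqR {F : ℕ → Set ℝ} {x : V} :
    x ∈ seqR F ↔ ∃ n, ∃ y ∈ F n, x = ZFSet.pair (nat n) (cut y) := by
  rw [seqR, ZFSet.mem_range]
  constructor
  · rintro ⟨y, rfl⟩
    exact ⟨y.1.1, y.1.2, y.2, rfl⟩
  · rintro ⟨n, y, hy, rfl⟩
    exact ⟨⟨(n, y), hy⟩, rfl⟩

section
variable [WellFoundedLT I] [OrderBot I]

theorem ev_setN (B : List (Obj I) → (I → Y) → Set ℝ) : Ev (fun M z => ∀ l, (∀ x ∈ l, x ∈ M) →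
    (∀ f, MR ⊤ f → MS ⊤ {z | f z ∈ B l z}) → setR (B l z ∩ RN (NM M z)) ∈ NM M z) := by
  refine ((ev_fun fun l : List (Obj I) => Obj.nm (es_set (B l))).and
    ((ev_rel fun (l : List (Obj I)) x => match l with
      | .nm σ :: .ob (.c q) :: l => ∃ f, x = Obj.fn f ∧ nmR f = σ ∧ MR ⊤ f ∧
          ∀ z ∈ Bod q, f z ∈ B l z
      | _ => False).and
    ((ev_ms fun (l : List (Obj I)) => match l with
      | .fn f :: l => {z | f z ∈ B l z}
      | _ => ∅).and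
    (ev_nmR.and (ev_RN_of.and ev_RN))))).mono ?_
  rintro M z ⟨h1, h2, h3, h4, h5, h6⟩ l hl hB
  refine ⟨es_set (B l), h1 l hl, ?_⟩
  apply ZFSet.ext
  intro x
  rw [mem_val, es_mem_setR]
  constructor
  · rintro ⟨⟨⟨q, f⟩, hf1, hf2⟩, hb1, hb2, rfl⟩
    obtain ⟨y, hy, g, rfl, hg1, hg2, hg3⟩ := h2 (.nm (nmR f) :: cn q :: l) (by
      intro y hy
      rcases List.mem_cons.1 hy with rfl | hy
      · exact hb1
      rcases List.mem_cons.1 hy with rfl | hy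
      · exact hb2.1
      · exact hl y hy) ⟨.fn f, f, rfl, rfl, hf1, hf2⟩
    refine ⟨g z, ⟨hg3 z hb2.2, h5 g hy hg2⟩, ?_⟩
    rw [← (h4 g hy hg2).2, hg1]
    rfl
  · rintro ⟨y, ⟨hy1, hy2⟩, rfl⟩
    obtain ⟨f, hf1, hf2, hf3⟩ := h6 y hy2
    obtain ⟨p, hp1, hp2⟩ := h3 (.fn f :: l) (by
      intro y hy
      rcases List.mem_cons.1 hy with rfl | hy
      · exact hf1
      · exact hl y hy) (hB f hf2) (by rw [← hf3] at hy1; exact hy1)
    refine ⟨⟨(p, f), hf2, fun z hz => hp2 hz⟩, (h4 f hf1 hf2).1, hp1, ?_⟩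
    rw [← hf3]
    exact (h4 f hf1 hf2).2.symm

theorem ev_seqN (B : List (Obj I) → ℕ → (I → Y) → Set ℝ) : Ev (fun M z =>
    ∀ l, (∀ x ∈ l, x ∈ M) → (∀ n f, MR ⊤ f → MS ⊤ {z | f z ∈ B l n z}) →
      seqR (fun n => B l n z ∩ RN (NM M z)) ∈ NM M z) := by
  refine ((ev_fun fun l : List (Obj I) => Obj.nm (es_seq (B l))).and
    ((Ev.all fun n : ℕ => ev_rel fun (l : List (Obj I)) x => match l with
      | .nm σ :: .ob (.c q) :: l => ∃ f, x = Obj.fn f ∧ opN (natN (PC I) n) (nmR f) = σ ∧ MR ⊤ f ∧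
          ∀ z ∈ Bod q, f z ∈ B l n z
      | _ => False).and
    ((Ev.all fun n : ℕ => ev_ms fun (l : List (Obj I)) => match l with
      | .fn f :: l => {z | f z ∈ B l n z}
      | _ => ∅).and
    (ev_nmR.and (ev_RN_of.and (ev_RN.and (ev_natN.and ev_opN))))))).mono ?_
  rintro M z ⟨h1, h2, h3, h4, h5, h6, h7, h8⟩ l hl hB
  refine ⟨es_seq (B l), h1 l hl, ?_⟩
  have hval : ∀ n f, Obj.fn f ∈ M → MR ⊤ f → opN (natN (PC I) n) (nmR f) ∈ HM M ∧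
      val (HM M) (Gf M z) (opN (natN (PC I) n) (nmR f)) = ZFSet.pair (nat n) (cut (f z)) := by
    intro n f hf1 hf2
    have h9 := h8 _ (h7 n).1 _ (h4 f hf1 hf2).1
    refine ⟨h9.1, ?_⟩
    rw [h9.2, (h7 n).2, (h4 f hf1 hf2).2]
  apply ZFSet.ext
  intro x
  rw [mem_val, es_mem_seqR]
  constructor
  · rintro ⟨⟨⟨q, n, f⟩, hf1, hf2⟩, hb1, hb2, rfl⟩
    obtain ⟨y, hy, g, rfl, hg1, hg2, hg3⟩ := h2 n
      (.nm (opN (natN (PC I) n) (nmR f)) :: cn q :: l) (by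
      intro y hy
      rcases List.mem_cons.1 hy with rfl | hy
      · exact hb1
      rcases List.mem_cons.1 hy with rfl | hy
      · exact hb2.1
      · exact hl y hy) ⟨.fn f, f, rfl, rfl, hf1, hf2⟩
    refine ⟨n, g z, ⟨hg3 z hb2.2, h5 g hy hg2⟩, ?_⟩
    rw [← (hval n g hy hg2).2, hg1]
    rfl
  · rintro ⟨n, y, ⟨hy1, hy2⟩, rfl⟩
    obtain ⟨f, hf1, hf2, hf3⟩ := h6 y hy2
    obtain ⟨p, hp1, hp2⟩ := h3 n (.fn f :: l) (by
      intro y hy
      rcases List.mem_cons.1 hy with rfl | hy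
      · exact hf1
      · exact hl y hy) (hB n f hf2) (by rw [← hf3] at hy1; exact hy1)
    refine ⟨⟨(p, n, f), hf2, fun z hz => hp2 hz⟩, (hval n f hf1 hf2).1, hp1, ?_⟩
    rw [← hf3]
    exact (hval n f hf1 hf2).2.symm

/-- `K ∩ RN N` is dense in `K` -/
theorem ev_K_dense : Ev (fun (M : Set (Obj I)) z => Kset ⊆ closure (Kset ∩ RN (NM M z))) := by
  obtain ⟨t, ht1, ht2, ht3⟩ :=
    (TopologicalSpace.IsSeparable.of_separableSpace Kset).exists_countable_dense_subset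
  have := ht2.to_subtype
  refine (Ev.all fun x : t => ev_const (I := I) x.1).mono fun M z h => ?_
  exact ht3.trans (closure_mono fun x hx => ⟨ht1 hx, h ⟨x, hx⟩⟩)

theorem ev_cantor : Ev (fun (M : Set (Obj I)) z => CantorIn (NM M z) (Kset ∩ RN (NM M z))) := by
  refine ((ev_setN fun (_ : List (Obj I)) _ => Kset).and (ev_K_dense.and
    (Ev.all fun q : ℚ => ev_const (I := I) q))).mono ?_
  rintro M z ⟨h1, h2, h3⟩
  have hcl : IsClosed Kset := K_compact.isClosed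
  refine ⟨Set.inter_subset_right, ?_, ?_, ?_, ?_, ?_, ?_⟩
  · exact h1 [] (by simp) fun f hf => (MR.measurable hf) hcl.measurableSet
  · obtain ⟨x, hx⟩ := K_nonempty
    exact closure_nonempty_iff.1 ⟨x, h2 hx⟩
  · obtain ⟨C, hC⟩ := K_compact.isBounded.exists_norm_le
    obtain ⟨m, hm⟩ := exists_rat_gt C
    refine ⟨m, fun x hx => ?_⟩
    have h4 := abs_le.1 ((Real.norm_eq_abs x).symm.le.trans (hC x hx.1))
    exact ⟨by linarith [h4.1], by linarith [h4.2]⟩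
  · intro x hx hxB
    have h4 : Ksetᶜ ∈ 𝓝 x := hcl.isOpen_compl.mem_nhds fun h => hxB ⟨h, hx⟩
    obtain ⟨u, hu, hxu, hus⟩ := Real.isTopologicalBasis_Ioo_rat.mem_nhds_iff.1 h4
    simp only [Set.mem_iUnion, Set.mem_singleton_iff] at hu
    obtain ⟨a, b, _, rfl⟩ := hu
    exact ⟨a, b, hxu, Set.disjoint_left.2 fun y hy hyB => hus hy hyB.1⟩
  · intro x hx a b hab
    have h4 : AccPt x (Filter.principal Kset) := K_perfect.acc x hx.1
    obtain ⟨y, ⟨hy1, hy2⟩, hy3⟩ := (accPt_iff_nhds.1 h4) (Set.Ioo (a : ℝ) b)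
      (isOpen_Ioo.mem_nhds hab)
    obtain ⟨w, ⟨hw1, hw2⟩, hw3⟩ := mem_closure_iff.1 (h2 hy2) (Set.Ioo (a : ℝ) b ∩ {x}ᶜ)
      (isOpen_Ioo.inter isOpen_compl_singleton) ⟨hy1, hy3⟩
    exact ⟨w, hw3, hw2, hw1⟩
  · intro a b hab
    have h4 : ¬ Set.Ioo (a : ℝ) b ⊆ Kset := by
      intro h
      have h5 := K_td _ h isPreconnected_Ioo
      have hab' : (a : ℝ) < b := by exact_mod_cast hab
      obtain ⟨c, hc1, hc2⟩ := exists_between hab'
      obtain ⟨d, hd1, hd2⟩ := exists_between hc2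
      exact hd1.ne (h5 ⟨hc1, hc2⟩ ⟨hc1.trans hd1, hd2⟩)
    rw [Set.not_subset] at h4
    obtain ⟨y, hy1, hy2⟩ := h4
    obtain ⟨q, hw1, hw2⟩ := Rat.denseRange_cast.exists_mem_open
      (isOpen_Ioo.inter hcl.isOpen_compl) ⟨y, hy1, hy2⟩
    exact ⟨q, h3 q, hw1, fun h => hw2 h.1⟩

end

end Pool.Agent.CR
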