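import Pool.Agent.Lib.MP_72b52d_lc.CR.Ev

/-!
# MP_72b52d_lc : rich worlds give transitive models of ZFC
-/

namespace Pool.Agent.CR

variable {I : Type} [LinearOrder I] [OrderTop I]

/-- the name of an object -/
private def ez_un : Obj I → Nm (PC I)
  | .nm τ => τ
  | _ => Nm.emp

private theorem ez_map (l : List (Nm (PC I))) : (l.map Obj.nm).map ez_un = l := by
  rw [List.map_map]
  conv_rhs => rw [← List.map_id l]
  rfl

private theorem ez_mem {M : Set (Obj I)} {l : List (Nm (PC I))} (hl : ∀ σ ∈ l, σ ∈ HM M) :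
    ∀ x ∈ l.map Obj.nm, x ∈ M := by
  intro x hx
  obtain ⟨σ, hσ, rfl⟩ := List.mem_map.1 hx
  exact hl σ hσ

private theorem ez_relN (R : List (Nm (PC I)) → PC I → Nm (PC I) → Prop) :
    Ev (fun M (_ : I → Y) => ∀ l, (∀ σ ∈ l, σ ∈ HM M) → ∀ q ∈ QM M, (∃ σ, R l q σ) →
      ∃ σ ∈ HM M, R l q σ) := by
  refine (ev_rel fun l x => ∃ q σ, l.head? = some (cn q) ∧ x = Obj.nm σ ∧
    R (l.tail.map ez_un) q σ).mono ?_
  rintro M z h l hl q hq ⟨σ, hσ⟩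
  obtain ⟨x, hx, q', σ', h1, h2, h3⟩ := h (cn q :: l.map Obj.nm) (by
    intro x hx
    rcases List.mem_cons.1 hx with rfl | hx
    · exact hq
    · exact ez_mem hl x hx) ⟨Obj.nm σ, q, σ, rfl, rfl, by
      rw [List.tail_cons, ez_map]; exact hσ⟩
  have hq' : q' = q := cn_inj (by simpa using h1.symm)
  subst hq'
  subst h2
  rw [List.tail_cons, ez_map] at h3
  exact ⟨σ', hx, h3⟩

private theorem ez_relQ (R : List (Nm (PC I)) → PC I → PC I → Prop) :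
    Ev (fun M (_ : I → Y) => ∀ l, (∀ σ ∈ l, σ ∈ HM M) → ∀ q ∈ QM M, (∃ r, R l q r) →
      ∃ r ∈ QM M, R l q r) := by
  refine (ev_rel fun l x => ∃ q r, l.head? = some (cn q) ∧ x = cn r ∧
    R (l.tail.map ez_un) q r).mono ?_
  rintro M z h l hl q hq ⟨r, hr⟩
  obtain ⟨x, hx, q', r', h1, h2, h3⟩ := h (cn q :: l.map Obj.nm) (by
    intro x hx
    rcases List.mem_cons.1 hx with rfl | hx
    · exact hq
    · exact ez_mem hl x hx) ⟨cn r, q, r, rfl, rfl, by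
      rw [List.tail_cons, ez_map]; exact hr⟩
  have hq' : q' = q := cn_inj (by simpa using h1.symm)
  subst hq'
  subst h2
  rw [List.tail_cons, ez_map] at h3
  exact ⟨r', hx, h3⟩

private theorem ez_denseN (S : List (Nm (PC I)) → Set (PC I)) : Ev (fun M z =>
    ∀ l, (∀ σ ∈ l, σ ∈ HM M) → (∀ p, ∃ q ≤ p, q ∈ S l) → ∃ s ∈ Gf M z, s ∈ S l) := by
  refine (ev_dense fun l => S (l.map ez_un)).mono fun M z h l hl hd => ?_
  have h1 := h (l.map Obj.nm) (ez_mem hl)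
  simp only [ez_map] at h1
  exact h1 hd

theorem ev_nmop (F : List (Nm (PC I)) → Nm (PC I)) : Ev (fun M (_ : I → Y) =>
    ∀ l, (∀ τ ∈ l, τ ∈ HM M) → F l ∈ HM M) := by
  refine (ev_fun fun l => Obj.nm (F (l.map ez_un))).mono fun M z h l hl => ?_
  have h1 := h (l.map Obj.nm) (ez_mem hl)
  rw [ez_map] at h1
  exact h1

theorem ev_hull : Ev (fun (M : Set (Obj I)) _ => Hull (HM M) (QM M)) := by
  refine ((ev_nmop fun _ => Nm.emp).and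
    ((Ev.all fun φ : Fml => ez_relN fun l q σ => Fr φ (cons σ (asg l)) q).and
    ((ez_relN fun l q ρ => ∃ b : (asg l 1).Ix, (asg l 1).fn b = ρ ∧ q ≤ (asg l 1).cd b ∧
      Eqf (asg l 0) ρ q).and
    ((ez_relQ fun l q r => ∃ b : (asg l 1).Ix, (asg l 1).fn b = asg l 2 ∧ (asg l 1).cd b = r ∧
      q ≤ r ∧ Eqf (asg l 0) (asg l 2) q).and
    ((ez_relN fun l q ρ => ∃ b : (asg l 1).Ix, (asg l 1).fn b = ρ ∧ q ≤ (asg l 1).cd b ∧
      ∀ r ≤ q, ¬ Memf ρ (asg l 0) r).and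
    (ez_relQ fun l q r => ∃ b : (asg l 1).Ix, (asg l 1).fn b = asg l 2 ∧ (asg l 1).cd b = r ∧
      q ≤ r ∧ ∀ s ≤ q, ¬ Memf (asg l 2) (asg l 0) s)))))).mono ?_
  rintro M z ⟨h1, h2, h3, h4, h5, h6⟩
  refine ⟨h1 [] (by simp), fun φ l hl q hq h => h2 φ l hl q hq h, ?_, ?_⟩
  · rintro σ hσ τ hτ q hq ⟨b, hb1, hb2⟩
    obtain ⟨ρ, hρ, b', hb3, hb4, hb5⟩ := h3 [σ, τ] (by simp [hσ, hτ]) q hq
      ⟨_, b, rfl, hb1, hb2⟩
    obtain ⟨r, hr, c, hc1, hc2, hc3, hc4⟩ := h4 [σ, τ, ρ] (by simp [hσ, hτ, hρ]) q hq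
      ⟨_, b', hb3, rfl, hb4, hb5⟩
    change τ.Ix at c
    change τ.fn c = ρ at hc1
    change τ.cd c = r at hc2
    change Eqf σ ρ q at hc4
    exact ⟨c, hc1 ▸ hρ, hc2 ▸ hr, hc2 ▸ hc3, hc1 ▸ hc4⟩
  · rintro σ hσ τ hτ q hq ⟨b, hb1, hb2⟩
    obtain ⟨ρ, hρ, b', hb3, hb4, hb5⟩ := h5 [σ, τ] (by simp [hσ, hτ]) q hq
      ⟨_, b, rfl, hb1, hb2⟩
    obtain ⟨r, hr, c, hc1, hc2, hc3, hc4⟩ := h6 [σ, τ, ρ] (by simp [hσ, hτ, hρ]) q hq
      ⟨_, b', hb3, rfl, hb4, hb5⟩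
    change τ.Ix at c
    change τ.fn c = ρ at hc1
    change τ.cd c = r at hc2
    change ∀ s ≤ q, ¬ Memf ρ σ s at hc4
    exact ⟨c, hc1 ▸ hρ, hc2 ▸ hr, hc2 ▸ hc3, hc1 ▸ hc4⟩

section
variable [WellFoundedLT I] [OrderBot I]

theorem ev_genF : Ev (fun (M : Set (Obj I)) z => GenF (HM M) (QM M) (Gf M z)) := by
  refine (ev_ne.and (ev_dir.and
    ((Ev.all fun φ : Fml => ez_denseN fun l => {p | Fr φ (asg l) p ∨ Fr φ.neg (asg l) p}).and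
    ((Ev.all fun φ : Fml => ez_denseN fun l =>
      {p | Fr (.all φ) (asg l) p ∨ ∃ σ, Fr φ.neg (cons σ (asg l)) p}).and
    ((ez_denseN fun l => {p | (∃ b : (asg l 1).Ix, p ≤ (asg l 1).cd b ∧
      Eqf (asg l 0) ((asg l 1).fn b) p) ∨ ∀ r ≤ p, ¬ Memf (asg l 0) (asg l 1) r}).and
    (ez_denseN fun l => {p | Eqf (asg l 0) (asg l 1) p ∨
      (∃ b : (asg l 1).Ix, p ≤ (asg l 1).cd b ∧ ∀ r ≤ p, ¬ Memf ((asg l 1).fn b) (asg l 0) r) ∨
      (∃ a : (asg l 0).Ix, p ≤ (asg l 0).cd a ∧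
        ∀ r ≤ p, ¬ Memf ((asg l 0).fn a) (asg l 1) r)})))))).mono ?_
  rintro M z ⟨h1, h2, h3, h4, h5, h6⟩
  refine ⟨fun p hp => hp.1, h1, fun p hp q hq h => ⟨hq, h hp.2⟩, h2, ?_⟩
  rintro D hD
  have hd := Dset_dense hD
  cases hD with
  | dec φ l hl => exact h3 φ l hl hd
  | all φ l hl => exact h4 φ l hl hd
  | mem σ τ hσ hτ => exact h5 [σ, τ] (by simp [hσ, hτ]) hd
  | eq σ τ hσ hτ => exact h6 [σ, τ] (by simp [hσ, hτ]) hd

theorem ev_zfc : Ev (fun (M : Set (Obj I)) z => IsTransModelZFC (NM M z)) := by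
  refine (ev_hull.and (ev_genF.and (Ev.all fun c : OpC => ev_nmop (opF c)))).mono ?_
  rintro M z ⟨h1, h2, h3⟩
  exact mod_isTransModel h1 (fun c l hl => h3 c l hl) h2

/-- membership and equality at the generic point -/
theorem ev_mem : Ev (fun (M : Set (Obj I)) z => ∀ σ ∈ HM M, ∀ τ ∈ HM M,
    (val (HM M) (Gf M z) σ ∈ val (HM M) (Gf M z) τ ↔ ∃ p ∈ Gf M z, Memf σ τ p)) :=
  (ev_hull.and ev_genF).mono fun _ _ h _ hσ _ hτ => val_mem_iff h.1 h.2 hσ hτ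

omit [WellFoundedLT I] [OrderBot I] in
theorem ev_natN : Ev (fun (M : Set (Obj I)) z => ∀ n, natN (PC I) n ∈ HM M ∧
    val (HM M) (Gf M z) (natN (PC I) n) = nat n) := by
  refine (ev_ne.and (Ev.all fun n : ℕ => ev_nmop fun _ => natN (PC I) n)).mono ?_
  rintro M z ⟨h1, h2⟩ n
  exact ⟨h2 n [] (by simp), val_natN h1 (fun n => h2 n [] (by simp)) n⟩

omit [WellFoundedLT I] [OrderBot I] in
private theorem ez_pair {M : Set (Obj I)} {z : I → Y} (hne : (Gf M z).Nonempty)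
    {σ τ : Nm (PC I)} (hσ : σ ∈ HM M) (hτ : τ ∈ HM M) :
    val (HM M) (Gf M z) (pairN σ τ) =
      {val (HM M) (Gf M z) σ, val (HM M) (Gf M z) τ} := by
  apply ZFSet.ext
  intro x
  rw [mem_val, ZFSet.mem_pair]
  constructor
  · rintro ⟨⟨b, p⟩, _, _, h⟩
    cases b with
    | true => exact Or.inl h
    | false => exact Or.inr h
  · obtain ⟨p, hpG⟩ := hne
    rintro (h | h)
    · exact ⟨(true, p), hσ, hpG, h⟩
    · exact ⟨(false, p), hτ, hpG, h⟩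

omit [WellFoundedLT I] [OrderBot I] in
theorem ev_opN : Ev (fun (M : Set (Obj I)) z => ∀ σ ∈ HM M, ∀ τ ∈ HM M, opN σ τ ∈ HM M ∧
    val (HM M) (Gf M z) (opN σ τ) =
      ZFSet.pair (val (HM M) (Gf M z) σ) (val (HM M) (Gf M z) τ)) := by
  refine (ev_ne.and (ev_nmop (opF .pair))).mono ?_
  rintro M z ⟨h1, h2⟩ σ hσ τ hτ
  have hp : ∀ {σ τ : Nm (PC I)}, σ ∈ HM M → τ ∈ HM M → pairN σ τ ∈ HM M := by
    intro σ τ hσ hτ
    exact h2 [σ, τ] (by simp [hσ, hτ])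
  refine ⟨hp (hp hσ hσ) (hp hσ hτ), ?_⟩
  rw [opN, ez_pair h1 (hp hσ hσ) (hp hσ hτ), ez_pair h1 hσ hσ, ez_pair h1 hσ hτ, ZFSet.pair]
  congr 1
  apply ZFSet.ext
  intro x
  simp

end

end Pool.Agent.CR
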