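import Pool.Agent.Lib.MP_72b52d_lc.CR.Mixing
import Pool.Agent.Lib.MP_72b52d_lc.CR.EvSet
import Pool.Agent.Lib.MP_72b52d_lc.CR.EvCode

/-!
# MP_72b52d_lc : the model
-/

namespace Pool.Agent.CR

variable {I : Type} [LinearOrder I] [WellFoundedLT I] [OrderBot I] [OrderTop I]

/-- `q` forces that the real `f` is in `τ` -/
def Rn (τ : Nm (PC I)) (q : Cond I) (f : (I → Y) → ℝ) : Prop :=
  ∀ r : PC I, r.1 ≤ q → Memf (nmR f) τ r

omit [WellFoundedLT I] [OrderBot I] in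
theorem Rn_iff {τ : Nm (PC I)} {p : PC I} {f : (I → Y) → ℝ} :
    Rn τ p.1 f ↔ Memf (nmR f) τ p :=
  ⟨fun h => h p le_rfl, fun h _ hr => Memf_mono h hr⟩

omit [WellFoundedLT I] [OrderBot I] in
theorem Rn_mono {τ : Nm (PC I)} (q : Cond I) (f : (I → Y) → ℝ) (q' : Cond I) (h : Rn τ q f)
    (hq : q' ≤ q) : Rn τ q' f := fun r hr => h r (hr.trans hq)

/-- `p` forces that `τ` is disjoint from the comeagre set given by the code `U` -/
def Cov (τ : Nm (PC I)) (U : ℕ → ℚ → ℚ → Set (I → Y)) (p : PC I) : Prop :=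
  MC ⊤ U ∧ (∀ n z, Dense (Op U n z)) ∧ ∀ q ≤ p, ∀ f, MR ⊤ f → Memf (nmR f) τ q →
    ¬ ∀ z ∈ Bod q.1, ∀ n, f z ∈ Op U n z

omit [WellFoundedLT I] [OrderBot I] in
theorem cov_dense (τ : Nm (PC I)) (p : PC I) :
    ∃ q ≤ p, NonM (Rn τ) q.1 ∨ ∃ U, Cov τ U q := by
  by_cases h : NonM (Rn τ) p.1
  · exact ⟨p, le_rfl, Or.inl h⟩
  · by_contra hno
    refine h fun q hq hl U hU hUd => ?_
    by_contra hno2
    refine hno ⟨⟨q, hl⟩, hq, Or.inr ⟨U, hU, hUd, fun q2 h2 f hf hm hall => ?_⟩⟩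
    exact hno2 ⟨q2.1, h2, q2.2, f, hf, Rn_iff.2 hm, hall⟩

theorem mem_setR {A : Set ℝ} {x : ℝ} : cut x ∈ setR A ↔ x ∈ A := by
  unfold setR
  rw [ZFSet.mem_range]
  constructor
  · rintro ⟨y, hy⟩
    rw [← cut_inj hy]; exact y.2
  · intro h
    exact ⟨⟨x, h⟩, rfl⟩

/-! ### the meagre case -/

theorem ev_cov : Ev (fun (M : Set (Obj I)) z => ∀ τ ∈ HM M, ∀ U, Obj.cd U ∈ M →
    ∀ p ∈ Gf M z, Cov τ U p → ∀ X : Set ℝ, setR X = val (HM M) (Gf M z) τ →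
      MeagreIn (NM M z) (RN (NM M z)) X) := by
  classical
  refine ((((ev_seqN (fun (l : List (Obj I)) n z => match l with
      | [.cd U] => {x | x ∉ Op U n z}
      | _ => ∅)).and (ev_ms (fun (l : List (Obj I)) => match l with
      | [.fn f, .cd U] => {z : I → Y | ∀ n, f z ∈ Op U n z}
      | _ => ∅))).and (ev_dir.and (ev_RN.and ev_nmR))).and
      ((ev_genF.and ev_mem).and (Ev.all (ι := ℚ) fun r => ev_const (r : ℝ)))).mono ?_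
  rintro M z ⟨⟨⟨h1, h2⟩, h3, h4, h5⟩, ⟨h6, h7⟩, h8⟩ τ hτ U hU p hp ⟨c1, c2, c3⟩ X hX
  have hXN : setR X ∈ NM M z := ⟨τ, hτ, hX.symm⟩
  refine ⟨fun n => {x | x ∉ Op U n z} ∩ RN (NM M z), ?_, ?_, ?_⟩
  · refine h1 [.cd U] (by simpa using hU) fun n f hf => ?_
    exact MS.not (MR.op hf c1 n)
  · intro n
    refine ⟨Set.inter_subset_right, fun a b hab => ?_⟩
    obtain ⟨x, ⟨hx1, hx2⟩, _⟩ := hab
    obtain ⟨y, ⟨a', b', hy2, hy3, hy4⟩, hy1⟩ := (c2 n z).exists_mem_open isOpen_Ioo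
      ⟨x, (⟨hx1, hx2⟩ : x ∈ Set.Ioo (a : ℝ) b)⟩
    refine ⟨max a a', min b b', le_max_left _ _, min_le_left _ _, ?_, ?_⟩
    · have h9 : ((max a a' : ℚ) : ℝ) < ((min b b' : ℚ) : ℝ) := by
        push_cast
        rcases hy1 with ⟨hy5, hy6⟩
        exact (max_lt hy5 hy3).trans (lt_min hy6 hy4)
      obtain ⟨r, hr1, hr2⟩ := exists_rat_btwn h9
      exact ⟨r, ⟨hr1, hr2⟩, h8 r⟩
    · rw [Set.disjoint_left]
      rintro w ⟨hw1, hw2⟩ ⟨hw3, _⟩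
      push_cast at hw1 hw2
      exact hw3 ⟨a', b', hy2, (max_lt_iff.1 hw1).2, (lt_min_iff.1 hw2).2⟩
  · intro x hx
    have hxN : x ∈ RN (NM M z) := Mod_trans _ hXN _ (mem_setR.2 hx)
    obtain ⟨f, hf1, hf2, rfl⟩ := h4 x hxN
    by_contra hno
    have hno : ∀ n, f z ∈ Op U n z := by
      intro n
      by_contra hn
      exact hno (Set.mem_iUnion.2 ⟨n, hn, hxN⟩)
    obtain ⟨p1, hp1, hp2⟩ := h2 [.fn f, .cd U] (by simp [hf1, hU])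
      (MS.all fun n => MR.op hf2 c1 n) hno
    have h9 : cut (f z) ∈ val (HM M) (Gf M z) τ := by rw [← hX]; exact mem_setR.2 hx
    rw [← (h5 f hf1 hf2).2] at h9
    obtain ⟨p2, hp3, hp4⟩ := (h7 _ (h5 f hf1 hf2).1 τ hτ).1 h9
    obtain ⟨r, hr, hr1, hr2⟩ := h3 p1 hp1 p2 hp3
    obtain ⟨r', hr', hr3, hr4⟩ := h3 r hr p hp
    exact c3 r' hr4 f hf2 (Memf_mono hp4 (hr3.trans hr2)) fun z' hz' => hp2 (hr1 (hr3 hz'))

/-! ### the non-meagre case -/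

theorem ev_non (hI : BigIx I) (hbt : (⊥ : I) < ⊤) : Ev (fun (M : Set (Obj I)) z =>
    ∀ τ ∈ HM M, ∀ p ∈ Gf M z, NonM (Rn τ) p.1 → ∀ X : Set ℝ,
      setR X = val (HM M) (Gf M z) τ →
      ∃ t ∈ RN (NM M z), ¬ MeagreIn (NM M z) (Kset ∩ RN (NM M z))
        (Kset ∩ RN (NM M z) ∩ {y | ∃ x ∈ X, y = x + t})) := by
  classical
  -- the object `α`
  have e1 := ev_rel (I := I) (fun l x => match l, x with
    | [.nm τ, .ob (.c p)], .ob (.o α) => α < ⊤ ∧ ∀ q ≤ p, Low ⊤ q → ∃ q' ≤ q, Low ⊤ q' ∧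
        ∃ ρ : ℚ, NonK (Rn τ) α ρ q'
    | _, _ => False)
  -- the condition deciding `ρ`
  have e2 := ev_below (I := I) (fun l => match l with
    | [.nm τ, .ob (.o α)] => {q | ∃ ρ : ℚ, NonK (Rn τ) α ρ q.1}
    | _ => ∅)
  -- the real `t`
  have e3 := Ev.all (ι := ℚ) fun ρ => ev_fun (I := I) (fun l => match l with
    | [.ob (.o α)] => .fn (fun z => tt (z α) + ρ)
    | _ => .ob (.c (one I)))
  have e4 := Ev.all (ι := ℚ) fun ρ => ev_fun (I := I) (fun l => match l with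
    | [.fn f, .ob (.o α)] => .fn (fun z => f z + tt (z α) + ρ)
    | _ => .ob (.c (one I)))
  -- the real in the Cantor set
  have e5 := Ev.all (ι := ℚ) fun ρ => ev_below (I := I) (fun l => match l with
    | [.nm τ, .ob (.o α), .cd W] => {q | ∃ f, MR ⊤ f ∧ Rn τ q.1 f ∧ ∀ z ∈ Bod q.1,
        f z + tt (z α) + ρ ∈ Kset ∧ ∀ n, f z + tt (z α) + ρ ∈ Op (fixK W) n z}
    | _ => ∅)
  have e6 := Ev.all (ι := ℚ) fun ρ => ev_rel (I := I) (fun l x => match l, x with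
    | [.nm τ, .ob (.o α), .cd W, .ob (.c q)], .fn f => MR ⊤ f ∧ Rn τ q f ∧ ∀ z ∈ Bod q,
        f z + tt (z α) + ρ ∈ Kset ∧ ∀ n, f z + tt (z α) + ρ ∈ Op (fixK W) n z
    | _, _ => False)
  refine (((e1.and e2).and (e3.and e4)).and ((e5.and e6).and ((ev_code.and ev_K_dense).and
    ((ev_RN_of.and ev_nmR).and ev_mem)))).mono ?_
  rintro M z ⟨⟨⟨e1, e2⟩, e3, e4⟩, ⟨e5, e6⟩, ⟨e7, e8⟩, ⟨e9, e10⟩, e11⟩ τ hτ p hp hN X hX
  obtain ⟨x, hx, hx'⟩ := e1 [.nm τ, cn p] (by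
    intro x hx
    simp only [List.mem_cons, List.not_mem_nil, or_false] at hx
    rcases hx with rfl | rfl
    · exact hτ
    · exact hp.1) (by
    obtain ⟨α, h1, h2⟩ := mixing hI hbt (R := Rn τ) Rn_mono p.2 hN
    exact ⟨.ob (.o α), h1, h2⟩)
  obtain ⟨α, rfl⟩ : ∃ α, x = .ob (.o α) := by
    revert hx'
    unfold cn
    rcases x with _ | (_ | α | _) | _ | _ <;> intro hx'
    · exact hx'.elim
    · exact hx'.elim
    · exact ⟨α, rfl⟩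
    · exact hx'.elim
    · exact hx'.elim
    · exact hx'.elim
  have hx' : α < ⊤ ∧ ∀ q ≤ p.1, Low ⊤ q → ∃ q' ≤ q, Low ⊤ q' ∧
        ∃ ρ : ℚ, NonK (Rn τ) α ρ q' := hx'
  obtain ⟨hα, hα'⟩ := hx'
  have hl : ∀ x ∈ [Obj.nm τ, .ob (.o α)], x ∈ M := by
    intro x hx1
    simp only [List.mem_cons, List.not_mem_nil, or_false] at hx1
    rcases hx1 with rfl | rfl
    · exact hτ
    · exact hx
  obtain ⟨s, hs, _, ρ, hρ⟩ := e2 [.nm τ, .ob (.o α)] hl p hp (fun q hq => by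
    obtain ⟨q', h1, h2, ρ, h3⟩ := hα' q.1 hq q.2
    exact ⟨⟨q', h2⟩, h1, ρ, h3⟩)
  have hα1 : MR ⊤ (fun z : I → Y => tt (z α) + ρ) := (tt_ms hα).add (MR.const _)
  refine ⟨tt (z α) + ρ, e9 _ (e3 ρ [.ob (.o α)] (by simpa using hx)) hα1, ?_⟩
  rintro ⟨F, hF1, hF2, hF3⟩
  obtain ⟨W, hW1, hW2, hW3⟩ := e7 F hF1
  have hl' : ∀ x ∈ [Obj.nm τ, .ob (.o α), .cd W], x ∈ M := by
    intro x hx1
    simp only [List.mem_cons, List.not_mem_nil, or_false] at hx1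
    rcases hx1 with rfl | rfl | rfl
    · exact hτ
    · exact hx
    · exact hW1
  obtain ⟨r, hr, _, f0, hf0⟩ := e5 ρ [.nm τ, .ob (.o α), .cd W] hl' s hs (fun q hq => by
    obtain ⟨q2, h1, h2, f, h3, h4, h5⟩ := hρ q.1 hq q.2 (fixK W) (fixK_mc hW2) (fixK_dense W)
    exact ⟨⟨q2, h2⟩, h1, f, h3, h4, h5⟩)
  obtain ⟨y, hy, hy'⟩ := e6 ρ [.nm τ, .ob (.o α), .cd W, cn r] (by
    intro x hx1
    simp only [List.mem_cons, List.not_mem_nil, or_false] at hx1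
    rcases hx1 with rfl | rfl | rfl | rfl
    · exact hτ
    · exact hx
    · exact hW1
    · exact hr.1) ⟨.fn f0, hf0⟩
  obtain ⟨f, rfl⟩ : ∃ f, y = .fn f := by
    revert hy'
    unfold cn
    rcases y with _ | _ | f | _ <;> intro hy'
    · exact hy'.elim
    · exact hy'.elim
    · exact ⟨f, rfl⟩
    · exact hy'.elim
  have hy' : MR ⊤ f ∧ Rn τ r.1 f ∧ ∀ z ∈ Bod r.1,
        f z + tt (z α) + ρ ∈ Kset ∧ ∀ n, f z + tt (z α) + ρ ∈ Op (fixK W) n z := hy'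
  obtain ⟨hf1, hf2, hf3⟩ := hy'
  obtain ⟨hf4, hf5⟩ := hf3 z hr.2
  -- the real `f z` is in `X`
  have h1 : f z ∈ X := by
    rw [← mem_setR, hX, ← (e10 f hy hf1).2]
    exact (e11 _ (e10 f hy hf1).1 τ hτ).2 ⟨r, hr, Rn_iff.1 hf2⟩
  have h2 : f z + tt (z α) + ρ ∈ RN (NM M z) :=
    e9 _ (e4 ρ [.fn f, .ob (.o α)] (by simp [hy, hx])) ((hf1.add (tt_ms hα)).add (MR.const _))
  -- the code is dense at `z`
  have h3 : KDen W z := by
    intro n a b hab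
    have hab' : (Set.Ioo (a : ℝ) b ∩ (Kset ∩ RN (NM M z))).Nonempty := by
      obtain ⟨x, hx1, hx2⟩ := hab
      obtain ⟨w, hw1, hw2⟩ := mem_closure_iff.1 (e8 hx2) _ isOpen_Ioo hx1
      exact ⟨w, hw1, hw2⟩
    obtain ⟨c, d, h4, h5, h6, h7⟩ := (hF2 n).2 a b hab'
    exact ⟨c, d, ⟨h4, h5, h6.mono fun w hw => ⟨hw.1, hw.2.1⟩⟩, (hW3 n c d).2 h7⟩
  obtain ⟨n, hn⟩ := Set.mem_iUnion.1 (hF3 ⟨⟨hf4, h2⟩, f z, h1, add_assoc _ _ _⟩)
  obtain ⟨a, b, h4, h5, h6⟩ := hf5 n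
  rcases h4 with h4 | h4
  · exact Set.disjoint_left.1 ((hW3 n a b).1 h4) ⟨h5, h6⟩ hn
  · exact h4 h3

theorem ev_main (hI : BigIx I) (hbt : (⊥ : I) < ⊤) : Ev (fun (M : Set (Obj I)) z =>
    ∀ X : Set ℝ, setR X ∈ NM M z → ¬ MeagreIn (NM M z) (RN (NM M z)) X →
      ∃ t ∈ RN (NM M z), ¬ MeagreIn (NM M z) (Kset ∩ RN (NM M z))
        (Kset ∩ RN (NM M z) ∩ {y | ∃ x ∈ X, y = x + t})) := by
  classical
  refine (((ev_cov (I := I)).and (ev_non hI hbt)).and ((ev_dense (I := I) (fun l => match l with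
    | [.nm τ] => {q | NonM (Rn τ) q.1 ∨ ∃ U, Cov τ U q}
    | _ => ∅)).and (ev_rel (I := I) (fun l x => match l, x with
    | [.nm τ, .ob (.c p)], .cd U => ∃ h : Low ⊤ p, Cov τ U ⟨p, h⟩
    | _, _ => False)))).mono ?_
  rintro M z ⟨⟨h1, h2⟩, h3, h4⟩ X ⟨τ, hτ, hX⟩ hm
  obtain ⟨p, hp, hp'⟩ := h3 [.nm τ] (fun x hx => by
    rw [List.mem_singleton.1 hx]; exact hτ) (fun p => cov_dense τ p)
  have hp' : NonM (Rn τ) p.1 ∨ ∃ U, Cov τ U p := hp'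
  rcases hp' with hp' | ⟨U0, hU0⟩
  · exact h2 τ hτ p hp hp' X hX.symm
  · exfalso
    obtain ⟨x, hx, hx'⟩ := h4 [.nm τ, cn p] (by
      intro x hx
      simp only [List.mem_cons, List.not_mem_nil, or_false] at hx
      rcases hx with rfl | rfl
      · exact hτ
      · exact hp.1) ⟨.cd U0, p.2, hU0⟩
    obtain ⟨U, rfl⟩ : ∃ U, x = .cd U := by
      revert hx'
      unfold cn
      rcases x with _ | _ | _ | U <;> intro hx'
      · exact hx'.elim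
      · exact hx'.elim
      · exact hx'.elim
      · exact ⟨U, rfl⟩
    obtain ⟨_, hU⟩ : ∃ h : Low ⊤ p.1, Cov τ U ⟨p.1, h⟩ := hx'
    exact hm (h1 τ hτ U hx p hp hU X hX.symm)

/-- the main theorem -/
theorem main : MainStatement := by
  obtain ⟨I, i1, i2, i3, i4, hbt, hI⟩ := exists_index
  obtain ⟨M, z, _, _, ⟨h1, h2⟩, h3, h4⟩ := (((ev_cnt (I := I)).and ev_zfc).and
    (ev_cantor.and (ev_main hI hbt))).exists ∅ Set.countable_empty ⟨one I, low_one _⟩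
  refine ⟨NM M z, ?_, h2, Kset, ⟨K_compact, K_nonempty, K_perfect, K_td⟩, h3, h4⟩
  refine Set.Countable.image ?_ _
  exact h1.preimage_of_injOn fun x _ y _ h => by simpa using h

end Pool.Agent.CR
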