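import Pool.Agent.Lib.MP_72b52d_lc.CR.Ops

/-!
# MP_72b52d_lc : the fusion lemma
-/

namespace Pool.Agent.CR

variable {I : Type} [LinearOrder I]

section
variable {S : Type} [Encodable S] (nd : S → Node)
    (Nx : ℕ → (I → Y) → S → W → S → Prop) (s0 : (I → Y) → S)

/-- the least next state -/
def Mn (n : ℕ) (z : I → Y) (s : S) (w : W) (s' : S) : Prop :=
  Nx n z s w s' ∧ ∀ t, Encodable.encode t < Encodable.encode s' → ¬ Nx n z s w t

/-- the state reached after the choices `u` (the last choice comes first) -/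
def Run (z : I → Y) : List W → S → Prop
  | [], s => s0 z = s
  | w :: u, s' => ∃ s, Run z u s ∧ Mn Nx u.length z s w s'

variable {nd Nx s0}

theorem Mn.unique {n : ℕ} {z : I → Y} {s : S} {w : W} {s' s'' : S} (h : Mn Nx n z s w s')
    (h' : Mn Nx n z s w s'') : s' = s'' := by
  rcases lt_trichotomy (Encodable.encode s') (Encodable.encode s'') with h1 | h1 | h1
  · exact absurd h.1 (h'.2 _ h1)
  · exact Encodable.encode_injective h1
  · exact absurd h'.1 (h.2 _ h1)

theorem Mn.exists {n : ℕ} {z : I → Y} {s : S} {w : W} (h : ∃ s', Nx n z s w s') :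
    ∃ s', Mn Nx n z s w s' := by
  obtain ⟨s', hs'⟩ := h
  obtain ⟨m, ⟨t, ht, rfl⟩, hm⟩ := WellFounded.has_min (wellFounded_lt (α := ℕ))
    {m | ∃ t, Nx n z s w t ∧ Encodable.encode t = m} ⟨_, s', hs', rfl⟩
  exact ⟨t, ht, fun r hr h' => hm _ ⟨r, h', rfl⟩ hr⟩

theorem Mn.ms {α : I} (mNx : ∀ n s w s', MS α {z | Nx n z s w s'}) (n : ℕ) (s : S) (w : W)
    (s' : S) : MS α {z | Mn Nx n z s w s'} :=
  (mNx n s w s').and (MS.all fun _ => MS.all fun _ => (mNx _ _ _ _).not)

theorem Run.ms {α : I} (mNx : ∀ n s w s', MS α {z | Nx n z s w s'})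
    (ms0 : ∀ s, MS α {z | s0 z = s}) (u : List W) (s : S) : MS α {z | Run Nx s0 z u s} := by
  induction u generalizing s with
  | nil => exact ms0 s
  | cons w u ih => exact MS.ex fun s' => (ih s').and (Mn.ms mNx _ _ _ _)

theorem Run.unique {z : I → Y} {u : List W} {s s' : S} (h : Run Nx s0 z u s)
    (h' : Run Nx s0 z u s') : s = s' := by
  induction u generalizing s s' with
  | nil => exact h.symm.trans h'
  | cons w u ih =>
    obtain ⟨t, ht, h1⟩ := h
    obtain ⟨t', ht', h1'⟩ := h'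
    obtain rfl := ih ht ht'
    exact h1.unique h1'

end

theorem fusion {S : Type} [Encodable S] {α : I} {E : Set (I → Y)} (hE : MS α E)
    (nd : S → Node) (Lg : ℕ → (I → Y) → S → Prop)
    (Nx : ℕ → (I → Y) → S → W → S → Prop) (s0 : (I → Y) → S)
    (mNx : ∀ n s w s', MS α {z | Nx n z s w s'}) (ms0 : ∀ s, MS α {z | s0 z = s})
    (h0 : ∀ z ∈ E, Lg 0 z (s0 z))
    (h1 : ∀ z ∈ E, ∀ n s, Lg n z s → Big n (nd s) {w | ∃ s', Nx n z s w s'})
    (h2 : ∀ z ∈ E, ∀ n s w s', Lg n z s → Nx n z s w s' →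
      Lg (n + 1) z s' ∧ nd s ++ [w] <+: nd s') :
    ∃ T : (I → Y) → Set Node, (∀ σ, MS α {z | σ ∈ T z}) ∧ (∀ z, Pos (T z)) ∧
      ∀ z ∈ E, ∀ y : Y, (∀ n, pre y n ∈ T z) → ∃ s : ℕ → S, s 0 = s0 z ∧
        ∀ n, Lg n z (s n) ∧ ∃ w, Nx n z (s n) w (s (n + 1)) ∧
          nd (s n) ++ [w] = pre y ((nd (s n)).length + 1) := by
  classical
  let T : (I → Y) → Set Node := fun z => {σ | z ∈ E → ∃ u s, Run Nx s0 z u s ∧ σ <+: nd s}
  -- legitimacy
  have hL : ∀ z ∈ E, ∀ u s, Run Nx s0 z u s → Lg u.length z s := by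
    intro z hz u
    induction u with
    | nil => intro s hs; have : s0 z = s := hs; subst this; exact h0 z hz
    | cons w u ih =>
      rintro s' ⟨s, hs, hm⟩
      exact (h2 z hz _ _ _ _ (ih s hs) hm.1).1
  have hN : ∀ z ∈ E, ∀ u s w s', Run Nx s0 z u s → Mn Nx u.length z s w s' →
      nd s ++ [w] <+: nd s' := fun z hz u s w s' hs hm => (h2 z hz _ _ _ _ (hL z hz u s hs) hm.1).2
  -- decomposition
  have hD : ∀ z ∈ E, ∀ v u s', Run Nx s0 z (v ++ u) s' → ∃ s, Run Nx s0 z u s ∧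
      nd s <+: nd s' := by
    intro z hz v u
    induction v with
    | nil => intro s' hs'; exact ⟨s', hs', List.prefix_rfl⟩
    | cons w v ih =>
      rintro s' ⟨t, ht, hm⟩
      obtain ⟨s, hs, hp⟩ := ih t ht
      exact ⟨s, hs, hp.trans ((List.prefix_append _ _).trans (hN z hz _ _ _ _ ht hm))⟩
  refine ⟨T, ?_, ?_, ?_⟩
  · intro σ
    exact (MS.imp hE (MS.ex fun u => MS.ex fun s => (Run.ms mNx ms0 u s).and (MS.const _ _)))
  · intro z
    by_cases hz : z ∈ E
    swap
    · have : T z = Set.univ := by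
        ext σ; simp [T, hz]
      rw [this]; exact Pos.univ
    refine ⟨fun _ => ⟨[], s0 z, rfl, List.nil_prefix⟩, ?_, ?_⟩
    · intro σ τ hστ hτ _
      obtain ⟨u, s, hs, hp⟩ := hτ hz
      exact ⟨u, s, hs, hστ.trans hp⟩
    · intro σ hσ k
      obtain ⟨u, s, hs, hp⟩ := hσ hz
      -- extend `u` to length at least `k`
      have hext : ∀ m, ∃ u' s', u'.length = u.length + m ∧ Run Nx s0 z u' s' ∧ σ <+: nd s' := by
        intro m
        induction m with
        | zero => exact ⟨u, s, rfl, hs, hp⟩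
        | succ m ih =>
          obtain ⟨u', s', hl, hs', hp'⟩ := ih
          obtain ⟨w, t, ht⟩ := (h1 z hz _ _ (hL z hz _ _ hs')).nonempty
          obtain ⟨t', ht'⟩ := Mn.exists ⟨t, ht⟩
          refine ⟨w :: u', t', by simp [hl]; omega, ⟨s', hs', ht'⟩, ?_⟩
          exact hp'.trans ((List.prefix_append _ _).trans (hN z hz _ _ _ _ hs' ht'))
      obtain ⟨u', s', hl, hs', hp'⟩ := hext k
      refine ⟨nd s', fun _ => ⟨u', s', hs', List.prefix_rfl⟩, hp', ?_⟩
      refine ((h1 z hz _ _ (hL z hz _ _ hs')).mono ?_).anti (by omega : k ≤ u'.length)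
      rintro w ⟨t, ht⟩ _
      obtain ⟨t', ht'⟩ := Mn.exists ⟨t, ht⟩
      exact ⟨w :: u', t', ⟨s', hs', ht'⟩, hN z hz _ _ _ _ hs' ht'⟩
  · intro z hz y hy
    have hy' : ∀ m, ∃ u s, Run Nx s0 z u s ∧ pre y m <+: nd s := fun m => hy m hz
    let Inv : ℕ → List W × S → Prop := fun n x => x.1.length = n ∧ Run Nx s0 z x.1 x.2 ∧
      ∀ m, ∃ u' s', Run Nx s0 z u' s' ∧ x.1 <:+ u' ∧ pre y m <+: nd s'
    have inv0 : Inv 0 ([], s0 z) := by
      refine ⟨rfl, rfl, fun m => ?_⟩
      obtain ⟨u, s, hs, hp⟩ := hy' m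
      exact ⟨u, s, hs, List.nil_suffix, hp⟩
    -- for a state satisfying the invariant every long initial segment passes through one successor
    have key : ∀ n x, Inv n x → ∀ m, (nd x.2).length < m → ∃ w s1 v s', Run Nx s0 z (w :: x.1) s1 ∧
        Mn Nx n z x.2 w s1 ∧ Run Nx s0 z (v ++ w :: x.1) s' ∧ pre y m <+: nd s' ∧
        nd x.2 ++ [w] = pre y ((nd x.2).length + 1) := by
      rintro n ⟨u, s⟩ ⟨hn, hs, hx⟩ m hm
      obtain ⟨u', s', hs', ⟨v, rfl⟩, hp⟩ := hx m
      -- `v` is not empty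
      rcases List.eq_nil_or_concat v with rfl | ⟨v, w, rfl⟩
      · exfalso
        obtain rfl := Run.unique hs hs'
        have := hp.length_le
        simp only [pre_length] at this
        have hm' : (nd s).length < m := hm
        omega
      · have e : (v.concat w) ++ u = v ++ w :: u := by simp
        rw [e] at hs'
        obtain ⟨s1, hs1, hp1⟩ := hD z hz v (w :: u) s' hs'
        have hs1' := hs1
        obtain ⟨t, ht, hm1⟩ := hs1
        obtain rfl := Run.unique hs ht
        refine ⟨w, s1, v, s', hs1', by rw [← hn]; exact hm1, hs', hp, ?_⟩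
        have a1 : nd s ++ [w] <+: nd s' := (hN z hz _ _ _ _ hs hm1).trans hp1
        have a2 : pre y ((nd s).length + 1) <+: nd s' := (pre_prefix y hm).trans hp
        exact (List.prefix_of_prefix_length_le a1 a2 (by simp)).eq_of_length (by simp)
    have step : ∀ n x, Inv n x → ∃ x', Inv (n + 1) x' ∧ ∃ w, Mn Nx n z x.2 w x'.2 ∧
        nd x.2 ++ [w] = pre y ((nd x.2).length + 1) := by
      rintro n x hx
      obtain ⟨w, s1, v, s', hr1, hm1, hr', hp', he⟩ := key n x hx _ (Nat.lt_succ_self _)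
      refine ⟨(w :: x.1, s1), ⟨by simp [hx.1], hr1, fun m => ?_⟩, w, hm1, he⟩
      obtain ⟨w2, s2, v2, s2', hr2, hm2, hr2', hp2', he2⟩ :=
        key n x hx (max m ((nd x.2).length + 1)) (by omega)
      have hw : w2 = w := by
        have := he2.trans he.symm
        simpa using this
      subst hw
      exact ⟨_, s2', hr2', List.suffix_append _ _, (pre_prefix y (le_max_left _ _)).trans hp2'⟩
    choose! f hf using step
    let g : ℕ → List W × S := fun n => Nat.rec ([], s0 z) (fun n x => f n x) n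
    have gI : ∀ n, Inv n (g n) := by
      intro n
      induction n with
      | zero => exact inv0
      | succ n ih => exact (hf n (g n) ih).1
    refine ⟨fun n => (g n).2, rfl, fun n => ⟨?_, ?_⟩⟩
    · have := hL z hz _ _ (gI n).2.1
      rwa [(gI n).1] at this
    · obtain ⟨w, hw, he⟩ := (hf n (g n) (gI n)).2
      exact ⟨w, hw.1, he⟩

end Pool.Agent.CR
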