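import Pool.Agent.Lib.MP_72b52d_lc.CR.Defs2
import Pool.Agent.Lib.MP_72b52d_lc.CR.BigL

/-!
# MP_72b52d_lc : good pairs of digit strings
-/

namespace Pool.Agent.CR

/-- the digits of a string, reduced modulo the bases -/
def dgn (e : List ℕ) (i : ℕ) : ℕ := (e.getD i 0) % bs i

theorem bs_pos (i : ℕ) : 0 < bs i := by simp [bs]

theorem bs_ge (i : ℕ) : 8 ≤ bs i := by simp [bs]

theorem dgn_lt (e : List ℕ) (i : ℕ) : dgn e i < bs i := Nat.mod_lt _ (bs_pos i)

theorem dgn_prefix {e e' : List ℕ} (h : e <+: e') {i : ℕ} (hi : i < e.length) :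
    dgn e' i = dgn e i := by
  unfold dgn
  rw [List.getD_eq_getElem _ _ hi, List.getD_eq_getElem _ _ (hi.trans_le h.length_le),
    h.getElem hi]

theorem getD_prefix {e e' : List ℕ} (h : e <+: e') {i : ℕ} (hi : i < e.length) :
    e'.getD i 0 = e.getD i 0 := by
  rw [List.getD_eq_getElem _ _ hi, List.getD_eq_getElem _ _ (hi.trans_le h.length_le),
    h.getElem hi]

/-- good pairs: the sum of the first `m` digits of `x` and `d` is well defined up to the last
carry, lies in the Cantor set so far, and the last carry does not matter -/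
structure Good (x d : ℕ → ℕ) (m : ℕ) : Prop where
  ne : ∀ i < m, (x i + d i) % bs i ≠ bs i - 1
  lo : ∀ i, i + 1 < m → 1 ≤ sm x d i
  hi : ∀ i, i + 1 < m → sm x d i ≤ bs i - 2
  la : ∀ i, i + 1 = m → 1 ≤ (x i + d i) % bs i ∧ (x i + d i) % bs i ≤ bs i - 3

theorem sm_congr {x d x' d' : ℕ → ℕ} {i : ℕ} (h0 : x i = x' i) (h1 : x (i + 1) = x' (i + 1))
    (h2 : d i = d' i) (h3 : d (i + 1) = d' (i + 1)) : sm x d i = sm x' d' i := by
  simp [sm, h0, h1, h2, h3]

theorem Good.congr {x d x' d' : ℕ → ℕ} {m : ℕ} (h : Good x d m) (hx : ∀ i < m, x i = x' i)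
    (hd : ∀ i < m, d i = d' i) : Good x' d' m where
  ne i hi := by rw [← hx i hi, ← hd i hi]; exact h.ne i hi
  lo i hi := by
    rw [← sm_congr (hx i (by omega)) (hx (i + 1) hi) (hd i (by omega)) (hd (i + 1) hi)]
    exact h.lo i hi
  hi i hi := by
    rw [← sm_congr (hx i (by omega)) (hx (i + 1) hi) (hd i (by omega)) (hd (i + 1) hi)]
    exact h.hi i hi
  la i hi := by rw [← hx i (by omega), ← hd i (by omega)]; exact h.la i hi

theorem Good.zero (x d : ℕ → ℕ) : Good x d 0 where
  ne i hi := by omega
  lo i hi := by omega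
  hi i hi := by omega
  la i hi := by omega

theorem Good.succ {x d : ℕ → ℕ} {m : ℕ} (h : Good x d m) (h1 : 1 ≤ (x m + d m) % bs m)
    (h2 : (x m + d m) % bs m ≤ bs m - 3) : Good x d (m + 1) where
  ne i hi := by
    rcases Nat.lt_succ_iff_lt_or_eq.1 hi with hi | rfl
    · exact h.ne i hi
    · have := bs_ge i; omega
  lo i hi := by
    rcases Nat.lt_or_ge (i + 1) m with h3 | h3
    · exact h.lo i h3
    · have h4 : i + 1 = m := by omega
      have := (h.la i h4).1
      unfold sm; omega
  hi i hi := by
    rcases Nat.lt_or_ge (i + 1) m with h3 | h3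
    · exact h.hi i h3
    · have h4 : i + 1 = m := by omega
      have h5 := (h.la i h4).2
      have := bs_ge i
      unfold sm
      split_ifs <;> omega
  la i hi := by
    obtain rfl : i = m := by omega
    exact ⟨h1, h2⟩

theorem mod_aux {b a r : ℕ} (hr : r < b) (ha : a < b) :
    ((r + b - a) % b + a) % b = r ∧ (b ≤ (r + b - a) % b + a ↔ r < a) := by
  rcases Nat.lt_or_ge r a with h | h
  · have : (r + b - a) % b = r + b - a := Nat.mod_eq_of_lt (by omega)
    rw [this]
    have e : r + b - a + a = r + b := by omega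
    rw [e]
    refine ⟨by rw [Nat.add_mod_right, Nat.mod_eq_of_lt hr], ?_⟩
    constructor
    · intro _; exact h
    · intro _; omega
  · have : (r + b - a) % b = r - a := by
      have e : r + b - a = (r - a) + b := by omega
      rw [e, Nat.add_mod_right, Nat.mod_eq_of_lt (by omega)]
    rw [this]
    have e : r - a + a = r := by omega
    rw [e]
    refine ⟨Nat.mod_eq_of_lt hr, ?_⟩
    constructor
    · intro _; omega
    · intro _; omega

theorem TrI1_append {s : List ℕ} (hs : s ∈ TrI 1) {a : ℕ} (ha : a < bs s.length) :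
    s ++ [a] ∈ TrI 1 := by
  intro i hi
  simp only [List.length_append, List.length_cons, List.length_nil] at hi
  rcases Nat.lt_succ_iff_lt_or_eq.1 hi with h | rfl
  · rw [List.getD_append _ _ _ _ h]; exact hs i h
  · rw [List.getD_append_right _ _ _ _ le_rfl]; simpa using ha

theorem getD_append_left' {s t : List ℕ} {i : ℕ} (h : i < s.length) :
    (s ++ t).getD i 0 = s.getD i 0 := List.getD_append _ _ _ _ h

theorem getD_append_last {s : List ℕ} {a : ℕ} : (s ++ [a]).getD s.length 0 = a := by
  rw [List.getD_append_right _ _ _ _ le_rfl]; simp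

/-- prolong `s` compatibly with the digits `d` -/
theorem Good.extend {s : List ℕ} (hs : s ∈ TrI 1) {d : ℕ → ℕ} (hd : ∀ i, d i < bs i)
    (h : Good (fun i => s.getD i 0) d s.length) {L : ℕ} (hL : s.length ≤ L) :
    ∃ s' ∈ TrI 1, s <+: s' ∧ s'.length = L ∧ Good (fun i => s'.getD i 0) d L := by
  induction L, hL using Nat.le_induction with
  | base => exact ⟨s, hs, List.prefix_rfl, rfl, h⟩
  | succ L _ ih =>
    obtain ⟨s', h1, h2, rfl, h4⟩ := ih
    have ha : (1 + bs s'.length - d s'.length) % bs s'.length < bs s'.length :=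
      Nat.mod_lt _ (bs_pos _)
    have hm := (mod_aux (b := bs s'.length) (a := d s'.length) (r := 1)
      (by have := bs_ge s'.length; omega) (hd _)).1
    refine ⟨s' ++ [(1 + bs s'.length - d s'.length) % bs s'.length], TrI1_append h1 ha,
      h2.trans (List.prefix_append _ _), by simp, ?_⟩
    refine Good.succ (h4.congr (fun i hi => (getD_append_left' hi).symm) fun _ _ => rfl) ?_ ?_
    · simp only [getD_append_last, hm]; exact le_rfl
    · simp only [getD_append_last, hm]; have := bs_ge s'.length; omega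

/-- the carries computed from the right -/
def cr (U d : ℕ → ℕ) (m : ℕ) : ℕ → ℕ
  | 0 => 0
  | j + 1 => if U (m - 1 - j) - cr U d m j < d (m - 1 - j) then 1 else 0

theorem cr_le (U d : ℕ → ℕ) (m j : ℕ) : cr U d m j ≤ 1 := by
  cases j with
  | zero => simp [cr]
  | succ j => simp only [cr]; split_ifs <;> omega

/-- subtraction: given the digits `d` and the wanted digits `u` of the sum, find the digits `s` -/
theorem subtract {s u : List ℕ} (hs : s ∈ TrI 1) (hu : u ∈ TrI 2) {d : ℕ → ℕ}
    (hd : ∀ i, d i < bs i) (hg : Good (fun i => s.getD i 0) d s.length)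
    (hlen : s.length < u.length) {m γ : ℕ} (hm : u.length + 2 ≤ m)
    (h1 : ∀ i, i + 1 < s.length → u.getD i 0 = sm (fun i => s.getD i 0) d i)
    (h2 : ∀ i, i + 1 = s.length → u.getD i 0 = (s.getD i 0 + d i) % bs i + γ)
    (h3 : (γ = 0 ∧ d s.length < u.getD s.length 0) ∨ (γ = 1 ∧ u.getD s.length 0 < d s.length)) :
    ∃ s' ∈ TrI 1, s <+: s' ∧ s'.length = m ∧ Good (fun i => s'.getD i 0) d m ∧
      ∀ i < u.length, sm (fun i => s'.getD i 0) d i = u.getD i 0 := by
  -- the wanted digits
  let U : ℕ → ℕ := fun i => if i < u.length then u.getD i 0 else 2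
  have hU1 : ∀ i, 1 ≤ U i := by
    intro i
    by_cases h : i < u.length
    · simp only [U, h, if_true]; exact (hu i h).1
    · simp [U, h]
  have hU2 : ∀ i, U i ≤ bs i - 2 := by
    intro i
    by_cases h : i < u.length
    · simp only [U, h, if_true]; exact (hu i h).2
    · have := bs_ge i; simp only [U, h, if_false]; omega
  let c : ℕ → ℕ := fun i => cr U d m (m - 1 - i)
  have hc1 : ∀ i, c i ≤ 1 := fun i => cr_le _ _ _ _
  have hcl : c (m - 1) = 0 := by simp [c, cr]
  have hcs : ∀ i, i + 1 < m → c i = if U (i + 1) - c (i + 1) < d (i + 1) then 1 else 0 := by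
    intro i hi
    have e : m - 1 - i = (m - 1 - (i + 1)) + 1 := by omega
    show cr U d m (m - 1 - i) = _
    rw [e]
    show (if U (m - 1 - (m - 1 - (i + 1))) - cr U d m (m - 1 - (i + 1)) <
      d (m - 1 - (m - 1 - (i + 1))) then 1 else 0) = _
    have e2 : m - 1 - (m - 1 - (i + 1)) = i + 1 := by omega
    rw [e2]
  let X : ℕ → ℕ := fun i => if i < s.length then s.getD i 0 else (U i - c i + bs i - d i) % bs i
  have hX0 : ∀ i < s.length, X i = s.getD i 0 := fun i hi => by simp [X, hi]
  have hX1 : ∀ i, s.length ≤ i → X i = (U i - c i + bs i - d i) % bs i := fun i hi => by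
    simp [X, not_lt.2 hi]
  have hr : ∀ i, s.length ≤ i → (X i + d i) % bs i = U i - c i ∧
      (bs i ≤ X i + d i ↔ U i - c i < d i) := by
    intro i hi
    rw [hX1 i hi]
    exact mod_aux (by have := hU2 i; have := bs_ge i; omega) (hd i)
  have hXb : ∀ i, i < m → X i < bs i := by
    intro i hi
    by_cases h : i < s.length
    · rw [hX0 i h]; exact hs i h
    · rw [hX1 i (not_lt.1 h)]; exact Nat.mod_lt _ (bs_pos i)
  let s' : List ℕ := (List.range m).map X
  have hs'l : s'.length = m := by simp [s']
  have hs'X : ∀ i < m, s'.getD i 0 = X i := by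
    intro i hi
    rw [List.getD_eq_getElem _ _ (by rw [hs'l]; exact hi)]
    simp [s']
  -- the digits of the sum
  have hsm : ∀ i, i + 1 < m → sm (fun i => s'.getD i 0) d i = sm X d i := fun i hi =>
    sm_congr (hs'X i (by omega)) (hs'X (i + 1) hi) rfl rfl
  have hsmU : ∀ i, s.length ≤ i → i + 1 < m → sm X d i = U i := by
    intro i h4 h5
    unfold sm
    rw [(hr i h4).1]
    have h6 := hcs i h5
    have h7 := (hr (i + 1) (by omega)).2
    have h8 := hU1 i
    have h9 := hc1 i
    by_cases h : U (i + 1) - c (i + 1) < d (i + 1)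
    · rw [if_pos (h7.2 h)]
      rw [if_pos h] at h6
      omega
    · rw [if_neg (fun hh => h (h7.1 hh))]
      rw [if_neg h] at h6
      omega
  have hUs : U s.length = u.getD s.length 0 := by simp [U, hlen]
  -- the carry at `s.length`
  have hcar : (if bs s.length ≤ X s.length + d s.length then 1 else 0) = γ := by
    have h7 := (hr s.length le_rfl).2
    have h9 := hc1 s.length
    have h8 := hU1 s.length
    rw [hUs] at h7 h8
    rcases h3 with ⟨rfl, h3⟩ | ⟨rfl, h3⟩
    · rw [if_neg (fun hh => by have := h7.1 hh; omega)]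
    · rw [if_pos (h7.2 (by omega))]
  have hsmlast : ∀ i, i + 1 = s.length → sm X d i = u.getD i 0 := by
    intro i hi
    rw [h2 i hi]
    unfold sm
    rw [hX0 i (by omega), hi, hcar]
  have hsmlow : ∀ i, i + 1 < s.length → sm X d i = u.getD i 0 := by
    intro i hi
    rw [h1 i hi]
    exact sm_congr (hX0 i (by omega)) (hX0 (i + 1) hi) rfl rfl
  have hall : ∀ i, i + 1 < m → sm X d i = U i := by
    intro i hi
    rcases lt_trichotomy (i + 1) s.length with h | h | h
    · rw [hsmlow i h]; simp only [U]; rw [if_pos (by omega)]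
    · rw [hsmlast i h]; simp only [U]; rw [if_pos (by omega)]
    · exact hsmU i (by omega) hi
  refine ⟨s', ?_, ?_, hs'l, ?_, ?_⟩
  · intro i hi
    rw [hs'l] at hi
    rw [hs'X i hi]; exact hXb i hi
  · have : s = s'.take s.length := by
      apply List.ext_getElem
      · simp [hs'l]; omega
      · intro i h4 h5
        rw [List.getElem_take]
        have h6 := hs'X i (by omega)
        rw [List.getD_eq_getElem _ _ (by rw [hs'l]; omega)] at h6
        rw [h6, hX0 i h4, List.getD_eq_getElem _ _ h4]
    rw [this]; exact List.take_prefix _ _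
  · refine ⟨?_, ?_, ?_, ?_⟩
    · intro i hi
      rw [hs'X i hi]
      by_cases h : i < s.length
      · rw [hX0 i h]; exact hg.ne i h
      · rw [(hr i (not_lt.1 h)).1]
        have := hU2 i; have := bs_ge i
        omega
    · intro i hi
      rw [hsm i hi, hall i hi]; exact hU1 i
    · intro i hi
      rw [hsm i hi, hall i hi]; exact hU2 i
    · intro i hi
      rw [hs'X i (by omega)]
      have h4 : s.length ≤ i := by omega
      rw [(hr i h4).1]
      have h5 : i = m - 1 := by omega
      have h6 : c i = 0 := by rw [h5]; exact hcl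
      have h7 : U i = 2 := by
        simp only [U]; rw [if_neg (by omega)]
      rw [h6, h7]
      have := bs_ge i
      omega
  · intro i hi
    rw [hsm i (by omega), hall i (by omega)]
    simp [U, hi]

end Pool.Agent.CR
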