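import Pool.Agent.Lib.MP_72b52d_lc.CR.Model

/-!
# MP_72b52d_lc : the extension lemma, successor step
-/

namespace Pool.Agent.CR

variable {I : Type} [LinearOrder I]

/-- measurable selection from a countable set -/
theorem exists_sel {S : Type} [Encodable S] [Inhabited S] {α : I} {E : Set (I → Y)}
    (R : (I → Y) → S → Prop) (mR : ∀ s, MS α {z | R z s}) (h : ∀ z ∈ E, ∃ s, R z s) :
    ∃ g : (I → Y) → S, (∀ s, MS α {z | g z = s}) ∧ ∀ z ∈ E, R z (g z) := by
  classical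
  let L : (I → Y) → S → Prop := fun z s =>
    R z s ∧ ∀ t, Encodable.encode t < Encodable.encode s → ¬ R z t
  have Lu : ∀ z s s', L z s → L z s' → s = s' := by
    intro z s s' h h'
    rcases lt_trichotomy (Encodable.encode s) (Encodable.encode s') with h1 | h1 | h1
    · exact absurd h.1 (h'.2 _ h1)
    · exact Encodable.encode_injective h1
    · exact absurd h'.1 (h.2 _ h1)
  have Le : ∀ z, (∃ s, R z s) → ∃ s, L z s := by
    rintro z ⟨s, hs⟩
    obtain ⟨m, ⟨t, ht, rfl⟩, hm⟩ := WellFounded.has_min (wellFounded_lt (α := ℕ))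
      {m | ∃ t, R z t ∧ Encodable.encode t = m} ⟨_, s, hs, rfl⟩
    exact ⟨t, ht, fun r hr h' => hm _ ⟨r, h', rfl⟩ hr⟩
  have mL : ∀ s, MS α {z | L z s} := fun s =>
    (mR s).and (MS.all fun t => MS.all fun _ => (mR t).not)
  let g : (I → Y) → S := fun z => if h : ∃ s, L z s then h.choose else default
  refine ⟨g, fun s => ?_, fun z hz => ?_⟩
  · have : {z | g z = s} = {z | L z s ∨ ((¬ ∃ t, L z t) ∧ default = s)} := by
      ext z
      simp only [g, Set.mem_ofPred_eq]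
      by_cases h : ∃ t, L z t
      · simp only [h, dite_true, not_true, false_and, or_false]
        constructor
        · intro e; rw [← e]; exact h.choose_spec
        · intro hs; exact Lu _ _ _ h.choose_spec hs
      · simp only [h, dite_false, not_false_eq_true, true_and]
        constructor
        · exact Or.inr
        · rintro (hs | hs)
          · exact absurd ⟨s, hs⟩ h
          · exact hs
    rw [this]
    exact (mL s).or ((MS.ex mL).not.and (MS.const _ _))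
  · have h1 : ∃ s, L z s := Le z (h z hz)
    have : g z = h1.choose := dif_pos h1
    rw [this]
    exact h1.choose_spec.1

/-- the point follows the trees of `c` on the interval `[η, α)` -/
def Seg (c : Cond I) (η α : I) (z : I → Y) : Prop :=
  ∀ ξ, η ≤ ξ → ξ < α → ∀ n, pre (z ξ) n ∈ c.C ξ z

theorem Seg_ms (c : Cond I) (η α : I) : MS α {z | Seg c η α z} := by
  have : {z | Seg c η α z} = BodB (glue (one I) c η) α := by
    ext z
    simp only [Set.mem_ofPred_eq, Seg, mem_BodB]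
    constructor
    · intro h ξ hξ n
      by_cases h' : ξ < η
      · rw [glue_C_lt _ _ h']; trivial
      · rw [glue_C_ge _ _ (not_lt.1 h')]; exact h ξ (not_lt.1 h') hξ n
    · intro h ξ h' hξ n
      have := h ξ hξ n
      rwa [glue_C_ge _ _ h'] at this
  rw [this]; exact BodB_ms _ _

theorem Seg_dep {c : Cond I} {η α : I} {z z' : I → Y} (h : ∀ ξ < α, z ξ = z' ξ) :
    Seg c η α z ↔ Seg c η α z' := by
  have := (Seg_ms c η α).dep h
  exact this

theorem Seg_mono {c : Cond I} {η η' α α' : I} (h : η ≤ η') (h' : α' ≤ α) {z : I → Y}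
    (hz : Seg c η α z) : Seg c η' α' z := fun ξ h1 h2 n => hz ξ (h.trans h1) (h2.trans_le h') n

open Classical in
/-- replace the tree at `β` -/
noncomputable def setC (c : Cond I) (β : I) (T : (I → Y) → Set Node)
    (h1 : ∀ σ, MS β {z | σ ∈ T z}) (h2 : ∀ z, Pos (T z)) : Cond I where
  C ξ z := if ξ = β then T z else c.C ξ z
  meas ξ σ := by
    by_cases h : ξ = β
    · subst h; simpa using h1 σ
    · simpa [h] using c.meas ξ σ
  pos ξ z := by
    by_cases h : ξ = β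
    · simpa [h] using h2 z
    · simpa [h] using c.pos ξ z
  supp := (c.supp.union (Set.countable_singleton β)).mono (by
    rintro ξ ⟨z, hz⟩
    by_cases h' : ξ = β
    · exact Or.inr h'
    · exact Or.inl ⟨z, by simpa [h'] using hz⟩)

theorem setC_eq (c : Cond I) (β : I) (T : (I → Y) → Set Node)
    (h1 : ∀ σ, MS β {z | σ ∈ T z}) (h2 : ∀ z, Pos (T z)) (z : I → Y) :
    (setC c β T h1 h2).C β z = T z := by simp [setC]

theorem setC_ne (c : Cond I) {β ξ : I} (h : ξ ≠ β) (T : (I → Y) → Set Node)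
    (h1 : ∀ σ, MS β {z | σ ∈ T z}) (h2 : ∀ z, Pos (T z)) (z : I → Y) :
    (setC c β T h1 h2).C ξ z = c.C ξ z := by simp [setC, h]

/-- the extension lemma for `M` and `α` -/
def KL (M : Set (Ob I)) (α : I) : Prop :=
  ∀ (i : Fin 3) (η : I), η ≤ α → .o η ∈ M → ∀ E : Set (I → Y), MS η E →
    ∀ F : (I → Y) → Set (List ℕ), (∀ s, MS η {z | s ∈ F z}) →
    ∀ p : (I → Y) → Cond I, (∀ r, MS η {z | z ∈ E ∧ p z = r}) →
    (∀ z ∈ E, .c (p z) ∈ M ∧ Low α (p z) ∧ z ∈ BodB (p z) η ∧ Gen M i η z (F z)) →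
    ∃ c : Cond I, ∀ z ∈ E, Seg c η α z → z ∈ Bod (p z) ∧ GenB M i α z (F z) (p z)

/-- a tree all of whose nodes are comparable with `τ` contains `τ` -/
theorem mem_of_comp {T : Set Node} (hT : Pos T) {τ : Node}
    (h : ∀ σ ∈ T, σ <+: τ ∨ τ <+: σ) : τ ∈ T := by
  obtain ⟨y, hy⟩ := hT.branch
  have h1 := hy τ.length
  rcases h _ h1 with h2 | h2
  · rw [h2.eq_of_length (by simp)] at h1; exact h1
  · rw [← h2.eq_of_length (by simp)] at h1; exact h1

variable [WellFoundedLT I]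

theorem KL_self {M : Set (Ob I)} {α : I} {i : Fin 3} {E : Set (I → Y)}
    {F : (I → Y) → Set (List ℕ)} {p : (I → Y) → Cond I}
    (h : ∀ z ∈ E, .c (p z) ∈ M ∧ Low α (p z) ∧ z ∈ BodB (p z) α ∧ Gen M i α z (F z)) :
    ∃ c : Cond I, ∀ z ∈ E, Seg c α α z → z ∈ Bod (p z) ∧ GenB M i α z (F z) (p z) := by
  refine ⟨one I, fun z hz _ => ?_⟩
  obtain ⟨h1, h2, h3, h4⟩ := h z hz
  have : z ∈ Bod (p z) := by rw [Bod_of_low h2]; exact h3
  exact ⟨this, h4 _ h1 h2 this⟩

theorem KL_succ {M : Set (Ob I)} (hM : Suit M) {α β : I} (hα : .o α ∈ M) (hβ : β ⋖ α)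
    (hK : KL M β) (hd : Dec β) : KL M α := by
  classical
  intro i η hη hηM E hE F hF p hp h
  rcases hη.eq_or_lt with rfl | hηα
  · exact KL_self h
  have hηβ : η ≤ β := by
    by_contra hc
    exact hβ.2 (not_le.1 hc) hηα
  have hβM : .o β ∈ M := hM.pred _ _ hα hβ
  have hlt : β < α := hβ.1
  obtain ⟨e, he, he'⟩ := hM.enum
  obtain ⟨dd, hdd⟩ := hM.enumd
  -- below `β`
  obtain ⟨c1, hc1⟩ := hK i η hηβ hηM E hE F hF (fun z => res (p z) β) (by
      intro r
      have : {z | z ∈ E ∧ res (p z) β = r} = {z | ∃ k, (z ∈ E ∧ p z = e k) ∧ res (e k) β = r} := by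
        ext z
        constructor
        · rintro ⟨a, b⟩
          obtain ⟨k, hk⟩ := he' _ (h z a).1
          exact ⟨k, ⟨a, hk.symm⟩, by rw [hk]; exact b⟩
        · rintro ⟨k, ⟨a, b⟩, c⟩
          exact ⟨a, by rw [b]; exact c⟩
      rw [this]
      exact MS.ex fun k => (hp (e k)).and (MS.const _ _)) (by
      intro z hz
      obtain ⟨a1, a2, a3, a4⟩ := h z hz
      exact ⟨hM.res _ _ a1 hβM, low_res _ _, by rw [BodB_res _ hηβ]; exact a3, a4⟩)
  let E1 : Set (I → Y) := {z | z ∈ E ∧ Seg c1 η β z}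
  have hE1 : MS β E1 := (hE.mono hηβ).and (Seg_ms c1 η β)
  have hFβ : ∀ s, MS β {z | s ∈ F z} := fun s => (hF s).mono hηβ
  have hg : ∀ z ∈ E1, z ∈ BodB (p z) β ∧ Gen M i β z (F z) := by
    rintro z ⟨hz, hs⟩
    obtain ⟨a, b⟩ := hc1 z hz hs
    rw [Bod_res] at a
    exact ⟨a, b.gen hM hβM hd⟩
  -- the states
  let nd : ℕ × Node → Node := fun s => s.2
  let Lg : ℕ → (I → Y) → ℕ × Node → Prop := fun n z s =>
    Low α (e s.1) ∧ z ∈ BodB (e s.1) β ∧ s.2 ∈ (e s.1).C β z ∧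
      Big n s.2 {v | s.2 ++ [v] ∈ (e s.1).C β z}
  let Nx : ℕ → (I → Y) → ℕ × Node → W → ℕ × Node → Prop := fun n z s w s' =>
    s.2 ++ [w] ∈ (e s.1).C β z ∧ Low α (e s'.1) ∧ e s'.1 ≤ e s.1 ∧ z ∈ BodB (e s'.1) β ∧
      s'.2 ∈ (e s'.1).C β z ∧ s.2 ++ [w] <+: s'.2 ∧
      Big (n + 1) s'.2 {v | s'.2 ++ [v] ∈ (e s'.1).C β z} ∧
      ((.d (dd n) ∈ M ∧ Dn α (TrI i) (dd n)) → ∃ t, t ∈ F z ∧ (e s'.1, t) ∈ dd n)
  have mC : ∀ k σ, MS β {z | σ ∈ (e k).C β z} := fun k σ => (e k).meas β σ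
  have mNx : ∀ n s w s', MS β {z | Nx n z s w s'} := by
    intro n s w s'
    refine (mC _ _).and ((MS.const _ _).and ((MS.const _ _).and ((BodB_ms _ _).and
      ((mC _ _).and ((MS.const _ _).and ((Big.ms (fun w => mC _ _) _ _).and ?_))))))
    refine MS.all fun _ => MS.ex fun t => (hFβ t).and (MS.const _ _)
  -- the initial state
  obtain ⟨s0, ms0, hs0⟩ := exists_sel (S := ℕ × Node) (α := β) (E := E1)
    (fun z s => (z ∈ E ∧ p z = e s.1) ∧ s.2 ∈ (e s.1).C β z ∧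
      Big 0 s.2 {v | s.2 ++ [v] ∈ (e s.1).C β z})
    (fun s => ((hp _).mono hηβ).and ((mC _ _).and (Big.ms (fun w => mC _ _) _ _)))
    (by
      rintro z ⟨hz, hs⟩
      obtain ⟨k, hk⟩ := he' _ (h z hz).1
      obtain ⟨τ, hτ, _, hB⟩ := ((e k).pos β z).big [] ((e k).pos β z).nil 0
      exact ⟨(k, τ), ⟨hz, hk.symm⟩, hτ, hB⟩)
  obtain ⟨T, hT1, hT2, hT3⟩ := fusion hE1 nd Lg Nx s0 mNx ms0
    (by
      intro z hz
      obtain ⟨⟨a1, a2⟩, a3, a4⟩ := hs0 z hz
      obtain ⟨b1, b2, b3, b4⟩ := h z a1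
      exact ⟨by rw [← a2]; exact b2, by rw [← a2]; exact (hg z hz).1, a3, a4⟩)
    (by
      rintro z hz n ⟨k, τ⟩ ⟨a1, a2, a3, a4⟩
      refine a4.mono ?_
      intro w hw
      have hw' : τ ++ [w] ∈ (e k).C β z := hw
      -- the condition restricted to the successor
      have b1 : .c (sp (e k) β (τ ++ [w])) ∈ M := hM.sp _ _ _ (he k) hβM
      have b2 : Low α (sp (e k) β (τ ++ [w])) := low_sp a1 hlt
      have b3 : z ∈ BodB (sp (e k) β (τ ++ [w])) β := by rw [BodB_sp _ le_rfl]; exact a2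
      have b4 : ∃ r', .c r' ∈ M ∧ Low α r' ∧ r' ≤ sp (e k) β (τ ++ [w]) ∧ z ∈ BodB r' β ∧
          ((.d (dd n) ∈ M ∧ Dn α (TrI i) (dd n)) → ∃ t, t ∈ F z ∧ (r', t) ∈ dd n) := by
        by_cases hD : .d (dd n) ∈ M ∧ Dn α (TrI i) (dd n)
        · obtain ⟨r', c1, c2, c3, c4, t, ht, c5⟩ :=
            step hM hlt.le hα hβM b1 b2 hD.1 hD.2 b3 (hg z hz).2
          exact ⟨r', c1, c2, c3, c4, fun _ => ⟨t, ht, c5⟩⟩
        · exact ⟨_, b1, b2, le_rfl, b3, fun h => absurd h hD⟩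
      obtain ⟨r', c1, c2, c3, c4, c5⟩ := b4
      obtain ⟨k', rfl⟩ := he' r' c1
      have c6 : (e k').C β z ⊆ cutT ((e k).C β z) (τ ++ [w]) := by
        have := C_mono c3 c4
        rwa [sp_C_eq] at this
      have c7 : τ ++ [w] ∈ (e k').C β z :=
        mem_of_comp ((e k').pos β z) fun σ hσ => (c6 hσ).2 hw'
      obtain ⟨τ', d1, d2, d3⟩ := ((e k').pos β z).big _ c7 (n + 1)
      exact ⟨(k', τ'), hw', c2, c3.trans (sp_le _ _ _), c4, d1, d2, d3, c5⟩)
    (by
      rintro z hz n ⟨k, τ⟩ w ⟨k', τ'⟩ _ ⟨b1, b2, b3, b4, b5, b6, b7, b8⟩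
      exact ⟨⟨b2, b4, b5, b7⟩, b6⟩)
  refine ⟨setC c1 β T hT1 hT2, fun z hz hs => ?_⟩
  have hz1 : z ∈ E1 := by
    refine ⟨hz, fun ξ h1 h2 n => ?_⟩
    have := hs ξ h1 (h2.trans hlt) n
    rwa [setC_ne _ h2.ne] at this
  have hy : ∀ n, pre (z β) n ∈ T z := by
    intro n
    have := hs β hηβ hlt n
    rwa [setC_eq] at this
  obtain ⟨s, hs0', hs'⟩ := hT3 z hz1 (z β) hy
  -- the conditions decrease
  have hdec : ∀ m n, m ≤ n → e (s n).1 ≤ e (s m).1 := by
    intro m n hmn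
    induction n, hmn using Nat.le_induction with
    | base => exact le_rfl
    | succ n _ ih =>
      obtain ⟨_, w, hw, _⟩ := hs' n
      exact hw.2.2.1.trans ih
  have hnd : ∀ n, (s n).2 = pre (z β) (s n).2.length := by
    intro n
    obtain ⟨_, w, _, hw⟩ := hs' n
    have h1 : (s n).2 <+: pre (z β) ((s n).2.length + 1) := by
      rw [← hw]; exact List.prefix_append _ _
    exact prefix_pre _ _ h1
  have hlen : ∀ n, n ≤ (s n).2.length := by
    intro n
    induction n with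
    | zero => exact Nat.zero_le _
    | succ n ih =>
      obtain ⟨_, w, hw, _⟩ := hs' n
      have := hw.2.2.2.2.2.1.length_le
      simp only [List.length_append, List.length_cons, List.length_nil] at this
      omega
  have hbod : ∀ n, z ∈ Bod (e (s n).1) := by
    intro n
    rw [Bod_of_low (hs' n).1.1]
    intro ξ hξ m
    rcases lt_or_eq_of_le (hβ.le_of_lt hξ) with h1 | rfl
    · exact (hs' n).1.2.1 ξ h1 m
    · have h1 := (hs' (max n m)).1
      have h2 : (s (max n m)).2 ∈ (e (s n).1).C ξ z :=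
        C_mono (hdec _ _ (le_max_left n m)) h1.2.1 h1.2.2.1
      refine ((e (s n).1).pos ξ z).closed _ _ ?_ h2
      rw [hnd (max n m)]
      exact pre_prefix _ ((le_max_right n m).trans (hlen _))
  have hp0 : p z = e (s 0).1 := by rw [hs0']; exact (hs0 z hz1).1.2
  refine ⟨by rw [hp0]; exact hbod 0, ?_⟩
  intro D hD hdn
  obtain ⟨n, rfl⟩ := hdd D hD
  obtain ⟨_, w, hw, _⟩ := hs' n
  obtain ⟨t, ht, ht'⟩ := hw.2.2.2.2.2.2.2 ⟨hD, hdn⟩
  exact ⟨_, he _, by rw [hp0]; exact hdec 0 (n + 1) (Nat.zero_le _), hbod _, t, ht, ht'⟩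

end Pool.Agent.CR
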