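import Pool.Agent.Lib.MP_72b52d_lc.CR.Reflect
import Pool.Agent.Lib.MP_72b52d_lc.CR.Read

/-!
# MP_72b52d_lc : one translation works for all codes
-/

namespace Pool.Agent.CR

variable {I : Type} [LinearOrder I] [WellFoundedLT I] [OrderBot I] [OrderTop I]

/-- `R`, translated by `tt (z α) + ρ`, is non-meagre in `Kset` below `q` -/
def NonK (R : Cond I → ((I → Y) → ℝ) → Prop) (α : I) (ρ : ℚ) (q : Cond I) : Prop :=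
  ∀ q1 ≤ q, Low ⊤ q1 → ∀ X, MC ⊤ X → (∀ n z, Kset ⊆ closure (Kset ∩ Op X n z)) →
    ∃ q2 ≤ q1, Low ⊤ q2 ∧ ∃ f, MR ⊤ f ∧ R q2 f ∧ ∀ z ∈ Bod q2,
      f z + tt (z α) + ρ ∈ Kset ∧ ∀ n, f z + tt (z α) + ρ ∈ Op X n z

theorem mixing (hI : BigIx I) (hbt : (⊥ : I) < ⊤) {R : Cond I → ((I → Y) → ℝ) → Prop}
    (hR : ∀ q f q', R q f → q' ≤ q → R q' f) {p : Cond I} (hp : Low ⊤ p) (hN : NonM R p) :
    ∃ α < (⊤ : I), ∀ q ≤ p, Low ⊤ q → ∃ q' ≤ q, Low ⊤ q' ∧ ∃ ρ : ℚ, NonK R α ρ q' := by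
  classical
  obtain ⟨α, hα, hr⟩ := reflect hI hbt hR hp hN
  refine ⟨α, hα, fun q hqp hq => ?_⟩
  by_contra hc
  let Bad : ℚ → (ℕ → ℚ → ℚ → Set (I → Y)) → Cond I → Prop := fun ρ X q1 =>
    MC ⊤ X ∧ (∀ n z, Kset ⊆ closure (Kset ∩ Op X n z)) ∧
      ∀ q2 ≤ q1, Low ⊤ q2 → ∀ f, MR ⊤ f → R q2 f →
        ¬ ∀ z ∈ Bod q2, f z + tt (z α) + ρ ∈ Kset ∧ ∀ n, f z + tt (z α) + ρ ∈ Op X n z
  obtain ⟨p', hp', s, g, hs, hg, hsg⟩ := readP (⟨q, hq⟩ : PC I) (ι := ℚ)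
    (fun ρ => {r | ∃ X, Bad ρ X r.1}) (by
      intro ρ q' hq'
      by_contra hno
      refine hc ⟨q'.1, hq', q'.2, ρ, fun q1 h2 h3 X h4 h5 => ?_⟩
      by_contra hno2
      refine hno ⟨⟨q1, h3⟩, h2, X, h4, h5, fun q2 h7 h8 f h9 h10 h11 => ?_⟩
      exact hno2 ⟨q2, h7, h8, f, h9, h10, h11⟩)
  choose X hX1 hX2 hX3 using hs
  let W : ℚ → ℕ → ℚ → ℚ → Set (I → Y) := fun ρ n a b => {z | z ∈ X ρ (g ρ z) n a b}
  have hW : ∀ ρ, MC ⊤ (W ρ) := fun ρ n a b =>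
    MS.subst (g := g ρ) (hg ρ) (R := fun z k => z ∈ X ρ k n a b) fun k => hX1 ρ k n a b
  have hOp : ∀ ρ n z, Op (W ρ) n z = Op (X ρ (g ρ z)) n z := fun _ _ _ => rfl
  obtain ⟨q', h1, h2, f, h3, h4, ρ, h5⟩ := hr p'.1 (fun z hz => hqp (hp' hz)) p'.2 W hW
    (fun ρ n z => by rw [hOp]; exact hX2 _ _ _ _)
  obtain ⟨q'', h6, h7, k, h8⟩ := dec_nat h2 (ι := ℕ) (fun k => {z | g ρ z = k}) (hg ρ)
    (fun z _ => ⟨_, rfl⟩)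
  refine hX3 ρ k q'' (fun z hz => ?_) h7 f h3 (hR _ _ _ h4 h6) fun z hz => ?_
  · have h9 := hsg z (h1 (h6 hz)) ρ
    rwa [show g ρ z = k from h8 hz] at h9
  · have h9 := h5 z (h6 hz)
    refine ⟨h9.1, fun n => ?_⟩
    have h10 := h9.2 n
    rwa [hOp, show g ρ z = k from h8 hz] at h10

/-- the code is relatively dense in `Kset` at `z` -/
def KDen (W : ℕ → ℚ → ℚ → Set (I → Y)) (z : I → Y) : Prop :=
  ∀ n, ∀ a b : ℚ, (Set.Ioo (a : ℝ) b ∩ Kset).Nonempty →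
    ∃ c d : ℚ, (a ≤ c ∧ d ≤ b ∧ (Set.Ioo (c : ℝ) d ∩ Kset).Nonempty) ∧ z ∈ W n c d

/-- make the code dense -/
def fixK (W : ℕ → ℚ → ℚ → Set (I → Y)) (n : ℕ) (a b : ℚ) : Set (I → Y) :=
  {z | z ∈ W n a b ∨ ¬ KDen W z}

omit [WellFoundedLT I] [OrderBot I] in
theorem fixK_mc {W : ℕ → ℚ → ℚ → Set (I → Y)} (hW : MC ⊤ W) : MC ⊤ (fixK W) := fun n a b =>
  (hW n a b).or (MS.not (MS.all fun n => MS.all fun a => MS.all fun b => MS.all fun _ =>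
    MS.ex fun c => MS.ex fun d => (MS.const _ _).and (hW n c d)))

omit [LinearOrder I] [WellFoundedLT I] [OrderBot I] [OrderTop I] in
theorem fixK_dense (W : ℕ → ℚ → ℚ → Set (I → Y)) (n : ℕ) (z : I → Y) :
    Kset ⊆ closure (Kset ∩ Op (fixK W) n z) := by
  intro x hx
  rw [Metric.mem_closure_iff]
  intro ε hε
  by_cases h : KDen W z
  · obtain ⟨a, ha1, ha2⟩ := exists_rat_btwn (show x - ε < x by linarith)
    obtain ⟨b, hb1, hb2⟩ := exists_rat_btwn (show x < x + ε by linarith)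
    obtain ⟨c, d, ⟨h1, h2, y, ⟨h3, h4⟩, h5⟩, h6⟩ := h n a b ⟨x, ⟨ha2, hb1⟩, hx⟩
    refine ⟨y, ⟨h5, c, d, Or.inl h6, h3, h4⟩, ?_⟩
    have h7 : (a : ℝ) ≤ c := by exact_mod_cast h1
    have h8 : (d : ℝ) ≤ b := by exact_mod_cast h2
    rw [Real.dist_eq, abs_lt]
    constructor <;> linarith
  · obtain ⟨a, ha⟩ := exists_rat_lt x
    obtain ⟨b, hb⟩ := exists_rat_gt x
    exact ⟨x, ⟨hx, a, b, Or.inr h, ha, hb⟩, by simpa using hε⟩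

end Pool.Agent.CR
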