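import Pool.Agent.Lib.MP_72b52d_lc.CR.Stmt

/-!
# MP_72b52d_lc : names and the forcing relation for an arbitrary partial order (definitions)
-/

namespace Pool.Agent.CR

/-- names for the partial order `P` -/
inductive Nm (P : Type) : Type 1
  | mk (α : Type) (A : α → Nm P) (c : α → P) : Nm P

namespace Nm
variable {P : Type}

/-- the index type of a name -/
def Ix : Nm P → Type
  | mk α _ _ => α

/-- the elements of a name -/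
def fn : (τ : Nm P) → τ.Ix → Nm P
  | mk _ A _ => A

/-- the conditions of a name -/
def cd : (τ : Nm P) → τ.Ix → P
  | mk _ _ c => c

/-- the empty name -/
def emp : Nm P := mk Empty Empty.elim Empty.elim

end Nm

variable {P : Type} [Preorder P]

/-- `Eqf σ τ p` : the condition `p` forces `σ = τ` -/
def Eqf : Nm P → Nm P → P → Prop
  | .mk α A c, .mk β B d => fun p =>
    (∀ a : α, ∀ q ≤ p, q ≤ c a → ∃ r ≤ q, ∃ b : β, r ≤ d b ∧ Eqf (A a) (B b) r) ∧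
    (∀ b : β, ∀ q ≤ p, q ≤ d b → ∃ r ≤ q, ∃ a : α, r ≤ c a ∧ Eqf (A a) (B b) r)

/-- `Memf σ τ p` : the condition `p` forces `σ ∈ τ` -/
def Memf (σ τ : Nm P) (p : P) : Prop :=
  ∀ q ≤ p, ∃ r ≤ q, ∃ b : τ.Ix, r ≤ τ.cd b ∧ Eqf σ (τ.fn b) r

/-- `Fr φ v p` : the condition `p` forces `φ(v)` -/
def Fr : Fml → (ℕ → Nm P) → P → Prop
  | .bot, _, _ => False
  | .mem i j, v, p => Memf (v i) (v j) p
  | .eq i j, v, p => Eqf (v i) (v j) p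
  | .imp φ ψ, v, p => ∀ q ≤ p, Fr φ v q → Fr ψ v q
  | .all φ, v, p => ∀ σ, Fr φ (cons σ v) p

/-- negation -/
def Fml.neg (φ : Fml) : Fml := .imp φ .bot

/-- the assignment given by a list of names -/
def asg (l : List (Nm P)) : ℕ → Nm P := fun n => l.getD n Nm.emp

/-- `H` is a set of names and `Q` is a set of conditions closed under the choice of witnesses -/
structure Hull (H : Set (Nm P)) (Q : Set P) : Prop where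
  emp : Nm.emp ∈ H
  wit : ∀ (φ : Fml) (l : List (Nm P)), (∀ σ ∈ l, σ ∈ H) → ∀ q ∈ Q,
    (∃ σ, Fr φ (cons σ (asg l)) q) → ∃ σ ∈ H, Fr φ (cons σ (asg l)) q
  mem : ∀ σ ∈ H, ∀ τ ∈ H, ∀ q ∈ Q, (∃ b : τ.Ix, q ≤ τ.cd b ∧ Eqf σ (τ.fn b) q) →
    ∃ b : τ.Ix, τ.fn b ∈ H ∧ τ.cd b ∈ Q ∧ q ≤ τ.cd b ∧ Eqf σ (τ.fn b) q
  ne : ∀ σ ∈ H, ∀ τ ∈ H, ∀ q ∈ Q, (∃ b : τ.Ix, q ≤ τ.cd b ∧ ∀ r ≤ q, ¬ Memf (τ.fn b) σ r) →
    ∃ b : τ.Ix, τ.fn b ∈ H ∧ τ.cd b ∈ Q ∧ q ≤ τ.cd b ∧ ∀ r ≤ q, ¬ Memf (τ.fn b) σ r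

/-- the dense sets needed for the truth lemma -/
inductive Dset (H : Set (Nm P)) : Set P → Prop
  | dec (φ : Fml) (l : List (Nm P)) (hl : ∀ σ ∈ l, σ ∈ H) :
      Dset H {p | Fr φ (asg l) p ∨ Fr φ.neg (asg l) p}
  | all (φ : Fml) (l : List (Nm P)) (hl : ∀ σ ∈ l, σ ∈ H) :
      Dset H {p | Fr (.all φ) (asg l) p ∨ ∃ σ, Fr φ.neg (cons σ (asg l)) p}
  | mem (σ τ : Nm P) (hσ : σ ∈ H) (hτ : τ ∈ H) :
      Dset H {p | (∃ b : τ.Ix, p ≤ τ.cd b ∧ Eqf σ (τ.fn b) p) ∨ ∀ r ≤ p, ¬ Memf σ τ r}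
  | eq (σ τ : Nm P) (hσ : σ ∈ H) (hτ : τ ∈ H) :
      Dset H {p | Eqf σ τ p ∨ (∃ b : τ.Ix, p ≤ τ.cd b ∧ ∀ r ≤ p, ¬ Memf (τ.fn b) σ r) ∨
        (∃ a : σ.Ix, p ≤ σ.cd a ∧ ∀ r ≤ p, ¬ Memf (σ.fn a) τ r)}

/-- `G` is a generic filter for the hull `H, Q` -/
structure GenF (H : Set (Nm P)) (Q : Set P) (G : Set P) : Prop where
  sub : G ⊆ Q
  nonempty : G.Nonempty
  up : ∀ p ∈ G, ∀ q ∈ Q, p ≤ q → q ∈ G
  dir : ∀ p ∈ G, ∀ q ∈ G, ∃ r ∈ G, r ≤ p ∧ r ≤ q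
  meets : ∀ D, Dset H D → ∃ p ∈ G, p ∈ D

/-- evaluation of names -/
noncomputable def val (H : Set (Nm P)) (G : Set P) : Nm P → V
  | .mk α A c => ZFSet.range (fun a : {a : α // A a ∈ H ∧ c a ∈ G} => val H G (A a.1))

/-- the model given by the hull `H` and the filter `G` -/
noncomputable def Mod (H : Set (Nm P)) (G : Set P) : Set V := val H G '' H

end Pool.Agent.CR
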