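import Pool.Agent.Lib.MP_72b52d_lc.CR.Sharp
import Pool.Agent.Lib.MP_72b52d_lc.CR.Digits

/-!
# MP_72b52d_lc : the pruning step
-/

namespace Pool.Agent.CR

variable {I : Type} [LinearOrder I]

/-- the set of all pairs -/
def Full (i : Fin 3) (α : I) : Set (Cond I × List ℕ) := {x | Low α x.1 ∧ x.2 ∈ TrI i}

theorem Full_dense (i : Fin 3) (α : I) : Dn α (TrI i) (Full i α) where
  sub _ _ h := h
  opn _ _ _ _ _ h1 _ _ h4 := ⟨h1, h4⟩
  dns q s h1 h2 := ⟨q, s, le_rfl, List.prefix_rfl, h1, h2⟩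

/-- closure of `M` for the pruning step -/
structure SuitX (M : Set (Ob I)) : Prop where
  full : ∀ i α, .o α ∈ M → .d (Full i α) ∈ M
  sh : ∀ α α' n r τ ρ D, .o α ∈ M → .o α' ∈ M → .c r ∈ M → .d D ∈ M →
    .d (Sh α α' n r τ ρ D) ∈ M
  wit : ∀ α α' n r τ ρ D q s a τ' w' u, .o α ∈ M → .o α' ∈ M → .c r ∈ M → .d D ∈ M → .c q ∈ M →
    (∃ r', SR α α' n r τ ρ D q s a τ' w' u r') →
    ∃ r', .c r' ∈ M ∧ SR α α' n r τ ρ D q s a τ' w' u r'

open Classical in
/-- the operations for `SuitX` -/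
noncomputable def SharpOp : List (Ob I) → Set (Ob I)
  | [.o α] => Set.range (fun i => .d (Full i α))
  | [.o α, .o α', .c r, .d D] => Set.range (fun x : ℕ × Node × W => .d (Sh α α' x.1 r x.2.1 x.2.2 D))
  | [.o α, .o α', .c r, .d D, .c q] =>
      Set.range (fun x : (ℕ × Node × W) × List ℕ × W × Node × W × List ℕ =>
      if h : (∃ r', SR α α' x.1.1 r x.1.2.1 x.1.2.2 D q x.2.1 x.2.2.1 x.2.2.2.1 x.2.2.2.2.1
        x.2.2.2.2.2 r') then .c h.choose else .c q)
  | _ => ∅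

theorem SharpOp_countable (l : List (Ob I)) : (SharpOp l).Countable := by
  unfold SharpOp
  split
  · exact Set.countable_range _
  · exact Set.countable_range _
  · exact Set.countable_range _
  · exact Set.countable_empty

theorem SuitX.of_op {M : Set (Ob I)}
    (h : ∀ l : List (Ob I), (∀ x ∈ l, x ∈ M) → SharpOp l ⊆ M) : SuitX M where
  full i α hα := h [.o α] (by simp [hα]) ⟨i, rfl⟩
  sh α α' n r τ ρ D h1 h2 h3 h4 := h [.o α, .o α', .c r, .d D] (by simp [h1, h2, h3, h4])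
    ⟨(n, τ, ρ), rfl⟩
  wit α α' n r τ ρ D q s a τ' w' u h1 h2 h3 h4 h5 hr' := by
    classical
    refine ⟨hr'.choose, h [.o α, .o α', .c r, .d D, .c q] (by simp [h1, h2, h3, h4, h5])
      ⟨((n, τ, ρ), s, a, τ', w', u), ?_⟩, hr'.choose_spec⟩
    exact dif_pos hr'

variable [WellFoundedLT I] [OrderBot I]

theorem prune {M : Set (Ob I)} (hM : Suit M) (hX : SuitX M) {α α' : I} (hα : .o α ∈ M)
    (hα' : .o α' ∈ M) (hs : α ⋖ α') {E : Set (I → Y)} (hE : MS α E)
    {x : (I → Y) → ℕ → ℕ} (mx : ∀ i d, MS α {z | x z i = d})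
    {q : Cond I} (hqM : .c q ∈ M) (hq : Low α' q) {τ0 : Node} {w0 : W}
    (h : ∀ z ∈ E, z ∈ BodB q α ∧
      Gen M 1 α z {s | s ∈ TrI 1 ∧ ∀ i < s.length, x z i = s.getD i 0} ∧
      τ0 ∈ q.C α z ∧ FtI 4 τ0.flatten.length (SucA q α τ0 z) w0 ∧
      Good (x z) (dgn (τ0.flatten ++ w0)) (τ0.flatten.length + w0.length)) :
    ∃ c : Cond I, ∀ z ∈ E, (∀ n, pre (z α) n ∈ c.C α z) → z ∈ Bod q ∧
      GenB M 2 α' z {u | u ∈ TrI 2 ∧ ∀ i < u.length, sm (x z) (td (z α)) i = u.getD i 0} q ∧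
      (∀ i, (x z i + td (z α) i) % bs i ≠ bs i - 1) ∧ sm (x z) (td (z α)) ∈ KD ∧
      (∀ i < τ0.flatten.length + w0.length, td (z α) i = dgn (τ0.flatten ++ w0) i) := by
  classical
  obtain ⟨e, he, he'⟩ := hM.enum
  -- enumeration of the dense sets
  obtain ⟨dd, hdd⟩ : ∃ dd : ℕ → Set (Cond I × List ℕ),
      Set.range dd = {D | .d D ∈ M ∧ Dn α' (TrI 2) D} := by
    have h1 : {D : Set (Cond I × List ℕ) | .d D ∈ M ∧ Dn α' (TrI 2) D}.Countable := by
      have : {D : Set (Cond I × List ℕ) | .d D ∈ M}.Countable := by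
        refine hM.cnt.preimage_of_injOn ?_
        intro p _ q _ h
        simpa using h
      exact this.mono fun _ h => h.1
    obtain ⟨dd, hdd⟩ := h1.exists_eq_range ⟨Full 2 α', hX.full _ _ hα', Full_dense _ _⟩
    exact ⟨dd, hdd.symm⟩
  have hdd1 : ∀ n, .d (dd n) ∈ M ∧ Dn α' (TrI 2) (dd n) := by
    intro n
    have : dd n ∈ {D | .d D ∈ M ∧ Dn α' (TrI 2) D} := by rw [← hdd]; exact ⟨n, rfl⟩
    exact this
  have hdd2 : ∀ D, .d D ∈ M → Dn α' (TrI 2) D → ∃ n, dd n = D := by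
    intro D h1 h2
    have : D ∈ Set.range dd := by rw [hdd]; exact ⟨h1, h2⟩
    exact this
  have hlt : α < α' := hs.1
  obtain ⟨k0, hk0⟩ := he' q hqM
  -- digits of `x` against a string depend measurably on the point
  have mG : ∀ (d : ℕ → ℕ) (m : ℕ), MS α {z | Good (x z) d m} := by
    intro d m
    have : {z | Good (x z) d m} = {z | ∃ s : List ℕ, (s.length = m ∧
        Good (fun i => s.getD i 0) d m) ∧ ∀ i : Fin m, x z i = s.getD i 0} := by
      ext z
      constructor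
      · intro hg
        refine ⟨(List.range m).map (x z), ⟨by simp, ?_⟩, ?_⟩
        · refine hg.congr (fun i hi => ?_) fun _ _ => rfl
          rw [List.getD_eq_getElem _ _ (by simpa using hi)]; simp
        · intro i
          rw [List.getD_eq_getElem _ _ (by simp)]; simp
      · rintro ⟨s, ⟨rfl, h2⟩, h3⟩
        exact h2.congr (fun i hi => (h3 ⟨i, hi⟩).symm) fun _ _ => rfl
    rw [this]
    exact MS.ex fun s => (MS.const _ _).and (MS.all fun i => mx _ _)
  have mS : ∀ (d : ℕ → ℕ) (i v : ℕ), MS α {z | sm (x z) d i = v} := by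
    intro d i v
    have : {z | sm (x z) d i = v} = {z | ∃ a b : ℕ, x z i = a ∧ x z (i + 1) = b ∧
        (a + d i) % bs i + (if bs (i + 1) ≤ b + d (i + 1) then 1 else 0) = v} := by
      ext z
      constructor
      · intro h; exact ⟨_, _, rfl, rfl, h⟩
      · rintro ⟨a, b, rfl, rfl, h⟩; exact h
    rw [this]
    exact MS.ex fun a => MS.ex fun b => (mx _ _).and ((mx _ _).and (MS.const _ _))
  -- the states
  let nd : ℕ × Node × W → Node := fun s => s.2.1
  let ln : ℕ × Node × W → ℕ := fun s => s.2.1.flatten.length + s.2.2.length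
  let Lg : ℕ → (I → Y) → ℕ × Node × W → Prop := fun n z s =>
    (Low α' (e s.1) ∧ n ≤ ln s) ∧ z ∈ BodB (e s.1) α ∧ s.2.1 ∈ (e s.1).C α z ∧
      FtI (n + 4) s.2.1.flatten.length (SucA (e s.1) α s.2.1 z) s.2.2 ∧
      Good (x z) (dgn (s.2.1.flatten ++ s.2.2)) (ln s)
  let Nx : ℕ → (I → Y) → ℕ × Node × W → W → ℕ × Node × W → Prop := fun n z s a s' =>
    (Low α' (e s'.1) ∧ e s'.1 ≤ e s.1 ∧ s.2.1 ++ [a] <+: s'.2.1 ∧ s.2.2 <+: a ∧ ln s < ln s') ∧
      s.2.1 ++ [a] ∈ (e s.1).C α z ∧ z ∈ BodB (e s'.1) α ∧ s'.2.1 ∈ (e s'.1).C α z ∧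
      FtI (n + 5) s'.2.1.flatten.length (SucA (e s'.1) α s'.2.1 z) s'.2.2 ∧
      Good (x z) (dgn (s'.2.1.flatten ++ s'.2.2)) (ln s') ∧
      ∃ u : List ℕ, ((e s'.1, u) ∈ dd n ∧ u.length + 1 < ln s') ∧
        ∀ i : Fin u.length, sm (x z) (dgn (s'.2.1.flatten ++ s'.2.2)) i = u.getD i 0
  have mNx : ∀ n s w s', MS α {z | Nx n z s w s'} := by
    intro n s w s'
    exact (MS.const _ _).and (((e s.1).meas α _).and ((BodB_ms _ _).and
      (((e s'.1).meas α _).and ((FtI_ms (fun w => SucA_ms _ α _ w) _ _ _).and ((mG _ _).and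
        (MS.ex fun u => (MS.const _ _).and (MS.all fun i => mS _ _ _)))))))
  obtain ⟨T, hT1, hT2, hT3⟩ := fusion hE nd Lg Nx (fun _ => (k0, τ0, w0)) mNx
    (fun s => MS.const _ _)
    (by
      intro z hz
      obtain ⟨a1, a2, a3, a4, a5⟩ := h z hz
      refine ⟨⟨?_, Nat.zero_le _⟩, ?_, ?_, ?_, a5⟩
      · show Low α' (e k0); rw [hk0]; exact hq
      · show z ∈ BodB (e k0) α; rw [hk0]; exact a1
      · show τ0 ∈ (e k0).C α z; rw [hk0]; exact a3
      · show FtI 4 τ0.flatten.length (SucA (e k0) α τ0 z) w0; rw [hk0]; exact a4)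
    (by
      rintro z hz n ⟨k, τ, w⟩ ⟨⟨a1, a1'⟩, a2, a3, a4, a5⟩
      have a1 : Low α' (e k) := a1
      have a2 : z ∈ BodB (e k) α := a2
      have a3 : τ ∈ (e k).C α z := a3
      have a4 : FtI (n + 4) τ.flatten.length (SucA (e k) α τ z) w := a4
      have a5 : Good (x z) (dgn (τ.flatten ++ w)) (τ.flatten.length + w.length) := a5
      have hgen := (h z hz).2.1
      refine ⟨w, FtI_of_succ {ρ | w <+: ρ ∧ FtI (n + 4) τ.flatten.length (SucA (e k) α τ z) ρ ∧
        Good (x z) (dgn (τ.flatten ++ ρ)) (τ.flatten.length + ρ.length)} ?_ ?_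
        ⟨List.prefix_rfl, a4, a5⟩⟩
      · -- exits
        rintro ρ ⟨b1, b2, b3⟩
        obtain ⟨p, c1, c2, c3, s, ⟨hs1, hs2⟩, c4⟩ := hgen (res (e k) α) (hM.res _ _ (he k) hα)
          (low_res _ _) (by rw [Bod_res]; exact a2) (Sh α α' n (e k) τ ρ (dd n))
          (hX.sh _ _ _ _ _ _ _ hα hα' (he k) (hdd1 n).1)
          (Sh_dense hlt n a1 τ ρ (hdd1 n).2)
        obtain ⟨d1, d2, d3⟩ := c4
        rcases d3 with d3 | d3 | d3 | ⟨a, τ', w', u, d3⟩
        · exact absurd ⟨p, d1, le_rfl, c2⟩ d3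
        · exact absurd b2 (Set.disjoint_left.1 d3 c3)
        · exact absurd (b3.congr (fun i hi => hs2 i (hi.trans_le d3.1)) fun _ _ => rfl) d3.2
        · obtain ⟨r', f1, ⟨g1, g2, g3, g4⟩, g5, g6, g7, g8, g9, g10, g11, g12⟩ :=
            hX.wit α α' n (e k) τ ρ (dd n) p s a τ' w' u hα hα' (he k) (hdd1 n).1 c1 d3
          obtain ⟨k', rfl⟩ := he' r' f1
          refine ⟨a, ⟨(k', τ', w'), ⟨g1, g2, g6, b1.trans g4, ?_⟩, (g5 z c3).1, ?_, (g5 z c3).2.1,
            (g5 z c3).2.2, ?_, u, ⟨g10, g11⟩, fun i => ?_⟩, g4⟩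
          · have := b1.length_le
            show τ.flatten.length + w.length < τ'.flatten.length + w'.length
            omega
          · have := g3 c3
            rwa [Bod_res] at this
          · exact g9.congr (fun i hi => (hs2 i (hi.trans_le g8)).symm) fun _ _ => rfl
          · rw [← g12 i i.2]
            exact sm_congr (hs2 _ (by omega)) (hs2 _ (by omega)) rfl rfl
      · -- successors
        rintro ρ ⟨b1, b2, b3⟩
        obtain ⟨D, c1, c2, c3⟩ := b2.good_step rfl b3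
        refine ⟨D, c1, by omega, fun d hd => ?_⟩
        exact ⟨b1.trans (List.prefix_append _ _), (c3 d hd).1, (c3 d hd).2⟩)
    (by
      rintro z hz n ⟨k, τ, w⟩ a ⟨k', τ', w'⟩ ⟨⟨_, a0⟩, _⟩ ⟨⟨b1, b2, b3, b4, b5⟩, b6, b7, b8, b9,
        b10, _⟩
      refine ⟨⟨⟨b1, ?_⟩, b7, b8, b9, b10⟩, b3⟩
      have : ln (k, τ, w) < ln (k', τ', w') := b5
      have : n ≤ ln (k, τ, w) := a0
      omega)
  refine ⟨setC (one I) α T hT1 hT2, fun z hz hy => ?_⟩
  have hy' : ∀ n, pre (z α) n ∈ T z := by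
    intro n
    have := hy n
    rwa [setC_eq] at this
  obtain ⟨s, hs0, hs'⟩ := hT3 z hz (z α) hy'
  have hdec : ∀ m n, m ≤ n → e (s n).1 ≤ e (s m).1 := by
    intro m n hmn
    induction n, hmn using Nat.le_induction with
    | base => exact le_rfl
    | succ n _ ih =>
      obtain ⟨_, w, hw, _⟩ := hs' n
      exact hw.1.2.1.trans ih
  have hnd : ∀ n, (s n).2.1 = pre (z α) (s n).2.1.length := by
    intro n
    obtain ⟨_, w, _, hw⟩ := hs' n
    have h1 : (s n).2.1 <+: pre (z α) ((s n).2.1.length + 1) := by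
      have hw' : (s n).2.1 ++ [w] = pre (z α) ((s n).2.1.length + 1) := hw
      rw [← hw']; exact List.prefix_append _ _
    exact prefix_pre _ _ h1
  have hlen : ∀ n, n ≤ (s n).2.1.length := by
    intro n
    induction n with
    | zero => exact Nat.zero_le _
    | succ n ih =>
      obtain ⟨_, w, hw, _⟩ := hs' n
      have := hw.1.2.2.1.length_le
      simp only [List.length_append, List.length_cons, List.length_nil] at this
      omega
  have hbod : ∀ n, z ∈ Bod (e (s n).1) := by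
    intro n
    rw [Bod_of_low (hs' n).1.1.1]
    intro ξ hξ m
    rcases lt_or_eq_of_le (hs.le_of_lt hξ) with h1 | rfl
    · exact (hs' n).1.2.1 ξ h1 m
    · have h1 := (hs' (max n m)).1
      have h2 : (s (max n m)).2.1 ∈ (e (s n).1).C ξ z :=
        C_mono (hdec _ _ (le_max_left n m)) h1.2.1 h1.2.2.1
      refine ((e (s n).1).pos ξ z).closed _ _ ?_ h2
      rw [hnd (max n m)]
      exact pre_prefix _ ((le_max_right n m).trans (hlen _))
  -- the digits of `td`
  have hln : ∀ n, n ≤ ln (s n) := fun n => (hs' n).1.1.2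
  have htd : ∀ n, ∀ i < ln (s n), td (z α) i = dgn ((s n).2.1.flatten ++ (s n).2.2) i := by
    intro n i hi
    obtain ⟨_, a, hw, hw2⟩ := hs' n
    have h1 : (s n).2.1 ++ [a] = pre (z α) ((s n).2.1.length + 1) := hw2
    have h2 : (s n).2.2 <+: a := hw.1.2.2.2.1
    have h3 : (s n).2.1.flatten ++ (s n).2.2 <+: (pre (z α) ((s n).2.1.length + 1)).flatten := by
      rw [← h1]
      simp only [List.flatten_append, List.flatten_cons, List.flatten_nil, List.append_nil]
      exact (List.prefix_append_right_inj _).2 h2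
    have h4 : i < ((s n).2.1.flatten ++ (s n).2.2).length := by
      simp only [List.length_append]; exact hi
    rw [td_eq (hi.trans_le (by simpa [ln] using h3.length_le) : i <
      (pre (z α) ((s n).2.1.length + 1)).flatten.length)]
    exact dgn_prefix h3 h4
  have hgood : ∀ n, Good (x z) (td (z α)) (ln (s n)) := fun n =>
    (hs' n).1.2.2.2.2.congr (fun _ _ => rfl) fun i hi => (htd n i hi).symm
  have hq0 : e (s 0).1 = q := by rw [hs0]; exact hk0
  refine ⟨by rw [← hq0]; exact hbod 0, ?_, ?_, ?_, ?_⟩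
  · intro D hD hDn
    obtain ⟨n, rfl⟩ := hdd2 D hD hDn
    obtain ⟨_, a, hw, _⟩ := hs' n
    obtain ⟨u, ⟨hu1, hu2⟩, hu3⟩ := hw.2.2.2.2.2.2
    refine ⟨_, he _, by rw [← hq0]; exact hdec 0 (n + 1) (Nat.zero_le _), hbod _, u,
      ⟨(hDn.sub _ _ hu1).2, fun i hi => ?_⟩, hu1⟩
    rw [← hu3 ⟨i, hi⟩]
    exact sm_congr rfl rfl (htd (n + 1) i (by omega)) (htd (n + 1) (i + 1) (by omega))
  · intro i
    exact (hgood (i + 1)).ne i (by have := hln (i + 1); omega)
  · intro i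
    have h1 := hln (i + 2)
    exact ⟨(hgood (i + 2)).lo i (by omega), (hgood (i + 2)).hi i (by omega)⟩
  · intro i hi
    have := htd 0 i (by rw [hs0]; exact hi)
    rw [hs0] at this
    exact this

end Pool.Agent.CR
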