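import Pool.Agent.Lib.MP_72b52d_lc.CR.Cohen
import Pool.Agent.Lib.MP_72b52d_lc.CR.Closing

/-!
# MP_72b52d_lc : the main lemma
-/

namespace Pool.Agent.CR

variable {I : Type} [LinearOrder I] [WellFoundedLT I] [OrderBot I] [OrderTop I]

theorem core {α α' : I} (hs : α ⋖ α') {R : Cond I → ((I → Y) → ℝ) → Prop}
    (hR : ∀ q f q', R q f → q' ≤ q → R q' f) {p : Cond I} (hp : Low α p)
    (hΦ : ∀ q ≤ p, Low α q → ∀ U, MC α U → (∀ n z, Dense (Op U n z)) →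
      ∃ q' ≤ q, Low α q' ∧ ∃ f, MR α f ∧ R q' f ∧ ∀ z ∈ Bod q', ∀ n, f z ∈ Op U n z)
    {q : Cond I} (hqp : q ≤ p) (hq : Low ⊤ q) {X : ℚ → ℕ → ℚ → ℚ → Set (I → Y)}
    (hXm : ∀ ρ, MC ⊤ (X ρ)) (hXd : ∀ ρ n z, Kset ⊆ closure (Kset ∩ Op (X ρ) n z)) :
    ∃ q' ≤ q, Low ⊤ q' ∧ ∃ f, MR ⊤ f ∧ R q' f ∧ ∃ ρ : ℚ, ∀ z ∈ Bod q',
      f z + tt (z α) + ρ ∈ Kset ∧ ∀ n, f z + tt (z α) + ρ ∈ Op (X ρ) n z := by
  classical
  -- the countable set of objects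
  obtain ⟨M, hA, hM, hop⟩ := exists_suit (fun l => SharpOp l ∪ ProjOp l)
    (fun l => (SharpOp_countable l).union (ProjOp_countable l))
    ({.o ⊥, .o α, .o α', .o ⊤, .c q} ∪
      Set.range (fun x : ℚ × ℕ => (.d (DV (X x.1) x.2) : Ob I)))
    (Set.Countable.union (by simp) (Set.countable_range _))
  have hX : SuitX M := SuitX.of_op fun l hl => Set.subset_union_left.trans (hop l hl)
  have hP : SuitP M := SuitP.of_op fun l hl => Set.subset_union_right.trans (hop l hl)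
  have hob : .o ⊥ ∈ M := hA (Or.inl (by simp))
  have hoα : .o α ∈ M := hA (Or.inl (by simp))
  have hoα' : .o α' ∈ M := hA (Or.inl (by simp))
  have hot : .o ⊤ ∈ M := hA (Or.inl (by simp))
  have hcq : .c q ∈ M := hA (Or.inl (by simp))
  have hDV : ∀ ρ n, .d (DV (X ρ) n) ∈ M := fun ρ n => hA (Or.inr ⟨(ρ, n), rfl⟩)
  have hα : α < ⊤ := hs.1.trans_le le_top
  -- the first part of the generic condition
  obtain ⟨c0, hc0⟩ := kl hM hoα 0 ⊥ bot_le hob Set.univ (MS.univ _) (fun _ => {[]})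
    (fun s => MS.const _ _) (fun _ => res q α) (fun r => (MS.univ _).and (MS.const _ _))
    (fun z _ => ⟨hM.res _ _ hcq hoα, low_res _ _, fun ξ hξ => absurd hξ not_lt_bot, Gen_bot hM z⟩)
  have hq1 : ∀ z ∈ Bod (res c0 α), z ∈ Bod (res q α) ∧ Gen M 0 α z {[]} := by
    intro z hz
    rw [Bod_res] at hz
    obtain ⟨h1, h2⟩ := hc0 z trivial (fun ξ _ hξ n => hz ξ hξ n)
    exact ⟨h1, h2.gen hM hoα (dec α)⟩
  have hq1p : res c0 α ≤ p := fun z hz => by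
    have h2 := res_mono hqp α (hq1 z hz).1
    rwa [res_eq_self hp] at h2
  -- the Cohen real
  obtain ⟨U, hU1, hU2, hU3⟩ := cohen hM hP hoα (low_res c0 α) (fun z hz => (hq1 z hz).2)
  obtain ⟨q2, h21, h22, f, hf, hRf, hfU⟩ := hΦ (res c0 α) hq1p (low_res _ _) U hU1 hU2
  have hC : ∀ z ∈ Bod q2, ∀ t ∈ TrI 1,
      Gen M 1 α z {s | s ∈ TrI 1 ∧ ∀ i < s.length, modd t (dgt (f z)) i = s.getD i 0} :=
    fun z hz t ht => hU3 z (h21 hz) (f z) (hfU z hz) t ht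
  -- fix the first digits
  obtain ⟨q3, h31, h32, ⟨τ0, w0, δ, k1⟩, h33⟩ := dec_nat h22 (ι := Node × W × List ℕ × ℤ)
    (fun x => {z | 1 ≤ x.1.flatten.length ∧ x.1 ∈ q.C α z ∧
      FtI 4 x.1.flatten.length (SucA q α x.1 z) x.2.1 ∧
      (∀ i : Fin (x.1.flatten.length + x.2.1.length), dgt (f z) i = x.2.2.1.getD i 0) ∧
      ⌊f z⌋ = x.2.2.2})
    (fun x => (MS.const _ _).and ((q.meas α _).and ((FtI_ms (fun w => SucA_ms q α _ w) _ _ _).and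
      ((MS.all fun i => hf.dgt _ _).and (hf.floor _)))))
    (by
      intro z hz
      obtain ⟨τ1, a1, _, a3⟩ := (q.pos α z).long (q.pos α z).nil 1
      obtain ⟨τ, b1, b2, w, b3⟩ := (q.pos α z).big τ1 a1 4
      refine ⟨(τ, w, (List.range (τ.flatten.length + w.length)).map (dgt (f z)), ⌊f z⌋),
        ?_, b1, b3, ?_, rfl⟩
      · exact a3.trans (flatten_prefix b2).length_le
      · intro i
        have hi : (i : ℕ) < ((List.range (τ.flatten.length + w.length)).map (dgt (f z))).length := by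
          rw [List.length_map, List.length_range]; exact i.2
        show dgt (f z) i = ((List.range (τ.flatten.length + w.length)).map (dgt (f z))).getD i 0
        rw [List.getD_eq_getElem _ _ hi]
        simp)
  obtain ⟨m0, hm0⟩ : ∃ m0, m0 = τ0.flatten.length + w0.length := ⟨_, rfl⟩
  have hm1 : 1 ≤ m0 := by
    obtain ⟨z, hz⟩ := Bod_nonempty q3
    have := (h33 hz).1
    have h1 : 1 ≤ τ0.flatten.length := this
    omega
  obtain ⟨t0, ht0, _, ht0l, ht0g⟩ := Good.extend (s := []) (fun i hi => by simp at hi)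
    (dgn_lt (τ0.flatten ++ w0)) (Good.zero _ _) (Nat.zero_le m0)
  have mx : ∀ i d, MS α {z | modd t0 (dgt (f z)) i = d} := by
    intro i d
    by_cases hi : i < t0.length
    · simp only [modd, hi, if_true]; exact MS.const _ _
    · simp only [modd, hi, if_false]; exact hf.dgt _ _
  -- pruning
  obtain ⟨c, hc⟩ := prune hM hX hoα hoα' hs (E := Bod q3) (Bod_ms h32)
    (x := fun z => modd t0 (dgt (f z))) mx (q := res q α') (hM.res _ _ hcq hoα') (low_res _ _)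
    (τ0 := τ0) (w0 := w0) (by
      intro z hz
      have hz1 : z ∈ Bod (res c0 α) := h21 (h31 hz)
      refine ⟨?_, hC z (h31 hz) t0 ht0, ?_, ?_, ?_⟩
      · rw [BodB_res _ hs.1.le, ← Bod_res]; exact (hq1 z hz1).1
      · rw [res_C_lt _ hs.1]; exact (h33 hz).2.1
      · have : SucA (res q α') α τ0 z = SucA q α τ0 z := by unfold SucA; rw [res_C_lt _ hs.1]
        rw [this]; exact (h33 hz).2.2.1
      · rw [← hm0]
        refine ht0g.congr (fun i hi => ?_) fun _ _ => rfl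
        rw [modd, if_pos (by omega)])
  have mS : ∀ i v, MS α' {z | sm (modd t0 (dgt (f z))) (td (z α)) i = v} := by
    intro i v
    have : {z : I → Y | sm (modd t0 (dgt (f z))) (td (z α)) i = v} = {z | ∃ a b d e : ℕ,
        modd t0 (dgt (f z)) i = a ∧ modd t0 (dgt (f z)) (i + 1) = b ∧ td (z α) i = d ∧
        td (z α) (i + 1) = e ∧ (a + d) % bs i + (if bs (i + 1) ≤ b + e then 1 else 0) = v} := by
      ext z
      constructor
      · intro h; exact ⟨_, _, _, _, rfl, rfl, rfl, rfl, h⟩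
      · rintro ⟨a, b, d, e, rfl, rfl, rfl, rfl, h⟩; exact h
    rw [this]
    exact MS.ex fun a => MS.ex fun b => MS.ex fun d => MS.ex fun e =>
      ((mx _ _).mono hs.1.le).and (((mx _ _).mono hs.1.le).and ((td_ms hs.1 _ _).and
        ((td_ms hs.1 _ _).and (MS.const _ _))))
  have mE : MS α' {z | z ∈ Bod q3 ∧ ∀ n, pre (z α) n ∈ c.C α z} :=
    ((Bod_ms h32).mono hs.1.le).and (MS.all fun n =>
      MS.pre_mem hs.1 (fun σ => (c.meas α σ).mono hs.1.le) n)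
  -- the last part of the generic condition
  obtain ⟨c2, hc2⟩ := kl hM hot 2 α' le_top hoα' {z | z ∈ Bod q3 ∧ ∀ n, pre (z α) n ∈ c.C α z} mE
    (fun z => {u | u ∈ TrI 2 ∧ ∀ i < u.length,
      sm (modd t0 (dgt (f z))) (td (z α)) i = u.getD i 0})
    (fun s => (MS.const _ _).and (MS.all fun i => MS.all fun _ => mS _ _))
    (fun _ => q) (fun r => mE.and (MS.const _ _)) (by
      rintro z ⟨hz1, hz2⟩
      obtain ⟨a1, a2, _⟩ := hc z hz1 hz2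
      exact ⟨hcq, hq, by rw [← Bod_res]; exact a1, a2.gen hM hoα' (dec α')⟩)
  have key : ∀ z ∈ Bod (res (glue q3 (glue c c2 α') α) ⊤), z ∈ Bod q3 ∧
      (∀ n, pre (z α) n ∈ c.C α z) ∧ z ∈ Bod q ∧
      GenB M 2 ⊤ z {u | u ∈ TrI 2 ∧ ∀ i < u.length,
        sm (modd t0 (dgt (f z))) (td (z α)) i = u.getD i 0} q := by
    intro z hz
    rw [Bod_res] at hz
    have h1 : z ∈ Bod q3 := by
      rw [Bod_of_low h32]
      intro ξ hξ n
      have := hz ξ (hξ.trans_le le_top) n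
      rwa [glue_C_lt _ _ hξ] at this
    have h2 : ∀ n, pre (z α) n ∈ c.C α z := by
      intro n
      have := hz α hα n
      rwa [glue_C_ge _ _ le_rfl, glue_C_lt _ _ hs.1] at this
    have h3 : Seg c2 α' ⊤ z := by
      intro ξ hξ hξt n
      have := hz ξ hξt n
      rwa [glue_C_ge _ _ (hs.1.le.trans hξ), glue_C_ge _ _ hξ] at this
    exact ⟨h1, h2, hc2 z ⟨h1, h2⟩ h3⟩
  refine ⟨res (glue q3 (glue c c2 α') α) ⊤, fun z hz => (key z hz).2.2.1, low_res _ _, f,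
    fun a => (hf a).mono le_top, hR _ _ _ hRf fun z hz => h31 (key z hz).1,
    -(k1 : ℚ) + ∑ i ∈ Finset.range m0, ((t0.getD i 0 : ℚ) - δ.getD i 0) / Bp (i + 1) -
      (if bs 0 ≤ t0.getD 0 0 + dgn (τ0.flatten ++ w0) 0 then 1 else 0), fun z hz => ?_⟩
  obtain ⟨h1, h2, h3, h4⟩ := key z hz
  obtain ⟨_, _, a3, a4, a5⟩ := hc z h1 h2
  obtain ⟨_, _, _, b4, b5⟩ := h33 h1
  have b4 : ∀ i : Fin (τ0.flatten.length + w0.length), dgt (f z) i = δ.getD i 0 := b4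
  have b5 : ⌊f z⌋ = k1 := b5
  have e1 := ev_dgt (f z)
  have e2 := ev_sub (x := dgt (f z)) (x' := modd t0 (dgt (f z))) (dgt_lt _)
    (modd_lt ht0 (dgt_lt _)) (m := m0) (fun i hi => by rw [modd, if_neg (by omega)])
  have e3 := ev_add (x := modd t0 (dgt (f z))) (d := td (z α)) (modd_lt ht0 (dgt_lt _))
    (td_lt _) a3
  have e4 : ∑ i ∈ Finset.range m0, ((modd t0 (dgt (f z)) i : ℝ) - dgt (f z) i) / Bp (i + 1) =
      ∑ i ∈ Finset.range m0, ((t0.getD i 0 : ℝ) - δ.getD i 0) / Bp (i + 1) := by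
    refine Finset.sum_congr rfl fun i hi => ?_
    rw [Finset.mem_range] at hi
    rw [modd, if_pos (by omega), b4 ⟨i, by omega⟩]
  have e5 : modd t0 (dgt (f z)) 0 = t0.getD 0 0 := by rw [modd, if_pos (by omega)]
  rw [e4] at e2
  rw [e5, a5 0 (by omega)] at e3
  have e6 : f z = k1 + Int.fract (f z) := by
    rw [← b5]; exact (Int.floor_add_fract _).symm
  have e7 : f z + tt (z α) + ((-(k1 : ℚ) + ∑ i ∈ Finset.range m0,
      ((t0.getD i 0 : ℚ) - δ.getD i 0) / Bp (i + 1) -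
      (if bs 0 ≤ t0.getD 0 0 + dgn (τ0.flatten ++ w0) 0 then 1 else 0) : ℚ) : ℝ) =
      ev (sm (modd t0 (dgt (f z))) (td (z α))) := by
    push_cast
    unfold tt
    split_ifs at e3 ⊢ with hh
    · rw [Rat.cast_one]; linarith
    · rw [Rat.cast_zero]; linarith
  rw [e7]
  refine ⟨⟨_, a4, rfl⟩, fun n => ?_⟩
  obtain ⟨r, _, _, r3, u, hu, _, _, r4⟩ := h4 (DV (X _) n) (hDV _ n) (DV_dense (hXm _) (hXd _) n)
  exact r4 z r3 _ a4 hu.2

/-- `R` is non-meagre below `p` -/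
def NonM (R : Cond I → ((I → Y) → ℝ) → Prop) (p : Cond I) : Prop :=
  ∀ q ≤ p, Low ⊤ q → ∀ U, MC ⊤ U → (∀ n z, Dense (Op U n z)) →
    ∃ q' ≤ q, Low ⊤ q' ∧ ∃ f, MR ⊤ f ∧ R q' f ∧ ∀ z ∈ Bod q', ∀ n, f z ∈ Op U n z

theorem reflect (hI : BigIx I) (hbt : (⊥ : I) < ⊤) {R : Cond I → ((I → Y) → ℝ) → Prop}
    (hR : ∀ q f q', R q f → q' ≤ q → R q' f) {p : Cond I} (hp : Low ⊤ p) (hN : NonM R p) :
    ∃ α < (⊤ : I), ∀ q ≤ p, Low ⊤ q → ∀ X : ℚ → ℕ → ℚ → ℚ → Set (I → Y), (∀ ρ, MC ⊤ (X ρ)) →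
      (∀ ρ n z, Kset ⊆ closure (Kset ∩ Op (X ρ) n z)) →
      ∃ q' ≤ q, Low ⊤ q' ∧ ∃ f, MR ⊤ f ∧ R q' f ∧ ∃ ρ : ℚ, ∀ z ∈ Bod q',
        f z + tt (z α) + ρ ∈ Kset ∧ ∀ n, f z + tt (z α) + ρ ∈ Op (X ρ) n z := by
  classical
  have hch : ∀ q : Cond I, ∀ U : ℕ → ℚ → ℚ → Set (I → Y), ∃ x : Cond I × ((I → Y) → ℝ),
      (Low ⊤ x.1 ∧ MR ⊤ x.2) ∧ ((q ≤ p ∧ Low ⊤ q ∧ MC ⊤ U ∧ ∀ n z, Dense (Op U n z)) →
        x.1 ≤ q ∧ R x.1 x.2 ∧ ∀ z ∈ Bod x.1, ∀ n, x.2 z ∈ Op U n z) := by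
    intro q U
    by_cases h : q ≤ p ∧ Low ⊤ q ∧ MC ⊤ U ∧ ∀ n z, Dense (Op U n z)
    · obtain ⟨q', h1, h2, f, h3, h4, h5⟩ := hN q h.1 h.2.1 U h.2.2.1 h.2.2.2
      exact ⟨(q', f), ⟨h2, h3⟩, fun _ => ⟨h1, h4, h5⟩⟩
    · exact ⟨(one I, fun _ => 0), ⟨low_one _, MR.const 0⟩, fun h' => absurd h' h⟩
  choose Φ hΦ1 hΦ2 using hch
  obtain ⟨α, hα, hpα, hcl⟩ := closing hI ⟨⊥, hbt⟩ Φ (fun q U _ _ => hΦ1 q U) p hp
  obtain ⟨α', hα'⟩ := exists_covBy_of_wellFoundedLT (a := α) (fun h => absurd (h le_top)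
    (not_le.2 hα))
  refine ⟨α, hα, fun q hqp hq X hXm hXd => ?_⟩
  refine core hα' hR hpα (fun q1 h1 h2 U hU hUd => ?_) hqp hq hXm hXd
  have hU' : MC ⊤ U := fun n a b => (hU n a b).mono le_top
  obtain ⟨a1, a2⟩ := hcl q1 U h2 hU
  obtain ⟨b1, b2, b3⟩ := hΦ2 q1 U ⟨h1, h2.mono le_top, hU', hUd⟩
  exact ⟨(Φ q1 U).1, b1, a1, (Φ q1 U).2, a2, b2, b3⟩

end Pool.Agent.CR
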