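import Pool.Agent.Lib.MP_72b52d_lc.CR.KLim
import Pool.Agent.Lib.MP_72b52d_lc.CR.Good

/-!
# MP_72b52d_lc : the dense sets for the pruning step
-/

namespace Pool.Agent.CR

variable {I : Type} [LinearOrder I]

/-! ### combinatorics of fat trees -/

theorem few_bad {b a : ℕ} (hb : 8 ≤ b) :
    ((Finset.range b).filter (fun d => ¬ (1 ≤ (a + d) % b ∧ (a + d) % b ≤ b - 3))).card ≤ 3 := by
  have h : ((Finset.range b).filter (fun d => ¬ (1 ≤ (a + d) % b ∧ (a + d) % b ≤ b - 3))).card ≤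
      ({0, b - 2, b - 1} : Finset ℕ).card := by
    refine Finset.card_le_card_of_injOn (fun d => (a + d) % b) ?_ ?_
    · intro d hd
      simp only [Finset.coe_filter, Finset.mem_range, Set.mem_ofPred_eq] at hd
      simp only [Finset.coe_insert, Finset.coe_singleton, Set.mem_insert_iff,
        Set.mem_singleton_iff]
      have := Nat.mod_lt (a + d) (by omega : b > 0)
      omega
    · intro d hd d' hd' h
      simp only [Finset.coe_filter, Finset.mem_range, Set.mem_ofPred_eq] at hd hd'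
      have h1 : (a + d) ≡ (a + d') [MOD b] := h
      have h2 := Nat.ModEq.add_left_cancel' a h1
      have h3 : d % b = d' % b := h2
      rwa [Nat.mod_eq_of_lt hd.1, Nat.mod_eq_of_lt hd'.1] at h3
  exact h.trans (Finset.card_le_three)

theorem good_digits {b a k : ℕ} (hb : 8 ≤ b) {D : Finset ℕ} (hD : D ⊆ Finset.range b)
    (hk : k + 3 ≤ D.card) :
    k ≤ (D.filter (fun d => 1 ≤ (a + d) % b ∧ (a + d) % b ≤ b - 3)).card := by
  have h1 := Finset.card_filter_add_card_filter_not (s := D)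
    (fun d => 1 ≤ (a + d) % b ∧ (a + d) % b ≤ b - 3)
  have h2 : (D.filter (fun d => ¬ (1 ≤ (a + d) % b ∧ (a + d) % b ≤ b - 3))).card ≤ 3 :=
    (Finset.card_le_card (Finset.filter_subset_filter _ hD)).trans (few_bad hb)
  omega

theorem FtI.anti {k k' m : ℕ} (h : k' ≤ k) {A : Set W} {s : W} (hA : FtI k m A s) :
    FtI k' m A s := fun n => (hA n).anti h

theorem FtI.mono {k m : ℕ} {A B : Set W} (h : A ⊆ B) {s : W} (hA : FtI k m A s) :
    FtI k m B s := fun n => (hA n).mono h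

theorem FtI_ms {ξ : I} {A : (I → Y) → Set W} (hA : ∀ w, MS ξ {z | w ∈ A z}) (k m : ℕ) (s : W) :
    MS ξ {z | FtI k m (A z) s} := MS.all fun n => Ft.ms hA k m n s

/-- one compatible digit further in the fat tree -/
theorem FtI.good_step {k m : ℕ} {A : Set W} {ρ : W} (h : FtI (k + 4) m A ρ) {e : List ℕ}
    (he : e.length = m) {x : ℕ → ℕ} (hg : Good x (dgn (e ++ ρ)) (m + ρ.length)) :
    ∃ D : Finset ℕ, D ⊆ Finset.range (bs (m + ρ.length)) ∧ k + 1 ≤ D.card ∧
      ∀ d ∈ D, FtI (k + 4) m A (ρ ++ [d]) ∧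
        Good x (dgn (e ++ (ρ ++ [d]))) (m + (ρ ++ [d]).length) := by
  obtain ⟨D, h1, h2, h3⟩ := h.succ
  refine ⟨D.filter (fun d => 1 ≤ (x (m + ρ.length) + d) % bs (m + ρ.length) ∧
    (x (m + ρ.length) + d) % bs (m + ρ.length) ≤ bs (m + ρ.length) - 3),
    (Finset.filter_subset _ _).trans h1, good_digits (bs_ge _) h1 (by omega), ?_⟩
  intro d hd
  obtain ⟨hd1, hd2⟩ := Finset.mem_filter.1 hd
  have hdb : d < bs (m + ρ.length) := Finset.mem_range.1 (h1 hd1)
  refine ⟨h3 d hd1, ?_⟩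
  have e1 : (e ++ ρ).length = m + ρ.length := by simp [he]
  have e2 : e ++ (ρ ++ [d]) = (e ++ ρ) ++ [d] := by simp
  have e3 : dgn ((e ++ ρ) ++ [d]) (m + ρ.length) = d := by
    unfold dgn
    rw [← e1, getD_append_last, e1, Nat.mod_eq_of_lt hdb]
  have e4 : m + (ρ ++ [d]).length = m + ρ.length + 1 := by simp; omega
  rw [e2, e4]
  refine Good.succ (hg.congr (fun _ _ => rfl) fun i hi => ?_) ?_ ?_
  · exact (dgn_prefix (List.prefix_append _ _) (by rw [e1]; exact hi)).symm
  · rw [e3]; exact hd2.1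
  · rw [e3]; exact hd2.2

/-- climb in the fat tree compatibly with a given string -/
theorem FtI.climb {k m : ℕ} {A : Set W} {e : List ℕ} (he : e.length = m) {x : ℕ → ℕ} {ρ : W}
    (h : FtI (k + 4) m A ρ) (hg : Good x (dgn (e ++ ρ)) (m + ρ.length)) {L : ℕ}
    (hL : m + ρ.length ≤ L) : ∃ ρ1, ρ <+: ρ1 ∧ m + ρ1.length = L ∧ FtI (k + 4) m A ρ1 ∧
      Good x (dgn (e ++ ρ1)) L := by
  induction L, hL using Nat.le_induction with
  | base => exact ⟨ρ, List.prefix_rfl, rfl, h, hg⟩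
  | succ L _ ih =>
    obtain ⟨ρ1, h1, rfl, h3, h4⟩ := ih
    obtain ⟨D, _, hc, hD⟩ := h3.good_step he h4
    obtain ⟨d, hd⟩ : D.Nonempty := Finset.card_pos.1 (by omega)
    obtain ⟨a1, a2⟩ := hD d hd
    have e4 : m + (ρ1 ++ [d]).length = m + ρ1.length + 1 := by simp; omega
    exact ⟨ρ1 ++ [d], h1.trans (List.prefix_append _ _), e4, a1, by rw [← e4]; exact a2⟩

theorem FtI.long {k m : ℕ} {A : Set W} {ρ : W} (h : FtI (k + 1) m A ρ) (N : ℕ) :
    ∃ ρ1, ρ <+: ρ1 ∧ N ≤ ρ1.length ∧ FtI (k + 1) m A ρ1 := by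
  induction N with
  | zero => exact ⟨ρ, List.prefix_rfl, Nat.zero_le _, h⟩
  | succ N ih =>
    obtain ⟨ρ1, h1, h2, h3⟩ := ih
    obtain ⟨D, _, hc, hD⟩ := h3.succ
    obtain ⟨d, hd⟩ : D.Nonempty := Finset.card_pos.1 (by omega)
    exact ⟨ρ1 ++ [d], h1.trans (List.prefix_append _ _), by simp; omega, hD d hd⟩

theorem flatten_prefix {σ τ : Node} (h : σ <+: τ) : σ.flatten <+: τ.flatten := by
  obtain ⟨l, rfl⟩ := h
  rw [List.flatten_append]; exact List.prefix_append _ _

/-- nodes of positive trees can be prolonged to long nodes -/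
theorem Pos.long {T : Set Node} (hT : Pos T) {σ : Node} (hσ : σ ∈ T) (N : ℕ) :
    ∃ τ ∈ T, σ <+: τ ∧ N ≤ τ.flatten.length := by
  obtain ⟨τ, h1, h2, w, hw⟩ := hT.big σ hσ 1
  have hw' : FtI (0 + 1) τ.flatten.length {w | τ ++ [w] ∈ T} w := hw
  obtain ⟨ρ, _, h4, h5⟩ := hw'.long N
  obtain ⟨a, ha, ha'⟩ := h5.ext
  refine ⟨τ ++ [a], ha, h2.trans (List.prefix_append _ _), ?_⟩
  have := ha'.length_le
  simp only [List.flatten_append, List.flatten_cons, List.flatten_nil, List.append_nil,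
    List.length_append]
  omega

/-! ### the dense sets -/

/-- the successors of `τ` in the tree of `r` at `α` -/
def SucA (r : Cond I) (α : I) (τ : Node) (z : I → Y) : Set W := {v | τ ++ [v] ∈ r.C α z}

theorem SucA_ms (r : Cond I) (α : I) (τ : Node) (w : W) : MS α {z | w ∈ SucA r α τ z} :=
  r.meas α _

/-- the relation: `r'` is a good continuation through the successor `a` -/
def SR (α α' : I) (n : ℕ) (r : Cond I) (τ : Node) (ρ : W) (D : Set (Cond I × List ℕ))
    (q : Cond I) (s : List ℕ) (a : W) (τ' : Node) (w' : W) (u : List ℕ) (r' : Cond I) : Prop :=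
  (Low α' r' ∧ r' ≤ r ∧ q ≤ res r' α ∧ ρ <+: a) ∧
  (∀ z ∈ Bod q, τ ++ [a] ∈ r.C α z ∧ τ' ∈ r'.C α z ∧
    FtI (n + 5) τ'.flatten.length (SucA r' α τ' z) w') ∧
  τ ++ [a] <+: τ' ∧
  τ.flatten.length + ρ.length < τ'.flatten.length + w'.length ∧
  τ'.flatten.length + w'.length ≤ s.length ∧
  Good (fun i => s.getD i 0) (dgn (τ'.flatten ++ w')) (τ'.flatten.length + w'.length) ∧
  (r', u) ∈ D ∧ u.length + 1 < τ'.flatten.length + w'.length ∧
  ∀ i < u.length, sm (fun i => s.getD i 0) (dgn (τ'.flatten ++ w')) i = u.getD i 0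

/-- the dense set for the pruning step -/
def Sh (α α' : I) (n : ℕ) (r : Cond I) (τ : Node) (ρ : W) (D : Set (Cond I × List ℕ)) :
    Set (Cond I × List ℕ) :=
  {x | Low α x.1 ∧ x.2 ∈ TrI 1 ∧ ((¬ ∃ t, Low α t ∧ t ≤ x.1 ∧ t ≤ res r α) ∨
    Disjoint (Bod x.1) {z | FtI (n + 4) τ.flatten.length (SucA r α τ z) ρ} ∨
    (τ.flatten.length + ρ.length ≤ x.2.length ∧
      ¬ Good (fun i => x.2.getD i 0) (dgn (τ.flatten ++ ρ)) (τ.flatten.length + ρ.length)) ∨
    ∃ a τ' w' u r', SR α α' n r τ ρ D x.1 x.2 a τ' w' u r')}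

theorem extend_zero {s : List ℕ} (hs : s ∈ TrI 1) (L : ℕ) :
    ∃ s' ∈ TrI 1, s <+: s' ∧ L ≤ s'.length := by
  induction L with
  | zero => exact ⟨s, hs, List.prefix_rfl, Nat.zero_le _⟩
  | succ L ih =>
    obtain ⟨s', h1, h2, h3⟩ := ih
    exact ⟨s' ++ [0], TrI1_append h1 (bs_pos _), h2.trans (List.prefix_append _ _), by simp; omega⟩

variable [WellFoundedLT I] [OrderBot I]

theorem Sh_dense {α α' : I} (h : α < α') (n : ℕ) {r : Cond I} (hr : Low α' r) (τ : Node) (ρ : W)
    {D : Set (Cond I × List ℕ)} (hD : Dn α' (TrI 2) D) :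
    Dn α (TrI 1) (Sh α α' n r τ ρ D) := by
  classical
  refine ⟨fun q s hq => ⟨hq.1, hq.2.1⟩, ?_, ?_⟩
  · -- open
    rintro q s ⟨h1, h2, h3⟩ q' s' hq' hle hs hs'
    refine ⟨hq', hs', ?_⟩
    have hget : ∀ i < s.length, s.getD i 0 = s'.getD i 0 := fun i hi => (getD_prefix hs hi).symm
    rcases h3 with h3 | h3 | h3 | ⟨a, τ', w', u, r', ⟨a1, a2, a3, a4⟩, b1, b2, b3, b4, b5, b6, b7,
      b8⟩
    · left
      rintro ⟨t, c1, c2, c3⟩
      exact h3 ⟨t, c1, c2.trans hle, c3⟩
    · exact Or.inr (Or.inl (h3.mono_left hle))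
    · refine Or.inr (Or.inr (Or.inl ⟨h3.1.trans hs.length_le, fun hg => h3.2 ?_⟩))
      exact hg.congr (fun i hi => (hget i (hi.trans_le h3.1)).symm) fun _ _ => rfl
    · have b4 : τ'.flatten.length + w'.length ≤ s.length := b4
      refine Or.inr (Or.inr (Or.inr ⟨a, τ', w', u, r', ⟨a1, a2, le_trans hle a3, a4⟩,
        fun z hz => b1 z (hle hz), b2, b3, b4.trans hs.length_le, ?_, b6, b7, fun i hi => ?_⟩))
      · exact b5.congr (fun i hi => hget i (hi.trans_le b4)) fun _ _ => rfl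
      · rw [← b8 i hi]
        exact sm_congr (hget i (by omega)).symm (hget (i + 1) (by omega)).symm rfl rfl
  · -- dense
    intro q s0 hq hs0
    by_cases hc : ∃ t, Low α t ∧ t ≤ q ∧ t ≤ res r α
    swap
    · exact ⟨q, s0, le_rfl, List.prefix_rfl, hq, hs0, Or.inl hc⟩
    obtain ⟨t, ht, htq, htr⟩ := hc
    -- decide the fat tree
    have mF : ∀ ρ : W, MS α {z | FtI (n + 4) τ.flatten.length (SucA r α τ z) ρ} := fun ρ =>
      FtI_ms (fun w => SucA_ms r α τ w) _ _ _
    obtain ⟨t1, ht1, ht1t, hdec⟩ := dec α _ (mF ρ) t ht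
    rcases hdec with hdec | hdec
    swap
    · exact ⟨t1, s0, ht1t.trans htq, List.prefix_rfl, ht1, hs0, Or.inr (Or.inl hdec)⟩
    -- prolong `s0`
    obtain ⟨s, hs, hs0s, hsl⟩ := extend_zero hs0 (τ.flatten.length + ρ.length)
    by_cases hgood : Good (fun i => s.getD i 0) (dgn (τ.flatten ++ ρ))
      (τ.flatten.length + ρ.length)
    swap
    · exact ⟨t1, s, ht1t.trans htq, hs0s, ht1, hs, Or.inr (Or.inr (Or.inl ⟨hsl, hgood⟩))⟩
    -- climb
    obtain ⟨t2, ht2t1, ht2, ⟨ρ1, a⟩, h2⟩ := dec_nat ht1 (ι := W × W)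
      (fun x => {z | (ρ <+: x.1 ∧ τ.flatten.length + x.1.length = s.length ∧ x.1 <+: x.2 ∧
        Good (fun i => s.getD i 0) (dgn (τ.flatten ++ x.1)) s.length) ∧
        τ ++ [x.2] ∈ r.C α z})
      (fun x => (MS.const _ _).and (r.meas α _)) (by
        intro z hz
        obtain ⟨ρ1, a1, a2, a3, a4⟩ := (show FtI (n + 4) _ _ ρ from hdec hz).climb rfl hgood hsl
        obtain ⟨a, ha, ha'⟩ := a3.ext
        exact ⟨(ρ1, a), ⟨a1, a2, ha', a4⟩, ha⟩)
    obtain ⟨z2, hz2⟩ := Bod_nonempty t2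
    obtain ⟨hρρ1, hρ1l, hρ1a, hgood1⟩ : ρ <+: ρ1 ∧ τ.flatten.length + ρ1.length = s.length ∧
        ρ1 <+: a ∧ Good (fun i => s.getD i 0) (dgn (τ.flatten ++ ρ1)) s.length := (h2 hz2).1
    have hτa : ∀ z ∈ Bod t2, τ ++ [a] ∈ r.C α z := fun z hz => (h2 hz).2
    -- prolong `s` to the length of `τ ++ [a]`
    have e1 : (τ ++ [a]).flatten = τ.flatten ++ a := by simp
    have hgood1' : Good (fun i => s.getD i 0) (dgn (τ.flatten ++ a)) s.length := by
      refine hgood1.congr (fun _ _ => rfl) fun i hi => ?_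
      have hp : τ.flatten ++ ρ1 <+: τ.flatten ++ a := (List.prefix_append_right_inj _).2 hρ1a
      refine (dgn_prefix hp ?_).symm
      simp only [List.length_append]
      omega
    have hL1 : s.length ≤ τ.flatten.length + a.length := by
      have := hρ1a.length_le; omega
    obtain ⟨s1, hs1, hss1, hs1l, hgood2⟩ := hgood1'.extend hs (fun i => dgn_lt _ i) hL1
    -- a long node
    obtain ⟨t3, ht3t2, ht3, τ1, h3⟩ := dec_nat ht2 (ι := Node)
      (fun τ1 => {z | (τ ++ [a] <+: τ1 ∧ s1.length + 1 ≤ τ1.flatten.length) ∧ τ1 ∈ r.C α z})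
      (fun τ1 => (MS.const _ _).and (r.meas α _)) (by
        intro z hz
        obtain ⟨τ1, b1, b2, b3⟩ := (r.pos α z).long (hτa z hz) (s1.length + 1)
        exact ⟨τ1, ⟨b2, b3⟩, b1⟩)
    obtain ⟨z3, hz3⟩ := Bod_nonempty t3
    obtain ⟨haτ1, hτ1l⟩ := (h3 hz3).1
    have hτ1 : ∀ z ∈ Bod t3, τ1 ∈ r.C α z := fun z hz => (h3 hz).2
    let d1 : ℕ → ℕ := dgn τ1.flatten
    have hpre1 : τ.flatten ++ a <+: τ1.flatten := by rw [← e1]; exact flatten_prefix haτ1
    have hgood3 : Good (fun i => s1.getD i 0) d1 s1.length := by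
      rw [hs1l]
      refine hgood2.congr (fun _ _ => rfl) fun i hi => (dgn_prefix hpre1 ?_).symm
      simp only [List.length_append]; exact hi
    -- the next digit and the carry
    obtain ⟨v, γ, hv1, hv2, hvγ, hγ⟩ : ∃ v γ : ℕ, 1 ≤ v ∧ v ≤ bs s1.length - 2 ∧
        ((γ = 0 ∧ d1 s1.length < v) ∨ (γ = 1 ∧ v < d1 s1.length)) ∧ γ ≤ 1 := by
      have hb := bs_ge s1.length
      by_cases hh : d1 s1.length ≤ bs s1.length - 3
      · exact ⟨d1 s1.length + 1, 0, by omega, by omega, Or.inl ⟨rfl, by omega⟩, by omega⟩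
      · exact ⟨1, 1, le_rfl, by omega, Or.inr ⟨rfl, by omega⟩, le_rfl⟩
    let z0 : ℕ → ℕ := fun i => if i + 1 < s1.length then sm (fun i => s1.getD i 0) d1 i
      else if i + 1 = s1.length then (s1.getD i 0 + d1 i) % bs i + γ else v
    let u0 : List ℕ := (List.range (s1.length + 1)).map z0
    have hu0l : u0.length = s1.length + 1 := by simp [u0]
    have hu0g : ∀ i < s1.length + 1, u0.getD i 0 = z0 i := by
      intro i hi
      rw [List.getD_eq_getElem _ _ (by rw [hu0l]; exact hi)]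
      simp [u0]
    have hu0 : u0 ∈ TrI 2 := by
      intro i hi
      rw [hu0l] at hi
      rw [hu0g i hi]
      by_cases c1 : i + 1 < s1.length
      · simp only [z0, c1, if_true]
        exact ⟨hgood3.lo i c1, hgood3.hi i c1⟩
      · by_cases c2 : i + 1 = s1.length
        · simp only [z0, c2, lt_irrefl, if_false, if_true]
          have := hgood3.la i c2
          have hb := bs_ge i
          omega
        · have c3 : i = s1.length := by omega
          subst c3
          simp only [z0]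
          rw [if_neg (by omega), if_neg (by omega)]
          exact ⟨hv1, hv2⟩
    -- use the dense set `D`
    let r2 : Cond I := sp (glue t3 r α) α τ1
    have ht3r : t3 ≤ res r α := (ht3t2.trans (ht2t1.trans ht1t)).trans htr
    have hr2 : Low α' r2 := low_sp (low_glue (ht3.mono h.le) hr) h
    have hr2r : r2 ≤ r := (sp_le _ _ _).trans (glue_le ht3r)
    obtain ⟨r3, u, hr3, hu0u, hr3D⟩ := hD.dns r2 u0 hr2 hu0
    have hr3l := (hD.sub _ _ hr3D).1
    have huT := (hD.sub _ _ hr3D).2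
    have hres2 : res r2 α = t3 := by
      show res (sp (glue t3 r α) α τ1) α = t3
      rw [res_sp _ le_rfl, res_glue, res_eq_self ht3]
    have ht4 : res r3 α ≤ t3 := by rw [← hres2]; exact res_mono hr3 α
    have hτ13 : ∀ z ∈ Bod (res r3 α), τ1 ∈ r3.C α z := by
      intro z hz
      have hz' : z ∈ BodB r3 α := by rwa [Bod_res] at hz
      have hsub : r3.C α z ⊆ cutT (r.C α z) τ1 := by
        have := C_mono hr3 hz'
        rwa [show r2.C α z = cutT (r.C α z) τ1 from by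
          show (sp (glue t3 r α) α τ1).C α z = _
          rw [sp_C_eq, glue_C_ge _ _ le_rfl]] at this
      exact mem_of_comp (r3.pos α z) fun σ hσ => (hsub hσ).2 (hτ1 z (ht4 hz))
    -- the new state
    obtain ⟨t5, ht5t4, ht5, ⟨τ', w'⟩, h5⟩ := dec_nat (low_res r3 α) (ι := Node × W)
      (fun x => {z | (τ1 <+: x.1 ∧ u.length + 2 ≤ x.1.flatten.length) ∧ x.1 ∈ r3.C α z ∧
        FtI (n + 5) x.1.flatten.length (SucA r3 α x.1 z) x.2})
      (fun x => (MS.const _ _).and ((r3.meas α _).and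
        (FtI_ms (fun w => SucA_ms r3 α x.1 w) _ _ _))) (by
        intro z hz
        obtain ⟨σ, c1, c2, c3⟩ := (r3.pos α z).long (hτ13 z hz) (u.length + 2)
        obtain ⟨τ', c4, c5, w', c6⟩ := (r3.pos α z).big σ c1 (n + 5)
        exact ⟨(τ', w'), ⟨c2.trans c5, c3.trans (flatten_prefix c5).length_le⟩, c4, c6⟩)
    obtain ⟨z5, hz5⟩ := Bod_nonempty t5
    obtain ⟨hτ1τ', hτ'l⟩ : τ1 <+: τ' ∧ u.length + 2 ≤ τ'.flatten.length := (h5 hz5).1
    let r' : Cond I := glue t5 r3 α
    have hr' : Low α' r' := low_glue (ht5.mono h.le) hr3l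
    have hr'r3 : r' ≤ r3 := glue_le ht5t4
    have hresr' : res r' α = t5 := by
      show res (glue t5 r3 α) α = t5
      rw [res_glue, res_eq_self ht5]
    have hCr' : ∀ z, r'.C α z = r3.C α z := fun z => glue_C_ge _ _ le_rfl _
    -- subtraction
    let e' : List ℕ := τ'.flatten ++ w'
    have hpre2 : τ1.flatten <+: e' := (flatten_prefix hτ1τ').trans (List.prefix_append _ _)
    have hd1 : ∀ i < s1.length + 1, dgn e' i = d1 i := fun i hi =>
      dgn_prefix hpre2 (by omega)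
    have hgood4 : Good (fun i => s1.getD i 0) (dgn e') s1.length :=
      hgood3.congr (fun _ _ => rfl) fun i hi => (hd1 i (by omega)).symm
    have hulen : s1.length < u.length := by
      have := hu0u.length_le; omega
    have huu0 : ∀ i < s1.length + 1, u.getD i 0 = z0 i := by
      intro i hi
      rw [getD_prefix hu0u (by rw [hu0l]; exact hi), hu0g i hi]
    obtain ⟨s', hs', hs1s', hs'l, hgood5, hsum⟩ := subtract (d := dgn e') (γ := γ)
      (m := τ'.flatten.length + w'.length) hs1 huT (fun i => dgn_lt _ i) hgood4 hulen (by omega)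
      (by
        intro i hi
        rw [huu0 i (by omega)]
        simp only [z0, hi, if_true]
        exact sm_congr rfl rfl (hd1 i (by omega)).symm (hd1 (i + 1) (by omega)).symm)
      (by
        intro i hi
        rw [huu0 i (by omega)]
        simp only [z0]
        rw [if_neg (by omega), if_pos hi, hd1 i (by omega)])
      (by
        rw [huu0 s1.length (by omega), hd1 s1.length (by omega)]
        simp only [z0]
        rw [if_neg (by omega), if_neg (by omega)]
        exact hvγ)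
    refine ⟨t5, s', ?_, hs0s.trans (hss1.trans hs1s'), ht5, hs', Or.inr (Or.inr (Or.inr
      ⟨a, τ', w', u, r', ⟨hr', hr'r3.trans (hr3.trans hr2r), by rw [hresr'],
        hρρ1.trans hρ1a⟩, ?_, haτ1.trans hτ1τ', ?_, ?_, hgood5, ?_, ?_, hsum⟩))⟩
    · exact (((ht5t4.trans ht4).trans ht3t2).trans (ht2t1.trans ht1t)).trans htq
    · intro z hz
      have h6 := h5 hz
      refine ⟨hτa z (((ht5t4.trans ht4).trans ht3t2) hz), ?_, ?_⟩
      · rw [hCr']; exact h6.2.1
      · have : SucA r' α τ' z = SucA r3 α τ' z := by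
          ext v; simp only [SucA, hCr']
        rw [this]; exact h6.2.2
    · have := hρ1l
      have := hρρ1.length_le
      omega
    · exact hs'l.ge
    · exact hD.opn _ _ hr3D _ _ hr' hr'r3 List.prefix_rfl huT
    · omega

end Pool.Agent.CR
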