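import Mathlib

/-!
# MP_72b52d_lc : the statement

The language of set theory, transitive models of `ZFC`, the real numbers of a model, relative
meagreness in a model, and the statement to be proved: there is a transitive model of `ZFC` which
contains a Cantor set `K` of reals such that for every non-meagre set `X` of reals of the model
there is a real `t` of the model for which `K ∩ (X + t)` is non-meagre in `K` (in the sense of the
model).
-/

namespace Pool.Agent.CR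

/-- The ambient universe of sets. -/
abbrev V := ZFSet.{0}

/-- Formulas of the language of set theory; variables are de Bruijn indices. -/
inductive Fml : Type
  | bot : Fml
  | mem (i j : ℕ) : Fml
  | eq (i j : ℕ) : Fml
  | imp (φ ψ : Fml) : Fml
  | all (φ : Fml) : Fml

/-- Put `x` in front of the assignment `v`. -/
def cons {α : Type*} (x : α) (v : ℕ → α) : ℕ → α
  | 0 => x
  | n + 1 => v n

@[simp] theorem cons_zero {α : Type*} (x : α) (v : ℕ → α) : cons x v 0 = x := rfl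
@[simp] theorem cons_succ {α : Type*} (x : α) (v : ℕ → α) (n : ℕ) : cons x v (n + 1) = v n := rfl

/-- Satisfaction in the structure `(N, ∈)`. -/
def Sat (N : Set V) : Fml → (ℕ → V) → Prop
  | .bot, _ => False
  | .mem i j, v => v i ∈ v j
  | .eq i j, v => v i = v j
  | .imp φ ψ, v => Sat N φ v → Sat N ψ v
  | .all φ, v => ∀ x ∈ N, Sat N φ (cons x v)

/-- `N` is a transitive model of `ZFC`: `N` is a transitive class of sets and all axioms of `ZFC`
(with the separation and replacement schemes for all formulas with parameters) hold when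
relativised to `N`. -/
structure IsTransModelZFC (N : Set V) : Prop where
  transitive : ∀ x ∈ N, ∀ y ∈ x, y ∈ N
  extensionality : ∀ x ∈ N, ∀ y ∈ N, (∀ z ∈ N, z ∈ x ↔ z ∈ y) → x = y
  foundation : ∀ x ∈ N, (∃ y ∈ N, y ∈ x) → ∃ y ∈ N, y ∈ x ∧ ∀ z ∈ N, z ∈ y → z ∉ x
  pairing : ∀ x ∈ N, ∀ y ∈ N, ∃ z ∈ N, ∀ w ∈ N, w ∈ z ↔ w = x ∨ w = y
  union : ∀ x ∈ N, ∃ z ∈ N, ∀ w ∈ N, w ∈ z ↔ ∃ y ∈ N, y ∈ x ∧ w ∈ y
  powerset : ∀ x ∈ N, ∃ z ∈ N, ∀ w ∈ N, w ∈ z ↔ ∀ u ∈ N, u ∈ w → u ∈ x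
  infinity : ∃ x ∈ N, (∃ e ∈ N, (∀ u ∈ N, u ∉ e) ∧ e ∈ x) ∧
    ∀ y ∈ N, y ∈ x → ∃ z ∈ N, z ∈ x ∧ ∀ w ∈ N, w ∈ z ↔ w ∈ y ∨ w = y
  separation : ∀ (φ : Fml) (v : ℕ → V), (∀ n, v n ∈ N) → ∀ a ∈ N, ∃ b ∈ N, ∀ x ∈ N,
    x ∈ b ↔ x ∈ a ∧ Sat N φ (cons x v)
  replacement : ∀ (φ : Fml) (v : ℕ → V), (∀ n, v n ∈ N) → ∀ a ∈ N,
    (∀ x ∈ N, x ∈ a → ∃! y, y ∈ N ∧ Sat N φ (cons y (cons x v))) →
      ∃ b ∈ N, ∀ y ∈ N, y ∈ b ↔ ∃ x ∈ N, x ∈ a ∧ Sat N φ (cons y (cons x v))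
  choice : ∀ x ∈ N, (∀ y ∈ N, y ∈ x → ∃ z ∈ N, z ∈ y) →
    (∀ y ∈ N, y ∈ x → ∀ y' ∈ N, y' ∈ x → (∃ z ∈ N, z ∈ y ∧ z ∈ y') → y = y') →
      ∃ c ∈ N, ∀ y ∈ N, y ∈ x → ∃! z, z ∈ N ∧ z ∈ y ∧ z ∈ c

/-- The von Neumann numerals. -/
def nat : ℕ → V
  | 0 => ∅
  | n + 1 => insert (nat n) (nat n)

/-- The rational number `(a - b) / (c + 1)` coded by `n = ⟨⟨a, b⟩, c⟩`. -/
noncomputable def rat (n : ℕ) : ℝ :=
  ((n.unpair.1.unpair.1 : ℝ) - n.unpair.1.unpair.2) / (n.unpair.2 + 1)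

/-- The real number `x` as a set: the set of all codes of rational numbers below `x`
(Dedekind cut). -/
noncomputable def cut (x : ℝ) : V :=
  ZFSet.range (fun n : {n : ℕ // rat n < x} => nat n.1)

/-- The set `A` of real numbers as a set of the universe `V`. -/
noncomputable def setR (A : Set ℝ) : V := ZFSet.range (fun x : A => cut x.1)

/-- The sequence `F` of sets of real numbers as a set of the universe `V`: the set of all pairs
`(n, x)` with `x ∈ F n`. -/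
noncomputable def seqR (F : ℕ → Set ℝ) : V :=
  ZFSet.range (fun p : {p : ℕ × ℝ // p.2 ∈ F p.1} => ZFSet.pair (nat p.1.1) (cut p.1.2))

/-- The real numbers of the model `N`. -/
def RN (N : Set V) : Set ℝ := {x | cut x ∈ N}

/-- `A` is a nowhere dense subset of the subspace `B` of the line (the quantifiers run over open
intervals with rational endpoints). -/
def NowhereDenseIn (B A : Set ℝ) : Prop :=
  A ⊆ B ∧ ∀ a b : ℚ, (Set.Ioo (a : ℝ) b ∩ B).Nonempty →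
    ∃ c d : ℚ, a ≤ c ∧ d ≤ b ∧ (Set.Ioo (c : ℝ) d ∩ B).Nonempty ∧ Disjoint (Set.Ioo (c : ℝ) d) A

/-- In the model `N`, the set `A` is a meagre subset of the space `B`: it is covered by a sequence
(of `N`) of subsets which are nowhere dense in `B`. Here `B` is a set of reals of `N`. -/
def MeagreIn (N : Set V) (B A : Set ℝ) : Prop :=
  ∃ F : ℕ → Set ℝ, seqR F ∈ N ∧ (∀ n, NowhereDenseIn B (F n)) ∧ A ⊆ ⋃ n, F n

/-- The set `B` of reals of `N` is a Cantor set in the sense of `N`: it is a nonempty bounded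
closed subset of the line of `N`, without isolated points and containing no interval. -/
structure CantorIn (N : Set V) (B : Set ℝ) : Prop where
  sub : B ⊆ RN N
  mem : setR B ∈ N
  nonempty : B.Nonempty
  bounded : ∃ m : ℚ, ∀ x ∈ B, -(m : ℝ) ≤ x ∧ x ≤ m
  closed : ∀ x ∈ RN N, x ∉ B → ∃ a b : ℚ, x ∈ Set.Ioo (a : ℝ) b ∧ Disjoint (Set.Ioo (a : ℝ) b) B
  perfect : ∀ x ∈ B, ∀ a b : ℚ, x ∈ Set.Ioo (a : ℝ) b → ∃ y ∈ B, y ≠ x ∧ y ∈ Set.Ioo (a : ℝ) b
  thin : ∀ a b : ℚ, a < b → ∃ x ∈ RN N, x ∈ Set.Ioo (a : ℝ) b ∧ x ∉ B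

/-- The statement: a countable transitive model `N` of `ZFC` and a Cantor set `K ⊆ ℝ` (whose points
in `N` form a Cantor set of `N`) such that in `N`, for every non-meagre set `X` of reals there is a
real `t` for which `K ∩ (X + t)` is not meagre in `K`. -/
def MainStatement : Prop :=
  ∃ N : Set V, N.Countable ∧ IsTransModelZFC N ∧
    ∃ K : Set ℝ, (IsCompact K ∧ K.Nonempty ∧ Perfect K ∧ IsTotallyDisconnected K) ∧
      CantorIn N (K ∩ RN N) ∧
      ∀ X : Set ℝ, setR X ∈ N → ¬ MeagreIn N (RN N) X →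
        ∃ t ∈ RN N, ¬ MeagreIn N (K ∩ RN N) (K ∩ RN N ∩ {y | ∃ x ∈ X, y = x + t})

end Pool.Agent.CR
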