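import Pool.Agent.Lib.MP_72b52d_lc.CR.NDefs

/-!
# MP_72b52d_lc : basic facts on the forcing relation and the truth lemma
-/

namespace Pool.Agent.CR

variable {P : Type} [Preorder P]

theorem Eqf_iff {σ τ : Nm P} {p : P} : Eqf σ τ p ↔
    (∀ a : σ.Ix, ∀ q ≤ p, q ≤ σ.cd a → ∃ r ≤ q, ∃ b : τ.Ix, r ≤ τ.cd b ∧ Eqf (σ.fn a) (τ.fn b) r) ∧
    (∀ b : τ.Ix, ∀ q ≤ p, q ≤ τ.cd b → ∃ r ≤ q, ∃ a : σ.Ix, r ≤ σ.cd a ∧ Eqf (σ.fn a) (τ.fn b) r) := by
  cases σ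
  cases τ
  exact Iff.rfl

theorem Eqf_mono {σ τ : Nm P} {p q : P} (h : Eqf σ τ p) (hq : q ≤ p) : Eqf σ τ q := by
  rw [Eqf_iff] at h ⊢
  exact ⟨fun a q' h1 h2 => h.1 a q' (h1.trans hq) h2, fun b q' h1 h2 => h.2 b q' (h1.trans hq) h2⟩

theorem Eqf_reg {σ τ : Nm P} {p : P} (h : ∀ q ≤ p, ∃ r ≤ q, Eqf σ τ r) : Eqf σ τ p := by
  rw [Eqf_iff]
  constructor
  · intro a q h1 h2
    obtain ⟨r, hr, h3⟩ := h q h1
    obtain ⟨r', hr', b, h4, h5⟩ := (Eqf_iff.1 h3).1 a r le_rfl (hr.trans h2)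
    exact ⟨r', hr'.trans hr, b, h4, h5⟩
  · intro b q h1 h2
    obtain ⟨r, hr, h3⟩ := h q h1
    obtain ⟨r', hr', a, h4, h5⟩ := (Eqf_iff.1 h3).2 b r le_rfl (hr.trans h2)
    exact ⟨r', hr'.trans hr, a, h4, h5⟩

theorem Eqf_refl (σ : Nm P) (p : P) : Eqf σ σ p := by
  induction σ generalizing p with
  | mk α A c ih =>
    rw [Eqf_iff]
    exact ⟨fun a q _ h2 => ⟨q, le_rfl, a, h2, ih a q⟩, fun a q _ h2 => ⟨q, le_rfl, a, h2, ih a q⟩⟩

theorem Eqf_symm {σ τ : Nm P} {p : P} (h : Eqf σ τ p) : Eqf τ σ p := by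
  induction σ generalizing τ p with
  | mk α A c ih =>
    rw [Eqf_iff] at h ⊢
    constructor
    · intro b q h1 h2
      obtain ⟨r, hr, a, h4, h5⟩ := h.2 b q h1 h2
      exact ⟨r, hr, a, h4, ih a h5⟩
    · intro a q h1 h2
      obtain ⟨r, hr, b, h4, h5⟩ := h.1 a q h1 h2
      exact ⟨r, hr, b, h4, ih a h5⟩

theorem Eqf_trans {σ τ ρ : Nm P} {p : P} (h : Eqf σ τ p) (h' : Eqf τ ρ p) : Eqf σ ρ p := by
  induction σ generalizing τ ρ p with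
  | mk α A c ih =>
    rw [Eqf_iff] at h h' ⊢
    constructor
    · intro a q h1 h2
      obtain ⟨r, hr, b, h3, h4⟩ := h.1 a q h1 h2
      obtain ⟨r', hr', e, h5, h6⟩ := h'.1 b r (hr.trans h1) h3
      exact ⟨r', hr'.trans hr, e, h5, ih a (Eqf_mono h4 hr') h6⟩
    · intro e q h1 h2
      obtain ⟨r, hr, b, h3, h4⟩ := h'.2 e q h1 h2
      obtain ⟨r', hr', a, h5, h6⟩ := h.2 b r (hr.trans h1) h3
      exact ⟨r', hr'.trans hr, a, h5, ih a h6 (Eqf_mono h4 hr')⟩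

theorem Memf_mono {σ τ : Nm P} {p q : P} (h : Memf σ τ p) (hq : q ≤ p) : Memf σ τ q :=
  fun q' h1 => h q' (h1.trans hq)

theorem Memf_reg {σ τ : Nm P} {p : P} (h : ∀ q ≤ p, ∃ r ≤ q, Memf σ τ r) : Memf σ τ p := by
  intro q hq
  obtain ⟨r, hr, h1⟩ := h q hq
  obtain ⟨r', hr', h2⟩ := h1 r le_rfl
  exact ⟨r', hr'.trans hr, h2⟩

theorem Memf_congr {σ σ' τ τ' : Nm P} {p : P} (h : Eqf σ σ' p) (h' : Eqf τ τ' p)
    (hm : Memf σ τ p) : Memf σ' τ' p := by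
  intro q hq
  obtain ⟨r, hr, b, h1, h2⟩ := hm q hq
  obtain ⟨r', hr', b', h3, h4⟩ := (Eqf_iff.1 h').1 b r (hr.trans hq) h1
  refine ⟨r', hr'.trans hr, b', h3, ?_⟩
  exact Eqf_trans (Eqf_mono (Eqf_symm h) ((hr'.trans hr).trans hq)) (Eqf_trans (Eqf_mono h2 hr') h4)

/-- elements of names -/
theorem Memf_of {τ : Nm P} (b : τ.Ix) {p : P} (h : p ≤ τ.cd b) : Memf (τ.fn b) τ p :=
  fun q hq => ⟨q, le_rfl, b, hq.trans h, Eqf_refl _ _⟩

/-- equality from inclusion on indices -/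
theorem Eqf_of {σ τ : Nm P} {p : P}
    (h1 : ∀ a : σ.Ix, ∀ q ≤ p, q ≤ σ.cd a → Memf (σ.fn a) τ q)
    (h2 : ∀ b : τ.Ix, ∀ q ≤ p, q ≤ τ.cd b → Memf (τ.fn b) σ q) : Eqf σ τ p := by
  rw [Eqf_iff]
  constructor
  · intro a q hq ha
    exact h1 a q hq ha q le_rfl
  · intro b q hq hb
    obtain ⟨r, hr, a, h3, h4⟩ := h2 b q hq hb q le_rfl
    exact ⟨r, hr, a, h3, Eqf_symm h4⟩

/-- extensionality -/
theorem Eqf_ext {σ τ : Nm P} {p : P} (h : ∀ ρ : Nm P, ∀ q ≤ p, Memf ρ σ q ↔ Memf ρ τ q) :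
    Eqf σ τ p :=
  Eqf_of (fun a q hq ha => (h _ q hq).1 (Memf_of a ha)) (fun b q hq hb => (h _ q hq).2 (Memf_of b hb))

theorem Fr_mono {φ : Fml} {v : ℕ → Nm P} {p q : P} (h : Fr φ v p) (hq : q ≤ p) : Fr φ v q := by
  induction φ generalizing v with
  | bot => exact h
  | mem i j => exact Memf_mono h hq
  | eq i j => exact Eqf_mono h hq
  | imp φ ψ _ _ => exact fun q' h1 h2 => h q' (h1.trans hq) h2
  | all φ ih => exact fun σ => ih (h σ)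

theorem Fr_reg {φ : Fml} {v : ℕ → Nm P} {p : P} (h : ∀ q ≤ p, ∃ r ≤ q, Fr φ v r) :
    Fr φ v p := by
  induction φ generalizing v p with
  | bot =>
    obtain ⟨_, _, h1⟩ := h p le_rfl
    exact h1
  | mem i j => exact Memf_reg h
  | eq i j => exact Eqf_reg h
  | imp φ ψ _ ih2 =>
    intro q hq hφ
    refine ih2 fun q' hq' => ?_
    obtain ⟨r, hr, h1⟩ := h q' (hq'.trans hq)
    exact ⟨r, hr, h1 r le_rfl (Fr_mono hφ (hr.trans hq'))⟩
  | all φ ih =>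
    intro σ
    refine ih fun q hq => ?_
    obtain ⟨r, hr, h1⟩ := h q hq
    exact ⟨r, hr, h1 σ⟩

theorem Fr_congr {φ : Fml} {v v' : ℕ → Nm P} {p : P} (h : ∀ i, Eqf (v i) (v' i) p)
    (hφ : Fr φ v p) : Fr φ v' p := by
  induction φ generalizing v v' p with
  | bot => exact hφ
  | mem i j => exact Memf_congr (h i) (h j) hφ
  | eq i j => exact Eqf_trans (Eqf_symm (h i)) (Eqf_trans hφ (h j))
  | imp φ ψ ih1 ih2 =>
    intro q hq h1
    have h2 : ∀ i, Eqf (v i) (v' i) q := fun i => Eqf_mono (h i) hq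
    exact ih2 h2 (hφ q hq (ih1 (fun i => Eqf_symm (h2 i)) h1))
  | all φ ih =>
    intro σ
    refine ih (fun i => ?_) (hφ σ)
    cases i with
    | zero => exact Eqf_refl _ _
    | succ i => exact h i

theorem Fr_neg {φ : Fml} {v : ℕ → Nm P} {p : P} :
    Fr φ.neg v p ↔ ∀ q ≤ p, ¬ Fr φ v q := Iff.rfl

/-- the sets of `Dset` are dense -/
theorem Dset_dense {H : Set (Nm P)} {D : Set P} (hD : Dset H D) (p : P) : ∃ q ≤ p, q ∈ D := by
  cases hD with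
  | dec φ l hl =>
    by_cases h : ∃ q ≤ p, Fr φ (asg l) q
    · obtain ⟨q, hq, h1⟩ := h
      exact ⟨q, hq, Or.inl h1⟩
    · push Not at h
      exact ⟨p, le_rfl, Or.inr h⟩
  | all φ l hl =>
    by_cases h : Fr (.all φ) (asg l) p
    · exact ⟨p, le_rfl, Or.inl h⟩
    · have h1 : ∃ σ, ¬ Fr φ (cons σ (asg l)) p := by
        by_contra hc
        push Not at hc
        exact h hc
      obtain ⟨σ, hσ⟩ := h1
      have h2 : ∃ q ≤ p, ∀ r ≤ q, ¬ Fr φ (cons σ (asg l)) r := by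
        by_contra hc
        push Not at hc
        exact hσ (Fr_reg hc)
      obtain ⟨q, hq, h3⟩ := h2
      exact ⟨q, hq, Or.inr ⟨σ, h3⟩⟩
  | mem σ τ hσ hτ =>
    by_cases h : ∀ r ≤ p, ¬ Memf σ τ r
    · exact ⟨p, le_rfl, Or.inr h⟩
    · push Not at h
      obtain ⟨r, hr, h1⟩ := h
      obtain ⟨r', hr', h2⟩ := h1 r le_rfl
      exact ⟨r', hr'.trans hr, Or.inl h2⟩
  | eq σ τ hσ hτ =>
    by_cases h : Eqf σ τ p
    · exact ⟨p, le_rfl, Or.inl h⟩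
    · have h1 : (∃ a : σ.Ix, ∃ q ≤ p, q ≤ σ.cd a ∧ ¬ Memf (σ.fn a) τ q) ∨
          (∃ b : τ.Ix, ∃ q ≤ p, q ≤ τ.cd b ∧ ¬ Memf (τ.fn b) σ q) := by
        by_contra hc
        push Not at hc
        exact h (Eqf_of (fun a q hq ha => hc.1 a q hq ha) (fun b q hq hb => hc.2 b q hq hb))
      rcases h1 with ⟨a, q, hq, ha, h2⟩ | ⟨b, q, hq, hb, h2⟩
      · have h3 : ∃ q' ≤ q, ∀ r ≤ q', ¬ Memf (σ.fn a) τ r := by
          by_contra hc
          push Not at hc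
          exact h2 (Memf_reg hc)
        obtain ⟨q', hq', h4⟩ := h3
        exact ⟨q', hq'.trans hq, Or.inr (Or.inr ⟨a, hq'.trans ha, h4⟩)⟩
      · have h3 : ∃ q' ≤ q, ∀ r ≤ q', ¬ Memf (τ.fn b) σ r := by
          by_contra hc
          push Not at hc
          exact h2 (Memf_reg hc)
        obtain ⟨q', hq', h4⟩ := h3
        exact ⟨q', hq'.trans hq, Or.inr (Or.inl ⟨b, hq'.trans hb, h4⟩)⟩

variable {H : Set (Nm P)} {Q G : Set P}

omit [Preorder P] in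
theorem mem_val {τ : Nm P} {x : V} :
    x ∈ val H G τ ↔ ∃ b : τ.Ix, τ.fn b ∈ H ∧ τ.cd b ∈ G ∧ x = val H G (τ.fn b) := by
  cases τ with
  | mk α A c =>
    rw [val, ZFSet.mem_range]
    constructor
    · rintro ⟨⟨a, h1, h2⟩, rfl⟩
      exact ⟨a, h1, h2, rfl⟩
    · rintro ⟨a, h1, h2, rfl⟩
      exact ⟨⟨a, h1, h2⟩, rfl⟩

omit [Preorder P] in
theorem Mod_trans (x : V) (hx : x ∈ Mod H G) (y : V) (hy : y ∈ x) : y ∈ Mod H G := by
  obtain ⟨τ, _, rfl⟩ := hx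
  obtain ⟨b, h1, _, rfl⟩ := mem_val.1 hy
  exact ⟨_, h1, rfl⟩

private theorem mem_iff_of (hH : Hull H Q) (hG : GenF H Q G) {σ τ : Nm P} (hσ : σ ∈ H) (hτ : τ ∈ H)
    (hE : ∀ b : τ.Ix, τ.fn b ∈ H → (val H G σ = val H G (τ.fn b) ↔ ∃ p ∈ G, Eqf σ (τ.fn b) p)) :
    val H G σ ∈ val H G τ ↔ ∃ p ∈ G, Memf σ τ p := by
  constructor
  · intro h
    obtain ⟨b, h1, h2, h3⟩ := mem_val.1 h
    obtain ⟨p, hp, h4⟩ := (hE b h1).1 h3
    obtain ⟨r, hr, hr1, hr2⟩ := hG.dir p hp _ h2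
    exact ⟨r, hr, Memf_congr (Eqf_mono (Eqf_symm h4) hr1) (Eqf_refl _ _) (Memf_of b hr2)⟩
  · rintro ⟨p, hp, h⟩
    obtain ⟨p', hp', h1⟩ := hG.meets _ (Dset.mem σ τ hσ hτ)
    rcases h1 with h1 | h1
    · obtain ⟨b, h2, h3, h4, h5⟩ := hH.mem σ hσ τ hτ p' (hG.sub hp') h1
      exact mem_val.2 ⟨b, h2, hG.up p' hp' _ h3 h4, (hE b h2).2 ⟨p', hp', h5⟩⟩
    · obtain ⟨r, _, hr1, hr2⟩ := hG.dir p hp p' hp'
      exact absurd (Memf_mono h hr1) (h1 r hr2)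

theorem val_eq_iff (hH : Hull H Q) (hG : GenF H Q G) {σ τ : Nm P} (hσ : σ ∈ H) (hτ : τ ∈ H) :
    val H G σ = val H G τ ↔ ∃ p ∈ G, Eqf σ τ p := by
  induction σ generalizing τ with
  | mk α A c ih =>
    have hM1 : ∀ a : α, A a ∈ H →
        (val H G (A a) ∈ val H G τ ↔ ∃ p ∈ G, Memf (A a) τ p) := by
      intro a ha
      exact mem_iff_of hH hG ha hτ fun b hb => ih a ha hb
    have hM2 : ∀ b : τ.Ix, τ.fn b ∈ H →
        (val H G (τ.fn b) ∈ val H G (.mk α A c) ↔ ∃ p ∈ G, Memf (τ.fn b) (.mk α A c) p) := by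
      intro b hb
      refine mem_iff_of hH hG hb hσ fun a ha => ?_
      have h1 := ih a ha hb
      constructor
      · intro h
        obtain ⟨p, hp, h2⟩ := h1.1 h.symm
        exact ⟨p, hp, Eqf_symm h2⟩
      · rintro ⟨p, hp, h2⟩
        exact (h1.2 ⟨p, hp, Eqf_symm h2⟩).symm
    constructor
    · intro h
      obtain ⟨p, hp, h1⟩ := hG.meets _ (Dset.eq (.mk α A c) τ hσ hτ)
      rcases h1 with h1 | h1 | h1
      · exact ⟨p, hp, h1⟩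
      · exfalso
        obtain ⟨b, h2, h3, h4, h5⟩ := hH.ne _ hσ τ hτ p (hG.sub hp) h1
        have h6 : val H G (τ.fn b) ∈ val H G τ := mem_val.2 ⟨b, h2, hG.up p hp _ h3 h4, rfl⟩
        rw [← h] at h6
        obtain ⟨p', hp', h7⟩ := (hM2 b h2).1 h6
        obtain ⟨r, _, hr1, hr2⟩ := hG.dir p hp p' hp'
        exact h5 r hr1 (Memf_mono h7 hr2)
      · exfalso
        obtain ⟨a, h2, h3, h4, h5⟩ := hH.ne τ hτ _ hσ p (hG.sub hp) h1
        have h6 : val H G (Nm.fn (.mk α A c) a) ∈ val H G (.mk α A c) :=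
          mem_val.2 ⟨a, h2, hG.up p hp _ h3 h4, rfl⟩
        rw [h] at h6
        obtain ⟨p', hp', h7⟩ := (hM1 a h2).1 h6
        obtain ⟨r, _, hr1, hr2⟩ := hG.dir p hp p' hp'
        exact h5 r hr1 (Memf_mono h7 hr2)
    · rintro ⟨p, hp, h⟩
      apply ZFSet.ext
      intro x
      constructor
      · intro hx
        obtain ⟨a, h1, h2, rfl⟩ := mem_val.1 hx
        obtain ⟨r, hr, hr1, hr2⟩ := hG.dir p hp _ h2
        exact (hM1 a h1).2 ⟨r, hr, Memf_congr (Eqf_refl _ _) (Eqf_mono h hr1)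
          (Memf_of (τ := .mk α A c) a hr2)⟩
      · intro hx
        obtain ⟨b, h1, h2, rfl⟩ := mem_val.1 hx
        obtain ⟨r, hr, hr1, hr2⟩ := hG.dir p hp _ h2
        exact (hM2 b h1).2 ⟨r, hr, Memf_congr (Eqf_refl _ _) (Eqf_mono (Eqf_symm h) hr1)
          (Memf_of b hr2)⟩

theorem val_mem_iff (hH : Hull H Q) (hG : GenF H Q G) {σ τ : Nm P} (hσ : σ ∈ H) (hτ : τ ∈ H) :
    val H G σ ∈ val H G τ ↔ ∃ p ∈ G, Memf σ τ p :=
  mem_iff_of hH hG hσ hτ fun _ hb => val_eq_iff hH hG hσ hb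

theorem asg_mem (hH : Hull H Q) {l : List (Nm P)} (hl : ∀ σ ∈ l, σ ∈ H) (n : ℕ) : asg l n ∈ H := by
  unfold asg
  rw [List.getD_eq_getElem?_getD]
  rcases Nat.lt_or_ge n l.length with h | h
  · rw [List.getElem?_eq_getElem h]
    exact hl _ (List.getElem_mem h)
  · rw [List.getElem?_eq_none h]
    exact hH.emp

omit [Preorder P] in
theorem asg_cons (σ : Nm P) (l : List (Nm P)) : asg (σ :: l) = cons σ (asg l) := by
  funext n
  cases n with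
  | zero => rfl
  | succ n => rfl

/-- the truth lemma -/
theorem truth (hH : Hull H Q) (hG : GenF H Q G) (φ : Fml) (l : List (Nm P))
    (hl : ∀ σ ∈ l, σ ∈ H) :
    Sat (Mod H G) φ (fun n => val H G (asg l n)) ↔ ∃ p ∈ G, Fr φ (asg l) p := by
  induction φ generalizing l with
  | bot =>
    constructor
    · intro h; exact h.elim
    · rintro ⟨_, _, h⟩; exact h
  | mem i j => exact val_mem_iff hH hG (asg_mem hH hl i) (asg_mem hH hl j)
  | eq i j => exact val_eq_iff hH hG (asg_mem hH hl i) (asg_mem hH hl j)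
  | imp φ ψ ih1 ih2 =>
    constructor
    · intro h
      obtain ⟨p, hp, h1⟩ := hG.meets _ (Dset.dec φ l hl)
      rcases h1 with h1 | h1
      · obtain ⟨p', hp', h2⟩ := (ih2 l hl).1 (h ((ih1 l hl).2 ⟨p, hp, h1⟩))
        exact ⟨p', hp', fun q hq _ => Fr_mono h2 hq⟩
      · exact ⟨p, hp, fun q hq h2 => absurd h2 (Fr_neg.1 h1 q hq)⟩
    · rintro ⟨p, hp, h⟩ h1
      obtain ⟨p', hp', h2⟩ := (ih1 l hl).1 h1
      obtain ⟨r, hr, hr1, hr2⟩ := hG.dir p hp p' hp'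
      exact (ih2 l hl).2 ⟨r, hr, h r hr1 (Fr_mono h2 hr2)⟩
  | all φ ih =>
    have hcons : ∀ σ : Nm P, cons (val H G σ) (fun n => val H G (asg l n)) =
        fun n => val H G (asg (σ :: l) n) := by
      intro σ
      funext n
      cases n with
      | zero => rfl
      | succ n => rfl
    have hlc : ∀ σ ∈ H, ∀ ρ ∈ σ :: l, ρ ∈ H := by
      intro σ hσ ρ hρ
      rcases List.mem_cons.1 hρ with h | h
      · rw [h]; exact hσ
      · exact hl ρ h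
    constructor
    · intro h
      obtain ⟨p, hp, h1⟩ := hG.meets _ (Dset.all φ l hl)
      rcases h1 with h1 | h1
      · exact ⟨p, hp, h1⟩
      · exfalso
        obtain ⟨σ, hσ, h2⟩ := hH.wit φ.neg l hl p (hG.sub hp) h1
        have h3 := h (val H G σ) ⟨σ, hσ, rfl⟩
        rw [hcons] at h3
        obtain ⟨p', hp', h4⟩ := (ih (σ :: l) (hlc σ hσ)).1 h3
        obtain ⟨r, _, hr1, hr2⟩ := hG.dir p hp p' hp'
        rw [asg_cons] at h4
        exact Fr_neg.1 h2 r hr1 (Fr_mono h4 hr2)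
    · rintro ⟨p, hp, h⟩ x ⟨σ, hσ, rfl⟩
      rw [hcons]
      refine (ih (σ :: l) (hlc σ hσ)).2 ⟨p, hp, ?_⟩
      rw [asg_cons]
      exact h σ

end Pool.Agent.CR
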