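import Pool.Agent.Lib.MP_72b52d_lc.CR.Truth

/-!
# MP_72b52d_lc : the generic model satisfies `ZFC`
-/

namespace Pool.Agent.CR

deriving instance Countable for Fml

/-! ### formulas -/

/-- bound for the free variables -/
def Fml.bd : Fml → ℕ
  | .bot => 0
  | .mem i j => max (i + 1) (j + 1)
  | .eq i j => max (i + 1) (j + 1)
  | .imp φ ψ => max φ.bd ψ.bd
  | .all φ => φ.bd - 1

theorem Sat_congr {N : Set V} (φ : Fml) : ∀ {v v' : ℕ → V}, (∀ i < φ.bd, v i = v' i) →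
    (Sat N φ v ↔ Sat N φ v') := by
  induction φ with
  | bot => intro v v' _; exact Iff.rfl
  | mem i j =>
    intro v v' h
    have h1 := h i (by simp [Fml.bd])
    have h2 := h j (by simp [Fml.bd])
    simp only [Sat, h1, h2]
  | eq i j =>
    intro v v' h
    have h1 := h i (by simp [Fml.bd])
    have h2 := h j (by simp [Fml.bd])
    simp only [Sat, h1, h2]
  | imp φ ψ ih1 ih2 =>
    intro v v' h
    have h1 := ih1 (v := v) (v' := v') fun i hi => h i (lt_of_lt_of_le hi (le_max_left _ _))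
    have h2 := ih2 (v := v) (v' := v') fun i hi => h i (lt_of_lt_of_le hi (le_max_right _ _))
    simp only [Sat, h1, h2]
  | all φ ih =>
    intro v v' h
    have h1 : ∀ x, Sat N φ (cons x v) ↔ Sat N φ (cons x v') := by
      intro x
      apply ih
      intro i hi
      cases i with
      | zero => rfl
      | succ i =>
        refine h i ?_
        simp only [Fml.bd]
        omega
    simp only [Sat, h1]

/-- conjunction -/
def Fml.and (φ ψ : Fml) : Fml := .neg (.imp φ (.neg ψ))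

/-- existential quantifier -/
def Fml.ex (φ : Fml) : Fml := .neg (.all (.neg φ))

theorem Sat_and {N : Set V} {φ ψ : Fml} {v : ℕ → V} :
    Sat N (.and φ ψ) v ↔ Sat N φ v ∧ Sat N ψ v := by
  simp only [Fml.and, Fml.neg, Sat]
  tauto

theorem Sat_ex {N : Set V} {φ : Fml} {v : ℕ → V} :
    Sat N (.ex φ) v ↔ ∃ x ∈ N, Sat N φ (cons x v) := by
  simp only [Fml.ex, Fml.neg, Sat]
  constructor
  · intro h
    by_contra hc
    exact h fun x hx h1 => hc ⟨x, hx, h1⟩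
  · rintro ⟨x, hx, h1⟩ h
    exact h x hx h1

/-- renaming under a quantifier -/
def liftR (f : ℕ → ℕ) : ℕ → ℕ
  | 0 => 0
  | n + 1 => f n + 1

/-- renaming of variables -/
def Fml.ren : (ℕ → ℕ) → Fml → Fml
  | _, .bot => .bot
  | f, .mem i j => .mem (f i) (f j)
  | f, .eq i j => .eq (f i) (f j)
  | f, .imp φ ψ => .imp (φ.ren f) (ψ.ren f)
  | f, .all φ => .all (φ.ren (liftR f))

theorem cons_comp_liftR {α : Type*} (x : α) (v : ℕ → α) (f : ℕ → ℕ) :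
    (fun n => cons x v (liftR f n)) = cons x (fun n => v (f n)) := by
  funext n
  cases n with
  | zero => rfl
  | succ n => rfl

theorem Sat_ren {N : Set V} (φ : Fml) : ∀ (f : ℕ → ℕ) (v : ℕ → V),
    Sat N (φ.ren f) v ↔ Sat N φ (fun n => v (f n)) := by
  induction φ with
  | bot => intro f v; exact Iff.rfl
  | mem i j => intro f v; exact Iff.rfl
  | eq i j => intro f v; exact Iff.rfl
  | imp φ ψ ih1 ih2 =>
    intro f v
    simp only [Fml.ren, Sat, ih1, ih2]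
  | all φ ih =>
    intro f v
    simp only [Fml.ren, Sat, ih, cons_comp_liftR]

section Names

variable {P : Type} [Preorder P]

theorem Fr_ren (φ : Fml) : ∀ (f : ℕ → ℕ) (v : ℕ → Nm P) (p : P),
    Fr (φ.ren f) v p ↔ Fr φ (fun n => v (f n)) p := by
  induction φ with
  | bot => intro f v p; exact Iff.rfl
  | mem i j => intro f v p; exact Iff.rfl
  | eq i j => intro f v p; exact Iff.rfl
  | imp φ ψ ih1 ih2 =>
    intro f v p
    simp only [Fml.ren, Fr, ih1, ih2]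
  | all φ ih =>
    intro f v p
    simp only [Fml.ren, Fr, ih, cons_comp_liftR]

theorem Fr_and {φ ψ : Fml} {v : ℕ → Nm P} {p : P} :
    Fr (.and φ ψ) v p ↔ Fr φ v p ∧ Fr ψ v p := by
  constructor
  · intro h
    have h1 : ∀ q ≤ p, ∃ r ≤ q, Fr φ v r ∧ Fr ψ v r := by
      intro q hq
      by_contra hc
      push Not at hc
      refine h q hq fun r hr h2 => ?_
      exact fun s hs h3 => hc s (hs.trans hr) (Fr_mono h2 hs) h3
    exact ⟨Fr_reg fun q hq => let ⟨r, hr, h2⟩ := h1 q hq; ⟨r, hr, h2.1⟩,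
      Fr_reg fun q hq => let ⟨r, hr, h2⟩ := h1 q hq; ⟨r, hr, h2.2⟩⟩
  · rintro ⟨h1, h2⟩ q hq h3
    exact h3 q le_rfl (Fr_mono h1 hq) q le_rfl (Fr_mono h2 hq)

theorem Fr_ex {φ : Fml} {v : ℕ → Nm P} {p : P} :
    Fr (.ex φ) v p ↔ ∀ q ≤ p, ∃ r ≤ q, ∃ σ, Fr φ (cons σ v) r := by
  constructor
  · intro h q hq
    by_contra hc
    push Not at hc
    exact h q hq fun σ r hr h2 => hc r hr σ h2
  · intro h q hq h1
    obtain ⟨r, hr, σ, h2⟩ := h q hq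
    exact h1 σ r hr h2

/-! ### names -/

/-- the name of a subset of `τ` -/
def subN (τ : Nm P) (S : τ.Ix → Set P) : Nm P :=
  .mk (Σ a : τ.Ix, {q : P // q ∈ S a}) (fun x => τ.fn x.1) (fun x => x.2.1)

/-- separation -/
def sepN (φ : Fml) (l : List (Nm P)) (τ : Nm P) : Nm P :=
  subN τ (fun a => {q | q ≤ τ.cd a ∧ Fr φ (cons (τ.fn a) (asg l)) q})

/-- power set -/
def powN (τ : Nm P) : Nm P :=
  .mk ((τ.Ix → Set P) × P) (fun x => subN τ x.1) (fun x => x.2)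

/-- union -/
def unionN (τ : Nm P) : Nm P :=
  .mk (Σ j : (Σ a : τ.Ix, (τ.fn a).Ix), {q : P // q ≤ τ.cd j.1 ∧ q ≤ (τ.fn j.1).cd j.2})
    (fun x => (τ.fn x.1.1).fn x.1.2) (fun x => x.2.1)

/-- unordered pair -/
def pairN (σ τ : Nm P) : Nm P :=
  .mk (Bool × P) (fun x => if x.1 then σ else τ) (fun x => x.2)

open Classical in
/-- collection -/
noncomputable def collN (φ : Fml) (l : List (Nm P)) (τ : Nm P) : Nm P :=
  .mk (τ.Ix × P)
    (fun x => if h : ∃ σ, Fr φ (cons σ (cons (τ.fn x.1) (asg l))) x.2 then h.choose else Nm.emp)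
    (fun x => x.2)

/-- choice -/
def chN (τ : Nm P) : Nm P :=
  .mk (Σ j : (Σ a : τ.Ix, (τ.fn a).Ix), {p : P // p ≤ τ.cd j.1 ∧ p ≤ (τ.fn j.1).cd j.2 ∧
      ∀ j' : (Σ a : τ.Ix, (τ.fn a).Ix), WellOrderingRel j' j → ∀ r ≤ p,
        ¬ (r ≤ τ.cd j'.1 ∧ r ≤ (τ.fn j'.1).cd j'.2 ∧ Eqf (τ.fn j'.1) (τ.fn j.1) r)})
    (fun x => (τ.fn x.1.1).fn x.1.2) (fun x => x.2.1)

end Names

/-- the name of `τ ∪ {τ}` -/
def sucN {P : Type} (τ : Nm P) : Nm P :=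
  .mk (Option τ.Ix × P) (fun x => x.1.elim τ τ.fn) (fun x => x.2)

/-- the canonical names of the natural numbers -/
def natN (P : Type) : ℕ → Nm P
  | 0 => Nm.emp
  | n + 1 => sucN (natN P n)

/-- the name of `ω` -/
def omN (P : Type) : Nm P := .mk (ℕ × P) (fun x => natN P x.1) (fun x => x.2)

/-! ### natural numbers -/

theorem mem_nat {x : V} {n : ℕ} : x ∈ nat n ↔ ∃ m < n, x = nat m := by
  induction n with
  | zero => simp [nat]
  | succ n ih =>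
    rw [nat, ZFSet.mem_insert_iff, ih]
    constructor
    · rintro (h | ⟨m, hm, h⟩)
      · exact ⟨n, Nat.lt_succ_self n, h⟩
      · exact ⟨m, Nat.lt_succ_of_lt hm, h⟩
    · rintro ⟨m, hm, h⟩
      rcases Nat.lt_succ_iff_lt_or_eq.1 hm with h1 | h1
      · exact Or.inr ⟨m, h1, h⟩
      · exact Or.inl (h1 ▸ h)

theorem natN_fn {P : Type} (n : ℕ) (b : (natN P n).Ix) : ∃ m < n, (natN P n).fn b = natN P m := by
  induction n with
  | zero => exact b.elim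
  | succ n ih =>
    obtain ⟨a, p⟩ := b
    cases a with
    | none => exact ⟨n, Nat.lt_succ_self n, rfl⟩
    | some a =>
      obtain ⟨m, hm, h⟩ := ih a
      exact ⟨m, Nat.lt_succ_of_lt hm, h⟩

theorem natN_ex {P : Type} (n m : ℕ) (hm : m < n) (p : P) :
    ∃ b : (natN P n).Ix, (natN P n).fn b = natN P m ∧ (natN P n).cd b = p := by
  induction n with
  | zero => exact absurd hm (Nat.not_lt_zero m)
  | succ n ih =>
    rcases Nat.lt_succ_iff_lt_or_eq.1 hm with h1 | h1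
    · obtain ⟨a, h2, _⟩ := ih h1
      exact ⟨(some a, p), h2, rfl⟩
    · exact ⟨(none, p), by rw [h1]; rfl, rfl⟩

theorem val_natN {P : Type} {H : Set (Nm P)} {G : Set P} (hG : G.Nonempty)
    (hH : ∀ n, natN P n ∈ H) (n : ℕ) : val H G (natN P n) = nat n := by
  induction n using Nat.strong_induction_on with
  | _ n ih =>
    apply ZFSet.ext
    intro x
    rw [mem_val, mem_nat]
    constructor
    · rintro ⟨b, _, _, h⟩
      obtain ⟨m, hm, h1⟩ := natN_fn n b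
      exact ⟨m, hm, by rw [h, h1, ih m hm]⟩
    · rintro ⟨m, hm, h⟩
      obtain ⟨p, hp⟩ := hG
      obtain ⟨b, h1, h2⟩ := natN_ex n m hm p
      exact ⟨b, by rw [h1]; exact hH m, by rw [h2]; exact hp, by rw [h1, ih m hm, h]⟩

theorem mem_val_omN {P : Type} {H : Set (Nm P)} {G : Set P} (hG : G.Nonempty)
    (hH : ∀ n, natN P n ∈ H) {x : V} : x ∈ val H G (omN P) ↔ ∃ n, x = nat n := by
  rw [mem_val]
  constructor
  · rintro ⟨⟨n, p⟩, _, _, h⟩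
    exact ⟨n, by rw [h]; exact val_natN hG hH n⟩
  · rintro ⟨n, h⟩
    obtain ⟨p, hp⟩ := hG
    exact ⟨(n, p), hH n, hp, by rw [h]; exact (val_natN ⟨p, hp⟩ hH n).symm⟩

section Ax

variable {P : Type} [Preorder P]

/-! ### forcing facts -/

theorem Memf_sepN {φ : Fml} {l : List (Nm P)} {τ ρ : Nm P} {q : P} :
    Memf ρ (sepN φ l τ) q ↔ Memf ρ τ q ∧ Fr φ (cons ρ (asg l)) q := by
  have hc : ∀ {σ σ' : Nm P} {r : P}, Eqf σ σ' r → Fr φ (cons σ (asg l)) r →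
      Fr φ (cons σ' (asg l)) r := by
    intro σ σ' r h h1
    refine Fr_congr (fun i => ?_) h1
    cases i with
    | zero => exact h
    | succ i => exact Eqf_refl _ _
  constructor
  · intro h
    constructor
    · intro q' hq'
      obtain ⟨r, hr, ⟨a, s⟩, h1, h2⟩ := h q' hq'
      exact ⟨r, hr, a, h1.trans s.2.1, h2⟩
    · refine Fr_reg fun q' hq' => ?_
      obtain ⟨r, hr, ⟨a, s⟩, h1, h2⟩ := h q' hq'
      exact ⟨r, hr, hc (Eqf_symm h2) (Fr_mono s.2.2 h1)⟩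
  · rintro ⟨h1, h2⟩ q' hq'
    obtain ⟨r, hr, a, h3, h4⟩ := h1 q' hq'
    exact ⟨r, hr, ⟨a, ⟨r, h3, hc h4 (Fr_mono h2 (hr.trans hq'))⟩⟩, le_rfl, h4⟩

theorem Memf_unionN {τ ρ : Nm P} {q : P} :
    Memf ρ (unionN τ) q ↔ ∀ q' ≤ q, ∃ r ≤ q', ∃ σ, Memf σ τ r ∧ Memf ρ σ r := by
  constructor
  · intro h q' hq'
    obtain ⟨r, hr, ⟨⟨a, b⟩, s⟩, h1, h2⟩ := h q' hq'
    refine ⟨r, hr, τ.fn a, Memf_of a (h1.trans s.2.1), ?_⟩
    exact Memf_congr (Eqf_symm h2) (Eqf_refl _ _) (Memf_of b (h1.trans s.2.2))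
  · intro h q' hq'
    obtain ⟨r, hr, σ, h1, h2⟩ := h q' hq'
    obtain ⟨r1, hr1, a, h3, h4⟩ := h1 r le_rfl
    have h5 : Memf ρ (τ.fn a) r1 := Memf_congr (Eqf_refl _ _) h4 (Memf_mono h2 hr1)
    obtain ⟨r2, hr2, b, h6, h7⟩ := h5 r1 le_rfl
    exact ⟨r2, hr2.trans (hr1.trans hr), ⟨⟨a, b⟩, ⟨r2, hr2.trans h3, h6⟩⟩, le_rfl, h7⟩

theorem chN_ex {τ ρ ζ : Nm P} {p : P} (h1 : Memf ρ τ p) (h2 : Memf ζ ρ p) :
    ∀ q ≤ p, ∃ r ≤ q, ∃ ζ', Memf ζ' ρ r ∧ Memf ζ' (chN τ) r := by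
  intro q hq
  obtain ⟨r1, hr1, a, h3, h4⟩ := h1 q hq
  have h5 : Memf ζ (τ.fn a) r1 := Memf_congr (Eqf_refl _ _) h4 (Memf_mono h2 (hr1.trans hq))
  obtain ⟨r3, hr3, b, h6, _⟩ := h5 r1 le_rfl
  let T : Set (Σ a : τ.Ix, (τ.fn a).Ix) := {j | ∃ r ≤ r1, r ≤ τ.cd j.1 ∧ r ≤ (τ.fn j.1).cd j.2 ∧
    Eqf (τ.fn j.1) (τ.fn a) r}
  have hT : T.Nonempty := ⟨⟨a, b⟩, r3, hr3, hr3.trans h3, h6, Eqf_refl _ _⟩
  have hwf : WellFounded (WellOrderingRel : (Σ a : τ.Ix, (τ.fn a).Ix) → _ → Prop) :=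
    WellOrderingRel.isWellOrder.wf
  obtain ⟨j, ⟨r0, hr0, h7, h8, h9⟩, hmin⟩ := hwf.has_min T hT
  have h10 : ∀ j' : (Σ a : τ.Ix, (τ.fn a).Ix), WellOrderingRel j' j → ∀ r ≤ r0,
        ¬ (r ≤ τ.cd j'.1 ∧ r ≤ (τ.fn j'.1).cd j'.2 ∧ Eqf (τ.fn j'.1) (τ.fn j.1) r) := by
    rintro j' hj' r hr ⟨h11, h12, h13⟩
    exact hmin j' ⟨r, hr.trans hr0, h11, h12, Eqf_trans h13 (Eqf_mono h9 hr)⟩ hj'
  refine ⟨r0, hr0.trans hr1, (τ.fn j.1).fn j.2, ?_, ?_⟩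
  · exact Memf_congr (Eqf_refl _ _) (Eqf_trans h9 (Eqf_mono (Eqf_symm h4) hr0)) (Memf_of j.2 h8)
  · exact Memf_of (τ := chN τ) ⟨j, ⟨r0, h7, h8, h10⟩⟩ le_rfl

theorem chN_un {τ ρ ζ ζ' : Nm P} {p : P} (hd : ∀ q ≤ p, ∀ ρ₁ ρ₂ ξ : Nm P, Memf ρ₁ τ q →
      Memf ρ₂ τ q → Memf ξ ρ₁ q → Memf ξ ρ₂ q → Eqf ρ₁ ρ₂ q)
    (h1 : Memf ρ τ p) (h2 : Memf ζ ρ p) (h3 : Memf ζ (chN τ) p) (h4 : Memf ζ' ρ p)
    (h5 : Memf ζ' (chN τ) p) : Eqf ζ ζ' p := by
  refine Eqf_reg fun q hq => ?_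
  obtain ⟨r, hr, ⟨j, s⟩, h6, h7⟩ := h3 q hq
  obtain ⟨r', hr', ⟨j', s'⟩, h8, h9⟩ := h5 r (hr.trans hq)
  refine ⟨r', hr'.trans hr, ?_⟩
  have hr'p : r' ≤ p := hr'.trans (hr.trans hq)
  have h6' : r' ≤ s.1 := hr'.trans h6
  have h7' : Eqf ζ ((τ.fn j.1).fn j.2) r' := Eqf_mono h7 hr'
  have h8' : r' ≤ s'.1 := h8
  have h9' : Eqf ζ' ((τ.fn j'.1).fn j'.2) r' := h9
  have e1 : Eqf (τ.fn j.1) ρ r' := hd r' hr'p _ _ ζ (Memf_of j.1 (h6'.trans s.2.1))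
    (Memf_mono h1 hr'p)
    (Memf_congr (Eqf_symm h7') (Eqf_refl _ _) (Memf_of j.2 (h6'.trans s.2.2.1)))
    (Memf_mono h2 hr'p)
  have e2 : Eqf (τ.fn j'.1) ρ r' := hd r' hr'p _ _ ζ' (Memf_of j'.1 (h8'.trans s'.2.1))
    (Memf_mono h1 hr'p)
    (Memf_congr (Eqf_symm h9') (Eqf_refl _ _) (Memf_of j'.2 (h8'.trans s'.2.2.1)))
    (Memf_mono h4 hr'p)
  rcases trichotomous_of (WellOrderingRel : (Σ a : τ.Ix, (τ.fn a).Ix) → _ → Prop) j j' with
    h | h | h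
  · exact absurd ⟨h6'.trans s.2.1, h6'.trans s.2.2.1, Eqf_trans e1 (Eqf_symm e2)⟩
      (s'.2.2.2 j h r' h8')
  · subst h
    exact Eqf_trans h7' (Eqf_symm h9')
  · exact absurd ⟨h8'.trans s'.2.1, h8'.trans s'.2.2.1, Eqf_trans e2 (Eqf_symm e1)⟩
      (s.2.2.2 j' h r' h6')

end Ax

/-! ### operations -/

/-- codes of operations -/
inductive OpC : Type
  | sep (φ : Fml) : OpC
  | coll (φ : Fml) : OpC
  | union : OpC
  | pair : OpC
  | pow : OpC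
  | ch : OpC
  | om : OpC
  | nt (n : ℕ) : OpC
deriving Countable

/-- the operation of a code -/
noncomputable def opF {P : Type} [Preorder P] : OpC → List (Nm P) → Nm P
  | .sep φ, τ :: l => sepN φ l τ
  | .coll φ, τ :: l => collN φ l τ
  | .union, τ :: _ => unionN τ
  | .pair, σ :: τ :: _ => pairN σ τ
  | .pow, τ :: _ => powN τ
  | .ch, τ :: _ => chN τ
  | .om, _ => omN P
  | .nt n, _ => natN P n
  | _, _ => Nm.emp

section Model

variable {P : Type} [Preorder P] {H : Set (Nm P)} {Q G : Set P}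

omit [Preorder P] in
theorem exists_list (n : ℕ) (v : ℕ → V) (hv : ∀ n, v n ∈ Mod H G) :
    ∃ l : List (Nm P), (∀ σ ∈ l, σ ∈ H) ∧ ∀ i < n, val H G (asg l i) = v i := by
  choose f hf hfv using hv
  refine ⟨(List.range n).map f, ?_, ?_⟩
  · intro σ hσ
    obtain ⟨i, _, rfl⟩ := List.mem_map.1 hσ
    exact hf i
  · intro i hi
    unfold asg
    rw [List.getD_eq_getElem?_getD, List.getElem?_map, List.getElem?_range hi]
    exact hfv i

variable (hH : Hull H Q) (hop : ∀ c l, (∀ σ ∈ l, σ ∈ H) → opF c l ∈ H) (hG : GenF H Q G)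

include hH hop hG

theorem mod_sep (φ : Fml) (v : ℕ → V) (hv : ∀ n, v n ∈ Mod H G) (a : V) (ha : a ∈ Mod H G) :
    ∃ b ∈ Mod H G, ∀ x ∈ Mod H G, x ∈ b ↔ x ∈ a ∧ Sat (Mod H G) φ (cons x v) := by
  obtain ⟨l, hl, hlv⟩ := exists_list φ.bd v hv
  obtain ⟨τ, hτ, rfl⟩ := ha
  have hs : sepN φ l τ ∈ H := hop (.sep φ) (τ :: l) (by
    intro σ hσ
    rcases List.mem_cons.1 hσ with h | h
    · rw [h]; exact hτ
    · exact hl σ h)
  refine ⟨_, ⟨_, hs, rfl⟩, ?_⟩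
  rintro _ ⟨ρ, hρ, rfl⟩
  have hsat : Sat (Mod H G) φ (cons (val H G ρ) v) ↔ ∃ p ∈ G, Fr φ (asg (ρ :: l)) p := by
    rw [← truth hH hG φ (ρ :: l) (by
      intro σ hσ
      rcases List.mem_cons.1 hσ with h | h
      · rw [h]; exact hρ
      · exact hl σ h)]
    apply Sat_congr
    intro i hi
    cases i with
    | zero => rfl
    | succ i => exact (hlv i (by omega)).symm
  rw [val_mem_iff hH hG hρ hs, val_mem_iff hH hG hρ hτ, hsat, asg_cons]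
  constructor
  · rintro ⟨p, hp, h⟩
    exact ⟨⟨p, hp, (Memf_sepN.1 h).1⟩, ⟨p, hp, (Memf_sepN.1 h).2⟩⟩
  · rintro ⟨⟨p, hp, h⟩, ⟨p', hp', h'⟩⟩
    obtain ⟨r, hr, hr1, hr2⟩ := hG.dir p hp p' hp'
    exact ⟨r, hr, Memf_sepN.2 ⟨Memf_mono h hr1, Fr_mono h' hr2⟩⟩

theorem mod_coll (φ : Fml) (v : ℕ → V) (hv : ∀ n, v n ∈ Mod H G) (a : V) (ha : a ∈ Mod H G) :
    ∃ b ∈ Mod H G, ∀ x ∈ a, ∀ y ∈ Mod H G, Sat (Mod H G) φ (cons y (cons x v)) →
      ∃ y' ∈ Mod H G, y' ∈ b ∧ Sat (Mod H G) φ (cons y' (cons x v)) := by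
  obtain ⟨l, hl, hlv⟩ := exists_list φ.bd v hv
  obtain ⟨τ, hτ, rfl⟩ := ha
  have hc : collN φ l τ ∈ H := hop (.coll φ) (τ :: l) (by
    intro σ hσ
    rcases List.mem_cons.1 hσ with h | h
    · rw [h]; exact hτ
    · exact hl σ h)
  refine ⟨_, ⟨_, hc, rfl⟩, ?_⟩
  rintro x hx _ ⟨ρ, hρ, rfl⟩ hsat
  obtain ⟨a, haH, haG, rfl⟩ := mem_val.1 hx
  have hl1 : ∀ σ ∈ τ.fn a :: l, σ ∈ H := by
    intro σ hσ
    rcases List.mem_cons.1 hσ with h | h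
    · rw [h]; exact haH
    · exact hl σ h
  have hl2 : ∀ σ ∈ ρ :: τ.fn a :: l, σ ∈ H := by
    intro σ hσ
    rcases List.mem_cons.1 hσ with h | h
    · rw [h]; exact hρ
    · exact hl1 σ h
  have hl3 : ∀ σ ∈ collN φ l τ :: τ.fn a :: l, σ ∈ H := by
    intro σ hσ
    rcases List.mem_cons.1 hσ with h | h
    · rw [h]; exact hc
    · exact hl1 σ h
  have h1 : Sat (Mod H G) φ (fun n => val H G (asg (ρ :: τ.fn a :: l) n)) := by
    rw [← Sat_congr φ (v := cons (val H G ρ) (cons (val H G (τ.fn a)) v))]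
    · exact hsat
    · intro i hi
      rcases i with _ | _ | i
      · rfl
      · rfl
      · exact (hlv i (by omega)).symm
  obtain ⟨p, hp, h2⟩ := (truth hH hG φ _ hl2).1 h1
  rw [asg_cons, asg_cons] at h2
  have hex : ∃ σ, Fr φ (cons σ (cons (τ.fn a) (asg l))) p := ⟨ρ, h2⟩
  let f : ℕ → ℕ := fun n => if n = 0 then 0 else n + 1
  have h3 : Fr (.ex (.and (.mem 0 1) (φ.ren f))) (asg (collN φ l τ :: τ.fn a :: l)) p := by
    rw [Fr_ex]
    intro q hq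
    refine ⟨q, le_rfl, hex.choose, ?_⟩
    rw [Fr_and, Fr_ren]
    constructor
    · change Memf hex.choose (collN φ l τ) q
      have h4 : (collN φ l τ).fn ((a, p) : τ.Ix × P) = hex.choose := dif_pos hex
      have h5 := Memf_of (τ := collN φ l τ) ((a, p) : τ.Ix × P) (p := q) hq
      rw [h4] at h5
      exact h5
    · have h4 : (fun n => cons hex.choose (asg (collN φ l τ :: τ.fn a :: l)) (f n)) =
          cons hex.choose (cons (τ.fn a) (asg l)) := by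
        funext n
        rcases n with _ | _ | n
        · rfl
        · rfl
        · rfl
      rw [h4]
      exact Fr_mono hex.choose_spec hq
  have h4 := (truth hH hG _ _ hl3).2 ⟨p, hp, h3⟩
  rw [Sat_ex] at h4
  obtain ⟨y', hy', h5⟩ := h4
  rw [Sat_and, Sat_ren] at h5
  refine ⟨y', hy', h5.1, ?_⟩
  refine (Sat_congr φ ?_).1 h5.2
  intro i hi
  rcases i with _ | _ | i
  · rfl
  · rfl
  · exact hlv i (by omega)

theorem mod_isTransModel : IsTransModelZFC (Mod H G) := by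
  have htr : ∀ x ∈ Mod H G, ∀ y ∈ x, y ∈ Mod H G := fun x hx y hy => Mod_trans x hx y hy
  have hsep := mod_sep hH hop hG
  have hcoll := mod_coll hH hop hG
  refine ⟨htr, ?_, ?_, ?_, ?_, ?_, ?_, ?_, ?_, ?_⟩
  · -- extensionality
    intro x hx y hy h
    apply ZFSet.ext
    intro z
    exact ⟨fun hz => (h z (htr x hx z hz)).1 hz, fun hz => (h z (htr y hy z hz)).2 hz⟩
  · -- foundation
    rintro x hx ⟨y, _, hyx⟩
    have hne : x ≠ ∅ := by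
      rintro rfl
      exact ZFSet.notMem_empty _ hyx
    obtain ⟨z, hz, hzx⟩ := ZFSet.regularity x hne
    refine ⟨z, htr x hx z hz, hz, fun w _ hwz hwx => ?_⟩
    have : w ∈ x ∩ z := ZFSet.mem_inter.2 ⟨hwx, hwz⟩
    rw [hzx] at this
    exact ZFSet.notMem_empty _ this
  · -- pairing
    rintro _ ⟨σ, hσ, rfl⟩ _ ⟨τ, hτ, rfl⟩
    have hp : pairN σ τ ∈ H := hop .pair [σ, τ] (by simp [hσ, hτ])
    refine ⟨_, ⟨_, hp, rfl⟩, fun w _ => ?_⟩
    rw [mem_val]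
    constructor
    · rintro ⟨⟨b, p⟩, _, _, h⟩
      cases b with
      | true => exact Or.inl h
      | false => exact Or.inr h
    · obtain ⟨p, hpG⟩ := hG.nonempty
      rintro (h | h)
      · exact ⟨(true, p), hσ, hpG, h⟩
      · exact ⟨(false, p), hτ, hpG, h⟩
  · -- union
    rintro _ ⟨τ, hτ, rfl⟩
    have hu : unionN τ ∈ H := hop .union [τ] (by simp [hτ])
    refine ⟨_, ⟨_, hu, rfl⟩, ?_⟩
    rintro _ ⟨ρ, hρ, rfl⟩
    rw [val_mem_iff hH hG hρ hu]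
    constructor
    · rintro ⟨p, hp, h⟩
      have h1 : Fr (.ex (.and (.mem 0 2) (.mem 1 0))) (asg [ρ, τ]) p := by
        rw [Fr_ex]
        intro q hq
        obtain ⟨r, hr, σ, h2, h3⟩ := Memf_unionN.1 h q hq
        exact ⟨r, hr, σ, Fr_and.2 ⟨h2, h3⟩⟩
      have h2 := (truth hH hG _ [ρ, τ] (by simp [hρ, hτ])).2 ⟨p, hp, h1⟩
      rw [Sat_ex] at h2
      obtain ⟨y, hy, h3⟩ := h2
      rw [Sat_and] at h3
      exact ⟨y, hy, h3.1, h3.2⟩
    · rintro ⟨_, ⟨σ, hσ, rfl⟩, h1, h2⟩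
      obtain ⟨p, hp, h3⟩ := (val_mem_iff hH hG hσ hτ).1 h1
      obtain ⟨p', hp', h4⟩ := (val_mem_iff hH hG hρ hσ).1 h2
      obtain ⟨r, hr, hr1, hr2⟩ := hG.dir p hp p' hp'
      exact ⟨r, hr, Memf_unionN.2 fun q hq => ⟨q, le_rfl, σ, Memf_mono h3 (hq.trans hr1),
        Memf_mono h4 (hq.trans hr2)⟩⟩
  · -- power set
    rintro _ ⟨τ, hτ, rfl⟩
    have hpw : powN τ ∈ H := hop .pow [τ] (by simp [hτ])
    obtain ⟨b, hb, hb'⟩ := hsep (.all (.imp (.mem 0 1) (.mem 0 2))) (fun _ => val H G τ)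
      (fun _ => ⟨τ, hτ, rfl⟩) _ ⟨_, hpw, rfl⟩
    refine ⟨b, hb, ?_⟩
    rintro _ ⟨σ, hσ, rfl⟩
    rw [hb' _ ⟨σ, hσ, rfl⟩]
    constructor
    · rintro ⟨_, h⟩
      exact h
    · intro h
      refine ⟨?_, h⟩
      obtain ⟨p, hp⟩ := hG.nonempty
      have hs : sepN (.mem 0 1) [σ] τ ∈ H := hop (.sep (.mem 0 1)) [τ, σ] (by simp [hσ, hτ])
      rw [mem_val]
      refine ⟨((fun a => {q | q ≤ τ.cd a ∧ Fr (.mem 0 1) (cons (τ.fn a) (asg [σ])) q}), p), hs, hp,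
        ?_⟩
      change val H G σ = val H G (sepN (.mem 0 1) [σ] τ)
      apply ZFSet.ext
      intro x
      constructor
      · intro hx
        obtain ⟨ρ, hρ, rfl⟩ := htr _ ⟨σ, hσ, rfl⟩ x hx
        have h1 := h _ ⟨ρ, hρ, rfl⟩ hx
        obtain ⟨q, hq, h2⟩ := (val_mem_iff hH hG hρ hτ).1 h1
        obtain ⟨q', hq', h3⟩ := (val_mem_iff hH hG hρ hσ).1 hx
        obtain ⟨r, hr, hr1, hr2⟩ := hG.dir q hq q' hq'
        refine (val_mem_iff hH hG hρ hs).2 ⟨r, hr, Memf_sepN.2 ⟨Memf_mono h2 hr1, ?_⟩⟩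
        exact Memf_mono h3 hr2
      · intro hx
        obtain ⟨ρ, hρ, rfl⟩ := htr _ ⟨_, hs, rfl⟩ x hx
        obtain ⟨q, hq, h2⟩ := (val_mem_iff hH hG hρ hs).1 hx
        exact (val_mem_iff hH hG hρ hσ).2 ⟨q, hq, (Memf_sepN.1 h2).2⟩
  · -- infinity
    have hn : ∀ n, natN P n ∈ H := fun n => hop (.nt n) [] (by simp)
    have hom : omN P ∈ H := hop .om [] (by simp)
    have hnm : ∀ n, nat n ∈ Mod H G := fun n => ⟨_, hn n, val_natN hG.nonempty hn n⟩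
    refine ⟨_, ⟨_, hom, rfl⟩, ⟨nat 0, hnm 0, ?_, ?_⟩, ?_⟩
    · intro u _
      exact ZFSet.notMem_empty u
    · exact (mem_val_omN hG.nonempty hn).2 ⟨0, rfl⟩
    · intro y _ hy
      obtain ⟨n, rfl⟩ := (mem_val_omN hG.nonempty hn).1 hy
      refine ⟨nat (n + 1), hnm _, (mem_val_omN hG.nonempty hn).2 ⟨n + 1, rfl⟩, fun w _ => ?_⟩
      rw [nat, ZFSet.mem_insert_iff]
      exact Or.comm
  · -- separation
    exact hsep
  · -- replacement
    intro φ v hv a ha hfun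
    obtain ⟨c, hc, hcoll'⟩ := hcoll φ v hv a ha
    let g : ℕ → ℕ := fun n => match n with
      | 0 => 1
      | 1 => 0
      | n + 2 => n + 3
    obtain ⟨b, hb, hb'⟩ := hsep (.ex (.and (.mem 0 2) (φ.ren g))) (cons a v) (by
      intro n
      cases n with
      | zero => exact ha
      | succ n => exact hv n) c hc
    have hsat : ∀ y, Sat (Mod H G) (.ex (.and (.mem 0 2) (φ.ren g))) (cons y (cons a v)) ↔
        ∃ x ∈ Mod H G, x ∈ a ∧ Sat (Mod H G) φ (cons y (cons x v)) := by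
      intro y
      rw [Sat_ex]
      refine exists_congr fun x => and_congr_right fun _ => ?_
      rw [Sat_and, Sat_ren]
      have h4 : (fun n => cons x (cons y (cons a v)) (g n)) = cons y (cons x v) := by
        funext n
        rcases n with _ | _ | n
        · rfl
        · rfl
        · rfl
      rw [h4]
      exact Iff.rfl
    refine ⟨b, hb, fun y hy => ?_⟩
    rw [hb' y hy, hsat]
    constructor
    · rintro ⟨_, h⟩
      exact h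
    · rintro ⟨x, hx, hxa, h⟩
      refine ⟨?_, x, hx, hxa, h⟩
      obtain ⟨y', hy', hy'c, h'⟩ := hcoll' x hxa y hy h
      obtain ⟨y0, _, huniq⟩ := hfun x hx hxa
      rw [huniq y ⟨hy, h⟩, ← huniq y' ⟨hy', h'⟩]
      exact hy'c
  · -- choice
    rintro _ ⟨τ, hτ, rfl⟩ hne hdisj
    have hc : chN τ ∈ H := hop .ch [τ] (by simp [hτ])
    refine ⟨_, ⟨_, hc, rfl⟩, ?_⟩
    rintro _ ⟨ρ, hρ, rfl⟩ hyx
    obtain ⟨p₁, hp₁, h1⟩ := (val_mem_iff hH hG hρ hτ).1 hyx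
    -- disjointness is forced
    have hD : Sat (Mod H G) (.all (.imp (.mem 0 1) (.all (.imp (.mem 0 2)
        (.imp (.ex (.and (.mem 0 2) (.mem 0 1))) (.eq 1 0))))))
        (fun n => val H G (asg [τ] n)) := by
      intro y hy hyx y' hy' hy'x hz
      rw [Sat_ex] at hz
      obtain ⟨z, hz, h2⟩ := hz
      rw [Sat_and] at h2
      exact hdisj y hy hyx y' hy' hy'x ⟨z, hz, h2.1, h2.2⟩
    obtain ⟨p₀, hp₀, hD'⟩ := (truth hH hG _ [τ] (by simp [hτ])).1 hD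
    have hd : ∀ q ≤ p₀, ∀ ρ₁ ρ₂ ξ : Nm P, Memf ρ₁ τ q →
        Memf ρ₂ τ q → Memf ξ ρ₁ q → Memf ξ ρ₂ q → Eqf ρ₁ ρ₂ q := by
      intro q hq ρ₁ ρ₂ ξ m1 m2 m3 m4
      refine hD' ρ₁ q hq m1 ρ₂ q le_rfl m2 q le_rfl ?_
      rw [Fr_ex]
      intro s hs
      exact ⟨s, le_rfl, ξ, Fr_and.2 ⟨Memf_mono m3 hs, Memf_mono m4 hs⟩⟩
    obtain ⟨_, ⟨ζ, hζ, rfl⟩, hzy⟩ := hne _ ⟨ρ, hρ, rfl⟩ hyx
    obtain ⟨p₂, hp₂, h2⟩ := (val_mem_iff hH hG hζ hρ).1 hzy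
    obtain ⟨p, hp, hpp1, hpp2⟩ := hG.dir p₁ hp₁ p₂ hp₂
    have h3 : Fr (.ex (.and (.mem 0 1) (.mem 0 2))) (asg [ρ, chN τ]) p := by
      rw [Fr_ex]
      intro q hq
      obtain ⟨r, hr, ζ', h4, h5⟩ := chN_ex (Memf_mono h1 hpp1) (Memf_mono h2 hpp2) q hq
      exact ⟨r, hr, ζ', Fr_and.2 ⟨h4, h5⟩⟩
    have h4 := (truth hH hG _ [ρ, chN τ] (by simp [hρ, hc])).2 ⟨p, hp, h3⟩
    rw [Sat_ex] at h4
    obtain ⟨z, hz, h5⟩ := h4
    rw [Sat_and] at h5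
    refine ⟨z, ⟨hz, h5.1, h5.2⟩, ?_⟩
    rintro z' ⟨hz', h6, h7⟩
    obtain ⟨ξ, hξ, rfl⟩ := hz
    obtain ⟨ξ', hξ', rfl⟩ := hz'
    have h5a : val H G ξ ∈ val H G ρ := h5.1
    have h5b : val H G ξ ∈ val H G (chN τ) := h5.2
    obtain ⟨q1, hq1, m1⟩ := (val_mem_iff hH hG hξ hρ).1 h5a
    obtain ⟨q2, hq2, m2⟩ := (val_mem_iff hH hG hξ hc).1 h5b
    obtain ⟨q3, hq3, m3⟩ := (val_mem_iff hH hG hξ' hρ).1 h6
    obtain ⟨q4, hq4, m4⟩ := (val_mem_iff hH hG hξ' hc).1 h7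
    obtain ⟨r1, hr1, a1, a2⟩ := hG.dir q1 hq1 q2 hq2
    obtain ⟨r2, hr2, a3, a4⟩ := hG.dir q3 hq3 q4 hq4
    obtain ⟨r3, hr3, a5, a6⟩ := hG.dir r1 hr1 r2 hr2
    obtain ⟨r4, hr4, a7, a8⟩ := hG.dir p₀ hp₀ p₁ hp₁
    obtain ⟨r, hr, a9, a10⟩ := hG.dir r3 hr3 r4 hr4
    refine ((val_eq_iff hH hG hξ hξ').2 ⟨r, hr, ?_⟩).symm
    exact chN_un (fun q hq => hd q (hq.trans (a10.trans a7))) (Memf_mono h1 (a10.trans a8))
      (Memf_mono m1 (a9.trans (a5.trans a1))) (Memf_mono m2 (a9.trans (a5.trans a2)))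
      (Memf_mono m3 (a9.trans (a6.trans a3))) (Memf_mono m4 (a9.trans (a6.trans a4)))

end Model

/-- the generic model is a transitive model of `ZFC` -/
theorem zfc (P : Type) [Preorder P] : ∃ ops : ℕ → List (Nm P) → Nm P,
    ∀ (H : Set (Nm P)) (Q G : Set P), Hull H Q → (∀ n l, (∀ σ ∈ l, σ ∈ H) → ops n l ∈ H) →
      GenF H Q G → IsTransModelZFC (Mod H G) := by
  have : Nonempty OpC := ⟨.om⟩
  obtain ⟨g, hg⟩ := exists_surjective_nat OpC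
  refine ⟨fun n l => opF (g n) l, fun H Q G hH hop hG => ?_⟩
  refine mod_isTransModel hH (fun c l hl => ?_) hG
  obtain ⟨n, rfl⟩ := hg c
  exact hop n l hl

end Pool.Agent.CR
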